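import Pool.Agent.Lib.MP_ef3f0f_gt.Q.Defs

set_option autoImplicit false

/-!
# MP_ef3f0f_gt, Part I (coercivity): definitions
-/

namespace Pool.Agent.MPEF

open MeasureTheory Topology
open scoped ENNReal Pointwise

/-- Indicator kernel of a set. -/
noncomputable def iK {P : Type} (S : Set P) : P → ℝ≥0∞ := S.indicator fun _ => 1

/-- Pants triples in any order (`T3` and `|δ|` are symmetric). -/
def PTu (a b c : Ty) : Prop := PT a b c ∨ PT b a c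

instance (a b c : Ty) : Decidable (PTu a b c) := by unfold PTu; infer_instance

/-- Valid states: `e = false` stands for the type `(2,0)`, with `4 ≤ j ≤ 12`, `e = true` for the type
`(3,8)` with `12 ≤ j` or `j ≤ 4`. -/
def vst (e : Bool) (j : Fin 16) : Prop :=
  (e = false ∧ 4 ≤ j.val ∧ j.val ≤ 12) ∨ (e = true ∧ (12 ≤ j.val ∨ j.val ≤ 4))

instance (e : Bool) (j : Fin 16) : Decidable (vst e j) := by unfold vst; infer_instance

/-- The type of `e`. -/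
def ety (e : Bool) : Ty := if e then (3, 8) else (2, 0)

/-- The third type for `e`: `PTu (0, j) (ety e) (tty e)` for all valid states (decidable). -/
def tty (e : Bool) : Ty := if e then (4, 6) else (4, 14)

/-- Lengths in the range `[r, 4 r - c]`. -/
def RG (r c n : ℕ) : Prop := r ≤ n ∧ n + c ≤ 4 * r

section
variable {P H : Type} [Group P] [Group H] [MeasurableSpace P] [MeasurableSpace H]

/-- Sum over two edges from `x` to `y`. -/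
noncomputable def Dat.st2 (D : Dat P H) (K₁ K₂ : P × H → ℝ≥0∞) (x y : P × H)
    (f : D.Γ → D.Γ → ℝ≥0∞) : ℝ≥0∞ :=
  ∑' u : D.Γ, ∑' v : D.Γ, K₁ (x⁻¹ * (u : P × H) * y) * K₂ (x⁻¹ * (v : P × H) * y) * f u v

/-- Sum over three edges from `x` to `y`. -/
noncomputable def Dat.st3 (D : Dat P H) (K₁ K₂ K₃ : P × H → ℝ≥0∞) (x y : P × H)
    (f : D.Γ → D.Γ → D.Γ → ℝ≥0∞) : ℝ≥0∞ :=
  ∑' u : D.Γ, ∑' v : D.Γ, ∑' w : D.Γ,
    K₁ (x⁻¹ * (u : P × H) * y) * K₂ (x⁻¹ * (v : P × H) * y) * K₃ (x⁻¹ * (w : P × H) * y) *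
      f u v w

/-- Sum over the loops `g` at `z` with `z⁻¹ g z ∈ S`. -/
noncomputable def Dat.lp (D : Dat P H) (S : Set (P × H)) (z : P × H) (f : D.Γ → ℝ≥0∞) : ℝ≥0∞ :=
  ∑' g : D.Γ, S.indicator (fun _ => (1 : ℝ≥0∞)) (z⁻¹ * (g : P × H) * z) * f g

/-- The context of Part I. -/
structure Cx [TopologicalSpace P] [TopologicalSpace H] (D : Dat P H) (G : Geo P) (M : ℕ)
    (ka kb : Ty → P → ℝ≥0∞) : Prop where
  d : D.Ok
  g : G.Ok
  k : KerOk G M ka kb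
  ne : ∀ a l, l ≤ 10 → (G.Om M a l).Nonempty
  nm : ∀ a, (G.Mid M a).Nonempty

/-- `β` bounds the average of `δ` over the torus type triple. -/
structure BB (D : Dat P H) (kb : Ty → P → ℝ≥0∞) (r : ℕ) (φ : D.Γ → ℝ) (β : ℝ≥0∞) : Prop where
  le : D.QQ kb r φ 1 ≤ D.QQ kb r φ (-1) + β
  ge : D.QQ kb r φ (-1) ≤ D.QQ kb r φ 1 + β

/-- One step of the telescoping: chords `c` from `x h'` to `y` and `c'` from `x` to `y h`. -/
noncomputable def Dat.q1 (D : Dat P H) (k : P → ℝ≥0∞) (b : ℕ) (ψ : D.Γ → D.Γ → ℝ) (V : D.Γ)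
    (x y : P × H) : ℝ≥0∞ :=
  ∫⁻ h', ∫⁻ h, D.ν h' * D.ν h * ∑' c : D.Γ, ∑' c' : D.Γ,
    D.tk k b ((x * ((1 : P), h'))⁻¹ * (c : P × H) * y) *
      D.tk k b (x⁻¹ * (c' : P × H) * (y * ((1 : P), h))) * ab (ψ c V - ψ c' V) ∂D.μ₂ ∂D.μ₂

/-- `F₀` approximates the effect of the insertion of `g` near the base point. -/
def F0ok (D : Dat P H) (G : Geo P) (M : ℕ) (ka : Ty → P → ℝ≥0∞) (c₁ c₂ c₃ : ℕ) (C : ℝ≥0∞)
    (c₀ r : ℕ) (φ F₀ : D.Γ → ℝ) : Prop :=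
  ∀ g : D.Γ, (g : P × H) ∈ G.B 5 ×ˢ (D.O ^ c₁) → ∀ e j n m, vst e j → RG r c₀ n → RG r c₀ m →
    ∫⁻ z in G.B 2 ×ˢ (D.O ^ c₂),
      (G.B 7 ×ˢ (D.O ^ c₃)).indicator (fun _ => (1 : ℝ≥0∞)) (z⁻¹ * (g : P × H) * z) *
        D.IM (fun x => D.st2 (D.tk (iK (G.Om M (0, j) 5)) n) (D.tk (iK (G.Om M (ety e) 5)) m) x z
          fun u v => ab (Dv φ v (u * g) u - F₀ g)) ∂D.μ ≤ C * D.EE ka r φ

end

end Pool.Agent.MPEF
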