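import Pool.Agent.Lib.MP_ef3f0f_gt.I.Spec

set_option autoImplicit false

/-! MP_ef3f0f_gt, part I, module E1: theta exchange at the same vertices. -/

namespace Pool.Agent.MPEF

open MeasureTheory Topology
open scoped ENNReal Pointwise

section abstr

variable {Γ : Type}

/-- weighted sum -/
private noncomputable def E1_W (a : Γ → ℝ≥0∞) (f : Γ → ℝ≥0∞) : ℝ≥0∞ := ∑' u, a u * f u

private theorem E1_mono (a f g : Γ → ℝ≥0∞) (h : ∀ u, f u ≤ g u) : E1_W a f ≤ E1_W a g :=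
  ENNReal.tsum_le_tsum fun u => mul_le_mul_right (h u) _

private theorem E1_add (a f g : Γ → ℝ≥0∞) :
    E1_W a (fun u => f u + g u) = E1_W a f + E1_W a g := by
  unfold E1_W
  rw [← ENNReal.tsum_add]
  exact tsum_congr fun u => mul_add _ _ _

private theorem E1_const (a : Γ → ℝ≥0∞) (k : ℝ≥0∞) : E1_W a (fun _ => k) = (∑' u, a u) * k :=
  ENNReal.tsum_mul_right

private theorem E1_cmul (a f : Γ → ℝ≥0∞) (k : ℝ≥0∞) :
    E1_W a (fun u => k * f u) = k * E1_W a f := by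
  unfold E1_W
  rw [← ENNReal.tsum_mul_left]
  exact tsum_congr fun u => by ring

private theorem E1_drop (a f : Γ → ℝ≥0∞) (C k : ℝ≥0∞) (hC : ∑' u, a u ≤ C) (h : ∀ u, f u ≤ k) :
    E1_W a f ≤ C * k :=
  (E1_mono a f (fun _ => k) h).trans (by rw [E1_const]; exact mul_le_mul_left hC _)

private theorem E1_ab_add (s t : ℝ) : ab (s + t) ≤ ab s + ab t := by
  unfold ab
  rw [← ENNReal.ofReal_add (abs_nonneg _) (abs_nonneg _)]
  exact ENNReal.ofReal_le_ofReal (abs_add_le _ _)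

private theorem E1_ab_neg (t : ℝ) : ab (-t) = ab t := by
  unfold ab
  rw [abs_neg]

private theorem E1_ab_sub (s t : ℝ) : ab (s - t) ≤ ab s + ab t := by
  have := E1_ab_add s (-t)
  rwa [E1_ab_neg, ← sub_eq_add_neg] at this

variable [Group Γ]

private theorem E1_ph (φ : Γ → ℝ) (hφ : OddC φ) (u v : Γ) : ph φ v u = - ph φ u v := by
  unfold ph
  rw [← hφ.inv]
  congr 1
  group

private theorem E1_swap (φ : Γ → ℝ) (hφ : OddC φ) (u v w : Γ) : dl φ v u w = - dl φ u v w := by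
  unfold dl
  rw [E1_ph φ hφ u v, E1_ph φ hφ w u, E1_ph φ hφ v w]
  ring

private theorem E1_ab_swap (φ : Γ → ℝ) (hφ : OddC φ) (u v w : Γ) :
    ab (dl φ v u w) = ab (dl φ u v w) := by
  rw [E1_swap φ hφ, E1_ab_neg]

/-- the sum of `|δ|` -/
private noncomputable def E1_S (φ : Γ → ℝ) (a b t : Γ → ℝ≥0∞) : ℝ≥0∞ :=
  E1_W a fun u => E1_W b fun v => E1_W t fun w => ab (dl φ u v w)

private theorem E1_pt (φ : Γ → ℝ) (hφ : OddC φ) (z z' y₁ y₂ τ : Γ) :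
    ab (dl φ z y₁ y₂ - dl φ z' y₁ y₂) ≤
      ab (dl φ z y₁ τ) + ab (dl φ y₁ z' τ) + ab (dl φ z y₂ τ) + ab (dl φ y₂ z' τ) := by
  have h1 : dl φ z y₁ y₂ - dl φ z' y₁ y₂ =
      ((dl φ z y₁ τ + dl φ y₁ z' τ) - dl φ z y₂ τ) - dl φ y₂ z' τ := by
    rw [E1_swap φ hφ z' y₁ τ, E1_swap φ hφ z' y₂ τ]
    unfold dl
    rw [E1_ph φ hφ z y₂, E1_ph φ hφ z' y₂]
    ring
  rw [h1]
  refine (E1_ab_sub _ _).trans (add_le_add ((E1_ab_sub _ _).trans (add_le_add (E1_ab_add _ _)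
    le_rfl)) le_rfl)

private theorem E1_L4 (φ : Γ → ℝ) (hφ : OddC φ) (p q s p' t : Γ → ℝ≥0∞) (c C : ℝ≥0∞) (hc0 : c ≠ 0)
    (hct : c ≠ ∞) (hp : ∑' u, p u ≤ C) (hq : ∑' u, q u ≤ C) (hs : ∑' u, s u ≤ C)
    (hp' : ∑' u, p' u ≤ C) (ht : c ≤ ∑' u, t u) :
    E1_W p (fun z => E1_W q fun y₁ => E1_W s fun y₂ => E1_W p' fun z' =>
      ab (dl φ z y₁ y₂ - dl φ z' y₁ y₂)) ≤
    c⁻¹ * (C * (C * (E1_S φ p q t + E1_S φ q p' t + E1_S φ p s t + E1_S φ s p' t))) := by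
  let T : Γ → Γ → ℝ≥0∞ := fun u v => E1_W t fun w => ab (dl φ u v w)
  have hpt : ∀ z y₁ y₂ z', ab (dl φ z y₁ y₂ - dl φ z' y₁ y₂) ≤
      c⁻¹ * (T z y₁ + T y₁ z' + T z y₂ + T y₂ z') := by
    intro z y₁ y₂ z'
    rw [← ENNReal.mul_le_iff_le_inv hc0 hct]
    calc c * ab (dl φ z y₁ y₂ - dl φ z' y₁ y₂)
        ≤ (∑' u, t u) * ab (dl φ z y₁ y₂ - dl φ z' y₁ y₂) := mul_le_mul_left ht _
      _ = E1_W t (fun _ => ab (dl φ z y₁ y₂ - dl φ z' y₁ y₂)) := (E1_const _ _).symm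
      _ ≤ E1_W t (fun τ => ab (dl φ z y₁ τ) + ab (dl φ y₁ z' τ) + ab (dl φ z y₂ τ) +
          ab (dl φ y₂ z' τ)) := E1_mono _ _ _ fun τ => E1_pt φ hφ z z' y₁ y₂ τ
      _ = T z y₁ + T y₁ z' + T z y₂ + T y₂ z' := by
          rw [E1_add, E1_add, E1_add]
  have h1 : E1_W p (fun z => E1_W q fun y₁ => E1_W s fun y₂ => E1_W p' fun z' =>
      ab (dl φ z y₁ y₂ - dl φ z' y₁ y₂)) ≤
      E1_W p (fun z => E1_W q fun y₁ => E1_W s fun y₂ => E1_W p' fun z' =>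
      c⁻¹ * (T z y₁ + T y₁ z' + T z y₂ + T y₂ z')) :=
    E1_mono _ _ _ fun z => E1_mono _ _ _ fun y₁ => E1_mono _ _ _ fun y₂ =>
      E1_mono _ _ _ fun z' => hpt z y₁ y₂ z'
  refine h1.trans ?_
  simp only [E1_cmul, E1_add, E1_const]
  refine mul_le_mul_right ?_ _
  rw [mul_add C, mul_add C, mul_add C, mul_add C, mul_add C, mul_add C]
  refine add_le_add (add_le_add (add_le_add ?_ ?_) ?_) ?_
  · exact mul_le_mul' hp' (mul_le_mul' hs le_rfl)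
  · exact mul_le_mul' hs (mul_le_mul' hp le_rfl)
  · exact mul_le_mul' hp' (mul_le_mul' hq le_rfl)
  · exact mul_le_mul' hq (mul_le_mul' hp le_rfl)

private theorem E1_six (φ : Γ → ℝ) (hφ : OddC φ) (a₁ a₂ a₃ b₁ b₂ b₃ t₁ t₂ t₃ : Γ → ℝ≥0∞)
    (c C : ℝ≥0∞) (hc0 : c ≠ 0) (hct : c ≠ ∞) (ha₁ : ∑' u, a₁ u ≤ C) (ha₂ : ∑' u, a₂ u ≤ C)
    (ha₃ : ∑' u, a₃ u ≤ C) (hb₁ : ∑' u, b₁ u ≤ C) (hb₂ : ∑' u, b₂ u ≤ C) (hb₃ : ∑' u, b₃ u ≤ C)
    (ht₁ : c ≤ ∑' u, t₁ u) (ht₂ : c ≤ ∑' u, t₂ u) (ht₃ : c ≤ ∑' u, t₃ u) :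
    E1_W a₁ (fun u => E1_W a₂ fun v => E1_W a₃ fun w => E1_W b₁ fun u' => E1_W b₂ fun v' =>
      E1_W b₃ fun w' => ab (dl φ u v w - dl φ u' v' w')) ≤
    (C * (C * (c⁻¹ * (C * C)))) *
      ((E1_S φ a₁ a₂ t₁ + E1_S φ a₂ b₁ t₁ + E1_S φ a₁ a₃ t₁ + E1_S φ a₃ b₁ t₁) +
      (E1_S φ a₂ a₃ t₂ + E1_S φ a₃ b₂ t₂ + E1_S φ a₂ b₁ t₂ + E1_S φ b₁ b₂ t₂) +
      (E1_S φ a₃ b₁ t₃ + E1_S φ b₁ b₃ t₃ + E1_S φ a₃ b₂ t₃ + E1_S φ b₂ b₃ t₃)) := by
  have hpt : ∀ u v w u' v' w', ab (dl φ u v w - dl φ u' v' w') ≤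
      ab (dl φ u v w - dl φ u' v w) + ab (dl φ v w u' - dl φ v' w u') +
        ab (dl φ w u' v' - dl φ w' u' v') := by
    intro u v w u' v' w'
    have h1 : dl φ u v w - dl φ u' v' w' = ((dl φ u v w - dl φ u' v w) +
        (dl φ v w u' - dl φ v' w u')) + (dl φ w u' v' - dl φ w' u' v') := by
      unfold dl
      ring
    rw [h1]
    exact (E1_ab_add _ _).trans (add_le_add (E1_ab_add _ _) le_rfl)
  have h1 : E1_W a₁ (fun u => E1_W a₂ fun v => E1_W a₃ fun w => E1_W b₁ fun u' => E1_W b₂ fun v' =>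
      E1_W b₃ fun w' => ab (dl φ u v w - dl φ u' v' w')) ≤
      E1_W a₁ (fun u => E1_W a₂ fun v => E1_W a₃ fun w => E1_W b₁ fun u' => E1_W b₂ fun v' =>
      E1_W b₃ fun w' => ab (dl φ u v w - dl φ u' v w) + ab (dl φ v w u' - dl φ v' w u') +
        ab (dl φ w u' v' - dl φ w' u' v')) :=
    E1_mono _ _ _ fun u => E1_mono _ _ _ fun v => E1_mono _ _ _ fun w => E1_mono _ _ _ fun u' =>
      E1_mono _ _ _ fun v' => E1_mono _ _ _ fun w' => hpt u v w u' v' w'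
  refine h1.trans ?_
  simp only [E1_add]
  rw [mul_add, mul_add]
  have hQ : ∀ Q : ℝ≥0∞, C * (C * (c⁻¹ * (C * (C * Q)))) = (C * (C * (c⁻¹ * (C * C)))) * Q := by
    intro Q; ring
  refine add_le_add (add_le_add ?_ ?_) ?_
  · rw [← hQ]
    calc E1_W a₁ (fun u => E1_W a₂ fun v => E1_W a₃ fun w => E1_W b₁ fun u' => E1_W b₂ fun _ =>
        E1_W b₃ fun _ => ab (dl φ u v w - dl φ u' v w))
        = (∑' u, b₂ u) * ((∑' u, b₃ u) * E1_W a₁ (fun u => E1_W a₂ fun v => E1_W a₃ fun w =>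
          E1_W b₁ fun u' => ab (dl φ u v w - dl φ u' v w))) := by
          simp only [E1_const, E1_cmul]
      _ ≤ C * (C * _) := mul_le_mul' hb₂ (mul_le_mul' hb₃
          (E1_L4 φ hφ a₁ a₂ a₃ b₁ t₁ c C hc0 hct ha₁ ha₂ ha₃ hb₁ ht₁))
  · rw [← hQ]
    calc E1_W a₁ (fun _ => E1_W a₂ fun v => E1_W a₃ fun w => E1_W b₁ fun u' => E1_W b₂ fun v' =>
        E1_W b₃ fun _ => ab (dl φ v w u' - dl φ v' w u'))
        = (∑' u, a₁ u) * ((∑' u, b₃ u) * E1_W a₂ (fun v => E1_W a₃ fun w => E1_W b₁ fun u' =>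
          E1_W b₂ fun v' => ab (dl φ v w u' - dl φ v' w u'))) := by
          simp only [E1_const, E1_cmul]
      _ ≤ C * (C * _) := mul_le_mul' ha₁ (mul_le_mul' hb₃
          (E1_L4 φ hφ a₂ a₃ b₁ b₂ t₂ c C hc0 hct ha₂ ha₃ hb₁ hb₂ ht₂))
  · rw [← hQ]
    calc E1_W a₁ (fun _ => E1_W a₂ fun _ => E1_W a₃ fun w => E1_W b₁ fun u' => E1_W b₂ fun v' =>
        E1_W b₃ fun w' => ab (dl φ w u' v' - dl φ w' u' v'))
        = (∑' u, a₁ u) * ((∑' u, a₂ u) * E1_W a₃ (fun w => E1_W b₁ fun u' => E1_W b₂ fun v' =>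
          E1_W b₃ fun w' => ab (dl φ w u' v' - dl φ w' u' v'))) := by
          simp only [E1_const]
      _ ≤ C * (C * _) := mul_le_mul' ha₁ (mul_le_mul' ha₂
          (E1_L4 φ hφ a₃ b₁ b₂ b₃ t₃ c C hc0 hct ha₃ hb₁ hb₂ hb₃ ht₃))

end abstr

section two

variable {P H : Type} [Group P] [Group H] [MeasurableSpace P] [MeasurableSpace H]

private theorem E1_st3 (D : Dat P H) (K₁ K₂ K₃ : P × H → ℝ≥0∞) (x y : P × H)
    (f : D.Γ → D.Γ → D.Γ → ℝ≥0∞) :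
    D.st3 K₁ K₂ K₃ x y f = E1_W (fun u : D.Γ => K₁ (x⁻¹ * (u : P × H) * y)) fun u =>
      E1_W (fun v : D.Γ => K₂ (x⁻¹ * (v : P × H) * y)) fun v =>
        E1_W (fun w : D.Γ => K₃ (x⁻¹ * (w : P × H) * y)) fun w => f u v w := by
  unfold Dat.st3 E1_W
  simp only [← ENNReal.tsum_mul_left]
  exact tsum_congr fun u => tsum_congr fun v => tsum_congr fun w => by ring

/-- double integral -/
private noncomputable def E1_I (D : Dat P H) (f : (P × H) × (P × H) → ℝ≥0∞) : ℝ≥0∞ :=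
  D.IM fun x => D.IM fun y => f (x, y)

private theorem E1_IM_mono (D : Dat P H) (f g : P × H → ℝ≥0∞) (h : ∀ x, f x ≤ g x) :
    D.IM f ≤ D.IM g := lintegral_mono fun x => mul_le_mul_right (h x) _

private theorem E1_I_mono (D : Dat P H) (f g : (P × H) × (P × H) → ℝ≥0∞) (h : ∀ q, f q ≤ g q) :
    E1_I D f ≤ E1_I D g := E1_IM_mono D _ _ fun _ => E1_IM_mono D _ _ fun _ => h _

private theorem E1_I_add (D : Dat P H) [SFinite D.μ] (hχ : Measurable D.χ)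
    (f g : (P × H) × (P × H) → ℝ≥0∞) (hf : Measurable f) :
    E1_I D (fun q => f q + g q) = E1_I D f + E1_I D g := by
  unfold E1_I Dat.IM
  have h1 : ∀ x, ∫⁻ y, D.χ y * (f (x, y) + g (x, y)) ∂D.μ =
      ∫⁻ y, D.χ y * f (x, y) ∂D.μ + ∫⁻ y, D.χ y * g (x, y) ∂D.μ := by
    intro x
    have hm : Measurable fun y => D.χ y * f (x, y) :=
      hχ.mul (hf.comp (measurable_const.prodMk measurable_id))
    rw [← lintegral_add_left hm]
    exact lintegral_congr fun y => mul_add _ _ _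
  have h2 : ∀ x, D.χ x * ∫⁻ y, D.χ y * (f (x, y) + g (x, y)) ∂D.μ =
      D.χ x * ∫⁻ y, D.χ y * f (x, y) ∂D.μ + D.χ x * ∫⁻ y, D.χ y * g (x, y) ∂D.μ := by
    intro x
    rw [h1, mul_add]
  rw [lintegral_congr h2]
  apply lintegral_add_left
  apply hχ.mul
  exact Measurable.lintegral_prod_right' (f := fun q : (P × H) × (P × H) => D.χ q.2 * f q)
    ((hχ.comp measurable_snd).mul hf)

private theorem E1_I_cmul (D : Dat P H) (k : ℝ≥0∞) (hk : k ≠ ∞) (f : (P × H) × (P × H) → ℝ≥0∞) :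
    E1_I D (fun q => k * f q) = k * E1_I D f := by
  unfold E1_I Dat.IM
  have h1 : ∀ x, ∫⁻ y, D.χ y * (k * f (x, y)) ∂D.μ = k * ∫⁻ y, D.χ y * f (x, y) ∂D.μ := by
    intro x
    rw [← lintegral_const_mul' _ _ hk]
    exact lintegral_congr fun y => by ring
  simp only [h1]
  rw [← lintegral_const_mul' _ _ hk]
  exact lintegral_congr fun y => by ring

private theorem E1_quad (D : Dat P H) [SFinite D.μ] (hχ : Measurable D.χ)
    (f₁ f₂ f₃ f₄ : (P × H) × (P × H) → ℝ≥0∞) (h₁ : Measurable f₁) (h₂ : Measurable f₂)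
    (h₃ : Measurable f₃) (B : ℝ≥0∞) (b₁ : E1_I D f₁ ≤ B) (b₂ : E1_I D f₂ ≤ B)
    (b₃ : E1_I D f₃ ≤ B) (b₄ : E1_I D f₄ ≤ B) :
    E1_I D (fun q => f₁ q + f₂ q + f₃ q + f₄ q) ≤ 4 * B := by
  rw [E1_I_add D hχ (fun q => f₁ q + f₂ q + f₃ q) f₄ ((h₁.add h₂).add h₃),
    E1_I_add D hχ (fun q => f₁ q + f₂ q) f₃ (h₁.add h₂), E1_I_add D hχ f₁ f₂ h₁]
  calc E1_I D f₁ + E1_I D f₂ + E1_I D f₃ + E1_I D f₄ ≤ B + B + B + B :=
        add_le_add (add_le_add (add_le_add b₁ b₂) b₃) b₄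
    _ = 4 * B := by ring

private theorem E1_three (D : Dat P H) [SFinite D.μ] (hχ : Measurable D.χ)
    (f₁ f₂ f₃ : (P × H) × (P × H) → ℝ≥0∞) (h₁ : Measurable f₁) (h₂ : Measurable f₂)
    (B : ℝ≥0∞) (b₁ : E1_I D f₁ ≤ B) (b₂ : E1_I D f₂ ≤ B) (b₃ : E1_I D f₃ ≤ B) :
    E1_I D (fun q => f₁ q + f₂ q + f₃ q) ≤ B + B + B := by
  rw [E1_I_add D hχ (fun q => f₁ q + f₂ q) f₃ (h₁.add h₂), E1_I_add D hχ f₁ f₂ h₁]
  exact add_le_add (add_le_add b₁ b₂) b₃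

end two

variable (P H : Type) [Group P] [Group H] [TopologicalSpace P] [TopologicalSpace H]
  [IsTopologicalGroup P] [IsTopologicalGroup H] [LocallyCompactSpace P] [LocallyCompactSpace H]
  [T2Space P] [T2Space H] [SecondCountableTopology P] [SecondCountableTopology H]
  [MeasurableSpace P] [MeasurableSpace H] [BorelSpace P] [BorelSpace H]

private theorem E1_num (D : Dat P H) (hD : D.Ok) [SFinite D.μ₂] (n : ℕ) : Measurable (D.nu n) := by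
  unfold Dat.nu
  generalize n - 1 = k
  induction k with
  | zero => exact hD.νc.measurable
  | succ k ih =>
    have h1 : Measurable fun p : H × H => D.ν p.2 * D.nuA k (p.2⁻¹ * p.1) :=
      (hD.νc.measurable.comp measurable_snd).mul
        (ih.comp ((measurable_inv.comp measurable_snd).mul measurable_fst))
    exact Measurable.lintegral_prod_right' (f := fun p : H × H => D.ν p.2 * D.nuA k (p.2⁻¹ * p.1)) h1

theorem tE1 : S_dec → S_inst P H → S_st P H → S_bd P H → S_base P H → S_E1 P H := by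
  intro hdec hinst hst hbd hbase D G M ka kb hcx
  obtain ⟨-, -, -, -, -, -, -, -, -, d1, d2, d3, d4, d5, d6, -⟩ := hdec
  have hD := hcx.d
  obtain ⟨s1, s2, s3, -, -, -, -, -, -⟩ := hinst D hD
  obtain ⟨b, c, C, hb, hc, hC, hN⟩ := (hbd D G hD hcx.g).1 M hcx.ne hcx.nm
  obtain ⟨-, C', hC', hT⟩ := hbase D G M ka kb hcx
  have hct : c ≠ ∞ := by
    have h1 := (hN 1 1).1 (0, 0) 0 b (by norm_num) le_rfl
    have h2 := (hN 1 1).2.2 (0, 0) 0 b (by norm_num)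
    exact ((h1.trans h2).trans_lt (lt_top_iff_ne_top.2 hC)).ne
  have hA : C * (C * (c⁻¹ * (C * C))) ≠ ∞ :=
    ENNReal.mul_ne_top hC (ENNReal.mul_ne_top hC (ENNReal.mul_ne_top (ENNReal.inv_ne_top.2 hc.ne')
      (ENNReal.mul_ne_top hC hC)))
  refine ⟨(C * (C * (c⁻¹ * (C * C)))) * (12 * C'), 3 * b,
    ENNReal.mul_ne_top hA (ENNReal.mul_ne_top (by norm_num) hC'), ?_⟩
  intro r φ hr hφ n m l n' m' l' hn hm hl hn' hm' hl'
  have hrg : ∀ k, RG r (3 * b) k → RG r 0 k := fun k hk => ⟨hk.1, by have := hk.2; omega⟩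
  have hbr : b ≤ 2 * r := by
    have h1 := hn.1
    have h2 := hn.2
    omega
  have h2r : RG r 0 (2 * r) := ⟨by omega, by omega⟩
  have hKm : ∀ a k, Measurable (D.tk (iK (G.Om M a 2)) k) := by
    intro a k
    unfold Dat.tk iK
    exact ((measurable_const.indicator (hcx.g.oo M a 2).measurableSet).comp measurable_fst).mul
      ((E1_num P H D hD k).comp measurable_snd)
  let g : Ty → ℕ → Ty → ℕ → Ty → ℕ → (P × H) × (P × H) → ℝ≥0∞ := fun a i a' i' t j q =>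
    D.st3 (D.tk (iK (G.Om M a 2)) i) (D.tk (iK (G.Om M a' 2)) i') (D.tk (iK (G.Om M t 2)) j) q.1 q.2
      fun u v w => ab (dl φ u v w)
  have hg : ∀ a i a' i' t j, Measurable (g a i a' i' t j) := fun a i a' i' t j =>
    (hst D hD).2.1 _ _ _ (hKm a i) (hKm a' i') (hKm t j) _
  have hgB : ∀ a i a' i' t j, PTu a a' t → RG r 0 i → RG r 0 i' → RG r 0 j →
      E1_I D (g a i a' i' t j) ≤ C' * D.EE ka r φ := fun a i a' i' t j h h1 h2 h3 =>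
    hT r φ hφ a a' t h i i' j h1 h2 h3
  have hsw : ∀ a a' t, PTu a a' t → PTu a' a t := fun a a' t h => Or.symm h
  have hle : ∀ (a : Ty) (i : ℕ) (q : (P × H) × (P × H)),
      ∑' u : D.Γ, D.tk (iK (G.Om M a 2)) i (q.1⁻¹ * (u : P × H) * q.2) ≤ C := fun a i q =>
    (hN q.1 q.2).2.2 a 2 i (by norm_num)
  have hge : ∀ (a : Ty) (q : (P × H) × (P × H)),
      c ≤ ∑' u : D.Γ, D.tk (iK (G.Om M a 2)) (2 * r) (q.1⁻¹ * (u : P × H) * q.2) := fun a q =>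
    (hN q.1 q.2).1 a 2 (2 * r) (by norm_num) hbr
  have hpt : ∀ q : (P × H) × (P × H),
      D.st3 (D.tk (iK (G.Om M (0, 12) 2)) n) (D.tk (iK (G.Om M (2, 0) 2)) m)
        (D.tk (iK (G.Om M (3, 8) 2)) l) q.1 q.2 (fun u v w =>
          D.st3 (D.tk (iK (G.Om M (0, 12) 2)) n') (D.tk (iK (G.Om M (2, 0) 2)) m')
            (D.tk (iK (G.Om M (3, 8) 2)) l') q.1 q.2 fun u' v' w' =>
              ab (dl φ u v w - dl φ u' v' w')) ≤
      (C * (C * (c⁻¹ * (C * C)))) *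
        ((g (0, 12) n (2, 0) m (4, 14) (2 * r) q + g (2, 0) m (0, 12) n' (4, 14) (2 * r) q +
          g (0, 12) n (3, 8) l (4, 14) (2 * r) q + g (3, 8) l (0, 12) n' (4, 14) (2 * r) q) +
        (g (2, 0) m (3, 8) l (1, 4) (2 * r) q + g (3, 8) l (2, 0) m' (1, 4) (2 * r) q +
          g (2, 0) m (0, 12) n' (1, 4) (2 * r) q + g (0, 12) n' (2, 0) m' (1, 4) (2 * r) q) +
        (g (3, 8) l (0, 12) n' (4, 4) (2 * r) q + g (0, 12) n' (3, 8) l' (4, 4) (2 * r) q +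
          g (3, 8) l (2, 0) m' (4, 4) (2 * r) q + g (2, 0) m' (3, 8) l' (4, 4) (2 * r) q)) := by
    intro q
    simp only [g, E1_st3]
    exact E1_six φ hφ _ _ _ _ _ _ _ _ _ c C hc.ne' hct (hle _ _ q) (hle _ _ q) (hle _ _ q)
      (hle _ _ q) (hle _ _ q) (hle _ _ q) (hge _ q) (hge _ q) (hge _ q)
  have hχ := hD.χm
  have hQ1 := E1_quad D hχ _ _ _ _ (hg (0, 12) n (2, 0) m (4, 14) (2 * r))
    (hg (2, 0) m (0, 12) n' (4, 14) (2 * r)) (hg (0, 12) n (3, 8) l (4, 14) (2 * r))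
    (C' * D.EE ka r φ) (hgB _ _ _ _ _ _ d1 (hrg _ hn) (hrg _ hm) h2r)
    (hgB _ _ _ _ _ _ (hsw _ _ _ d1) (hrg _ hm) (hrg _ hn') h2r)
    (hgB _ _ _ _ _ _ d2 (hrg _ hn) (hrg _ hl) h2r)
    (hgB _ _ _ _ _ _ (hsw _ _ _ d2) (hrg _ hl) (hrg _ hn') h2r)
  have hQ2 := E1_quad D hχ _ _ _ _ (hg (2, 0) m (3, 8) l (1, 4) (2 * r))
    (hg (3, 8) l (2, 0) m' (1, 4) (2 * r)) (hg (2, 0) m (0, 12) n' (1, 4) (2 * r))
    (C' * D.EE ka r φ) (hgB _ _ _ _ _ _ d4 (hrg _ hm) (hrg _ hl) h2r)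
    (hgB _ _ _ _ _ _ (hsw _ _ _ d4) (hrg _ hl) (hrg _ hm') h2r)
    (hgB _ _ _ _ _ _ d3 (hrg _ hm) (hrg _ hn') h2r)
    (hgB _ _ _ _ _ _ (hsw _ _ _ d3) (hrg _ hn') (hrg _ hm') h2r)
  have hQ3 := E1_quad D hχ _ _ _ _ (hg (3, 8) l (0, 12) n' (4, 4) (2 * r))
    (hg (0, 12) n' (3, 8) l' (4, 4) (2 * r)) (hg (3, 8) l (2, 0) m' (4, 4) (2 * r))
    (C' * D.EE ka r φ) (hgB _ _ _ _ _ _ d5 (hrg _ hl) (hrg _ hn') h2r)
    (hgB _ _ _ _ _ _ (hsw _ _ _ d5) (hrg _ hn') (hrg _ hl') h2r)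
    (hgB _ _ _ _ _ _ d6 (hrg _ hl) (hrg _ hm') h2r)
    (hgB _ _ _ _ _ _ (hsw _ _ _ d6) (hrg _ hm') (hrg _ hl') h2r)
  refine (E1_I_mono D _ _ hpt).trans ?_
  rw [E1_I_cmul D _ hA]
  rw [mul_assoc (C * (C * (c⁻¹ * (C * C))))]
  refine mul_le_mul_right ?_ _
  have m1 := ((((hg (0, 12) n (2, 0) m (4, 14) (2 * r)).add
    (hg (2, 0) m (0, 12) n' (4, 14) (2 * r))).add (hg (0, 12) n (3, 8) l (4, 14) (2 * r))).add
    (hg (3, 8) l (0, 12) n' (4, 14) (2 * r)))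
  have m2 := ((((hg (2, 0) m (3, 8) l (1, 4) (2 * r)).add
    (hg (3, 8) l (2, 0) m' (1, 4) (2 * r))).add (hg (2, 0) m (0, 12) n' (1, 4) (2 * r))).add
    (hg (0, 12) n' (2, 0) m' (1, 4) (2 * r)))
  refine (E1_three D hχ _ _ _ ?_ ?_ _ hQ1 hQ2 hQ3).trans (le_of_eq ?_)
  · exact m1
  · exact m2
  · ring

end Pool.Agent.MPEF
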