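import Pool.Agent.Lib.MP_ef3f0f_gt.I.Spec

set_option autoImplicit false

/-! MP_ef3f0f_gt, part I, module End: end of the proof of Theorem 1. -/

namespace Pool.Agent.MPEF

open MeasureTheory Topology
open scoped ENNReal Pointwise

section abstr

variable {Γ : Type}

/-- weighted sum -/
private noncomputable def End_W (a : Γ → ℝ≥0∞) (f : Γ → ℝ≥0∞) : ℝ≥0∞ := ∑' u, a u * f u

private theorem End_mono (a f g : Γ → ℝ≥0∞) (h : ∀ u, f u ≤ g u) : End_W a f ≤ End_W a g :=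
  ENNReal.tsum_le_tsum fun u => mul_le_mul_right (h u) _

private theorem End_add (a f g : Γ → ℝ≥0∞) :
    End_W a (fun u => f u + g u) = End_W a f + End_W a g := by
  unfold End_W
  rw [← ENNReal.tsum_add]
  exact tsum_congr fun u => mul_add _ _ _

private theorem End_const (a : Γ → ℝ≥0∞) (k : ℝ≥0∞) : End_W a (fun _ => k) = (∑' u, a u) * k :=
  ENNReal.tsum_mul_right

private theorem End_cmul (a f : Γ → ℝ≥0∞) (k : ℝ≥0∞) :
    End_W a (fun u => k * f u) = k * End_W a f := by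
  unfold End_W
  rw [← ENNReal.tsum_mul_left]
  exact tsum_congr fun u => by ring

private theorem End_comm (a b : Γ → ℝ≥0∞) (f : Γ → Γ → ℝ≥0∞) :
    End_W a (fun u => End_W b fun v => f u v) = End_W b (fun v => End_W a fun u => f u v) := by
  unfold End_W
  simp only [← ENNReal.tsum_mul_left]
  rw [ENNReal.tsum_comm]
  exact tsum_congr fun v => tsum_congr fun u => by ring

private theorem End_ab_add (s t : ℝ) : ab (s + t) ≤ ab s + ab t := by
  unfold ab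
  rw [← ENNReal.ofReal_add (abs_nonneg _) (abs_nonneg _)]
  exact ENNReal.ofReal_le_ofReal (abs_add_le _ _)

private theorem End_ab_neg (t : ℝ) : ab (-t) = ab t := by
  unfold ab
  rw [abs_neg]

private theorem End_ab_sub (s t : ℝ) : ab (s - t) ≤ ab s + ab t := by
  have := End_ab_add s (-t)
  rwa [End_ab_neg, ← sub_eq_add_neg] at this

variable [Group Γ]

private theorem End_hinv (h : Γ → ℝ) (hh : ∀ x y, h (x * y) = h x + h y) (x : Γ) :
    h x⁻¹ = - h x := by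
  have h1 : h 1 = 0 := by
    have := hh 1 1
    rw [mul_one] at this
    linarith
  have h2 := hh x x⁻¹
  rw [mul_inv_cancel, h1] at h2
  linarith

private theorem End_pt (φ h : Γ → ℝ) (hh : ∀ x y, h (x * y) = h x + h y)
    (u v u' v' w : Γ) :
    ab (ph (fun x => φ x - h x) u v) ≤
      ab (ph (fun x => φ x - h x) u v') + ab (ph (fun x => φ x - h x) u' v) +
      ab (ph (fun x => φ x - h x) u' v') +
      (ab (dl φ u v w) + ab (dl φ u' v w) + ab (dl φ u v' w) + ab (dl φ u' v' w)) := by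
  have e0 : ∀ s t : Γ, ph (fun x => φ x - h x) s t = ph φ s t - h s + h t := by
    intro s t
    unfold ph
    simp only
    rw [hh, End_hinv h hh]
    ring
  have h1 : ph (fun x => φ x - h x) u v =
      (((ph (fun x => φ x - h x) u v' + ph (fun x => φ x - h x) u' v) -
        ph (fun x => φ x - h x) u' v')) +
      (((dl φ u v w - dl φ u' v w) - dl φ u v' w) + dl φ u' v' w) := by
    rw [e0, e0, e0, e0]
    unfold dl
    ring
  rw [h1]
  refine (End_ab_add _ _).trans (add_le_add ?_ ?_)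
  · exact (End_ab_sub _ _).trans (add_le_add (End_ab_add _ _) le_rfl)
  · exact (End_ab_add _ _).trans (add_le_add ((End_ab_sub _ _).trans
      (add_le_add (End_ab_sub _ _) le_rfl)) le_rfl)

/-- the sum of `|ψ|` -/
private noncomputable def End_V (φ₁ : Γ → ℝ) (a b : Γ → ℝ≥0∞) : ℝ≥0∞ :=
  End_W a fun u => End_W b fun v => ab (ph φ₁ u v)

/-- the sum of `|δ|` -/
private noncomputable def End_S (φ : Γ → ℝ) (a b t : Γ → ℝ≥0∞) : ℝ≥0∞ :=
  End_W a fun u => End_W b fun v => End_W t fun w => ab (dl φ u v w)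

private theorem End_abs (φ h : Γ → ℝ) (hh : ∀ x y, h (x * y) = h x + h y)
    (p q p' q' t : Γ → ℝ≥0∞) (c C : ℝ≥0∞) (hc0 : c ≠ 0) (hct : c ≠ ∞)
    (hp : ∑' u, p u ≤ C) (hq : ∑' u, q u ≤ C) (hp' : ∑' u, p' u ≤ C) (hq' : ∑' u, q' u ≤ C)
    (ht : ∑' u, t u ≤ C) (lp : c ≤ ∑' u, p' u) (lq : c ≤ ∑' u, q' u) (lt : c ≤ ∑' u, t u) :
    End_V (fun x => φ x - h x) p q ≤
      (c * (c * c))⁻¹ * ((C * (C * C)) * (End_V (fun x => φ x - h x) p q' +
        End_V (fun x => φ x - h x) p' q + End_V (fun x => φ x - h x) p' q') +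
        (C * C) * (End_S φ p q t + End_S φ p' q t + End_S φ p q' t + End_S φ p' q' t)) := by
  have hcc0 : c * (c * c) ≠ 0 := mul_ne_zero hc0 (mul_ne_zero hc0 hc0)
  have hcct : c * (c * c) ≠ ∞ := ENNReal.mul_ne_top hct (ENNReal.mul_ne_top hct hct)
  have hpt : ∀ u v, ab (ph (fun x => φ x - h x) u v) ≤ (c * (c * c))⁻¹ *
      End_W p' fun u' => End_W q' fun v' => End_W t fun w =>
      ab (ph (fun x => φ x - h x) u v') + ab (ph (fun x => φ x - h x) u' v) +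
      ab (ph (fun x => φ x - h x) u' v') +
      (ab (dl φ u v w) + ab (dl φ u' v w) + ab (dl φ u v' w) + ab (dl φ u' v' w)) := by
    intro u v
    rw [← ENNReal.mul_le_iff_le_inv hcc0 hcct]
    calc c * (c * c) * ab (ph (fun x => φ x - h x) u v)
        ≤ (∑' u, p' u) * ((∑' u, q' u) * ((∑' u, t u) * ab (ph (fun x => φ x - h x) u v))) := by
          rw [mul_assoc, mul_assoc]
          exact mul_le_mul' lp (mul_le_mul' lq (mul_le_mul' lt le_rfl))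
      _ = End_W p' (fun _ => End_W q' fun _ => End_W t fun _ =>
          ab (ph (fun x => φ x - h x) u v)) := by
          rw [End_const, End_const, End_const]
      _ ≤ _ := End_mono _ _ _ fun u' => End_mono _ _ _ fun v' => End_mono _ _ _ fun w =>
          End_pt φ h hh u v u' v' w
  refine (End_mono _ _ _ fun u => End_mono _ _ _ fun v => hpt u v).trans ?_
  simp only [End_cmul, End_add, End_const]
  refine mul_le_mul_right ?_ _
  refine add_le_add ?_ ?_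
  · rw [mul_add, mul_add]
    refine add_le_add (add_le_add ?_ ?_) ?_
    · calc _ = (∑' u, q u) * ((∑' u, p' u) * ((∑' u, t u) *
          End_V (fun x => φ x - h x) p q')) := by
            unfold End_V
            ring
        _ ≤ C * (C * (C * End_V (fun x => φ x - h x) p q')) :=
            mul_le_mul' hq (mul_le_mul' hp' (mul_le_mul' ht le_rfl))
        _ = _ := by ring
    · calc _ = (∑' u, p u) * ((∑' u, q' u) * ((∑' u, t u) *
          End_V (fun x => φ x - h x) p' q)) := by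
            unfold End_V
            rw [End_comm p' q]
            ring
        _ ≤ C * (C * (C * End_V (fun x => φ x - h x) p' q)) :=
            mul_le_mul' hp (mul_le_mul' hq' (mul_le_mul' ht le_rfl))
        _ = _ := by ring
    · calc _ = (∑' u, p u) * ((∑' u, q u) * ((∑' u, t u) *
          End_V (fun x => φ x - h x) p' q')) := by
            unfold End_V
            ring
        _ ≤ C * (C * (C * End_V (fun x => φ x - h x) p' q')) :=
            mul_le_mul' hp (mul_le_mul' hq (mul_le_mul' ht le_rfl))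
        _ = _ := by ring
  · rw [mul_add, mul_add, mul_add]
    refine add_le_add (add_le_add (add_le_add ?_ ?_) ?_) ?_
    · calc _ = (∑' u, p' u) * ((∑' u, q' u) * End_S φ p q t) := by
            unfold End_S
            ring
        _ ≤ C * (C * End_S φ p q t) := mul_le_mul' hp' (mul_le_mul' hq' le_rfl)
        _ = _ := by ring
    · calc _ = (∑' u, p u) * ((∑' u, q' u) * End_S φ p' q t) := by
            unfold End_S
            rw [End_comm p' q]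
            ring
        _ ≤ C * (C * End_S φ p' q t) := mul_le_mul' hp (mul_le_mul' hq' le_rfl)
        _ = _ := by ring
    · calc _ = (∑' u, q u) * ((∑' u, p' u) * End_S φ p q' t) := by
            unfold End_S
            ring
        _ ≤ C * (C * End_S φ p q' t) := mul_le_mul' hq (mul_le_mul' hp' le_rfl)
        _ = _ := by ring
    · calc _ = (∑' u, p u) * ((∑' u, q u) * End_S φ p' q' t) := by
            unfold End_S
            ring
        _ ≤ C * (C * End_S φ p' q' t) := mul_le_mul' hp (mul_le_mul' hq le_rfl)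
        _ = _ := by ring

end abstr

section two

variable {P H : Type} [Group P] [Group H] [MeasurableSpace P] [MeasurableSpace H]

private theorem End_st3 (D : Dat P H) (K₁ K₂ K₃ : P × H → ℝ≥0∞) (x y : P × H)
    (f : D.Γ → D.Γ → D.Γ → ℝ≥0∞) :
    D.st3 K₁ K₂ K₃ x y f = End_W (fun u : D.Γ => K₁ (x⁻¹ * (u : P × H) * y)) fun u =>
      End_W (fun v : D.Γ => K₂ (x⁻¹ * (v : P × H) * y)) fun v =>
        End_W (fun w : D.Γ => K₃ (x⁻¹ * (w : P × H) * y)) fun w => f u v w := by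
  unfold Dat.st3 End_W
  simp only [← ENNReal.tsum_mul_left]
  exact tsum_congr fun u => tsum_congr fun v => tsum_congr fun w => by ring

private theorem End_st2 (D : Dat P H) (K₁ K₂ : P × H → ℝ≥0∞) (x y : P × H)
    (f : D.Γ → D.Γ → ℝ≥0∞) :
    D.st2 K₁ K₂ x y f = End_W (fun u : D.Γ => K₁ (x⁻¹ * (u : P × H) * y)) fun u =>
      End_W (fun v : D.Γ => K₂ (x⁻¹ * (v : P × H) * y)) fun v => f u v := by
  unfold Dat.st2 End_W
  simp only [← ENNReal.tsum_mul_left]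
  exact tsum_congr fun u => tsum_congr fun v => by ring

/-- double integral -/
private noncomputable def End_I (D : Dat P H) (f : (P × H) × (P × H) → ℝ≥0∞) : ℝ≥0∞ :=
  D.IM fun x => D.IM fun y => f (x, y)

private theorem End_IM_mono (D : Dat P H) (f g : P × H → ℝ≥0∞) (h : ∀ x, f x ≤ g x) :
    D.IM f ≤ D.IM g := lintegral_mono fun x => mul_le_mul_right (h x) _

private theorem End_I_mono (D : Dat P H) (f g : (P × H) × (P × H) → ℝ≥0∞)
    (h : ∀ q, f q ≤ g q) : End_I D f ≤ End_I D g :=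
  End_IM_mono D _ _ fun _ => End_IM_mono D _ _ fun _ => h _

private theorem End_I_add (D : Dat P H) [SFinite D.μ] (hχ : Measurable D.χ)
    (f g : (P × H) × (P × H) → ℝ≥0∞) (hf : Measurable f) :
    End_I D (fun q => f q + g q) = End_I D f + End_I D g := by
  unfold End_I Dat.IM
  have h1 : ∀ x, ∫⁻ y, D.χ y * (f (x, y) + g (x, y)) ∂D.μ =
      ∫⁻ y, D.χ y * f (x, y) ∂D.μ + ∫⁻ y, D.χ y * g (x, y) ∂D.μ := by
    intro x
    have hm : Measurable fun y => D.χ y * f (x, y) :=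
      hχ.mul (hf.comp (measurable_const.prodMk measurable_id))
    rw [← lintegral_add_left hm]
    exact lintegral_congr fun y => mul_add _ _ _
  have h2 : ∀ x, D.χ x * ∫⁻ y, D.χ y * (f (x, y) + g (x, y)) ∂D.μ =
      D.χ x * ∫⁻ y, D.χ y * f (x, y) ∂D.μ + D.χ x * ∫⁻ y, D.χ y * g (x, y) ∂D.μ := by
    intro x
    rw [h1, mul_add]
  rw [lintegral_congr h2]
  apply lintegral_add_left
  apply hχ.mul
  exact Measurable.lintegral_prod_right' (f := fun q : (P × H) × (P × H) => D.χ q.2 * f q)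
    ((hχ.comp measurable_snd).mul hf)

private theorem End_I_cmul (D : Dat P H) (k : ℝ≥0∞) (hk : k ≠ ∞)
    (f : (P × H) × (P × H) → ℝ≥0∞) : End_I D (fun q => k * f q) = k * End_I D f := by
  unfold End_I Dat.IM
  have h1 : ∀ x, ∫⁻ y, D.χ y * (k * f (x, y)) ∂D.μ = k * ∫⁻ y, D.χ y * f (x, y) ∂D.μ := by
    intro x
    rw [← lintegral_const_mul' _ _ hk]
    exact lintegral_congr fun y => by ring
  simp only [h1]
  rw [← lintegral_const_mul' _ _ hk]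
  exact lintegral_congr fun y => by ring

private theorem End_I_zero (D : Dat P H) : End_I D (fun _ => 0) = 0 := by
  unfold End_I Dat.IM
  simp

private theorem End_T3_le (D : Dat P H) (K₁ K₂ K₃ L₁ L₂ L₃ : P × H → ℝ≥0∞) (κ : ℝ≥0∞)
    (hκ : κ ≠ ∞) (h₁ : ∀ g, K₁ g ≤ κ * L₁ g) (h₂ : ∀ g, K₂ g ≤ κ * L₂ g)
    (h₃ : ∀ g, K₃ g ≤ κ * L₃ g) (Φ : D.Γ → D.Γ → D.Γ → ℝ≥0∞) :
    D.T3 K₁ K₂ K₃ Φ ≤ (κ * κ * κ) * D.T3 L₁ L₂ L₃ Φ := by
  have hp : ∀ q : (P × H) × (P × H), D.st3 K₁ K₂ K₃ q.1 q.2 Φ ≤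
      (κ * κ * κ) * D.st3 L₁ L₂ L₃ q.1 q.2 Φ := by
    intro q
    unfold Dat.st3
    simp only [← ENNReal.tsum_mul_left]
    refine ENNReal.tsum_le_tsum fun u => ENNReal.tsum_le_tsum fun v =>
      ENNReal.tsum_le_tsum fun w => ?_
    refine (mul_le_mul' (mul_le_mul' (mul_le_mul' (h₁ _) (h₂ _)) (h₃ _)) le_rfl).trans
      (le_of_eq ?_)
    ring
  calc D.T3 K₁ K₂ K₃ Φ = End_I D (fun q => D.st3 K₁ K₂ K₃ q.1 q.2 Φ) := rfl
    _ ≤ End_I D (fun q => (κ * κ * κ) * D.st3 L₁ L₂ L₃ q.1 q.2 Φ) := End_I_mono D _ _ hp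
    _ = (κ * κ * κ) * End_I D (fun q => D.st3 L₁ L₂ L₃ q.1 q.2 Φ) :=
        End_I_cmul D _ (ENNReal.mul_ne_top (ENNReal.mul_ne_top hκ hκ) hκ) _
    _ = (κ * κ * κ) * D.T3 L₁ L₂ L₃ Φ := rfl

private theorem End_T2_sum₁ (D : Dat P H) [SFinite D.μ] (hχ : Measurable D.χ)
    (Φ : D.Γ → D.Γ → ℝ≥0∞)
    (hm : ∀ K₁ K₂ : P × H → ℝ≥0∞, Measurable K₁ → Measurable K₂ →
      Measurable fun q : (P × H) × (P × H) => D.st2 K₁ K₂ q.1 q.2 Φ)
    (K : ℕ → P × H → ℝ≥0∞) (hK : ∀ n, Measurable (K n)) (K₂ : P × H → ℝ≥0∞)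
    (hK₂ : Measurable K₂) (s : Finset ℕ) :
    D.T2 (fun g => ∑ n ∈ s, K n g) K₂ Φ = ∑ n ∈ s, D.T2 (K n) K₂ Φ := by
  classical
  induction s using Finset.induction_on with
  | empty =>
    simp only [Finset.sum_empty]
    have h0 : D.T2 (fun _ => 0) K₂ Φ = End_I D (fun q => D.st2 (fun _ => 0) K₂ q.1 q.2 Φ) := rfl
    rw [h0]
    have h1 : ∀ q : (P × H) × (P × H), D.st2 (fun _ => 0) K₂ q.1 q.2 Φ = 0 := by
      intro q
      unfold Dat.st2
      simp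
    simp only [h1]
    exact End_I_zero D
  | insert a s ha ih =>
    rw [Finset.sum_insert ha, ← ih]
    have h1 : ∀ q : (P × H) × (P × H),
        D.st2 (fun g => ∑ n ∈ insert a s, K n g) K₂ q.1 q.2 Φ =
          D.st2 (K a) K₂ q.1 q.2 Φ + D.st2 (fun g => ∑ n ∈ s, K n g) K₂ q.1 q.2 Φ := by
      intro q
      unfold Dat.st2
      simp only [← ENNReal.tsum_add]
      refine tsum_congr fun u => tsum_congr fun v => ?_
      rw [Finset.sum_insert ha]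
      ring
    calc D.T2 (fun g => ∑ n ∈ insert a s, K n g) K₂ Φ
        = End_I D (fun q => D.st2 (fun g => ∑ n ∈ insert a s, K n g) K₂ q.1 q.2 Φ) := rfl
      _ = End_I D (fun q => D.st2 (K a) K₂ q.1 q.2 Φ +
            D.st2 (fun g => ∑ n ∈ s, K n g) K₂ q.1 q.2 Φ) := by simp only [h1]
      _ = End_I D (fun q => D.st2 (K a) K₂ q.1 q.2 Φ) +
            End_I D (fun q => D.st2 (fun g => ∑ n ∈ s, K n g) K₂ q.1 q.2 Φ) :=
          End_I_add D hχ _ _ (hm _ _ (hK a) hK₂)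
      _ = _ := rfl

private theorem End_T2_sum₂ (D : Dat P H) [SFinite D.μ] (hχ : Measurable D.χ)
    (Φ : D.Γ → D.Γ → ℝ≥0∞)
    (hm : ∀ K₁ K₂ : P × H → ℝ≥0∞, Measurable K₁ → Measurable K₂ →
      Measurable fun q : (P × H) × (P × H) => D.st2 K₁ K₂ q.1 q.2 Φ)
    (K : ℕ → P × H → ℝ≥0∞) (hK : ∀ n, Measurable (K n)) (K₁ : P × H → ℝ≥0∞)
    (hK₁ : Measurable K₁) (s : Finset ℕ) :
    D.T2 K₁ (fun g => ∑ n ∈ s, K n g) Φ = ∑ n ∈ s, D.T2 K₁ (K n) Φ := by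
  classical
  induction s using Finset.induction_on with
  | empty =>
    simp only [Finset.sum_empty]
    have h0 : D.T2 K₁ (fun _ => 0) Φ = End_I D (fun q => D.st2 K₁ (fun _ => 0) q.1 q.2 Φ) := rfl
    rw [h0]
    have h1 : ∀ q : (P × H) × (P × H), D.st2 K₁ (fun _ => 0) q.1 q.2 Φ = 0 := by
      intro q
      unfold Dat.st2
      simp
    simp only [h1]
    exact End_I_zero D
  | insert a s ha ih =>
    rw [Finset.sum_insert ha, ← ih]
    have h1 : ∀ q : (P × H) × (P × H),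
        D.st2 K₁ (fun g => ∑ n ∈ insert a s, K n g) q.1 q.2 Φ =
          D.st2 K₁ (K a) q.1 q.2 Φ + D.st2 K₁ (fun g => ∑ n ∈ s, K n g) q.1 q.2 Φ := by
      intro q
      unfold Dat.st2
      simp only [← ENNReal.tsum_add]
      refine tsum_congr fun u => tsum_congr fun v => ?_
      rw [Finset.sum_insert ha]
      ring
    calc D.T2 K₁ (fun g => ∑ n ∈ insert a s, K n g) Φ
        = End_I D (fun q => D.st2 K₁ (fun g => ∑ n ∈ insert a s, K n g) q.1 q.2 Φ) := rfl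
      _ = End_I D (fun q => D.st2 K₁ (K a) q.1 q.2 Φ +
            D.st2 K₁ (fun g => ∑ n ∈ s, K n g) q.1 q.2 Φ) := by simp only [h1]
      _ = End_I D (fun q => D.st2 K₁ (K a) q.1 q.2 Φ) +
            End_I D (fun q => D.st2 K₁ (fun g => ∑ n ∈ s, K n g) q.1 q.2 Φ) :=
          End_I_add D hχ _ _ (hm _ _ hK₁ (hK a))
      _ = _ := rfl

/-- the integrated inequality -/
private theorem End_int (D : Dat P H) [SFinite D.μ] (hχ : Measurable D.χ)
    (hm2 : ∀ K₁ K₂ : P × H → ℝ≥0∞, Measurable K₁ → Measurable K₂ → ∀ f : D.Γ → D.Γ → ℝ≥0∞,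
      Measurable fun q : (P × H) × (P × H) => D.st2 K₁ K₂ q.1 q.2 f)
    (hm3 : ∀ K₁ K₂ K₃ : P × H → ℝ≥0∞, Measurable K₁ → Measurable K₂ → Measurable K₃ →
      ∀ f : D.Γ → D.Γ → D.Γ → ℝ≥0∞,
      Measurable fun q : (P × H) × (P × H) => D.st3 K₁ K₂ K₃ q.1 q.2 f)
    (φ h : D.Γ → ℝ) (hh : ∀ x y, h (x * y) = h x + h y)
    (p q p' q' t : P × H → ℝ≥0∞) (mp : Measurable p) (mq : Measurable q) (mp' : Measurable p')
    (mq' : Measurable q') (mt : Measurable t) (c C : ℝ≥0∞) (hc0 : c ≠ 0) (hct : c ≠ ∞)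
    (hC : C ≠ ∞) (hp : ∀ x y, D.N p x y ≤ C) (hq : ∀ x y, D.N q x y ≤ C)
    (hp' : ∀ x y, D.N p' x y ≤ C) (hq' : ∀ x y, D.N q' x y ≤ C) (ht : ∀ x y, D.N t x y ≤ C)
    (lp : ∀ x y, c ≤ D.N p' x y) (lq : ∀ x y, c ≤ D.N q' x y) (lt : ∀ x y, c ≤ D.N t x y)
    (B₁ B₂ : ℝ≥0∞)
    (v1 : D.T2 p q' (fun u v => ab (ph (fun x => φ x - h x) u v)) ≤ B₁)
    (v2 : D.T2 p' q (fun u v => ab (ph (fun x => φ x - h x) u v)) ≤ B₁)
    (v3 : D.T2 p' q' (fun u v => ab (ph (fun x => φ x - h x) u v)) ≤ B₁)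
    (w1 : D.T3 p q t (fun u v w => ab (dl φ u v w)) ≤ B₂)
    (w2 : D.T3 p' q t (fun u v w => ab (dl φ u v w)) ≤ B₂)
    (w3 : D.T3 p q' t (fun u v w => ab (dl φ u v w)) ≤ B₂)
    (w4 : D.T3 p' q' t (fun u v w => ab (dl φ u v w)) ≤ B₂) :
    D.T2 p q (fun u v => ab (ph (fun x => φ x - h x) u v)) ≤
      (c * (c * c))⁻¹ * ((C * (C * C)) * (3 * B₁) + (C * C) * (4 * B₂)) := by
  have hcc0 : c * (c * c) ≠ 0 := mul_ne_zero hc0 (mul_ne_zero hc0 hc0)
  have hA : (c * (c * c))⁻¹ ≠ ∞ := ENNReal.inv_ne_top.2 hcc0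
  have hC3 : C * (C * C) ≠ ∞ := ENNReal.mul_ne_top hC (ENNReal.mul_ne_top hC hC)
  have hC2 : C * C ≠ ∞ := ENNReal.mul_ne_top hC hC
  let V : (P × H → ℝ≥0∞) → (P × H → ℝ≥0∞) → (P × H) × (P × H) → ℝ≥0∞ := fun a b z =>
    D.st2 a b z.1 z.2 fun u v => ab (ph (fun x => φ x - h x) u v)
  let S : (P × H → ℝ≥0∞) → (P × H → ℝ≥0∞) → (P × H) × (P × H) → ℝ≥0∞ := fun a b z =>
    D.st3 a b t z.1 z.2 fun u v w => ab (dl φ u v w)
  have mV : ∀ a b, Measurable a → Measurable b → Measurable (V a b) := fun a b ha hb =>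
    hm2 a b ha hb _
  have mS : ∀ a b, Measurable a → Measurable b → Measurable (S a b) := fun a b ha hb =>
    hm3 a b t ha hb mt _
  have hpt : ∀ z : (P × H) × (P × H), V p q z ≤ (c * (c * c))⁻¹ *
      ((C * (C * C)) * (V p q' z + V p' q z + V p' q' z) +
        (C * C) * (S p q z + S p' q z + S p q' z + S p' q' z)) := by
    intro z
    simp only [V, S, End_st2, End_st3]
    exact End_abs φ h hh _ _ _ _ _ c C hc0 hct (hp z.1 z.2) (hq z.1 z.2) (hp' z.1 z.2)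
      (hq' z.1 z.2) (ht z.1 z.2) (lp z.1 z.2) (lq z.1 z.2) (lt z.1 z.2)
  have e1 : End_I D (fun z => V p q' z + V p' q z + V p' q' z) ≤ 3 * B₁ := by
    rw [End_I_add D hχ (fun z => V p q' z + V p' q z) (V p' q')
      ((mV _ _ mp mq').add (mV _ _ mp' mq)), End_I_add D hχ (V p q') (V p' q) (mV _ _ mp mq')]
    refine (add_le_add (add_le_add (?_ : _ ≤ B₁) (?_ : _ ≤ B₁)) (?_ : _ ≤ B₁)).trans
      (le_of_eq (by ring))
    · exact v1
    · exact v2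
    · exact v3
  have e2 : End_I D (fun z => S p q z + S p' q z + S p q' z + S p' q' z) ≤ 4 * B₂ := by
    rw [End_I_add D hχ (fun z => S p q z + S p' q z + S p q' z) (S p' q')
      (((mS _ _ mp mq).add (mS _ _ mp' mq)).add (mS _ _ mp mq')),
      End_I_add D hχ (fun z => S p q z + S p' q z) (S p q')
      ((mS _ _ mp mq).add (mS _ _ mp' mq)), End_I_add D hχ (S p q) (S p' q) (mS _ _ mp mq)]
    refine (add_le_add (add_le_add (add_le_add (?_ : _ ≤ B₂) (?_ : _ ≤ B₂)) (?_ : _ ≤ B₂))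
      (?_ : _ ≤ B₂)).trans (le_of_eq (by ring))
    · exact w1
    · exact w2
    · exact w3
    · exact w4
  calc D.T2 p q (fun u v => ab (ph (fun x => φ x - h x) u v)) = End_I D (V p q) := rfl
    _ ≤ End_I D (fun z => (c * (c * c))⁻¹ *
        ((C * (C * C)) * (V p q' z + V p' q z + V p' q' z) +
        (C * C) * (S p q z + S p' q z + S p q' z + S p' q' z))) := End_I_mono D _ _ hpt
    _ = (c * (c * c))⁻¹ * ((C * (C * C)) * End_I D (fun z => V p q' z + V p' q z + V p' q' z) +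
        (C * C) * End_I D (fun z => S p q z + S p' q z + S p q' z + S p' q' z)) := by
        have m1 : Measurable fun z => (C * (C * C)) * (V p q' z + V p' q z + V p' q' z) :=
          (((mV _ _ mp mq').add (mV _ _ mp' mq)).add (mV _ _ mp' mq')).const_mul _
        rw [End_I_cmul D _ hA, End_I_add D hχ _ _ m1, End_I_cmul D _ hC3, End_I_cmul D _ hC2]
    _ ≤ _ := mul_le_mul_right (add_le_add (mul_le_mul_right e1 _) (mul_le_mul_right e2 _)) _

/-- `T2` of the weights `wr`, from a bound for all pairs of lengths. -/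
private theorem End_T2_wr (D : Dat P H) [SFinite D.μ] (hχ : Measurable D.χ)
    (Φ : D.Γ → D.Γ → ℝ≥0∞)
    (hm : ∀ K₁ K₂ : P × H → ℝ≥0∞, Measurable K₁ → Measurable K₂ →
      Measurable fun q : (P × H) × (P × H) => D.st2 K₁ K₂ q.1 q.2 Φ)
    (k₁ k₂ : P → ℝ≥0∞) (hk₁ : ∀ n, Measurable (D.tk k₁ n)) (hk₂ : ∀ n, Measurable (D.tk k₂ n))
    (r : ℕ) (hr : 1 ≤ r) (B : ℝ≥0∞)
    (hB : ∀ n ∈ Finset.Icc r (4 * r), ∀ m ∈ Finset.Icc r (4 * r),
      D.T2 (D.tk k₁ n) (D.tk k₂ m) Φ ≤ B) :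
    D.T2 (D.wr k₁ r) (D.wr k₂ r) Φ ≤ 16 * (r : ℝ≥0∞) ^ 2 * B := by
  have e : ∀ k : P → ℝ≥0∞, D.wr k r = fun g => ∑ n ∈ Finset.Icc r (4 * r), D.tk k n g := by
    intro k
    funext g
    unfold Dat.wr Dat.tk
    rw [Finset.mul_sum]
  have hw : Measurable (D.wr k₂ r) := by
    rw [e k₂]
    exact Finset.measurable_fun_sum _ fun n _ => hk₂ n
  have hcard : (((Finset.Icc r (4 * r)).card : ℕ) : ℝ≥0∞) ≤ 4 * r := by
    rw [Nat.card_Icc]
    have : 4 * r + 1 - r ≤ 4 * r := by omega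
    exact_mod_cast this
  rw [e k₁, End_T2_sum₁ D hχ Φ hm _ hk₁ _ hw]
  have h1 : ∀ n ∈ Finset.Icc r (4 * r), D.T2 (D.tk k₁ n) (D.wr k₂ r) Φ ≤ 4 * r * B := by
    intro n hn
    rw [e k₂, End_T2_sum₂ D hχ Φ hm _ hk₂ _ (hk₁ n)]
    refine (Finset.sum_le_card_nsmul _ _ B fun m hm' => hB n hn m hm').trans ?_
    rw [nsmul_eq_mul]
    exact mul_le_mul_left hcard _
  refine (Finset.sum_le_card_nsmul _ _ (4 * r * B) h1).trans ?_
  rw [nsmul_eq_mul]
  refine (mul_le_mul_left hcard _).trans (le_of_eq ?_)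
  ring

end two

section comb

private theorem End_far : ∀ a b c : Fin 5, posF a b c → a ≠ b := by decide

private theorem End_Cp (a b c : Ty) (h : PT a b c) : Cp a b ∧ Cp b a := by
  obtain ⟨h1, -, h3, -, -⟩ := h
  have h4 := End_far _ _ _ h1
  exact ⟨⟨h4, h3⟩, ⟨fun h => h4 h.symm, ⟨h3.2, h3.1⟩⟩⟩

end comb

section psi

variable {P : Type} [Group P] [TopologicalSpace P] [IsTopologicalGroup P] [T2Space P]
  [SecondCountableTopology P] [MeasurableSpace P] [BorelSpace P]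

private theorem End_cpt (A B : Set P) (hA : IsCompact (closure A)) (hB : IsCompact (closure B)) :
    IsCompact (closure (A * B⁻¹)) :=
  (hA.mul hB.inv).closure_of_subset (Set.mul_subset_mul subset_closure
    (Set.inv_subset_inv.2 subset_closure))

private theorem End_psi (μ : Measure P) [SFinite μ] [IsFiniteMeasureOnCompacts μ]
    (k k' : P → ℝ≥0∞) (hk : Measurable k) (hk' : Measurable k') (C₁ C₂ : ℝ≥0∞) (h1 : C₁ ≠ ∞)
    (h2 : C₂ ≠ ∞) (b1 : ∀ g, k g ≤ C₁) (b2 : ∀ g, k' g ≤ C₂) (A B : Set P)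
    (hB : IsCompact (closure B)) (s1 : ∀ g, g ∉ A → k g = 0) (s2 : ∀ g, g ∉ B → k' g = 0) :
    Measurable (fun g => ∫⁻ y, k (g * y) * k' y ∂μ) ∧
    (∃ C : ℝ≥0∞, C ≠ ∞ ∧ ∀ g, ∫⁻ y, k (g * y) * k' y ∂μ ≤ C) ∧
    ∀ g, g ∉ closure (A * B⁻¹) → ∫⁻ y, k (g * y) * k' y ∂μ = 0 := by
  refine ⟨?_, ⟨C₁ * C₂ * μ (closure B),
    ENNReal.mul_ne_top (ENNReal.mul_ne_top h1 h2) hB.measure_lt_top.ne, ?_⟩, ?_⟩
  · have hm : Measurable fun q : P × P => k (q.1 * q.2) * k' q.2 :=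
      (hk.comp measurable_mul).mul (hk'.comp measurable_snd)
    exact Measurable.lintegral_prod_right' (f := fun q : P × P => k (q.1 * q.2) * k' q.2) hm
  · intro g
    calc ∫⁻ y, k (g * y) * k' y ∂μ
        ≤ ∫⁻ y, (closure B).indicator (fun _ => C₁ * C₂) y ∂μ := by
          refine lintegral_mono fun y => ?_
          by_cases hy : y ∈ closure B
          · rw [Set.indicator_of_mem hy]
            exact mul_le_mul' (b1 _) (b2 _)
          · rw [Set.indicator_of_notMem hy, s2 y fun h => hy (subset_closure h), mul_zero]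
      _ = C₁ * C₂ * μ (closure B) := by
          rw [lintegral_indicator isClosed_closure.measurableSet, setLIntegral_const]
  · intro g hg
    have hz : ∀ y, k (g * y) * k' y = 0 := by
      intro y
      by_contra h3
      have h4 : g * y ∈ A := by
        by_contra h
        exact h3 (by rw [s1 _ h, zero_mul])
      have h5 : y ∈ B := by
        by_contra h
        exact h3 (by rw [s2 _ h, mul_zero])
      apply hg
      apply subset_closure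
      refine Set.mem_mul.2 ⟨g * y, h4, y⁻¹, Set.inv_mem_inv.2 h5, ?_⟩
      group
    simp only [hz, lintegral_zero]

end psi

variable (P H : Type) [Group P] [Group H] [TopologicalSpace P] [TopologicalSpace H]
  [IsTopologicalGroup P] [IsTopologicalGroup H] [LocallyCompactSpace P] [LocallyCompactSpace H]
  [T2Space P] [T2Space H] [SecondCountableTopology P] [SecondCountableTopology H]
  [MeasurableSpace P] [MeasurableSpace H] [BorelSpace P] [BorelSpace H]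

private theorem End_num (D : Dat P H) (hD : D.Ok) [SFinite D.μ₂] (n : ℕ) :
    Measurable (D.nu n) := by
  unfold Dat.nu
  generalize n - 1 = k
  induction k with
  | zero => exact hD.νc.measurable
  | succ k ih =>
    have h1 : Measurable fun p : H × H => D.ν p.2 * D.nuA k (p.2⁻¹ * p.1) :=
      (hD.νc.measurable.comp measurable_snd).mul
        (ih.comp ((measurable_inv.comp measurable_snd).mul measurable_fst))
    exact Measurable.lintegral_prod_right' (f := fun p : H × H => D.ν p.2 * D.nuA k (p.2⁻¹ * p.1))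
      h1

private theorem End_tkm (D : Dat P H) (hD : D.Ok) [SFinite D.μ₂] (k : P → ℝ≥0∞)
    (hk : Measurable k) (n : ℕ) : Measurable (D.tk k n) := by
  unfold Dat.tk
  exact (hk.comp measurable_fst).mul ((End_num P H D hD n).comp measurable_snd)

private theorem End_N_le (D : Dat P H) (k k' : P → ℝ≥0∞) (κ : ℝ≥0∞) (h : ∀ g, k g ≤ κ * k' g)
    (n : ℕ) (x y : P × H) : D.N (D.tk k n) x y ≤ κ * D.N (D.tk k' n) x y := by
  unfold Dat.N Dat.tk
  rw [← ENNReal.tsum_mul_left]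
  refine ENNReal.tsum_le_tsum fun u => ?_
  rw [← mul_assoc]
  exact mul_le_mul_left (h _) _

private theorem End_tri (hinst : S_inst P H) (hst : S_st P H) (hbd : S_bd P H)
    (hbase : S_base P H) (hT2 : S_T2II P H) (hI8 : S_I8 P H) (D : Dat P H) (G : Geo P) (M : ℕ)
    (ka kb : Ty → P → ℝ≥0∞) (hcx : Cx D G M ka kb) (hbal : Bal D G.Hyp)
    (htr : ∀ a b, Cp a b → closure (G.Om M a 0 * (G.Mid M b)⁻¹) ⊆ G.Tr M)
    (hqq : ∀ g ∈ G.Tr M, ∃ g₀ ∈ G.Om M (0, 8) 6, ∃ g₁ ∈ G.Om M (2, 0) 6, ∃ q : P,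
      q⁻¹ * g * q = g₀ * g₁⁻¹)
    (b : ℕ) (cm cp : ℝ≥0∞) (hb : 1 ≤ b) (hcm : 0 < cm) (hcp : cp ≠ ∞)
    (hN : ∀ (g₀ : P) (x y : P × H),
      cm ≤ D.N (D.tk (iK (g₀ • G.B 2)) b) x y ∧ D.N (D.tk (iK (g₀ • G.B 2)) b) x y ≤ cp)
    (C₁ : ℝ≥0∞) (c₀ : ℕ) (hC₁ : C₁ ≠ ∞) (a₁ a₂ a₃ : Ty) (hPT : PT a₁ a₂ a₃) :
    ∃ (C : ℝ≥0∞) (c₁ : ℕ), C ≠ ∞ ∧ ∀ r, c₁ ≤ r → ∀ (φ h : D.Γ → ℝ) (β : ℝ≥0∞), OddC φ →
      HH D G M ka (2 * b + 2) C₁ c₀ r φ h β →
      ∀ n ∈ Finset.Icc r (4 * r), ∀ m ∈ Finset.Icc r (4 * r),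
        D.T2 (D.tk (ka a₁) n) (D.tk (ka a₂) m) (fun u v => ab (ph (fun x => φ x - h x) u v)) ≤
          C * r * (D.EE ka r φ + β) := by
  have hD := hcx.d
  have hG := hcx.g
  obtain ⟨s1, s2, s3, -, -, -, -, -, -⟩ := hinst D hD
  have := hD.haar₁
  obtain ⟨b', c, CN, hb', hc, hCN, hN'⟩ := (hbd D G hD hG).1 M hcx.ne hcx.nm
  obtain ⟨hB1, -⟩ := hbase D G M ka kb hcx
  obtain ⟨Ck, hCk, hk⟩ := hcx.k.ab
  obtain ⟨ck, hck, hkl⟩ := hcx.k.al
  have hct : c ≠ ∞ := by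
    have h1 := (hN' 1 1).1 (0, 0) 0 b' (by norm_num) le_rfl
    have h2 := (hN' 1 1).2.2 (0, 0) 0 b' (by norm_num)
    exact ((h1.trans h2).trans_lt (lt_top_iff_ne_top.2 hCN)).ne
  obtain ⟨hCp, hCp'⟩ := End_Cp a₁ a₂ a₃ hPT
  have hOm : ∀ a l, G.Om M a (l + 1) ⊆ G.Om M a l := by
    intro a l g hg
    refine hG.om M a l (Set.mem_mul.2 ⟨g, Set.mem_mul.2 ⟨1, hG.b1 9, g, hg, one_mul g⟩, 1,
      hG.b1 9, mul_one g⟩)
  have hM2 : ∀ a, G.Mid M a ⊆ G.Om M a 2 := hG.ml M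
  have hM0 : ∀ a, G.Mid M a ⊆ G.Om M a 0 := fun a =>
    (hM2 a).trans ((hOm a 1).trans (hOm a 0))
  have hcM : ∀ a, IsCompact (closure (G.Mid M a)) := fun a =>
    (hG.oc M a 0).closure_of_subset ((hM0 a).trans subset_closure)
  have hT1 : closure (G.Om M a₁ 0 * (G.Mid M a₂)⁻¹) ⊆ G.Tr M := htr a₁ a₂ hCp
  have hT2' : closure (G.Mid M a₁ * (G.Om M a₂ 0)⁻¹) ⊆ G.Tr M := by
    intro g hg
    have h1 : g⁻¹ ∈ closure (G.Om M a₂ 0 * (G.Mid M a₁)⁻¹) := by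
      have h2 : G.Om M a₂ 0 * (G.Mid M a₁)⁻¹ = (G.Mid M a₁ * (G.Om M a₂ 0)⁻¹)⁻¹ := by
        rw [mul_inv_rev, inv_inv]
      rw [h2, ← inv_closure]
      exact Set.inv_mem_inv.2 hg
    have h3 := hG.ti M _ (htr a₂ a₁ hCp' h1)
    rwa [inv_inv] at h3
  have hT3 : closure (G.Mid M a₁ * (G.Mid M a₂)⁻¹) ⊆ G.Tr M :=
    (closure_mono (Set.mul_subset_mul_right (hM0 a₁))).trans hT1
  have hiK : ∀ a, Measurable (iK (G.Mid M a)) := fun a =>
    measurable_const.indicator (hG.mo M a).measurableSet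
  have hiO : ∀ a l, Measurable (iK (G.Om M a l)) := fun a l =>
    measurable_const.indicator (hG.oo M a l).measurableSet
  have hi1 : ∀ (S : Set P) g, iK S g ≤ 1 := by
    intro S g
    unfold iK
    exact Set.indicator_le_self' (fun _ _ => zero_le) g
  have hi0 : ∀ (S : Set P) g, g ∉ S → iK S g = 0 := by
    intro S g hg
    unfold iK
    exact Set.indicator_of_notMem hg _
  obtain ⟨p1, p2, p3⟩ := End_psi D.μ₁ (ka a₁) (iK (G.Mid M a₂)) (hcx.k.am a₁) (hiK a₂) Ck 1 hCk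
    ENNReal.one_ne_top (fun g => (hk a₁ g).1) (hi1 _) (G.Om M a₁ 0) (G.Mid M a₂) (hcM a₂)
    (hcx.k.as a₁) (hi0 _)
  obtain ⟨q1, q2, q3⟩ := End_psi D.μ₁ (iK (G.Mid M a₁)) (ka a₂) (hiK a₁) (hcx.k.am a₂) 1 Ck
    ENNReal.one_ne_top hCk (hi1 _) (fun g => (hk a₂ g).1) (G.Mid M a₁) (G.Om M a₂ 0) (hG.oc M a₂ 0)
    (hi0 _) (hcx.k.as a₂)
  obtain ⟨r1, r2, r3⟩ := End_psi D.μ₁ (iK (G.Mid M a₁)) (iK (G.Mid M a₂)) (hiK a₁) (hiK a₂) 1 1
    ENNReal.one_ne_top ENNReal.one_ne_top (hi1 _) (hi1 _) (G.Mid M a₁) (G.Mid M a₂) (hcM a₂)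
    (hi0 _) (hi0 _)
  obtain ⟨E1, d1, hE1, hI1⟩ := hI8 D G M ka kb hcx hbal hqq b cm cp hb hcm hcp hN C₁ c₀ hC₁ _ _
    p1 p2 (End_cpt _ _ (hG.oc M a₁ 0) (hcM a₂)) hT1 p3
  obtain ⟨E2, d2, hE2, hI2⟩ := hI8 D G M ka kb hcx hbal hqq b cm cp hb hcm hcp hN C₁ c₀ hC₁ _ _
    q1 q2 (End_cpt _ _ (hcM a₁) (hG.oc M a₂ 0)) hT2' q3
  obtain ⟨E3, d3, hE3, hI3⟩ := hI8 D G M ka kb hcx hbal hqq b cm cp hb hcm hcp hN C₁ c₀ hC₁ _ _
    r1 r2 (End_cpt _ _ (hcM a₁) (hcM a₂)) hT3 r3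
  -- the kernels
  have hκt : (1 + ck⁻¹ : ℝ≥0∞) ≠ ∞ :=
    ENNReal.add_ne_top.2 ⟨ENNReal.one_ne_top, ENNReal.inv_ne_top.2 hck.ne'⟩
  have hck1 : ck ≠ ∞ := by
    obtain ⟨g, hg⟩ := hcx.ne (0, 0) 2 (by norm_num)
    exact (((hkl (0, 0)).1 g hg).trans_lt (((hk (0, 0) g).1).trans_lt
      (lt_top_iff_ne_top.2 hCk))).ne
  have hlow : ∀ (a : Ty) (S : Set P), S ⊆ G.Om M a 2 → ∀ g, iK S g ≤ (1 + ck⁻¹) * ka a g := by
    intro a S hS g
    by_cases hg : g ∈ S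
    · have h1 := (hkl a).1 g (hS hg)
      calc iK S g ≤ 1 := hi1 _ _
        _ = ck⁻¹ * ck := (ENNReal.inv_mul_cancel hck.ne' hck1).symm
        _ ≤ (1 + ck⁻¹) * ka a g := mul_le_mul' le_add_self h1
    · rw [hi0 _ _ hg]
      exact zero_le
  have hwr1 : ∀ (r n : ℕ) (a : Ty), n ∈ Finset.Icc r (4 * r) → ∀ g,
      D.tk (ka a) n g ≤ (1 + ck⁻¹) * D.wr (ka a) r g := by
    intro r n a hn g
    calc D.tk (ka a) n g ≤ D.wr (ka a) r g := by
          unfold Dat.tk Dat.wr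
          exact mul_le_mul_right (Finset.single_le_sum (f := fun n => D.nu n g.2)
            (fun _ _ => zero_le) hn) _
      _ = 1 * D.wr (ka a) r g := (one_mul _).symm
      _ ≤ _ := mul_le_mul_left le_self_add _
  have hwr2 : ∀ (r n : ℕ) (a : Ty) (S : Set P), S ⊆ G.Om M a 2 → n ∈ Finset.Icc r (4 * r) →
      ∀ g, D.tk (iK S) n g ≤ (1 + ck⁻¹) * D.wr (ka a) r g := by
    intro r n a S hS hn g
    unfold Dat.tk Dat.wr
    rw [← mul_assoc]
    exact mul_le_mul' (hlow a S hS _) (Finset.single_le_sum (f := fun n => D.nu n g.2)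
      (fun _ _ => zero_le) hn)
  have hmass1 : ∀ (a : Ty) (n : ℕ) (x y : P × H), D.N (D.tk (ka a) n) x y ≤ (1 + Ck) * CN := by
    intro a n x y
    have h1 : ∀ g, ka a g ≤ Ck * iK (G.Om M a 0) g := by
      intro g
      by_cases hg : g ∈ G.Om M a 0
      · unfold iK
        rw [Set.indicator_of_mem hg, mul_one]
        exact (hk a g).1
      · rw [hcx.k.as a g hg]
        exact zero_le
    exact (End_N_le P H D _ _ Ck h1 n x y).trans
      (mul_le_mul' le_add_self ((hN' x y).2.2 a 0 n (by norm_num)))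
  have hmass2 : ∀ (a : Ty) (S : Set P), S ⊆ G.Om M a 2 → ∀ (n : ℕ) (x y : P × H),
      D.N (D.tk (iK S) n) x y ≤ (1 + Ck) * CN := by
    intro a S hS n x y
    have h1 : ∀ g, iK S g ≤ 1 * iK (G.Om M a 2) g := by
      intro g
      rw [one_mul]
      exact Set.indicator_le_indicator_of_subset hS (fun _ => zero_le) g
    exact (End_N_le P H D _ _ 1 h1 n x y).trans
      (mul_le_mul' le_self_add ((hN' x y).2.2 a 2 n (by norm_num)))
  have hCC : (1 + Ck) * CN ≠ ∞ :=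
    ENNReal.mul_ne_top (ENNReal.add_ne_top.2 ⟨ENNReal.one_ne_top, hCk⟩) hCN
  set κ : ℝ≥0∞ := 1 + ck⁻¹ with hκ
  set CC : ℝ≥0∞ := (1 + Ck) * CN with hCCd
  have hc3 : (c * (c * c))⁻¹ ≠ ∞ :=
    ENNReal.inv_ne_top.2 (mul_ne_zero hc.ne' (mul_ne_zero hc.ne' hc.ne'))
  refine ⟨(c * (c * c))⁻¹ * ((CC * (CC * CC)) * (3 * (E1 + E2 + E3)) +
    (CC * CC) * (4 * (κ * κ * κ))), 1 + b' + d1 + d2 + d3, ?_, ?_⟩
  · refine ENNReal.mul_ne_top hc3 (ENNReal.add_ne_top.2 ⟨ENNReal.mul_ne_top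
      (ENNReal.mul_ne_top hCC (ENNReal.mul_ne_top hCC hCC)) (ENNReal.mul_ne_top (by norm_num)
      (ENNReal.add_ne_top.2 ⟨ENNReal.add_ne_top.2 ⟨hE1, hE2⟩, hE3⟩)),
      ENNReal.mul_ne_top (ENNReal.mul_ne_top hCC hCC) (ENNReal.mul_ne_top (by norm_num)
      (ENNReal.mul_ne_top (ENNReal.mul_ne_top hκt hκt) hκt))⟩)
  intro r hr φ h β hφ hHH n hn m hm
  have hn' := Finset.mem_Icc.1 hn
  have hm' := Finset.mem_Icc.1 hm
  have h2r : 2 * r ∈ Finset.Icc r (4 * r) := Finset.mem_Icc.2 ⟨by omega, by omega⟩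
  have hh := hHH.1
  have hΦc : ∀ g x : D.Γ, (fun γ : D.Γ => ab (φ γ - h γ)) (g * x * g⁻¹) =
      (fun γ : D.Γ => ab (φ γ - h γ)) x := by
    intro g x
    simp only
    rw [hφ.conj, hh, hh, End_hinv h hh]
    congr 1
    ring
  have hTT := (hT2 D hD (fun γ : D.Γ => ab (φ γ - h γ)) hΦc).1
  have v1 : D.T2 (D.tk (ka a₁) n) (D.tk (iK (G.Mid M a₂)) (2 * r))
      (fun u v => ab (ph (fun x => φ x - h x) u v)) ≤ (E1 + E2 + E3) * r * (D.EE ka r φ + β) := by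
    have e1 := hTT (ka a₁) (iK (G.Mid M a₂)) n (2 * r) (hcx.k.am a₁) (hiK a₂) (by omega) (by omega)
    have e2 := hI1 r (by omega) φ h β hφ hHH (n + 2 * r) (by omega) (by omega)
    calc _ = _ := e1
      _ ≤ _ := e2
      _ ≤ _ := mul_le_mul_left (mul_le_mul_left (le_self_add.trans le_self_add) _) _
  have v2 : D.T2 (D.tk (iK (G.Mid M a₁)) (2 * r)) (D.tk (ka a₂) m)
      (fun u v => ab (ph (fun x => φ x - h x) u v)) ≤ (E1 + E2 + E3) * r * (D.EE ka r φ + β) := by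
    have e1 := hTT (iK (G.Mid M a₁)) (ka a₂) (2 * r) m (hiK a₁) (hcx.k.am a₂) (by omega) (by omega)
    have e2 := hI2 r (by omega) φ h β hφ hHH (2 * r + m) (by omega) (by omega)
    calc _ = _ := e1
      _ ≤ _ := e2
      _ ≤ _ := mul_le_mul_left (mul_le_mul_left (le_add_self.trans le_self_add) _) _
  have v3 : D.T2 (D.tk (iK (G.Mid M a₁)) (2 * r)) (D.tk (iK (G.Mid M a₂)) (2 * r))
      (fun u v => ab (ph (fun x => φ x - h x) u v)) ≤ (E1 + E2 + E3) * r * (D.EE ka r φ + β) := by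
    have e1 := hTT (iK (G.Mid M a₁)) (iK (G.Mid M a₂)) (2 * r) (2 * r) (hiK a₁) (hiK a₂)
      (by omega) (by omega)
    have e2 := hI3 r (by omega) φ h β hφ hHH (2 * r + 2 * r) (by omega) (by omega)
    calc _ = _ := e1
      _ ≤ _ := e2
      _ ≤ _ := mul_le_mul_left (mul_le_mul_left le_add_self _) _
  have hE : D.T3 (D.wr (ka a₁) r) (D.wr (ka a₂) r) (D.wr (ka a₃) r)
      (fun u v w => ab (dl φ u v w)) ≤ D.EE ka r φ :=
    hB1 r φ hφ a₁ a₂ a₃ (Or.inl hPT) _ _ _ (fun _ => le_rfl) (fun _ => le_rfl) (fun _ => le_rfl)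
  have hw : ∀ K₁ K₂ : P × H → ℝ≥0∞, (∀ g, K₁ g ≤ κ * D.wr (ka a₁) r g) →
      (∀ g, K₂ g ≤ κ * D.wr (ka a₂) r g) →
      D.T3 K₁ K₂ (D.tk (iK (G.Om M a₃ 2)) (2 * r)) (fun u v w => ab (dl φ u v w)) ≤
        (κ * κ * κ) * D.EE ka r φ := fun K₁ K₂ h1 h2 =>
    (End_T3_le D _ _ _ _ _ _ κ hκt h1 h2 (hwr2 r (2 * r) a₃ _ subset_rfl h2r) _).trans
      (mul_le_mul_right hE _)
  have hmain := End_int D hD.χm (hst D hD).1 (hst D hD).2.1 φ h hh
    (D.tk (ka a₁) n) (D.tk (ka a₂) m) (D.tk (iK (G.Mid M a₁)) (2 * r))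
    (D.tk (iK (G.Mid M a₂)) (2 * r)) (D.tk (iK (G.Om M a₃ 2)) (2 * r))
    (End_tkm P H D hD _ (hcx.k.am a₁) n) (End_tkm P H D hD _ (hcx.k.am a₂) m)
    (End_tkm P H D hD _ (hiK a₁) _) (End_tkm P H D hD _ (hiK a₂) _)
    (End_tkm P H D hD _ (hiO a₃ 2) _) c CC hc.ne' hct hCC (hmass1 a₁ n) (hmass1 a₂ m)
    (hmass2 a₁ _ (hM2 a₁) _) (hmass2 a₂ _ (hM2 a₂) _) (hmass2 a₃ _ subset_rfl _)
    (fun x y => (hN' x y).2.1 a₁ _ (by omega)) (fun x y => (hN' x y).2.1 a₂ _ (by omega))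
    (fun x y => (hN' x y).1 a₃ 2 _ (by norm_num) (by omega))
    ((E1 + E2 + E3) * r * (D.EE ka r φ + β)) ((κ * κ * κ) * D.EE ka r φ) v1 v2 v3
    (hw _ _ (hwr1 r n a₁ hn) (hwr1 r m a₂ hm))
    (hw _ _ (hwr2 r _ a₁ _ (hM2 a₁) h2r) (hwr1 r m a₂ hm))
    (hw _ _ (hwr1 r n a₁ hn) (hwr2 r _ a₂ _ (hM2 a₂) h2r))
    (hw _ _ (hwr2 r _ a₁ _ (hM2 a₁) h2r) (hwr2 r _ a₂ _ (hM2 a₂) h2r))
  refine hmain.trans ?_
  have hr1 : (1 : ℝ≥0∞) ≤ r := by
    have : 1 ≤ r := by omega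
    exact_mod_cast this
  have hEr : D.EE ka r φ ≤ r * (D.EE ka r φ + β) := by
    calc D.EE ka r φ = 1 * D.EE ka r φ := (one_mul _).symm
      _ ≤ r * (D.EE ka r φ + β) := mul_le_mul' hr1 le_self_add
  calc (c * (c * c))⁻¹ * ((CC * (CC * CC)) * (3 * ((E1 + E2 + E3) * r * (D.EE ka r φ + β))) +
        (CC * CC) * (4 * ((κ * κ * κ) * D.EE ka r φ)))
      ≤ (c * (c * c))⁻¹ * ((CC * (CC * CC)) * (3 * ((E1 + E2 + E3) * r * (D.EE ka r φ + β))) +
        (CC * CC) * (4 * ((κ * κ * κ) * (r * (D.EE ka r φ + β))))) :=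
        mul_le_mul_right (add_le_add le_rfl (mul_le_mul_right (mul_le_mul_right
          (mul_le_mul_right hEr _) _) _)) _
    _ = _ := by ring

set_option linter.constructorNameAsVariable false in
private theorem End_PTs (t : Ty × Ty × Ty) (ht : t ∈ PTs) : PT t.1 t.2.1 t.2.2 := by
  unfold PTs at ht
  rw [Finset.mem_filter] at ht
  exact ht.2

private theorem End_AA (D : Dat P H) (ka : Ty → P → ℝ≥0∞) : ∃ s : Finset (Ty × Ty × Ty),
    (∀ t ∈ s, PT t.1 t.2.1 t.2.2) ∧ ∀ r (φ : D.Γ → ℝ), D.AA ka r φ =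
      ∑ t ∈ s, D.T2 (D.wr (ka t.1) r) (D.wr (ka t.2.1) r) fun u v => ab (ph φ u v) :=
  ⟨PTs, End_PTs, fun _ _ => rfl⟩

theorem tEnd : S_inst P H → S_st P H → S_bd P H → S_base P H → S_T2II P H → S_h P H →
    S_I8 P H → S_End P H := by
  intro hinst hst hbd hbase hT2 hh hI8 D G hD hG hbal
  obtain ⟨b, cm, cp, hb, hcm, hcp, hN⟩ := (hbd D G hD hG).2.1
  have hN' : ∀ (g₀ : P) (x y : P × H),
      cm ≤ D.N (D.tk (iK (g₀ • G.B 2)) b) x y ∧ D.N (D.tk (iK (g₀ • G.B 2)) b) x y ≤ cp :=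
    fun g₀ x y => ⟨(hN g₀ x y).1 b le_rfl, (hN g₀ x y).2 b⟩
  obtain ⟨M₁, hM₁⟩ := hh D G hD hG (2 * b + 2)
  obtain ⟨M₂, hM₂⟩ := hG.big
  refine ⟨max M₁ M₂, ?_⟩
  intro M hM ka kb hker
  obtain ⟨ne, nm, htr, hqq⟩ := hM₂ M ((le_max_right _ _).trans hM)
  have hcx : Cx D G M ka kb := ⟨hD, hG, hker, ne, nm⟩
  obtain ⟨C₁, c₀, hC₁, hH⟩ := hM₁ M ((le_max_left _ _).trans hM) ka kb hcx
  obtain ⟨s, hs, hAA⟩ := End_AA P H D ka
  have htri : ∀ t : Ty × Ty × Ty, ∃ (C : ℝ≥0∞) (c₁ : ℕ), C ≠ ∞ ∧ (t ∈ s → ∀ r, c₁ ≤ r →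
      ∀ (φ h : D.Γ → ℝ) (β : ℝ≥0∞), OddC φ → HH D G M ka (2 * b + 2) C₁ c₀ r φ h β →
      ∀ n ∈ Finset.Icc r (4 * r), ∀ m ∈ Finset.Icc r (4 * r),
        D.T2 (D.tk (ka t.1) n) (D.tk (ka t.2.1) m)
          (fun u v => ab (ph (fun x => φ x - h x) u v)) ≤ C * r * (D.EE ka r φ + β)) := by
    intro t
    by_cases ht : t ∈ s
    · have hPT : PT t.1 t.2.1 t.2.2 := hs t ht
      obtain ⟨C, c₁, hC, hx⟩ := End_tri P H hinst hst hbd hbase hT2 hI8 D G M ka kb hcx hbal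
        htr hqq b cm cp hb hcm hcp hN' C₁ c₀ hC₁ t.1 t.2.1 t.2.2 hPT
      exact ⟨C, c₁, hC, fun _ => hx⟩
    · exact ⟨0, 0, ENNReal.zero_ne_top, fun h => absurd h ht⟩
  choose C c₁ hC hx using htri
  obtain ⟨s1, s2, s3, -, -, -, -, -, -⟩ := hinst D hD
  refine ⟨∑ t ∈ s, 16 * C t, 1 + c₀ + ∑ t ∈ s, c₁ t,
    ENNReal.sum_ne_top.2 fun t _ => ENNReal.mul_ne_top (by norm_num) (hC t), ?_⟩
  intro r hr φ hφ β hβ₁ hβ₂
  obtain ⟨h, hHH⟩ := hH r (by omega) φ β hφ ⟨hβ₁, hβ₂⟩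
  refine ⟨h, hHH.1, ?_⟩
  have hterm : ∀ t ∈ s, D.T2 (D.wr (ka t.1) r) (D.wr (ka t.2.1) r)
      (fun u v => ab (ph (fun x => φ x - h x) u v)) ≤
        16 * C t * ((r : ℝ≥0∞) ^ 3 * (D.EE ka r φ + β)) := by
    intro t ht
    have hct : c₁ t ≤ r := by
      have h1 : c₁ t ≤ ∑ t ∈ s, c₁ t :=
        Finset.single_le_sum (f := fun t => c₁ t) (fun _ _ => Nat.zero_le _) ht
      omega
    refine (End_T2_wr D hD.χm _ (fun K₁ K₂ h1 h2 => (hst D hD).1 K₁ K₂ h1 h2 _) _ _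
      (End_tkm P H D hD _ (hker.am t.1)) (End_tkm P H D hD _ (hker.am t.2.1)) r (by omega) _
      (hx t ht r hct φ h β hφ hHH)).trans (le_of_eq ?_)
    ring
  rw [hAA]
  calc ∑ t ∈ s, (D.T2 (D.wr (ka t.1) r) (D.wr (ka t.2.1) r)
      fun u v => ab (ph (fun x => φ x - h x) u v)) ≤
        ∑ t ∈ s, 16 * C t * ((r : ℝ≥0∞) ^ 3 * (D.EE ka r φ + β)) := Finset.sum_le_sum hterm
    _ = _ := by rw [← Finset.sum_mul, mul_assoc]

end Pool.Agent.MPEF
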