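import Pool.Agent.Lib.MP_ef3f0f_gt.I.Spec

set_option autoImplicit false
set_option linter.unusedSectionVars false

/-! The function `F₀`. -/

namespace Pool.Agent.MPEF

open MeasureTheory Topology
open scoped ENNReal Pointwise

/-- Pigeonhole for a weighted average. -/
private theorem f0_pig {ι : Type} (W Θ : ι → ℝ≥0∞) (A m : ℝ≥0∞) (hA : A ≠ ∞)
    (hm : 0 < m) (h1 : m ≤ ∑' i, W i) (h2 : ∑' i, W i ≠ ∞) (h3 : ∑' i, W i * Θ i ≤ A) :
    ∃ i, Θ i ≤ A / m := by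
  by_contra hcon
  push Not at hcon
  have hmt : m ≠ ∞ := ne_top_of_le_ne_top h2 h1
  have hAm : A / m ≠ ∞ := ENNReal.div_ne_top hA hm.ne'
  have h4 : ∃ i, W i ≠ 0 := by
    by_contra h
    push Not at h
    have : ∑' i, W i = 0 := ENNReal.tsum_eq_zero.mpr h
    rw [this] at h1
    exact absurd h1 (not_le.mpr hm)
  obtain ⟨i₀, hi₀⟩ := h4
  have hW : W i₀ ≠ ∞ := ENNReal.ne_top_of_tsum_ne_top h2 i₀
  have h5 : ∑' i, W i * (A / m) < ∑' i, W i * Θ i := by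
    refine ENNReal.tsum_lt_tsum ?_ (fun i => mul_le_mul_right (hcon i).le _)
      ((ENNReal.mul_lt_mul_iff_right hi₀ hW).mpr (hcon i₀))
    rw [ENNReal.tsum_mul_right]
    exact ENNReal.mul_ne_top h2 hAm
  have h6 : A ≤ ∑' i, W i * (A / m) := by
    rw [ENNReal.tsum_mul_right]
    calc A = m * (A / m) := (ENNReal.mul_div_cancel hm.ne' hmt).symm
      _ ≤ (∑' i, W i) * (A / m) := mul_le_mul_left h1 _
  exact absurd (h6.trans_lt h5) (not_lt.mpr h3)

private theorem f0_ab (x y z : ℝ) : ab (x - z) ≤ ab (x - y) + ab (y - z) := by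
  unfold ab
  rw [← ENNReal.ofReal_add (abs_nonneg _) (abs_nonneg _)]
  exact ENNReal.ofReal_le_ofReal (abs_sub_le x y z)

private theorem f0_ab_symm (x y : ℝ) : ab (x - y) = ab (y - x) := by
  unfold ab
  rw [abs_sub_comm]

private theorem f0_Dv {Γ : Type} [Group Γ] (φ : Γ → ℝ) (γ g u v : Γ) :
    Dv φ (v * γ⁻¹) (u * γ⁻¹ * (γ * g * γ⁻¹)) (u * γ⁻¹) = Dv φ v (u * g) u := by
  unfold Dv ph
  congr 2 <;> group

section
variable {P H : Type} [Group P] [Group H] [TopologicalSpace P] [TopologicalSpace H]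
  [IsTopologicalGroup P] [IsTopologicalGroup H] [LocallyCompactSpace P] [LocallyCompactSpace H]
  [T2Space P] [T2Space H] [SecondCountableTopology P] [SecondCountableTopology H]
  [MeasurableSpace P] [MeasurableSpace H] [BorelSpace P] [BorelSpace H]

private theorem f0_IM_mono (D : Dat P H) (f g : P × H → ℝ≥0∞) (h : ∀ x, f x ≤ g x) :
    D.IM f ≤ D.IM g := by
  unfold Dat.IM
  exact lintegral_mono fun x => mul_le_mul_right (h x) _

private theorem f0_IM_const (D : Dat P H) (hD : D.Ok) (c : ℝ≥0∞) : D.IM (fun _ => c) = c := by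
  unfold Dat.IM
  rw [lintegral_mul_const _ hD.χm, hD.mass, one_mul]

private theorem f0_IM_meas (D : Dat P H) (hσ : SigmaFinite D.μ) (hχ : Measurable D.χ)
    {α : Type} [MeasurableSpace α] (F : α → P × H → ℝ≥0∞)
    (hF : Measurable fun t : α × (P × H) => F t.1 t.2) : Measurable fun a => D.IM (F a) := by
  unfold Dat.IM
  have h1 : Measurable fun t : α × (P × H) => D.χ t.2 * F t.1 t.2 :=
    (hχ.comp measurable_snd).mul hF
  exact h1.lintegral_prod_right'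

private theorem f0_nu_meas (D : Dat P H) (hD : D.Ok) (hσ₂ : SigmaFinite D.μ₂) (n : ℕ) :
    Measurable (D.nu n) := by
  have h1 : ∀ n, Measurable (D.nuA n) := by
    intro n
    induction n with
    | zero => exact hD.νc.measurable
    | succ n ih =>
      have h2 : Measurable fun t : H × H => D.ν t.2 * D.nuA n (t.2⁻¹ * t.1) :=
        (hD.νc.measurable.comp measurable_snd).mul (ih.comp (measurable_snd.inv.mul measurable_fst))
      exact h2.lintegral_prod_right'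
  exact h1 (n - 1)

private theorem f0_tk_meas (D : Dat P H) (hnm : ∀ n, Measurable (D.nu n)) (k : P → ℝ≥0∞)
    (hk : Measurable k) (n : ℕ) : Measurable (D.tk k n) := by
  unfold Dat.tk
  exact (hk.comp measurable_fst).mul ((hnm n).comp measurable_snd)

private theorem f0_tk_mono (D : Dat P H) (S S' : Set P) (h : S ⊆ S') (n : ℕ) (g : P × H) :
    D.tk (iK S) n g ≤ D.tk (iK S') n g := by
  unfold Dat.tk iK
  exact mul_le_mul_left (Set.indicator_le_indicator_of_subset h (fun _ => zero_le) g.1) _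

/-- The sum over the edges of the first copy commutes with `IM` of the second copy. -/
private theorem f0_pull (D : Dat P H) (hD : D.Ok) (hc : Countable D.Γ)
    (hst1 : ∀ K₁ K₂ : P × H → ℝ≥0∞, Measurable K₁ → Measurable K₂ → ∀ f : D.Γ → D.Γ → ℝ≥0∞,
      Measurable fun q : (P × H) × (P × H) => D.st2 K₁ K₂ q.1 q.2 f)
    (K₁ K₂ K₃ K₄ : P × H → ℝ≥0∞) (m3 : Measurable K₃) (m4 : Measurable K₄) (x z : P × H)
    (f : D.Γ → D.Γ → D.Γ → D.Γ → ℝ≥0∞) :
    (D.st2 K₁ K₂ x z fun u v => D.IM fun x' => D.st2 K₃ K₄ x' z (f u v)) =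
      D.IM fun x' => D.st2 K₁ K₂ x z fun u v => D.st2 K₃ K₄ x' z (f u v) := by
  have h0 : Measurable fun x' : P × H => ((x', z) : (P × H) × (P × H)) :=
    measurable_id.prodMk measurable_const
  have h1 : ∀ u v, Measurable fun x' => D.st2 K₃ K₄ x' z (f u v) := fun u v =>
    (hst1 K₃ K₄ m3 m4 (f u v)).comp h0
  have h2 : ∀ u v, Measurable fun x' => D.χ x' * D.st2 K₃ K₄ x' z (f u v) := fun u v =>
    hD.χm.mul (h1 u v)
  have e1 : ∀ x', D.χ x' * (D.st2 K₁ K₂ x z fun u v => D.st2 K₃ K₄ x' z (f u v)) =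
      ∑' u : D.Γ, ∑' v : D.Γ, K₁ (x⁻¹ * (u : P × H) * z) * K₂ (x⁻¹ * (v : P × H) * z) *
        (D.χ x' * D.st2 K₃ K₄ x' z (f u v)) := by
    intro x'
    rw [Dat.st2, ← ENNReal.tsum_mul_left]
    refine tsum_congr fun u => ?_
    rw [← ENNReal.tsum_mul_left]
    refine tsum_congr fun v => ?_
    ring
  unfold Dat.IM
  simp_rw [e1]
  rw [lintegral_tsum]
  · rw [Dat.st2]
    refine tsum_congr fun u => ?_
    rw [lintegral_tsum]
    · refine tsum_congr fun v => ?_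
      exact (lintegral_const_mul _ (h2 u v)).symm
    · intro v
      exact ((h2 u v).const_mul _).aemeasurable
  · intro u
    exact (Measurable.tsum fun v : D.Γ => (h2 u v).const_mul _).aemeasurable

/-- Joint measurability of the two copies. -/
private theorem f0_meas3 (D : Dat P H) (hc : Countable D.Γ)
    (hst1 : ∀ K₁ K₂ : P × H → ℝ≥0∞, Measurable K₁ → Measurable K₂ → ∀ f : D.Γ → D.Γ → ℝ≥0∞,
      Measurable fun q : (P × H) × (P × H) => D.st2 K₁ K₂ q.1 q.2 f)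
    (K₁ K₂ K₃ K₄ : P × H → ℝ≥0∞) (m1 : Measurable K₁) (m2 : Measurable K₂)
    (m3 : Measurable K₃) (m4 : Measurable K₄) (f : D.Γ → D.Γ → D.Γ → D.Γ → ℝ≥0∞) :
    Measurable fun t : ((P × H) × (P × H)) × (P × H) =>
      D.st2 K₁ K₂ t.1.2 t.1.1 fun u v => D.st2 K₃ K₄ t.2 t.1.1 (f u v) := by
  unfold Dat.st2
  refine Measurable.tsum fun u => Measurable.tsum fun v => ?_
  have a1 : Measurable fun t : ((P × H) × (P × H)) × (P × H) => t.1.1 :=
    measurable_fst.comp measurable_fst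
  have a2 : Measurable fun t : ((P × H) × (P × H)) × (P × H) => t.1.2 :=
    measurable_snd.comp measurable_fst
  have a3 : Measurable fun t : ((P × H) × (P × H)) × (P × H) => t.2 := measurable_snd
  have b1 : Measurable fun t : ((P × H) × (P × H)) × (P × H) =>
      K₁ (t.1.2⁻¹ * (u : P × H) * t.1.1) := m1.comp ((a2.inv.mul_const _).mul a1)
  have b2 : Measurable fun t : ((P × H) × (P × H)) × (P × H) =>
      K₂ (t.1.2⁻¹ * (v : P × H) * t.1.1) := m2.comp ((a2.inv.mul_const _).mul a1)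
  exact (b1.mul b2).mul ((hst1 K₃ K₄ m3 m4 (f u v)).comp (a3.prodMk a1))

/-- Measurability in `z` of the double integral. -/
private theorem f0_Phi_meas (D : Dat P H) (hD : D.Ok) (hσ : SigmaFinite D.μ) (hc : Countable D.Γ)
    (hst1 : ∀ K₁ K₂ : P × H → ℝ≥0∞, Measurable K₁ → Measurable K₂ → ∀ f : D.Γ → D.Γ → ℝ≥0∞,
      Measurable fun q : (P × H) × (P × H) => D.st2 K₁ K₂ q.1 q.2 f)
    (K₁ K₂ K₃ K₄ : P × H → ℝ≥0∞) (m1 : Measurable K₁) (m2 : Measurable K₂)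
    (m3 : Measurable K₃) (m4 : Measurable K₄) (f : D.Γ → D.Γ → D.Γ → D.Γ → ℝ≥0∞) :
    Measurable fun z => D.IM fun x => D.IM fun x' =>
      D.st2 K₁ K₂ x z fun u v => D.st2 K₃ K₄ x' z (f u v) := by
  have h1 := f0_meas3 D hc hst1 K₁ K₂ K₃ K₄ m1 m2 m3 m4 f
  have h2 := f0_IM_meas D hσ hD.χm (fun (t : (P × H) × (P × H)) (x' : P × H) =>
    D.st2 K₁ K₂ t.2 t.1 fun u v => D.st2 K₃ K₄ x' t.1 (f u v)) h1
  exact f0_IM_meas D hσ hD.χm (fun (z x : P × H) => D.IM fun x' =>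
    D.st2 K₁ K₂ x z fun u v => D.st2 K₃ K₄ x' z (f u v)) h2

/-- `R(z; t)` is measurable in `z`. -/
private theorem f0_R_meas (D : Dat P H) (hD : D.Ok) (hσ : SigmaFinite D.μ)
    (hst1 : ∀ K₁ K₂ : P × H → ℝ≥0∞, Measurable K₁ → Measurable K₂ → ∀ f : D.Γ → D.Γ → ℝ≥0∞,
      Measurable fun q : (P × H) × (P × H) => D.st2 K₁ K₂ q.1 q.2 f)
    (K₁ K₂ : P × H → ℝ≥0∞) (m1 : Measurable K₁) (m2 : Measurable K₂) (f : D.Γ → D.Γ → ℝ≥0∞) :
    Measurable fun z => D.IM fun x => D.st2 K₁ K₂ x z f :=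
  f0_IM_meas D hσ hD.χm (fun (z x : P × H) => D.st2 K₁ K₂ x z f)
    ((hst1 K₁ K₂ m1 m2 f).comp (measurable_snd.prodMk measurable_fst))

private theorem f0_st2_one (D : Dat P H) (K₁ K₂ : P × H → ℝ≥0∞) (x z : P × H) (c : ℝ≥0∞) :
    (D.st2 K₁ K₂ x z fun _ _ => c) = D.N K₁ x z * D.N K₂ x z * c := by
  unfold Dat.st2 Dat.N
  rw [← ENNReal.tsum_mul_right, ← ENNReal.tsum_mul_right]
  refine tsum_congr fun u => ?_
  rw [← ENNReal.tsum_mul_left, ← ENNReal.tsum_mul_right]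

private theorem f0_st2_mono (D : Dat P H) (K₁ K₂ K₁' K₂' : P × H → ℝ≥0∞)
    (h1 : ∀ g, K₁ g ≤ K₁' g) (h2 : ∀ g, K₂ g ≤ K₂' g) (x z : P × H)
    (f f' : D.Γ → D.Γ → ℝ≥0∞) (hf : ∀ u v, f u v ≤ f' u v) :
    D.st2 K₁ K₂ x z f ≤ D.st2 K₁' K₂' x z f' := by
  unfold Dat.st2
  exact ENNReal.tsum_le_tsum fun u => ENNReal.tsum_le_tsum fun v =>
    mul_le_mul' (mul_le_mul' (h1 _) (h2 _)) (hf u v)

/-- The integral over `Z₀` of one term of `lp` is bounded by the `IM` of `lp`. -/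
private theorem f0_lp (D : Dat P H) (hD : D.Ok) (hσ : SigmaFinite D.μ) (hc : Countable D.Γ)
    (hst : S_st P H)
    (S Z K : Set (P × H)) (hS : MeasurableSet S) (hZK : Z ⊆ K) (Cn : ℝ≥0∞)
    (hnear : ∀ f : P × H → ℝ≥0∞, Measurable f → (∀ γ ∈ D.Γ, ∀ x, f (γ * x) = f x) →
      ∀ x : P × H, ∫⁻ q in K, f (x * q) ∂D.μ ≤ Cn * D.IM f)
    (K₁ K₂ K₃ K₄ : P × H → ℝ≥0∞) (m1 : Measurable K₁) (m2 : Measurable K₂)
    (m3 : Measurable K₃) (m4 : Measurable K₄) (φ : D.Γ → ℝ) (g : D.Γ) :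
    ∫⁻ z in Z, S.indicator (fun _ => (1 : ℝ≥0∞)) (z⁻¹ * (g : P × H) * z) *
      (D.IM fun x => D.IM fun x' => D.st2 K₁ K₂ x z fun u v => D.st2 K₃ K₄ x' z fun u' v' =>
        ab (Dv φ v (u * g) u - Dv φ v' (u' * g) u')) ∂D.μ ≤
    Cn * D.IM fun z => D.lp S z fun g => D.IM fun x => D.IM fun x' =>
      D.st2 K₁ K₂ x z fun u v => D.st2 K₃ K₄ x' z fun u' v' =>
        ab (Dv φ v (u * g) u - Dv φ v' (u' * g) u') := by
  obtain ⟨hst1, -, hst3, -, hst5, -, -, hst8⟩ := hst D hD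
  set L : P × H → ℝ≥0∞ := fun z => D.lp S z fun g => D.IM fun x => D.IM fun x' =>
      D.st2 K₁ K₂ x z fun u v => D.st2 K₃ K₄ x' z fun u' v' =>
        ab (Dv φ v (u * g) u - Dv φ v' (u' * g) u') with hL
  have mL : Measurable L := hst3 S hS (fun z g => D.IM fun x => D.IM fun x' =>
      D.st2 K₁ K₂ x z fun u v => D.st2 K₃ K₄ x' z fun u' v' =>
        ab (Dv φ v (u * g) u - Dv φ v' (u' * g) u')) (fun g =>
    f0_Phi_meas D hD hσ hc hst1 K₁ K₂ K₃ K₄ m1 m2 m3 m4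
      (fun u v u' v' => ab (Dv φ v (u * g) u - Dv φ v' (u' * g) u')))
  have iL : ∀ γ ∈ D.Γ, ∀ x, L (γ * x) = L x := by
    intro γ hγ z
    have e1 := hst8 S z ⟨γ, hγ⟩ (fun g => D.IM fun x => D.IM fun x' =>
      D.st2 K₁ K₂ x (γ * z) fun u v => D.st2 K₃ K₄ x' (γ * z) fun u' v' =>
        ab (Dv φ v (u * g) u - Dv φ v' (u' * g) u'))
    change L (γ * z) = _ at e1
    rw [e1, hL]
    congr 1
    funext g
    congr 1
    funext x
    congr 1
    funext x'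
    have e2 := hst5 K₁ K₂ x z ⟨γ, hγ⟩ (fun u v => D.st2 K₃ K₄ x' (γ * z) fun u' v' =>
        ab (Dv φ v (u * (⟨γ, hγ⟩ * g * (⟨γ, hγ⟩ : D.Γ)⁻¹)) u -
          Dv φ v' (u' * (⟨γ, hγ⟩ * g * (⟨γ, hγ⟩ : D.Γ)⁻¹)) u'))
    change D.st2 K₁ K₂ x (γ * z) _ = _ at e2
    rw [e2]
    congr 1
    funext u v
    have e3 := hst5 K₃ K₄ x' z ⟨γ, hγ⟩ (fun u' v' =>
        ab (Dv φ (v * (⟨γ, hγ⟩ : D.Γ)⁻¹) (u * (⟨γ, hγ⟩ : D.Γ)⁻¹ *
          (⟨γ, hγ⟩ * g * (⟨γ, hγ⟩ : D.Γ)⁻¹)) (u * (⟨γ, hγ⟩ : D.Γ)⁻¹) -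
          Dv φ v' (u' * (⟨γ, hγ⟩ * g * (⟨γ, hγ⟩ : D.Γ)⁻¹)) u'))
    change D.st2 K₃ K₄ x' (γ * z) _ = _ at e3
    rw [e3]
    congr 1
    funext u' v'
    rw [f0_Dv, f0_Dv]
  calc _ ≤ ∫⁻ z in Z, L z ∂D.μ := by
        refine lintegral_mono fun z => ?_
        exact ENNReal.le_tsum (f := fun g : D.Γ => S.indicator (fun _ => (1 : ℝ≥0∞))
          (z⁻¹ * (g : P × H) * z) * (D.IM fun x => D.IM fun x' =>
            D.st2 K₁ K₂ x z fun u v => D.st2 K₃ K₄ x' z fun u' v' =>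
              ab (Dv φ v (u * g) u - Dv φ v' (u' * g) u'))) g
    _ ≤ ∫⁻ z in K, L z ∂D.μ := lintegral_mono_set hZK
    _ ≤ Cn * D.IM L := by
        have := hnear L mL iL 1
        simpa only [one_mul] using this

private theorem f0_st2_add (D : Dat P H) (K₁ K₂ : P × H → ℝ≥0∞) (x z : P × H)
    (f g : D.Γ → D.Γ → ℝ≥0∞) :
    (D.st2 K₁ K₂ x z fun u v => f u v + g u v) = D.st2 K₁ K₂ x z f + D.st2 K₁ K₂ x z g := by
  unfold Dat.st2
  rw [← ENNReal.tsum_add]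
  refine tsum_congr fun u => ?_
  rw [← ENNReal.tsum_add]
  exact tsum_congr fun v => mul_add _ _ _

private theorem f0_st2_cmul (D : Dat P H) (K₁ K₂ : P × H → ℝ≥0∞) (x z : P × H) (c : ℝ≥0∞)
    (f : D.Γ → D.Γ → ℝ≥0∞) :
    (D.st2 K₁ K₂ x z fun u v => c * f u v) = c * D.st2 K₁ K₂ x z f := by
  unfold Dat.st2
  rw [← ENNReal.tsum_mul_left]
  refine tsum_congr fun u => ?_
  rw [← ENNReal.tsum_mul_left]
  refine tsum_congr fun v => ?_
  ring

private theorem f0_IM_add (D : Dat P H) (hD : D.Ok) (f g : P × H → ℝ≥0∞) (hg : Measurable g) :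
    D.IM (fun x => f x + g x) = D.IM f + D.IM g := by
  unfold Dat.IM
  have h1 : Measurable fun x => D.χ x * g x := hD.χm.mul hg
  rw [← lintegral_add_right _ h1]
  exact lintegral_congr fun y => mul_add _ _ _

private theorem f0_IM_cmul (D : Dat P H) (c : ℝ≥0∞) (hc : c ≠ ∞) (f : P × H → ℝ≥0∞) :
    D.IM (fun x => c * f x) = c * D.IM f := by
  unfold Dat.IM
  rw [← lintegral_const_mul' _ _ hc]
  refine lintegral_congr fun x => ?_
  ring

/-- Sum of the `IM` of the single terms. -/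
private theorem f0_sumIM (D : Dat P H) (hD : D.Ok) (hc : Countable D.Γ)
    (K₁ K₂ : P × H → ℝ≥0∞) (m1 : Measurable K₁) (m2 : Measurable K₂) (z : P × H)
    (θ : D.Γ → D.Γ → ℝ≥0∞) :
    ∑' u : D.Γ, ∑' v : D.Γ, D.IM (fun x => K₁ (x⁻¹ * (u : P × H) * z) *
      K₂ (x⁻¹ * (v : P × H) * z)) * θ u v = D.IM fun x => D.st2 K₁ K₂ x z θ := by
  have b1 : ∀ u : P × H, Measurable fun x : P × H => K₁ (x⁻¹ * u * z) := fun u =>
    m1.comp ((measurable_inv.mul_const _).mul_const _)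
  have b2 : ∀ u : P × H, Measurable fun x : P × H => K₂ (x⁻¹ * u * z) := fun u =>
    m2.comp ((measurable_inv.mul_const _).mul_const _)
  have b3 : ∀ u v : P × H, Measurable fun x : P × H =>
      D.χ x * (K₁ (x⁻¹ * u * z) * K₂ (x⁻¹ * v * z)) := fun u v =>
    hD.χm.mul ((b1 u).mul (b2 v))
  have e1 : ∀ x, D.χ x * D.st2 K₁ K₂ x z θ = ∑' u : D.Γ, ∑' v : D.Γ,
      D.χ x * (K₁ (x⁻¹ * (u : P × H) * z) * K₂ (x⁻¹ * (v : P × H) * z)) * θ u v := by
    intro x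
    unfold Dat.st2
    rw [← ENNReal.tsum_mul_left]
    refine tsum_congr fun u => ?_
    rw [← ENNReal.tsum_mul_left]
    refine tsum_congr fun v => ?_
    ring
  unfold Dat.IM
  simp_rw [e1]
  rw [lintegral_tsum]
  · refine tsum_congr fun u => ?_
    rw [lintegral_tsum]
    · refine tsum_congr fun v => ?_
      exact (lintegral_mul_const _ (b3 u v)).symm
    · intro v
      exact ((b3 u v).mul_const _).aemeasurable
  · intro u
    exact (Measurable.tsum fun v : D.Γ => (b3 u v).mul_const _).aemeasurable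

/-- The weights `W` of the reference copies, and the pigeonhole. -/
private theorem f0_ref (D : Dat P H) (hD : D.Ok) (hσ : SigmaFinite D.μ)
    (hH : D.μ.IsMulLeftInvariant) (hc : Countable D.Γ) (hst : S_st P H)
    (S Z₀ Z' Q K : Set (P × H)) (hS : MeasurableSet S) (hZ₀ : MeasurableSet Z₀)
    (hZ' : MeasurableSet Z') (hQ : MeasurableSet Q) (hZK : Z₀ ⊆ K)
    (hZQ : ∀ z ∈ Z₀, ∀ q, z * q ∈ Z' → q ∈ Q) (hZ'0 : 0 < D.μ Z') (hZ't : D.μ Z' ≠ ∞)
    (hQt : D.μ Q ≠ ∞) (Cn : ℝ≥0∞) (hCn : Cn ≠ ∞)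
    (hnear : ∀ f : P × H → ℝ≥0∞, Measurable f → (∀ γ ∈ D.Γ, ∀ x, f (γ * x) = f x) →
      ∀ x : P × H, ∫⁻ q in K, f (x * q) ∂D.μ ≤ Cn * D.IM f)
    (w₁ w₂ w₁' w₂' w₁'' w₂'' : P × H → ℝ≥0∞) (m1 : Measurable w₁) (m2 : Measurable w₂)
    (m1' : Measurable w₁') (m2' : Measurable w₂')
    (m1'' : Measurable w₁'') (m2'' : Measurable w₂'')
    (h1 : ∀ g, w₁ g ≤ w₁' g) (h2 : ∀ g, w₂ g ≤ w₂' g)
    (Ch : ℝ≥0∞) (hCh : Ch ≠ ∞) (h1q : ∀ q ∈ Q, ∀ w, w₁ (w * q) ≤ Ch * w₁'' w)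
    (h2q : ∀ q ∈ Q, ∀ w, w₂ (w * q) ≤ Ch * w₂'' w)
    (c C : ℝ≥0∞) (hc0 : 0 < c) (hCt : C ≠ ∞)
    (hN1 : ∀ x y, c ≤ D.N w₁ x y ∧ D.N w₁ x y ≤ C)
    (hN2 : ∀ x y, c ≤ D.N w₂ x y ∧ D.N w₂ x y ≤ C)
    (φ : D.Γ → ℝ) (g : D.Γ) (B : ℝ≥0∞) (hB : B ≠ ∞)
    (hPI : (D.IM fun z => D.lp S z fun g => D.IM fun x => D.IM fun x' =>
      D.st2 w₁'' w₂'' x z fun u v => D.st2 w₁' w₂' x' z fun u' v' =>
        ab (Dv φ v (u * g) u - Dv φ v' (u' * g) u')) ≤ B) :
    ∃ t : ℝ, ∫⁻ z in Z₀, S.indicator (fun _ => (1 : ℝ≥0∞)) (z⁻¹ * (g : P × H) * z) *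
      (D.IM fun x => D.st2 w₁ w₂ x z fun u v => ab (Dv φ v (u * g) u - t)) ∂D.μ ≤
      D.μ Q * Ch ^ 2 * (Cn * B) / (c * c * D.μ Z') := by
  obtain ⟨hst1, -⟩ := hst D hD
  set ind : P × H → ℝ≥0∞ := fun z =>
    S.indicator (fun _ => (1 : ℝ≥0∞)) (z⁻¹ * (g : P × H) * z) with hind
  have mind : Measurable ind :=
    (measurable_const.indicator hS).comp ((measurable_inv.mul_const _).mul measurable_id)
  set Dq : D.Γ × D.Γ → ℝ := fun i => Dv φ i.2 (i.1 * g) i.1 with hDq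
  set R : P × H → ℝ → ℝ≥0∞ := fun z t =>
    D.IM fun x => D.st2 w₁ w₂ x z fun u v => ab (Dq (u, v) - t) with hR
  have mR : ∀ t, Measurable fun z => R z t := fun t =>
    f0_R_meas D hD hσ hst1 w₁ w₂ m1 m2 _
  set V : D.Γ × D.Γ → P × H → ℝ≥0∞ := fun i z' =>
    D.IM fun x' => w₁ (x'⁻¹ * (i.1 : P × H) * z') * w₂ (x'⁻¹ * (i.2 : P × H) * z') with hV
  have mV : ∀ i, Measurable (V i) := by
    intro i
    refine f0_IM_meas D hσ hD.χm (fun (z' x' : P × H) =>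
      w₁ (x'⁻¹ * (i.1 : P × H) * z') * w₂ (x'⁻¹ * (i.2 : P × H) * z')) ?_
    exact (m1.comp ((measurable_snd.inv.mul_const _).mul measurable_fst)).mul
      (m2.comp ((measurable_snd.inv.mul_const _).mul measurable_fst))
  set W : D.Γ × D.Γ → ℝ≥0∞ := fun i => ∫⁻ z' in Z', V i z' ∂D.μ with hW
  -- the total mass
  have hVs : ∀ z', ∑' i : D.Γ × D.Γ, V i z' = D.IM fun x' => D.N w₁ x' z' * D.N w₂ x' z' := by
    intro z'
    have e1 := f0_sumIM D hD hc w₁ w₂ m1 m2 z' (fun _ _ => 1)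
    have e2 : ∀ x', (D.st2 w₁ w₂ x' z' fun _ _ => 1) = D.N w₁ x' z' * D.N w₂ x' z' := by
      intro x'
      rw [f0_st2_one, mul_one]
    simp_rw [e2] at e1
    rw [← e1, ENNReal.tsum_prod']
    refine tsum_congr fun u => tsum_congr fun v => ?_
    rw [mul_one]
  have hWs : ∑' i, W i = ∫⁻ z' in Z', (D.IM fun x' => D.N w₁ x' z' * D.N w₂ x' z') ∂D.μ := by
    rw [hW, ← lintegral_tsum fun i => (mV i).aemeasurable]
    exact lintegral_congr hVs
  have hlow : c * c * D.μ Z' ≤ ∑' i, W i := by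
    rw [hWs, ← setLIntegral_const]
    refine lintegral_mono fun z' => ?_
    calc c * c = D.IM fun _ => c * c := (f0_IM_const D hD _).symm
      _ ≤ _ := f0_IM_mono D _ _ fun x' => mul_le_mul' (hN1 _ _).1 (hN2 _ _).1
  have hup : ∑' i, W i ≠ ∞ := by
    have h3 : ∑' i, W i ≤ C * C * D.μ Z' := by
      rw [hWs, ← setLIntegral_const]
      refine lintegral_mono fun z' => ?_
      calc _ ≤ D.IM fun _ => C * C :=
            f0_IM_mono D _ _ fun x' => mul_le_mul' (hN1 _ _).2 (hN2 _ _).2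
        _ = C * C := f0_IM_const D hD _
    exact ne_top_of_le_ne_top (ENNReal.mul_ne_top (ENNReal.mul_ne_top hCt hCt) hZ't) h3
  -- comparison
  have hcmp : ∀ z ∈ Z₀, ∀ i : D.Γ × D.Γ, W i ≤ D.μ Q * Ch ^ 2 *
      D.IM fun x' => w₁'' (x'⁻¹ * (i.1 : P × H) * z) * w₂'' (x'⁻¹ * (i.2 : P × H) * z) := by
    intro z hz i
    have hCh2 : Ch ^ 2 ≠ ∞ := ENNReal.pow_ne_top hCh
    calc W i = ∫⁻ q, Z'.indicator (V i) (z * q) ∂D.μ := by
          rw [hW, lintegral_mul_left_eq_self (fun q => Z'.indicator (V i) q) z,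
            lintegral_indicator hZ']
      _ ≤ ∫⁻ q, Q.indicator (fun _ => Ch ^ 2 * D.IM fun x' =>
            w₁'' (x'⁻¹ * (i.1 : P × H) * z) * w₂'' (x'⁻¹ * (i.2 : P × H) * z)) q ∂D.μ := by
          refine lintegral_mono fun q => ?_
          change Z'.indicator (V i) (z * q) ≤ Q.indicator _ q
          by_cases hq : z * q ∈ Z'
          · have hqQ := hZQ z hz q hq
            rw [Set.indicator_of_mem hq, Set.indicator_of_mem hqQ, ← f0_IM_cmul D _ hCh2]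
            refine f0_IM_mono D _ _ fun x' => ?_
            have g1 : ∀ u : P × H, x'⁻¹ * u * (z * q) = x'⁻¹ * u * z * q := fun u => by group
            rw [g1, g1]
            calc _ ≤ (Ch * w₁'' (x'⁻¹ * (i.1 : P × H) * z)) *
                  (Ch * w₂'' (x'⁻¹ * (i.2 : P × H) * z)) :=
                  mul_le_mul' (h1q q hqQ _) (h2q q hqQ _)
              _ = _ := by ring
          · rw [Set.indicator_of_notMem hq]
            exact zero_le
      _ = _ := by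
          rw [lintegral_indicator hQ, setLIntegral_const]
          ring
  -- the averaged bound
  have havg : ∑' i, W i * ∫⁻ z in Z₀, ind z * R z (Dq i) ∂D.μ ≤
      D.μ Q * Ch ^ 2 * (Cn * B) := by
    have e1 : ∀ i, W i * ∫⁻ z in Z₀, ind z * R z (Dq i) ∂D.μ =
        ∫⁻ z in Z₀, W i * (ind z * R z (Dq i)) ∂D.μ := fun i =>
      (lintegral_const_mul _ (mind.mul (mR (Dq i)))).symm
    simp_rw [e1]
    have mm : ∀ i, Measurable fun z => W i * (ind z * R z (Dq i)) := fun i =>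
      (mind.mul (mR (Dq i))).const_mul (W i)
    rw [← lintegral_tsum fun i => (mm i).aemeasurable]
    have hQC : D.μ Q * Ch ^ 2 ≠ ∞ := ENNReal.mul_ne_top hQt (ENNReal.pow_ne_top hCh)
    calc ∫⁻ z in Z₀, ∑' i, W i * (ind z * R z (Dq i)) ∂D.μ
        ≤ ∫⁻ z in Z₀, D.μ Q * Ch ^ 2 * (ind z * (D.IM fun x => D.IM fun x' =>
            D.st2 w₁'' w₂'' x z fun u v => D.st2 w₁' w₂' x' z fun u' v' =>
              ab (Dv φ v (u * g) u - Dv φ v' (u' * g) u'))) ∂D.μ := by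
          refine setLIntegral_mono' hZ₀ fun z hz => ?_
          have e2 : ∀ i, W i * (ind z * R z (Dq i)) = ind z * (W i * R z (Dq i)) := fun i => by
            ring
          simp_rw [e2]
          rw [ENNReal.tsum_mul_left]
          have e3 : ∑' i, W i * R z (Dq i) ≤ D.μ Q * Ch ^ 2 * (D.IM fun x => D.IM fun x' =>
            D.st2 w₁'' w₂'' x z fun u v => D.st2 w₁' w₂' x' z fun u' v' =>
              ab (Dv φ v (u * g) u - Dv φ v' (u' * g) u')) := by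
            calc ∑' i, W i * R z (Dq i) ≤ ∑' i : D.Γ × D.Γ, D.μ Q * Ch ^ 2 *
                  ((D.IM fun x' => w₁'' (x'⁻¹ * (i.1 : P × H) * z) *
                    w₂'' (x'⁻¹ * (i.2 : P × H) * z)) * R z (Dq i)) := by
                  refine ENNReal.tsum_le_tsum fun i => ?_
                  rw [← mul_assoc]
                  exact mul_le_mul_left (hcmp z hz i) _
              _ = D.μ Q * Ch ^ 2 * D.IM fun x' => D.st2 w₁'' w₂'' x' z fun u v =>
                    R z (Dq (u, v)) := by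
                  rw [ENNReal.tsum_mul_left, ENNReal.tsum_prod',
                    ← f0_sumIM D hD hc w₁'' w₂'' m1'' m2'' z fun u v => R z (Dq (u, v))]
              _ ≤ D.μ Q * Ch ^ 2 * D.IM fun x' => D.st2 w₁'' w₂'' x' z fun u v =>
                    D.IM fun x => D.st2 w₁' w₂' x z fun u' v' =>
                      ab (Dv φ v (u * g) u - Dv φ v' (u' * g) u') := by
                  refine mul_le_mul_right (f0_IM_mono D _ _ fun x' =>
                    f0_st2_mono D _ _ _ _ (fun _ => le_rfl) (fun _ => le_rfl) _ _ _ _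
                      fun u v => f0_IM_mono D _ _ fun x =>
                        f0_st2_mono D _ _ _ _ h1 h2 _ _ _ _ fun u' v' => ?_) _
                  exact (f0_ab_symm _ _).le
              _ = _ := by
                  congr 1
                  congr 1
                  funext x'
                  exact f0_pull D hD hc hst1 w₁'' w₂'' w₁' w₂' m1' m2' x' z
                    (fun u v u' v' => ab (Dv φ v (u * g) u - Dv φ v' (u' * g) u'))
          calc ind z * ∑' i, W i * R z (Dq i) ≤ ind z * (D.μ Q * Ch ^ 2 *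
                (D.IM fun x => D.IM fun x' =>
            D.st2 w₁'' w₂'' x z fun u v => D.st2 w₁' w₂' x' z fun u' v' =>
              ab (Dv φ v (u * g) u - Dv φ v' (u' * g) u'))) := mul_le_mul_right e3 _
            _ = _ := by ring
      _ = D.μ Q * Ch ^ 2 * ∫⁻ z in Z₀, ind z * (D.IM fun x => D.IM fun x' =>
            D.st2 w₁'' w₂'' x z fun u v => D.st2 w₁' w₂' x' z fun u' v' =>
              ab (Dv φ v (u * g) u - Dv φ v' (u' * g) u')) ∂D.μ :=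
          lintegral_const_mul' _ _ hQC
      _ ≤ D.μ Q * Ch ^ 2 * (Cn * B) := by
          refine mul_le_mul_right ((f0_lp D hD hσ hc hst S Z₀ K hS hZK Cn hnear w₁'' w₂'' w₁' w₂'
            m1'' m2'' m1' m2' φ g).trans (mul_le_mul_right hPI _)) _
  obtain ⟨i, hi⟩ := f0_pig W (fun i => ∫⁻ z in Z₀, ind z * R z (Dq i) ∂D.μ)
    (D.μ Q * Ch ^ 2 * (Cn * B)) (c * c * D.μ Z')
    (ENNReal.mul_ne_top (ENNReal.mul_ne_top hQt (ENNReal.pow_ne_top hCh))
      (ENNReal.mul_ne_top hCn hB))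
    (ENNReal.mul_pos (mul_ne_zero hc0.ne' hc0.ne') hZ'0.ne') hlow hup havg
  exact ⟨Dq i, hi⟩

/-- (B). -/
private theorem f0_B (D : Dat P H) (hD : D.Ok) (hσ : SigmaFinite D.μ)
    (hc : Countable D.Γ) (hst : S_st P H)
    (S Z₀ K : Set (P × H)) (hS : MeasurableSet S) (hZK : Z₀ ⊆ K)
    (Cn : ℝ≥0∞)
    (hnear : ∀ f : P × H → ℝ≥0∞, Measurable f → (∀ γ ∈ D.Γ, ∀ x, f (γ * x) = f x) →
      ∀ x : P × H, ∫⁻ q in K, f (x * q) ∂D.μ ≤ Cn * D.IM f)
    (w₁ w₂ w₁' w₂' a₁ a₂ a₁' a₂' : P × H → ℝ≥0∞) (m1 : Measurable w₁) (m2 : Measurable w₂)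
    (m1' : Measurable w₁') (m2' : Measurable w₂') (n1 : Measurable a₁) (n2 : Measurable a₂)
    (n1' : Measurable a₁') (n2' : Measurable a₂')
    (h1 : ∀ g, w₁ g ≤ w₁' g) (h2 : ∀ g, w₂ g ≤ w₂' g)
    (k1 : ∀ g, a₁ g ≤ a₁' g) (k2 : ∀ g, a₂ g ≤ a₂' g)
    (c C : ℝ≥0∞) (hcct : c * c ≠ ∞) (hCC : C * C ≠ ∞)
    (hN1 : ∀ x y, c ≤ D.N w₁ x y) (hN2 : ∀ x y, c ≤ D.N w₂ x y)
    (hA1 : ∀ x y, D.N a₁ x y ≤ C) (hA2 : ∀ x y, D.N a₂ x y ≤ C)
    (φ : D.Γ → ℝ) (g : D.Γ) (B T : ℝ≥0∞) (t : ℝ)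
    (hPI : (D.IM fun z => D.lp S z fun g => D.IM fun x => D.IM fun x' =>
      D.st2 a₁' a₂' x z fun u v => D.st2 w₁' w₂' x' z fun u' v' =>
        ab (Dv φ v (u * g) u - Dv φ v' (u' * g) u')) ≤ B)
    (ht : ∫⁻ z in Z₀, S.indicator (fun _ => (1 : ℝ≥0∞)) (z⁻¹ * (g : P × H) * z) *
      (D.IM fun x => D.st2 w₁ w₂ x z fun u v => ab (Dv φ v (u * g) u - t)) ∂D.μ ≤ T) :
    c * c * ∫⁻ z in Z₀, S.indicator (fun _ => (1 : ℝ≥0∞)) (z⁻¹ * (g : P × H) * z) *
      (D.IM fun x => D.st2 a₁ a₂ x z fun u v => ab (Dv φ v (u * g) u - t)) ∂D.μ ≤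
      Cn * B + C * C * T := by
  obtain ⟨hst1, -⟩ := hst D hD
  set ind : P × H → ℝ≥0∞ := fun z =>
    S.indicator (fun _ => (1 : ℝ≥0∞)) (z⁻¹ * (g : P × H) * z) with hind
  have mind : Measurable ind :=
    (measurable_const.indicator hS).comp ((measurable_inv.mul_const _).mul measurable_id)
  set R : P × H → ℝ≥0∞ := fun z =>
    D.IM fun x => D.st2 w₁ w₂ x z fun u v => ab (Dv φ v (u * g) u - t) with hR
  have mR : Measurable R := f0_R_meas D hD hσ hst1 w₁ w₂ m1 m2 _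
  set Φ : P × H → ℝ≥0∞ := fun z => D.IM fun x => D.IM fun x' =>
      D.st2 a₁' a₂' x z fun u v => D.st2 w₁' w₂' x' z fun u' v' =>
        ab (Dv φ v (u * g) u - Dv φ v' (u' * g) u') with hΦ
  have hmx : ∀ (K₁ K₂ : P × H → ℝ≥0∞) (_ : Measurable K₁) (_ : Measurable K₂) (z : P × H)
      (f : D.Γ → D.Γ → ℝ≥0∞), Measurable fun x => D.st2 K₁ K₂ x z f := by
    intro K₁ K₂ q1 q2 z f
    have h0 : Measurable fun x' : P × H => ((x', z) : (P × H) × (P × H)) :=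
      measurable_id.prodMk measurable_const
    exact (hst1 K₁ K₂ q1 q2 f).comp h0
  have hpt : ∀ z, c * c * (D.IM fun x => D.st2 a₁ a₂ x z fun u v =>
      ab (Dv φ v (u * g) u - t)) ≤ Φ z + C * C * R z := by
    intro z
    calc c * c * (D.IM fun x => D.st2 a₁ a₂ x z fun u v => ab (Dv φ v (u * g) u - t))
        = D.IM fun x => D.st2 a₁ a₂ x z fun u v => c * c * ab (Dv φ v (u * g) u - t) := by
          rw [← f0_IM_cmul D _ hcct]
          congr 1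
          funext x
          exact (f0_st2_cmul D _ _ _ _ _ _).symm
      _ ≤ D.IM fun x => D.st2 a₁ a₂ x z fun u v =>
            (D.IM fun x' => D.st2 w₁ w₂ x' z fun u' v' =>
              ab (Dv φ v (u * g) u - Dv φ v' (u' * g) u')) + R z := by
          refine f0_IM_mono D _ _ fun x => f0_st2_mono D _ _ _ _ (fun _ => le_rfl)
            (fun _ => le_rfl) _ _ _ _ fun u v => ?_
          calc c * c * ab (Dv φ v (u * g) u - t)
              = D.IM fun _ => c * c * ab (Dv φ v (u * g) u - t) := (f0_IM_const D hD _).symm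
            _ ≤ D.IM fun x' => D.st2 w₁ w₂ x' z fun _ _ => ab (Dv φ v (u * g) u - t) := by
                refine f0_IM_mono D _ _ fun x' => ?_
                rw [f0_st2_one]
                exact mul_le_mul_left (mul_le_mul' (hN1 _ _) (hN2 _ _)) _
            _ ≤ D.IM fun x' => D.st2 w₁ w₂ x' z fun u' v' =>
                ab (Dv φ v (u * g) u - Dv φ v' (u' * g) u') +
                  ab (Dv φ v' (u' * g) u' - t) := by
                refine f0_IM_mono D _ _ fun x' => f0_st2_mono D _ _ _ _ (fun _ => le_rfl)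
                  (fun _ => le_rfl) _ _ _ _ fun u' v' => f0_ab _ _ _
            _ = D.IM fun x' => (D.st2 w₁ w₂ x' z fun u' v' =>
                ab (Dv φ v (u * g) u - Dv φ v' (u' * g) u')) +
                  D.st2 w₁ w₂ x' z fun u' v' => ab (Dv φ v' (u' * g) u' - t) := by
                congr 1
                funext x'
                exact f0_st2_add D _ _ _ _ _ _
            _ = _ := f0_IM_add D hD _ _ (hmx w₁ w₂ m1 m2 z _)
      _ = (D.IM fun x => D.st2 a₁ a₂ x z fun u v =>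
            (D.IM fun x' => D.st2 w₁ w₂ x' z fun u' v' =>
              ab (Dv φ v (u * g) u - Dv φ v' (u' * g) u'))) +
            D.IM fun x => D.st2 a₁ a₂ x z fun _ _ => R z := by
          rw [← f0_IM_add D hD _ _ (hmx a₁ a₂ n1 n2 z _)]
          congr 1
          funext x
          exact f0_st2_add D _ _ _ _ _ _
      _ ≤ Φ z + C * C * R z := by
          refine add_le_add ?_ ?_
          · refine f0_IM_mono D _ _ fun x => ?_
            rw [f0_pull D hD hc hst1 a₁ a₂ w₁ w₂ m1 m2 x z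
              (fun u v u' v' => ab (Dv φ v (u * g) u - Dv φ v' (u' * g) u'))]
            exact f0_IM_mono D _ _ fun x' => f0_st2_mono D _ _ _ _ k1 k2 _ _ _ _
              fun u v => f0_st2_mono D _ _ _ _ h1 h2 _ _ _ _ fun u' v' => le_rfl
          · calc _ ≤ D.IM fun _ => C * C * R z := by
                  refine f0_IM_mono D _ _ fun x => ?_
                  rw [f0_st2_one]
                  exact mul_le_mul_left (mul_le_mul' (hA1 _ _) (hA2 _ _)) _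
              _ = _ := f0_IM_const D hD _
  calc c * c * ∫⁻ z in Z₀, ind z *
        (D.IM fun x => D.st2 a₁ a₂ x z fun u v => ab (Dv φ v (u * g) u - t)) ∂D.μ
      = ∫⁻ z in Z₀, c * c * (ind z *
        (D.IM fun x => D.st2 a₁ a₂ x z fun u v => ab (Dv φ v (u * g) u - t))) ∂D.μ :=
        (lintegral_const_mul' _ _ hcct).symm
    _ ≤ ∫⁻ z in Z₀, (ind z * Φ z + C * C * (ind z * R z)) ∂D.μ := by
        refine lintegral_mono fun z => ?_
        calc c * c * (ind z *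
              (D.IM fun x => D.st2 a₁ a₂ x z fun u v => ab (Dv φ v (u * g) u - t)))
            = ind z * (c * c *
              (D.IM fun x => D.st2 a₁ a₂ x z fun u v => ab (Dv φ v (u * g) u - t))) := by ring
          _ ≤ ind z * (Φ z + C * C * R z) := mul_le_mul_right (hpt z) _
          _ = _ := by ring
    _ = (∫⁻ z in Z₀, ind z * Φ z ∂D.μ) + C * C * ∫⁻ z in Z₀, ind z * R z ∂D.μ := by
        have mm : Measurable fun z => C * C * (ind z * R z) := (mind.mul mR).const_mul _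
        rw [lintegral_add_right _ mm, lintegral_const_mul' _ _ hCC]
    _ ≤ Cn * B + C * C * T := by
        refine add_le_add ?_ (mul_le_mul_right ht _)
        exact (f0_lp D hD hσ hc hst S Z₀ K hS hZK Cn hnear a₁' a₂' w₁' w₂' n1' n2' m1' m2' φ g).trans
          (mul_le_mul_right hPI _)

end

section
variable (P H : Type) [Group P] [Group H] [TopologicalSpace P] [TopologicalSpace H]
  [IsTopologicalGroup P] [IsTopologicalGroup H] [LocallyCompactSpace P] [LocallyCompactSpace H]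
  [T2Space P] [T2Space H] [SecondCountableTopology P] [SecondCountableTopology H]
  [MeasurableSpace P] [MeasurableSpace H] [BorelSpace P] [BorelSpace H]

theorem tF0 : S_dec → S_inst P H → S_O P H → S_st P H → S_near P H → S_hk P H → S_bd P H →
    S_PI P H → S_F0 P H := by
  intro hdec hi hO hst hnear hhk hbd hPI D G M ka kb hCx c₁ c₂ c₃ hc13
  have hD := hCx.d
  have hG := hCx.g
  obtain ⟨-, hσ₂, hσ, hc, hHaar, hLeft, -⟩ := hi D hD
  obtain ⟨hO1, hO2, hO3, -, -, hO6, -⟩ := hO D hD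
  obtain ⟨-, hv4, -⟩ := hdec
  have hnm : ∀ n, Measurable (D.nu n) := f0_nu_meas D hD hσ₂
  have hBm : ∀ k, G.B k ⊆ G.B (k + 1) := by
    intro k g hg
    have := hG.bm k (Set.mul_mem_mul hg (hG.b1 k))
    rwa [mul_one] at this
  have hB9 : ∀ k, k ≤ 9 → G.B k ⊆ G.B 9 := by
    intro k hk
    induction hk using Nat.decreasingInduction with
    | self => exact subset_rfl
    | of_succ k hk ih => exact (hBm k).trans ih
  have hOm54 : ∀ a : Ty, G.Om M a 5 ⊆ G.Om M a 4 := by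
    intro a g hg
    have := hG.om M a 4 (Set.mul_mem_mul (Set.mul_mem_mul (hG.b1 9) hg) (hG.b1 9))
    rwa [one_mul, mul_one] at this
  have hmO : ∀ (a : Ty) (l n : ℕ), Measurable (D.tk (iK (G.Om M a l)) n) := fun a l n =>
    f0_tk_meas D hnm _ (measurable_const.indicator (hG.oo M a l).measurableSet) n
  have hOp : ∀ n, MeasurableSet (D.O ^ n) := by
    intro n
    rcases Nat.eq_zero_or_pos n with h | h
    · rw [h, pow_zero]
      exact measurableSet_singleton (1 : H)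
    · exact (hO1 n h).measurableSet
  have hprod : ∀ k n, D.μ (G.B k ×ˢ (D.O ^ n)) ≠ ∞ := by
    intro k n
    have h1 : G.B k ×ˢ (D.O ^ n) ⊆ closure (G.B k) ×ˢ closure (D.O ^ n) :=
      Set.prod_mono subset_closure subset_closure
    exact ne_top_of_le_ne_top ((hG.bc k).prod (hO6 n)).measure_lt_top.ne (measure_mono h1)
  obtain ⟨b, c, C, hb, hc0, hCt, hbd1⟩ := (hbd D G hD hG).1 M hCx.ne hCx.nm
  obtain ⟨Cn, hCn, hnr⟩ := (hnear D hD).2.1 (closure (G.B 2) ×ˢ closure (D.O ^ c₂))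
    ((hG.bc 2).prod (hO6 c₂))
  obtain ⟨CP, cP, hCP, hPI'⟩ := hPI D G M ka kb hCx c₃
  obtain ⟨Ch, hCh, hkk⟩ := hhk D hD (c₂ + 1)
  have hct : c ≠ ∞ := by
    have h1 := (hbd1 1 1).1 (0, 4) 5 b (by norm_num) le_rfl
    have h2 := (hbd1 1 1).2.2 (0, 4) 5 b (by norm_num)
    exact ne_top_of_le_ne_top hCt (h1.trans h2)
  have hcc0 : c * c ≠ 0 := mul_ne_zero hc0.ne' hc0.ne'
  have hcct : c * c ≠ ∞ := ENNReal.mul_ne_top hct hct
  have hCC : C * C ≠ ∞ := ENNReal.mul_ne_top hCt hCt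
  set S : Set (P × H) := G.B 7 ×ˢ (D.O ^ c₃) with hSd
  set Z₀ : Set (P × H) := G.B 2 ×ˢ (D.O ^ c₂) with hZ₀d
  set Z' : Set (P × H) := G.B 0 ×ˢ (D.O ^ 1) with hZ'd
  set Q : Set (P × H) := G.B 3 ×ˢ (D.O ^ (c₂ + 1)) with hQd
  have hS : MeasurableSet S := (hG.bo 7).measurableSet.prod (hOp c₃)
  have hZ₀ : MeasurableSet Z₀ := (hG.bo 2).measurableSet.prod (hOp c₂)
  have hZ' : MeasurableSet Z' := (hG.bo 0).measurableSet.prod (hOp 1)
  have hQ : MeasurableSet Q := (hG.bo 3).measurableSet.prod (hOp _)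
  have hZK : Z₀ ⊆ closure (G.B 2) ×ˢ closure (D.O ^ c₂) :=
    Set.prod_mono subset_closure subset_closure
  have hZQ : ∀ z ∈ Z₀, ∀ q, z * q ∈ Z' → q ∈ Q := by
    rintro z ⟨hz1, hz2⟩ q ⟨hq1, hq2⟩
    constructor
    · have h1 : q.1 = z.1⁻¹ * (z * q).1 := by
        rw [Prod.fst_mul, inv_mul_cancel_left]
      rw [h1]
      exact hG.bm 2 (Set.mul_mem_mul (hG.bi 2 _ hz1) ((hBm 0).trans (hBm 1) hq1))
    · have h1 : q.2 = z.2⁻¹ * (z * q).2 := by
        rw [Prod.snd_mul, inv_mul_cancel_left]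
      rw [h1, pow_succ]
      rw [pow_one] at hq2
      exact Set.mul_mem_mul (hO3 _ _ hz2) hq2
  have hZ'0 : 0 < D.μ Z' := by
    have ho : IsOpen Z' := (hG.bo 0).prod (hO1 1 le_rfl)
    exact ho.measure_pos D.μ ⟨(1, 1), hG.b1 0, hO2 1⟩
  have hZ't : D.μ Z' ≠ ∞ := hprod 0 1
  have hQt : D.μ Q ≠ ∞ := hprod 3 (c₂ + 1)
  have hm0 : c * c * D.μ Z' ≠ 0 := mul_ne_zero hcc0 hZ'0.ne'
  set C₅ : ℝ≥0∞ := (c * c)⁻¹ * (Cn * CP + C * C * (D.μ Q * Ch ^ 2 * (Cn * CP) /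
    (c * c * D.μ Z'))) + 1 with hC₅
  have hC₅t : C₅ ≠ ∞ := by
    refine ENNReal.add_ne_top.mpr ⟨ENNReal.mul_ne_top (ENNReal.inv_ne_top.mpr hcc0)
      (ENNReal.add_ne_top.mpr ⟨ENNReal.mul_ne_top hCn hCP, ENNReal.mul_ne_top hCC
        (ENNReal.div_ne_top ?_ hm0)⟩), ENNReal.one_ne_top⟩
    exact ENNReal.mul_ne_top (ENNReal.mul_ne_top hQt (ENNReal.pow_ne_top hCh))
      (ENNReal.mul_ne_top hCn hCP)
  refine ⟨C₅, cP + 2 * c₂ + 4 + b + 1, hC₅t, fun r φ hr hφ => ?_⟩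
  by_cases hE : D.EE ka r φ = ∞
  · refine ⟨fun _ => 0, fun g _ e j n m _ _ _ => ?_⟩
    have h1 : C₅ * D.EE ka r φ = ∞ := by
      rw [hE]
      refine ENNReal.mul_top ?_
      exact (lt_of_lt_of_le one_pos le_add_self).ne'
    rw [h1]
    exact le_top
  have hw : ∀ (a : Ty) (q : P × H), q ∈ Q → ∀ w, D.tk (iK (G.Om M a 5)) (2 * r) (w * q) ≤
      Ch * D.tk (iK (G.Om M a 4)) (2 * r + 2 * c₂ + 4) w := by
    intro a q hq w
    have h1 := hkk (G.B 9) (G.Om M a 5) (G.Om M a 4)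
      (fun q hq g hg q' hq' => hG.om M a 4 (Set.mul_mem_mul (Set.mul_mem_mul hq hg) hq'))
      (2 * r) (by omega) (w * q) 1 q⁻¹ ⟨hG.b1 9, hO2 _⟩
      ⟨hG.bi 9 _ (hB9 3 (by norm_num) hq.1), hO3 _ _ hq.2⟩
    have h2 : 1 * (w * q) * q⁻¹ = w := by group
    have h3 : 2 * r + 2 * (c₂ + 1) + 2 = 2 * r + 2 * c₂ + 4 := by ring
    rwa [h2, h3] at h1
  have hRa : RG r cP (2 * r) := ⟨by omega, by omega⟩
  have hRb : RG r cP (2 * r + 2 * c₂ + 4) := ⟨by omega, by omega⟩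
  have hPIr := hPI' r φ (by omega) hφ false 4 false 4 hv4 hv4 (2 * r + 2 * c₂ + 4)
    (2 * r + 2 * c₂ + 4) (2 * r) (2 * r) hRb hRb hRa hRa
  have hBt : CP * D.EE ka r φ ≠ ∞ := ENNReal.mul_ne_top hCP hE
  have hex : ∀ g : D.Γ, ∃ t : ℝ, ∫⁻ z in Z₀,
      S.indicator (fun _ => (1 : ℝ≥0∞)) (z⁻¹ * (g : P × H) * z) *
      (D.IM fun x => D.st2 (D.tk (iK (G.Om M (0, 4) 5)) (2 * r))
        (D.tk (iK (G.Om M (ety false) 5)) (2 * r)) x z fun u v =>
          ab (Dv φ v (u * g) u - t)) ∂D.μ ≤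
      D.μ Q * Ch ^ 2 * (Cn * (CP * D.EE ka r φ)) / (c * c * D.μ Z') := by
    intro g
    exact f0_ref D hD hσ hLeft hc hst S Z₀ Z' Q _ hS hZ₀ hZ' hQ hZK hZQ hZ'0 hZ't hQt Cn hCn hnr
      (D.tk (iK (G.Om M (0, 4) 5)) (2 * r)) (D.tk (iK (G.Om M (ety false) 5)) (2 * r))
      (D.tk (iK (G.Om M (0, 4) 4)) (2 * r)) (D.tk (iK (G.Om M (ety false) 4)) (2 * r))
      (D.tk (iK (G.Om M (0, 4) 4)) (2 * r + 2 * c₂ + 4))
      (D.tk (iK (G.Om M (ety false) 4)) (2 * r + 2 * c₂ + 4))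
      (hmO _ _ _) (hmO _ _ _) (hmO _ _ _) (hmO _ _ _) (hmO _ _ _) (hmO _ _ _)
      (f0_tk_mono D _ _ (hOm54 _) _) (f0_tk_mono D _ _ (hOm54 _) _) Ch hCh (hw _) (hw _)
      c C hc0 hCt
      (fun x y => ⟨(hbd1 x y).1 _ 5 _ (by norm_num) (by omega),
        (hbd1 x y).2.2 _ 5 _ (by norm_num)⟩)
      (fun x y => ⟨(hbd1 x y).1 _ 5 _ (by norm_num) (by omega),
        (hbd1 x y).2.2 _ 5 _ (by norm_num)⟩)
      φ g (CP * D.EE ka r φ) hBt hPIr
  choose F₀ hF₀ using hex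
  refine ⟨F₀, fun g _ e j n m hv hRn hRm => ?_⟩
  have hRn' : RG r cP n := ⟨hRn.1, by have := hRn.2; omega⟩
  have hRm' : RG r cP m := ⟨hRm.1, by have := hRm.2; omega⟩
  have hPIs := hPI' r φ (by omega) hφ e j false 4 hv hv4 n m (2 * r) (2 * r) hRn' hRm' hRa hRa
  have hfin := f0_B D hD hσ hc hst S Z₀ _ hS hZK Cn hnr
    (D.tk (iK (G.Om M (0, 4) 5)) (2 * r)) (D.tk (iK (G.Om M (ety false) 5)) (2 * r))
    (D.tk (iK (G.Om M (0, 4) 4)) (2 * r)) (D.tk (iK (G.Om M (ety false) 4)) (2 * r))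
    (D.tk (iK (G.Om M (0, j) 5)) n) (D.tk (iK (G.Om M (ety e) 5)) m)
    (D.tk (iK (G.Om M (0, j) 4)) n) (D.tk (iK (G.Om M (ety e) 4)) m)
    (hmO _ _ _) (hmO _ _ _) (hmO _ _ _) (hmO _ _ _) (hmO _ _ _) (hmO _ _ _) (hmO _ _ _)
    (hmO _ _ _)
    (f0_tk_mono D _ _ (hOm54 _) _) (f0_tk_mono D _ _ (hOm54 _) _)
    (f0_tk_mono D _ _ (hOm54 _) _) (f0_tk_mono D _ _ (hOm54 _) _) c C hcct hCC
    (fun x y => (hbd1 x y).1 _ 5 _ (by norm_num) (by omega))
    (fun x y => (hbd1 x y).1 _ 5 _ (by norm_num) (by omega))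
    (fun x y => (hbd1 x y).2.2 _ 5 _ (by norm_num))
    (fun x y => (hbd1 x y).2.2 _ 5 _ (by norm_num))
    φ g (CP * D.EE ka r φ) _ (F₀ g) hPIs (hF₀ g)
  set X := ∫⁻ z in Z₀, S.indicator (fun _ => (1 : ℝ≥0∞)) (z⁻¹ * (g : P × H) * z) *
      (D.IM fun x => D.st2 (D.tk (iK (G.Om M (0, j) 5)) n) (D.tk (iK (G.Om M (ety e) 5)) m) x z
        fun u v => ab (Dv φ v (u * g) u - F₀ g)) ∂D.μ with hX
  calc X = (c * c)⁻¹ * (c * c * X) := by
        rw [← mul_assoc, ENNReal.inv_mul_cancel hcc0 hcct, one_mul]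
    _ ≤ (c * c)⁻¹ * (Cn * (CP * D.EE ka r φ) + C * C *
          (D.μ Q * Ch ^ 2 * (Cn * (CP * D.EE ka r φ)) / (c * c * D.μ Z'))) := by
        exact mul_le_mul_right hfin _
    _ = ((c * c)⁻¹ * (Cn * CP + C * C * (D.μ Q * Ch ^ 2 * (Cn * CP) /
          (c * c * D.μ Z')))) * D.EE ka r φ := by
        simp only [div_eq_mul_inv]
        ring
    _ ≤ C₅ * D.EE ka r φ := by
        refine mul_le_mul_left ?_ _
        rw [hC₅]
        exact le_self_add

end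

end Pool.Agent.MPEF
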