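import Pool.Agent.Lib.MP_ef3f0f_gt.I.Spec

set_option autoImplicit false
set_option linter.unusedSectionVars false
set_option linter.unusedVariables false
set_option linter.deprecated false

/-! MP_ef3f0f_gt, part I, module I6: the comparison of two chords (I.6). -/

namespace Pool.Agent.MPEF

open MeasureTheory Topology
open scoped ENNReal Pointwise

variable (P H : Type) [Group P] [Group H] [TopologicalSpace P] [TopologicalSpace H]
  [IsTopologicalGroup P] [IsTopologicalGroup H] [LocallyCompactSpace P] [LocallyCompactSpace H]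
  [T2Space P] [T2Space H] [SecondCountableTopology P] [SecondCountableTopology H]
  [MeasurableSpace P] [MeasurableSpace H] [BorelSpace P] [BorelSpace H]

/-- exchange of the integrals and sums -/
private theorem I6_swap (hinst : S_inst P H) (D : Dat P H) (hD : D.Ok) (K K' : P × H → ℝ≥0∞)
    (hK : Measurable K) (hK' : Measurable K') (S : Set (P × H)) (hS : MeasurableSet S)
    (F : D.Γ → D.Γ → D.Γ → ℝ≥0∞) :
    D.IM (fun x => D.IM fun y => ∑' V : D.Γ, K' (x⁻¹ * (V : P × H) * y) *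
        ∑' c : D.Γ, K (x⁻¹ * (c : P × H) * y) * D.lp S y fun g => F g c V) =
      D.IM fun y => D.lp S y fun g => D.IM fun x => D.st2 K K' x y (F g) := by
  obtain ⟨i1, i2, i3, i4, _⟩ := hinst D hD
  have hm : ∀ u : D.Γ, Measurable fun q : (P × H) × (P × H) => q.1⁻¹ * (u : P × H) * q.2 :=
    fun u => (measurable_fst.inv.mul_const _).mul measurable_snd
  have hmi : ∀ g : D.Γ, Measurable fun y : P × H =>
      S.indicator (fun _ => (1 : ℝ≥0∞)) (y⁻¹ * (g : P × H) * y) := by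
    intro g
    exact (measurable_const.indicator hS).comp ((measurable_inv.mul_const _).mul measurable_id)
  have hmB : ∀ g : D.Γ, Measurable fun q : (P × H) × (P × H) => D.st2 K K' q.1 q.2 (F g) := by
    intro g
    unfold Dat.st2
    refine Measurable.ennreal_tsum fun c => Measurable.ennreal_tsum fun V => ?_
    exact ((hK.comp (hm c)).mul (hK'.comp (hm V))).mul_const _
  have hpt : ∀ x y : P × H, ∑' V : D.Γ, K' (x⁻¹ * (V : P × H) * y) *
        ∑' c : D.Γ, K (x⁻¹ * (c : P × H) * y) * D.lp S y (fun g => F g c V) =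
      ∑' g : D.Γ, S.indicator (fun _ => (1 : ℝ≥0∞)) (y⁻¹ * (g : P × H) * y) *
        D.st2 K K' x y (F g) := by
    intro x y
    unfold Dat.lp Dat.st2
    simp_rw [← ENNReal.tsum_mul_left]
    rw [ENNReal.tsum_comm]
    rw [ENNReal.tsum_comm (f := fun g c : D.Γ => ∑' V : D.Γ,
      S.indicator (fun _ => (1 : ℝ≥0∞)) (y⁻¹ * (g : P × H) * y) *
        (K (x⁻¹ * (c : P × H) * y) * K' (x⁻¹ * (V : P × H) * y) * F g c V))]
    refine tsum_congr fun c => ?_
    rw [ENNReal.tsum_comm (f := fun g V : D.Γ =>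
      S.indicator (fun _ => (1 : ℝ≥0∞)) (y⁻¹ * (g : P × H) * y) *
        (K (x⁻¹ * (c : P × H) * y) * K' (x⁻¹ * (V : P × H) * y) * F g c V))]
    refine tsum_congr fun V => tsum_congr fun g => ?_
    ring
  unfold Dat.IM
  simp_rw [hpt]
  have e1 : ∀ x : P × H, D.χ x * ∫⁻ y, D.χ y * ∑' g : D.Γ,
      S.indicator (fun _ => (1 : ℝ≥0∞)) (y⁻¹ * (g : P × H) * y) * D.st2 K K' x y (F g) ∂D.μ =
      ∫⁻ y, D.χ x * (D.χ y * ∑' g : D.Γ,
        S.indicator (fun _ => (1 : ℝ≥0∞)) (y⁻¹ * (g : P × H) * y) * D.st2 K K' x y (F g)) ∂D.μ := by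
    intro x
    rw [lintegral_const_mul]
    apply hD.χm.mul
    refine Measurable.ennreal_tsum fun g => (hmi g).mul ?_
    exact (hmB g).comp measurable_prodMk_left
  simp_rw [e1]
  rw [lintegral_lintegral_swap]
  · refine lintegral_congr fun y => ?_
    have e2 : ∀ x : P × H, D.χ x * (D.χ y * ∑' g : D.Γ,
        S.indicator (fun _ => (1 : ℝ≥0∞)) (y⁻¹ * (g : P × H) * y) * D.st2 K K' x y (F g)) =
        ∑' g : D.Γ, (D.χ y * S.indicator (fun _ => (1 : ℝ≥0∞)) (y⁻¹ * (g : P × H) * y)) *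
          (D.χ x * D.st2 K K' x y (F g)) := by
      intro x
      simp_rw [← ENNReal.tsum_mul_left]
      refine tsum_congr fun g => ?_
      ring
    simp_rw [e2]
    have hm2 : ∀ g : D.Γ, Measurable fun x => D.χ x * D.st2 K K' x y (F g) := fun g =>
      hD.χm.mul ((hmB g).comp measurable_prodMk_right)
    rw [lintegral_tsum]
    · unfold Dat.lp
      rw [← ENNReal.tsum_mul_left]
      refine tsum_congr fun g => ?_
      rw [lintegral_const_mul _ (hm2 g)]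
      ring
    · intro g
      exact ((hm2 g).const_mul _).aemeasurable
  · apply Measurable.aemeasurable
    refine (hD.χm.comp measurable_fst).mul ((hD.χm.comp measurable_snd).mul ?_)
    refine Measurable.ennreal_tsum fun g => ((hmi g).comp measurable_snd).mul (hmB g)

private theorem I6_IM_mono (D : Dat P H) (f g : P × H → ℝ≥0∞) (h : ∀ x, f x ≤ g x) :
    D.IM f ≤ D.IM g :=
  lintegral_mono fun x => mul_le_mul_right (h x) _

private theorem I6_IM_const (D : Dat P H) (C : ℝ≥0∞) (hC : C ≠ ∞) (f : P × H → ℝ≥0∞) :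
    D.IM (fun x => C * f x) = C * D.IM f := by
  unfold Dat.IM
  rw [← lintegral_const_mul' _ _ hC]
  refine lintegral_congr fun x => ?_
  ring

private theorem I6_tk (hnu : S_nu P H) (D : Dat P H) (hD : D.Ok) (k : P → ℝ≥0∞)
    (hk : Measurable k) (n : ℕ) : Measurable (D.tk k n) :=
  (hk.comp measurable_fst).mul (((hnu D hD).1 n).comp measurable_snd)

private theorem I6_lp_mono (D : Dat P H) (S : Set (P × H)) (z : P × H) (f g : D.Γ → ℝ≥0∞)
    (h : ∀ u, f u ≤ g u) : D.lp S z f ≤ D.lp S z g :=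
  ENNReal.tsum_le_tsum fun u => mul_le_mul_right (h u) _

private theorem I6_st_mono (D : Dat P H) (K₁ K₂ K₁' K₂' : P × H → ℝ≥0∞) (h1 : ∀ g, K₁ g ≤ K₁' g)
    (h2 : ∀ g, K₂ g ≤ K₂' g) (x y : P × H) (f : D.Γ → D.Γ → ℝ≥0∞) :
    D.st2 K₁ K₂ x y f ≤ D.st2 K₁' K₂' x y f :=
  ENNReal.tsum_le_tsum fun u => ENNReal.tsum_le_tsum fun v =>
    mul_le_mul_left (mul_le_mul' (h1 _) (h2 _)) _

/-- the main chain of inequalities -/
private theorem I6_main (hinst : S_inst P H) (hnu : S_nu P H) (htrans : S_trans P H)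
    (htele : S_tele P H) (D : Dat P H) (hD : D.Ok) (k k' : P → ℝ≥0∞) (hk : Measurable k)
    (hk' : Measurable k') (b N m n' m' L : ℕ) (cm cp C₂ : ℝ≥0∞) (hb : 1 ≤ b) (hN : 1 ≤ N)
    (hm : 1 ≤ m) (hcm : 0 < cm) (hcp : cp ≠ ∞) (hC₂ : C₂ ≠ ∞)
    (hbd : ∀ x y, cm ≤ D.N (D.tk k b) x y ∧ D.N (D.tk k b) x y ≤ cp) (ψ : D.Γ → D.Γ → ℝ)
    (hψ : ∀ γ γ' c V, ψ (γ * c * γ') (γ * V * γ') = ψ c V) (S : Set (P × H))
    (hS : MeasurableSet S) (F : D.Γ → D.Γ → D.Γ → ℝ≥0∞)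
    (hF : ∀ g c V, ab (ψ c V - ψ (c * g) V) = F g c V)
    (hFi : ∀ g γ c V, F g (γ * c) (γ * V) = F g c V)
    (hq : ∀ (V : D.Γ) (x y : P × H), D.q1 k b ψ V x y ≤ C₂ * ∑' c : D.Γ,
      D.tk k (b + 1) (x⁻¹ * (c : P × H) * y) * D.lp S y fun g => ab (ψ c V - ψ (c * g) V))
    (hL : 1 ≤ L) (hm' : 1 ≤ m') (e1 : m + N - 1 = m' + L) (e2 : n' = b + 1 + L) :
    D.IM (fun x => D.IM fun y => ∑' V : D.Γ, D.tk k' m (x⁻¹ * (V : P × H) * y) *
        D.st2 (D.tk k (b + N)) (D.tk k (b + N)) x y fun u u' => ab (ψ u V - ψ u' V)) ≤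
      (cp / cm) ^ 2 * N * (C₂ * D.IM fun y => D.lp S y fun g => D.IM fun x =>
        D.st2 (D.tk k n') (D.tk k' m') x y (F g)) := by
  refine (htele D hD k k' hk hk' b N m cm cp hb hN hm hcm hcp hbd ψ hψ).trans ?_
  refine mul_le_mul_right ?_ _
  have h1 : ∀ x y : P × H, ∑' V : D.Γ, D.tk k' (m + N - 1) (x⁻¹ * (V : P × H) * y) *
      D.q1 k b ψ V x y ≤ C₂ * ∑' V : D.Γ, D.tk k' (m + N - 1) (x⁻¹ * (V : P × H) * y) *
        ∑' c : D.Γ, D.tk k (b + 1) (x⁻¹ * (c : P × H) * y) * D.lp S y fun g => F g c V := by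
    intro x y
    rw [← ENNReal.tsum_mul_left]
    refine ENNReal.tsum_le_tsum fun V => ?_
    have h2 := hq V x y
    simp_rw [hF] at h2
    calc _ ≤ D.tk k' (m + N - 1) (x⁻¹ * (V : P × H) * y) * (C₂ * ∑' c : D.Γ,
          D.tk k (b + 1) (x⁻¹ * (c : P × H) * y) * D.lp S y fun g => F g c V) :=
          mul_le_mul_right h2 _
      _ = _ := by ring
  refine (I6_IM_mono P H D _ _ fun x => I6_IM_mono P H D _ _ fun y => h1 x y).trans ?_
  simp_rw [I6_IM_const P H D C₂ hC₂]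
  refine mul_le_mul_right ?_ _
  rw [I6_swap P H hinst D hD _ _ (I6_tk P H hnu D hD k hk _) (I6_tk P H hnu D hD k' hk' _) S hS F]
  refine I6_IM_mono P H D _ _ fun y => I6_lp_mono P H D S y _ _ fun g => le_of_eq ?_
  rw [e1, e2]
  exact htrans D hD k k' hk hk' (b + 1) m' L (by omega) hm' hL (F g) (hFi g) y

/-- reversal of the loops -/
private theorem I6_lp_inv (D : Dat P H) (S : Set (P × H)) (hS : ∀ g ∈ S, g⁻¹ ∈ S) (z : P × H)
    (f : D.Γ → ℝ≥0∞) : D.lp S z (fun g => f g⁻¹) = D.lp S z f := by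
  unfold Dat.lp
  rw [← (Equiv.inv D.Γ).tsum_eq fun g : D.Γ =>
    S.indicator (fun _ => (1 : ℝ≥0∞)) (z⁻¹ * (g : P × H) * z) * f g]
  refine tsum_congr fun g => ?_
  have e : z⁻¹ * ((Equiv.inv D.Γ g : D.Γ) : P × H) * z = (z⁻¹ * (g : P × H) * z)⁻¹ := by
    simp only [Equiv.inv_apply, Subgroup.coe_inv]
    group
  rw [e]
  by_cases h : z⁻¹ * (g : P × H) * z ∈ S
  · rw [Set.indicator_of_mem h, Set.indicator_of_mem (hS _ h)]
    rfl
  · have h' : (z⁻¹ * (g : P × H) * z)⁻¹ ∉ S := fun h2 => h (by simpa using hS _ h2)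
    rw [Set.indicator_of_notMem h, Set.indicator_of_notMem h']
    simp

private theorem I6_st_swap (D : Dat P H) (K₁ K₂ : P × H → ℝ≥0∞) (x y : P × H)
    (f : D.Γ → D.Γ → ℝ≥0∞) : D.st2 K₁ K₂ x y f = D.st2 K₂ K₁ x y fun v u => f u v := by
  unfold Dat.st2
  rw [ENNReal.tsum_comm]
  refine tsum_congr fun v => tsum_congr fun u => ?_
  ring

private theorem I6_ab_neg (t : ℝ) : ab (-t) = ab t := by
  unfold ab
  rw [abs_neg]

/-- the kernel of a chord is at most the kernel of the window -/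
private theorem I6_win (G : Geo P) (hG : G.Ok) (M : ℕ) (a : Ty) (g₀ : P) (hg₀ : g₀ ∈ G.Om M a 6)
    (s : P) : iK (g₀ • G.B 2) s ≤ iK (G.Om M a 5) s := by
  unfold iK
  by_cases h : s ∈ g₀ • G.B 2
  · have hB : ∀ i j, i ≤ j → G.B i ⊆ G.B j := by
      intro i j hij
      induction hij with
      | refl => exact le_rfl
      | step _ ih =>
        intro x hx
        exact hG.bm _ ⟨x, ih hx, 1, hG.b1 _, mul_one x⟩
    obtain ⟨q, hq, rfl⟩ := h
    simp only at *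
    have h5 : g₀ • q ∈ G.Om M a 5 := by
      apply hG.om M a 5
      exact ⟨1 * g₀, ⟨1, hG.b1 9, g₀, hg₀, rfl⟩, q, hB 2 9 (by norm_num) hq, by
        simp [smul_eq_mul]⟩
    rw [Set.indicator_of_mem h5]
    rw [Set.indicator_of_mem (show g₀ • q ∈ g₀ • G.B 2 from ⟨q, hq, rfl⟩)]
  · rw [Set.indicator_of_notMem h]
    simp

private theorem I6_meas (G : Geo P) (hG : G.Ok) (U : Set P) (hU : IsOpen U) :
    Measurable (iK U) := by
  unfold iK
  exact measurable_const.indicator hU.measurableSet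

private theorem I6_tk_le (D : Dat P H) (k k' : P → ℝ≥0∞) (hk : ∀ s, k s ≤ k' s) (n : ℕ)
    (g : P × H) : D.tk k n g ≤ D.tk k' n g :=
  mul_le_mul_left (hk _) _

theorem tI6 (hinst : S_inst P H) (hst : S_st P H) (htrans : S_trans P H) (htele : S_tele P H)
    (hq1 : S_q1 P H) (hnu : S_nu P H) : S_I6 P H := by
  intro D G M ka kb cx b cm cp hb hcm hcp hbd C₁ c₀ hC₁
  obtain ⟨C₂, hC₂, hq⟩ := hq1 D G cx.d cx.g b hb
  have hD := cx.d
  have hG := cx.g
  have hcc : cp / cm ≠ ∞ := ENNReal.div_ne_top hcp hcm.ne'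
  refine ⟨(cp / cm) ^ 2 * 4 * C₂ * C₁, c₀ + b + 2, ?_, ?_⟩
  · exact ENNReal.mul_ne_top (ENNReal.mul_ne_top (ENNReal.mul_ne_top (ENNReal.pow_ne_top hcc)
      (by norm_num)) hC₂) hC₁
  intro r hr φ h β hφ hHH0 g₀ hg₀ g₁ hg₁ n m hn hm
  obtain ⟨hh, hHH⟩ := hHH0
  obtain ⟨hn1, hn2⟩ := hn
  obtain ⟨hm1, hm2⟩ := hm
  have hinv : ∀ x, h x⁻¹ = - h x := by
    intro x
    have h1 := hh x x⁻¹
    have h2 := hh 1 1
    rw [mul_one] at h2
    rw [mul_inv_cancel] at h1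
    linarith
  have hop : ∀ g : P, IsOpen (g • G.B 2) := fun g => (hG.bo 2).smul g
  have hO : MeasurableSet (G.B 3 ×ˢ (D.O ^ (2 * b + 2))) := by
    have h1 : IsOpen D.O := by
      have : D.O = D.ν ⁻¹' Set.Ioi 0 := rfl
      rw [this]
      exact isOpen_Ioi.preimage hD.νc
    have h2 : IsOpen (D.O ^ (2 * b + 2)) := by
      rw [show 2 * b + 2 = (2 * b + 1) + 1 from rfl, pow_succ]
      exact h1.mul_left
    exact ((hG.bo 3).prod h2).measurableSet
  have hOi : ∀ g ∈ (G.B 3 ×ˢ (D.O ^ (2 * b + 2)) : Set (P × H)),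
      g⁻¹ ∈ (G.B 3 ×ˢ (D.O ^ (2 * b + 2)) : Set (P × H)) := by
    rintro ⟨p, q⟩ ⟨h1, h2⟩
    refine ⟨hG.bi 3 _ h1, ?_⟩
    have h3 : (D.O)⁻¹ = D.O := by
      ext q
      change 0 < D.ν q⁻¹ ↔ 0 < D.ν q
      rw [hD.νi]
    have h4 : (D.O ^ (2 * b + 2))⁻¹ = D.O ^ (2 * b + 2) := by
      rw [← inv_pow, h3]
    rw [← h4]
    exact Set.inv_mem_inv.mpr h2
  have hNle : ((n - b : ℕ) : ℝ≥0∞) ≤ 4 * r := by
    have : n - b ≤ 4 * r := by omega
    exact_mod_cast this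
  have hlen : b + (n - b) = n := by omega
  have hfin : ∀ X Y : ℝ≥0∞, Y ≤ C₁ * (D.EE ka r φ + β) →
      X ≤ (cp / cm) ^ 2 * ((n - b : ℕ) : ℝ≥0∞) * (C₂ * Y) →
      X ≤ (cp / cm) ^ 2 * 4 * C₂ * C₁ * r * (D.EE ka r φ + β) := by
    intro X Y h1 h2
    refine h2.trans ?_
    calc _ ≤ (cp / cm) ^ 2 * (4 * r) * (C₂ * (C₁ * (D.EE ka r φ + β))) :=
          mul_le_mul' (mul_le_mul_right hNle _) (mul_le_mul_right h1 _)
      _ = _ := by ring
  have hety : ety false = (2, 0) := rfl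
  have hH8 := hHH false 8 ((m + n) / 2) (m + n - (m + n) / 2) (by decide)
    ⟨by omega, by omega⟩ ⟨by omega, by omega⟩
  have hH8' := hHH false 8 (m + n - (m + n) / 2) ((m + n) / 2) (by decide)
    ⟨by omega, by omega⟩ ⟨by omega, by omega⟩
  rw [hety] at hH8 hH8'
  constructor
  · have h1 := I6_main P H hinst hnu htrans htele D hD (iK (g₀ • G.B 2)) (iK (G.Om M (2, 0) 5))
      (I6_meas P G hG _ (hop g₀)) (I6_meas P G hG _ (hG.oo _ _ _)) b (n - b) m ((m + n) / 2)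
      (m + n - (m + n) / 2) ((m + n) / 2 - b - 1) cm cp C₂ hb (by omega) (by omega) hcm hcp hC₂
      (hbd g₀) (fun c V => ph (fun x => φ x - h x) c V) ?_ _ hO
      (fun g c V => ab (Dv φ V (c * g) c - h g)) ?_ ?_ (fun V x y => hq g₀ _ V x y) (by omega)
      (by omega) (by omega) (by omega)
    · rw [hlen] at h1
      refine hfin _ _ ?_ h1
      refine le_trans ?_ hH8
      refine I6_IM_mono P H D _ _ fun y => I6_lp_mono P H D _ y _ _ fun g =>
        I6_IM_mono P H D _ _ fun x => I6_st_mono P H D _ _ _ _ ?_ (fun _ => le_rfl) _ _ _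
      exact I6_tk_le P H D _ _ (I6_win P G hG M (0, 8) g₀ hg₀) _
    · intro γ γ' c V
      have e : γ * c * γ' * (γ * V * γ')⁻¹ = γ * (c * V⁻¹) * γ⁻¹ := by group
      simp only [ph, e, hφ.conj]
      have : h (γ * (c * V⁻¹) * γ⁻¹) = h (c * V⁻¹) := by
        rw [hh, hh, hinv]
        ring
      rw [this]
    · intro g c V
      rw [← I6_ab_neg]
      congr 1
      have e : c * g * V⁻¹ = c * (g * V⁻¹) := mul_assoc _ _ _
      simp only [ph, Dv]
      have h5 : h (c * g * V⁻¹) = h (c * V⁻¹) + h g := by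
        rw [hh, hh, hh]
        ring
      rw [h5]
      ring
    · intro g γ c V
      have e1 : γ * c * g * (γ * V)⁻¹ = γ * (c * g * V⁻¹) * γ⁻¹ := by group
      have e2 : γ * c * (γ * V)⁻¹ = γ * (c * V⁻¹) * γ⁻¹ := by group
      simp only [Dv, ph, e1, e2, hφ.conj]
  · have h1 := I6_main P H hinst hnu htrans htele D hD (iK (g₁ • G.B 2)) (iK (G.Om M (0, 8) 5))
      (I6_meas P G hG _ (hop g₁)) (I6_meas P G hG _ (hG.oo _ _ _)) b (n - b) m ((m + n) / 2)
      (m + n - (m + n) / 2) ((m + n) / 2 - b - 1) cm cp C₂ hb (by omega) (by omega) hcm hcp hC₂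
      (hbd g₁) (fun c V => ph (fun x => φ x - h x) V c) ?_ _ hO
      (fun g c V => ab (Dv φ c (V * g⁻¹) V - h g⁻¹)) ?_ ?_ (fun V x y => hq g₁ _ V x y) (by omega)
      (by omega) (by omega) (by omega)
    · rw [hlen] at h1
      refine hfin _ _ ?_ h1
      refine le_trans ?_ hH8'
      refine I6_IM_mono P H D _ _ fun y => ?_
      refine le_trans (le_of_eq (I6_lp_inv P H D _ hOi y fun g => D.IM fun x =>
        D.st2 (D.tk (iK (g₁ • G.B 2)) ((m + n) / 2))
          (D.tk (iK (G.Om M (0, 8) 5)) (m + n - (m + n) / 2)) x y fun c V =>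
            ab (Dv φ c (V * g) V - h g))) ?_
      refine I6_lp_mono P H D _ y _ _ fun g => I6_IM_mono P H D _ _ fun x => ?_
      rw [I6_st_swap]
      refine I6_st_mono P H D _ _ _ _ (fun _ => le_rfl) ?_ _ _ _
      exact I6_tk_le P H D _ _ (I6_win P G hG M (2, 0) g₁ hg₁) _
    · intro γ γ' c V
      have e : γ * V * γ' * (γ * c * γ')⁻¹ = γ * (V * c⁻¹) * γ⁻¹ := by group
      simp only [ph, e, hφ.conj]
      have : h (γ * (V * c⁻¹) * γ⁻¹) = h (V * c⁻¹) := by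
        rw [hh, hh, hinv]
        ring
      rw [this]
    · intro g c V
      rw [← I6_ab_neg]
      congr 1
      have e : V * (c * g)⁻¹ = V * g⁻¹ * c⁻¹ := by group
      simp only [ph, Dv, e]
      have h5 : h (V * g⁻¹ * c⁻¹) = h (V * c⁻¹) + h g⁻¹ := by
        rw [hh, hh, hh]
        ring
      rw [h5]
      ring
    · intro g γ c V
      have e1 : γ * V * g⁻¹ * (γ * c)⁻¹ = γ * (V * g⁻¹ * c⁻¹) * γ⁻¹ := by group
      have e2 : γ * V * (γ * c)⁻¹ = γ * (V * c⁻¹) * γ⁻¹ := by group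
      simp only [Dv, ph, e1, e2, hφ.conj]

end Pool.Agent.MPEF
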