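import Pool.Agent.Lib.MP_ef3f0f_gt.I.Spec

set_option autoImplicit false
set_option linter.unusedSectionVars false

/-! I.7. -/

namespace Pool.Agent.MPEF

open MeasureTheory Topology
open scoped ENNReal Pointwise

/-! ### Algebra -/

private theorem i7_hom {Γ : Type} [Group Γ] (h : Γ → ℝ) (hh : ∀ x y, h (x * y) = h x + h y) :
    h 1 = 0 ∧ (∀ x, h x⁻¹ = - h x) ∧ ∀ g x, h (g * x * g⁻¹) = h x := by
  have h1 : h 1 = 0 := by
    have := hh 1 1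
    rw [one_mul] at this
    linarith
  have h2 : ∀ x, h x⁻¹ = - h x := by
    intro x
    have := hh x x⁻¹
    rw [mul_inv_cancel, h1] at this
    linarith
  refine ⟨h1, h2, fun g x => ?_⟩
  rw [hh, hh, h2]
  ring

private theorem i7_odd {Γ : Type} [Group Γ] (φ h : Γ → ℝ) (hφ : OddC φ)
    (hh : ∀ x y, h (x * y) = h x + h y) : OddC fun x => φ x - h x := by
  obtain ⟨-, h2, h3⟩ := i7_hom h hh
  refine ⟨fun g x => ?_, fun x => ?_⟩
  · rw [hφ.conj, h3]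
  · rw [hφ.inv, h2]
    ring

private theorem i7_phL {Γ : Type} [Group Γ] (φ : Γ → ℝ) (hφ : OddC φ) (γ u v : Γ) :
    ph φ (γ * u) (γ * v) = ph φ u v := by
  unfold ph
  have : γ * u * (γ * v)⁻¹ = γ * (u * v⁻¹) * γ⁻¹ := by group
  rw [this, hφ.conj]

private theorem i7_phR {Γ : Type} [Group Γ] (φ : Γ → ℝ) (γ u v : Γ) :
    ph φ (u * γ) (v * γ) = ph φ u v := by
  unfold ph
  congr 1
  group

private theorem i7_ab (x y z : ℝ) : ab (x - z) ≤ ab (x - y) + ab (y - z) := by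
  unfold ab
  rw [← ENNReal.ofReal_add (abs_nonneg _) (abs_nonneg _)]
  exact ENNReal.ofReal_le_ofReal (abs_sub_le x y z)

/-- The pointwise inequality of (A). -/
private theorem i7_sum {Γ : Type} (α β : Γ → ℝ≥0∞) (ψ : Γ → Γ → ℝ) :
    ∑' u, ∑' V, α u * β V * ∑' u', ∑' V', α u' * β V' * ab (ψ u V - ψ u' V') ≤
      (∑' V, β V) * ∑' V, β V * ∑' u, ∑' u', α u * α u' * ab (ψ u V - ψ u' V) +
      (∑' u, α u) * ∑' u, α u * ∑' V, ∑' V', β V * β V' * ab (ψ u V - ψ u V') := by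
  set A := ∑' u, α u with hA
  set B := ∑' V, β V with hB
  calc ∑' u, ∑' V, α u * β V * ∑' u', ∑' V', α u' * β V' * ab (ψ u V - ψ u' V')
      ≤ ∑' u, ∑' V, ((∑' u', B * (β V * (α u * α u' * ab (ψ u V - ψ u' V)))) +
          α u * ∑' u', ∑' V', α u' * (β V * β V' * ab (ψ u' V - ψ u' V'))) := by
        refine ENNReal.tsum_le_tsum fun u => ENNReal.tsum_le_tsum fun V => ?_
        rw [← ENNReal.tsum_mul_left, ← ENNReal.tsum_mul_left, ← ENNReal.tsum_add]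
        refine ENNReal.tsum_le_tsum fun u' => ?_
        rw [hB, ← ENNReal.tsum_mul_right, ← ENNReal.tsum_mul_left, ← ENNReal.tsum_mul_left,
          ← ENNReal.tsum_add]
        refine ENNReal.tsum_le_tsum fun V' => ?_
        calc α u * β V * (α u' * β V' * ab (ψ u V - ψ u' V'))
            ≤ α u * β V * (α u' * β V' * (ab (ψ u V - ψ u' V) + ab (ψ u' V - ψ u' V'))) := by
              gcongr
              exact i7_ab _ _ _
          _ = _ := by ring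
    _ = (∑' u, ∑' V, ∑' u', B * (β V * (α u * α u' * ab (ψ u V - ψ u' V)))) +
          ∑' u, ∑' V, α u * ∑' u', ∑' V', α u' * (β V * β V' * ab (ψ u' V - ψ u' V')) := by
        rw [← ENNReal.tsum_add]
        exact tsum_congr fun u => ENNReal.tsum_add
    _ = _ := by
        congr 1
        · rw [ENNReal.tsum_comm, ← ENNReal.tsum_mul_left]
          refine tsum_congr fun V => ?_
          rw [← ENNReal.tsum_mul_left, ← ENNReal.tsum_mul_left]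
          refine tsum_congr fun u => ?_
          rw [ENNReal.tsum_mul_left, ENNReal.tsum_mul_left]
        · have e1 : ∀ u, ∑' V, α u * ∑' u', ∑' V', α u' * (β V * β V' * ab (ψ u' V - ψ u' V')) =
              α u * ∑' V, ∑' u', ∑' V', α u' * (β V * β V' * ab (ψ u' V - ψ u' V')) := fun u =>
            ENNReal.tsum_mul_left
          simp_rw [e1]
          rw [ENNReal.tsum_mul_right, ENNReal.tsum_comm]
          congr 1
          refine tsum_congr fun u => ?_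
          rw [← ENNReal.tsum_mul_left]
          refine tsum_congr fun V => ?_
          rw [ENNReal.tsum_mul_left]

section
variable {P H : Type} [Group P] [Group H] [TopologicalSpace P] [TopologicalSpace H]
  [IsTopologicalGroup P] [IsTopologicalGroup H] [LocallyCompactSpace P] [LocallyCompactSpace H]
  [T2Space P] [T2Space H] [SecondCountableTopology P] [SecondCountableTopology H]
  [MeasurableSpace P] [MeasurableSpace H] [BorelSpace P] [BorelSpace H]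

private theorem i7_IM_mono (D : Dat P H) (f g : P × H → ℝ≥0∞) (h : ∀ x, f x ≤ g x) :
    D.IM f ≤ D.IM g := by
  unfold Dat.IM
  exact lintegral_mono fun x => mul_le_mul_right (h x) _

private theorem i7_IM_const (D : Dat P H) (hD : D.Ok) (c : ℝ≥0∞) : D.IM (fun _ => c) = c := by
  unfold Dat.IM
  rw [lintegral_mul_const _ hD.χm, hD.mass, one_mul]

private theorem i7_IM_cmul (D : Dat P H) (c : ℝ≥0∞) (hc : c ≠ ∞) (f : P × H → ℝ≥0∞) :
    D.IM (fun x => c * f x) = c * D.IM f := by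
  unfold Dat.IM
  rw [← lintegral_const_mul' _ _ hc]
  refine lintegral_congr fun x => ?_
  ring

private theorem i7_IM_meas (D : Dat P H) (hσ : SigmaFinite D.μ) (hχ : Measurable D.χ)
    {α : Type} [MeasurableSpace α] (F : α → P × H → ℝ≥0∞)
    (hF : Measurable fun t : α × (P × H) => F t.1 t.2) : Measurable fun a => D.IM (F a) := by
  unfold Dat.IM
  have h1 : Measurable fun t : α × (P × H) => D.χ t.2 * F t.1 t.2 :=
    (hχ.comp measurable_snd).mul hF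
  exact h1.lintegral_prod_right'

private theorem i7_IM2_add (D : Dat P H) (hD : D.Ok) (hσ : SigmaFinite D.μ)
    (F G : P × H → P × H → ℝ≥0∞) (hF : Measurable fun t : (P × H) × (P × H) => F t.1 t.2) :
    D.IM (fun x => D.IM fun y => F x y + G x y) =
      D.IM (fun x => D.IM fun y => F x y) + D.IM (fun x => D.IM fun y => G x y) := by
  have e1 : ∀ x, D.IM (fun y => F x y + G x y) = D.IM (fun y => F x y) + D.IM fun y => G x y := by
    intro x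
    unfold Dat.IM
    have h0 : Measurable fun y : P × H => ((x, y) : (P × H) × (P × H)) :=
      measurable_const.prodMk measurable_id
    have h1 : Measurable fun y => D.χ y * F x y := hD.χm.mul (hF.comp h0)
    rw [← lintegral_add_left h1]
    exact lintegral_congr fun y => mul_add _ _ _
  simp_rw [e1]
  have h2 : Measurable fun x => D.χ x * D.IM fun y => F x y :=
    hD.χm.mul (i7_IM_meas D hσ hD.χm F hF)
  rw [Dat.IM, Dat.IM, Dat.IM, ← lintegral_add_left h2]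
  exact lintegral_congr fun x => mul_add _ _ _

private theorem i7_tk_meas (D : Dat P H) (hnm : ∀ n, Measurable (D.nu n)) (k : P → ℝ≥0∞)
    (hk : Measurable k) (n : ℕ) : Measurable (D.tk k n) := by
  unfold Dat.tk
  exact (hk.comp measurable_fst).mul ((hnm n).comp measurable_snd)

/-- (A). -/
private theorem i7_A (D : Dat P H) (hD : D.Ok) (hσ : SigmaFinite D.μ) (hc : Countable D.Γ)
    (hst : ∀ K₁ K₂ : P × H → ℝ≥0∞, Measurable K₁ → Measurable K₂ → ∀ f : D.Γ → D.Γ → ℝ≥0∞,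
      Measurable fun q : (P × H) × (P × H) => D.st2 K₁ K₂ q.1 q.2 f)
    (ψ : D.Γ → D.Γ → ℝ) (a b : P × H → ℝ≥0∞) (ha : Measurable a) (hb : Measurable b)
    (Cp : ℝ≥0∞) (hCp : Cp ≠ ∞) (hCa : ∀ x y, D.N a x y ≤ Cp) (hCb : ∀ x y, D.N b x y ≤ Cp) :
    D.IM (fun x => D.IM fun y => D.st2 a b x y fun u V => D.st2 a b x y fun u' V' =>
      ab (ψ u V - ψ u' V')) ≤
    Cp * (D.IM fun x => D.IM fun y => ∑' V : D.Γ, b (x⁻¹ * (V : P × H) * y) *
      D.st2 a a x y fun u u' => ab (ψ u V - ψ u' V)) +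
    Cp * (D.IM fun x => D.IM fun y => ∑' u : D.Γ, a (x⁻¹ * (u : P × H) * y) *
      D.st2 b b x y fun V V' => ab (ψ u V - ψ u V')) := by
  set F : P × H → P × H → ℝ≥0∞ := fun x y => ∑' V : D.Γ, b (x⁻¹ * (V : P × H) * y) *
      D.st2 a a x y fun u u' => ab (ψ u V - ψ u' V) with hF
  set G : P × H → P × H → ℝ≥0∞ := fun x y => ∑' u : D.Γ, a (x⁻¹ * (u : P × H) * y) *
      D.st2 b b x y fun V V' => ab (ψ u V - ψ u V') with hG
  have mF : Measurable fun t : (P × H) × (P × H) => F t.1 t.2 := by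
    refine Measurable.tsum fun V => Measurable.mul ?_ (hst a a ha ha _)
    exact hb.comp ((measurable_fst.inv.mul_const _).mul measurable_snd)
  have h1 : ∀ x y, (D.st2 a b x y fun u V => D.st2 a b x y fun u' V' =>
      ab (ψ u V - ψ u' V')) ≤ Cp * F x y + Cp * G x y := by
    intro x y
    have h2 := i7_sum (fun u : D.Γ => a (x⁻¹ * (u : P × H) * y))
      (fun u : D.Γ => b (x⁻¹ * (u : P × H) * y)) ψ
    refine h2.trans ?_
    have h3 : ∑' V : D.Γ, b (x⁻¹ * (V : P × H) * y) ≤ Cp := hCb x y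
    have h4 : ∑' V : D.Γ, a (x⁻¹ * (V : P × H) * y) ≤ Cp := hCa x y
    exact add_le_add (mul_le_mul_left h3 _) (mul_le_mul_left h4 _)
  calc D.IM (fun x => D.IM fun y => D.st2 a b x y fun u V => D.st2 a b x y fun u' V' =>
      ab (ψ u V - ψ u' V')) ≤ D.IM (fun x => D.IM fun y => Cp * F x y + Cp * G x y) :=
        i7_IM_mono D _ _ fun x => i7_IM_mono D _ _ fun y => h1 x y
    _ = D.IM (fun x => D.IM fun y => Cp * F x y) + D.IM (fun x => D.IM fun y => Cp * G x y) :=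
        i7_IM2_add D hD hσ _ _ (mF.const_mul Cp)
    _ = _ := by
        simp_rw [i7_IM_cmul D Cp hCp]
        rfl

/-- (B), pointwise in the first copy. -/
private theorem i7_B (D : Dat P H) (hD : D.Ok) (hσ : SigmaFinite D.μ)
    (hst1 : ∀ K₁ K₂ : P × H → ℝ≥0∞, Measurable K₁ → Measurable K₂ → ∀ f : D.Γ → D.Γ → ℝ≥0∞,
      Measurable fun q : (P × H) × (P × H) => D.st2 K₁ K₂ q.1 q.2 f)
    (hst4 : ∀ (K₁ K₂ : P × H → ℝ≥0∞) (x y) (γ : D.Γ) (f : D.Γ → D.Γ → ℝ≥0∞),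
      D.st2 K₁ K₂ ((γ : P × H) * x) y f = D.st2 K₁ K₂ x y fun u v => f (γ * u) (γ * v))
    (hst5 : ∀ (K₁ K₂ : P × H → ℝ≥0∞) (x y) (γ : D.Γ) (f : D.Γ → D.Γ → ℝ≥0∞),
      D.st2 K₁ K₂ x ((γ : P × H) * y) f = D.st2 K₁ K₂ x y fun u v => f (u * γ⁻¹) (v * γ⁻¹))
    (S : Set (P × H)) (hS : MeasurableSet S) (Cn : ℝ≥0∞)
    (hnear : ∀ f : P × H → ℝ≥0∞, Measurable f → (∀ γ ∈ D.Γ, ∀ x, f (γ * x) = f x) →
      ∀ x : P × H, D.IM f ≤ Cn * ∫⁻ q in S, f (x * q) ∂D.μ)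
    (K₁' K₂' K₁ K₂ : P × H → ℝ≥0∞) (m1 : Measurable K₁') (m2 : Measurable K₂') (Ch : ℝ≥0∞)
    (h1 : ∀ q ∈ S, ∀ q' ∈ S, ∀ w, K₁' (q⁻¹ * w * q') ≤ Ch * K₁ w)
    (h2 : ∀ q ∈ S, ∀ q' ∈ S, ∀ w, K₂' (q⁻¹ * w * q') ≤ Ch * K₂ w)
    (f : D.Γ → D.Γ → ℝ≥0∞) (hfL : ∀ γ u v, f (γ * u) (γ * v) = f u v)
    (hfR : ∀ γ u v, f (u * γ) (v * γ) = f u v) (x y : P × H) :
    D.T2 K₁' K₂' f ≤ (Cn * D.μ S * Ch) ^ 2 * D.st2 K₁ K₂ x y f := by
  have e0 : D.T2 K₁' K₂' f = D.IM fun x' => D.IM fun y' => D.st2 K₁' K₂' x' y' f := rfl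
  have mst := hst1 K₁' K₂' m1 m2 f
  have e1 : ∀ x', D.IM (fun y' => D.st2 K₁' K₂' x' y' f) ≤
      Cn * ∫⁻ q' in S, D.st2 K₁' K₂' x' (y * q') f ∂D.μ := by
    intro x'
    have h0 : Measurable fun y : P × H => ((x', y) : (P × H) × (P × H)) :=
      measurable_const.prodMk measurable_id
    refine hnear (fun y' => D.st2 K₁' K₂' x' y' f) (mst.comp h0) (fun γ hγ y' => ?_) y
    have := hst5 K₁' K₂' x' y' ⟨γ, hγ⟩ f
    change D.st2 K₁' K₂' x' (γ * y') f = _ at this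
    rw [this]
    congr 1
    funext u v
    exact hfR _ _ _
  have e2 : D.IM (fun x' => D.IM fun y' => D.st2 K₁' K₂' x' y' f) ≤
      Cn * ∫⁻ q in S, (D.IM fun y' => D.st2 K₁' K₂' (x * q) y' f) ∂D.μ := by
    refine hnear (fun x' => D.IM fun y' => D.st2 K₁' K₂' x' y' f)
      (i7_IM_meas D hσ hD.χm (fun x' y' => D.st2 K₁' K₂' x' y' f) mst) (fun γ hγ x' => ?_) x
    congr 1
    funext y'
    have := hst4 K₁' K₂' x' y' ⟨γ, hγ⟩ f
    change D.st2 K₁' K₂' (γ * x') y' f = _ at this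
    rw [this]
    congr 1
    funext u v
    exact hfL _ _ _
  have e3 : ∀ q ∈ S, ∀ q' ∈ S, D.st2 K₁' K₂' (x * q) (y * q') f ≤
      Ch ^ 2 * D.st2 K₁ K₂ x y f := by
    intro q hq q' hq'
    unfold Dat.st2
    rw [← ENNReal.tsum_mul_left]
    refine ENNReal.tsum_le_tsum fun u => ?_
    rw [← ENNReal.tsum_mul_left]
    refine ENNReal.tsum_le_tsum fun v => ?_
    have g1 : ∀ u : P × H, (x * q)⁻¹ * u * (y * q') = q⁻¹ * (x⁻¹ * u * y) * q' := by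
      intro u
      group
    rw [g1, g1]
    calc _ ≤ (Ch * K₁ (x⁻¹ * (u : P × H) * y)) * (Ch * K₂ (x⁻¹ * (v : P × H) * y)) * f u v := by
          gcongr
          · exact h1 q hq q' hq' _
          · exact h2 q hq q' hq' _
      _ = _ := by ring
  rw [e0]
  calc _ ≤ Cn * ∫⁻ q in S, (D.IM fun y' => D.st2 K₁' K₂' (x * q) y' f) ∂D.μ := e2
    _ ≤ Cn * ∫⁻ _ in S, (Cn * (Ch ^ 2 * D.st2 K₁ K₂ x y f * D.μ S)) ∂D.μ := by
        refine mul_le_mul_right (setLIntegral_mono' hS fun q hq => ?_) _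
        refine (e1 (x * q)).trans (mul_le_mul_right ?_ _)
        calc ∫⁻ q' in S, D.st2 K₁' K₂' (x * q) (y * q') f ∂D.μ ≤
            ∫⁻ _ in S, Ch ^ 2 * D.st2 K₁ K₂ x y f ∂D.μ :=
              setLIntegral_mono' hS fun q' hq' => e3 q hq q' hq'
          _ = _ := by rw [setLIntegral_const]
    _ = _ := by
        rw [setLIntegral_const]
        ring

/-- The total mass. -/
private theorem i7_mass (D : Dat P H) (hD : D.Ok) (K₁ K₂ : P × H → ℝ≥0∞) (c : ℝ≥0∞)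
    (h1 : ∀ x y, c ≤ D.N K₁ x y) (h2 : ∀ x y, c ≤ D.N K₂ x y) :
    c * c ≤ D.T2 K₁ K₂ fun _ _ => 1 := by
  have e1 : ∀ x y, ∑' u : D.Γ, ∑' v : D.Γ, K₁ (x⁻¹ * (u : P × H) * y) *
      K₂ (x⁻¹ * (v : P × H) * y) * 1 = D.N K₁ x y * D.N K₂ x y := by
    intro x y
    unfold Dat.N
    rw [← ENNReal.tsum_mul_right]
    refine tsum_congr fun u => ?_
    rw [← ENNReal.tsum_mul_left]
    refine tsum_congr fun v => ?_
    rw [mul_one]
  unfold Dat.T2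
  simp_rw [e1]
  calc c * c = D.IM fun _ => D.IM fun _ => c * c := by
        rw [i7_IM_const D hD, i7_IM_const D hD]
    _ ≤ _ := i7_IM_mono D _ _ fun x => i7_IM_mono D _ _ fun y => mul_le_mul' (h1 x y) (h2 x y)

/-- Integration over the first copy. -/
private theorem i7_int (D : Dat P H) (w₁ w₂ a b : P × H → ℝ≥0∞) (ha : ∀ g, w₁ g ≤ a g)
    (hb : ∀ g, w₂ g ≤ b g) (ψ : D.Γ → D.Γ → ℝ) (t C : ℝ≥0∞) (ht : t ≠ ∞) (hC : C ≠ ∞)
    (h : ∀ (x y : P × H) (u V : D.Γ), t * ab (ψ u V) ≤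
      C * D.st2 a b x y fun u' V' => ab (ψ u V - ψ u' V')) :
    t * D.T2 w₁ w₂ (fun u V => ab (ψ u V)) ≤
      C * D.IM (fun x => D.IM fun y => D.st2 a b x y fun u V => D.st2 a b x y fun u' V' =>
        ab (ψ u V - ψ u' V')) := by
  unfold Dat.T2
  rw [← i7_IM_cmul D t ht, ← i7_IM_cmul D C hC]
  refine i7_IM_mono D _ _ fun x => ?_
  rw [← i7_IM_cmul D t ht, ← i7_IM_cmul D C hC]
  refine i7_IM_mono D _ _ fun y => ?_
  have e1 : (D.st2 a b x y fun u V => D.st2 a b x y fun u' V' => ab (ψ u V - ψ u' V')) =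
      ∑' u : D.Γ, ∑' V : D.Γ, a (x⁻¹ * (u : P × H) * y) * b (x⁻¹ * (V : P × H) * y) *
        D.st2 a b x y fun u' V' => ab (ψ u V - ψ u' V') := rfl
  rw [e1, ← ENNReal.tsum_mul_left, ← ENNReal.tsum_mul_left]
  refine ENNReal.tsum_le_tsum fun u => ?_
  rw [← ENNReal.tsum_mul_left, ← ENNReal.tsum_mul_left]
  refine ENNReal.tsum_le_tsum fun V => ?_
  calc t * (w₁ (x⁻¹ * (u : P × H) * y) * w₂ (x⁻¹ * (V : P × H) * y) * ab (ψ u V))
      = w₁ (x⁻¹ * (u : P × H) * y) * w₂ (x⁻¹ * (V : P × H) * y) * (t * ab (ψ u V)) := by ring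
    _ ≤ a (x⁻¹ * (u : P × H) * y) * b (x⁻¹ * (V : P × H) * y) *
        (C * D.st2 a b x y fun u' V' => ab (ψ u V - ψ u' V')) :=
        mul_le_mul' (mul_le_mul' (ha _) (hb _)) (h x y u V)
    _ = _ := by ring

/-- The neighbourhood `U`. -/
private theorem i7_U (B₀ K : Set P) (hB : IsOpen B₀) (h1 : (1 : P) ∈ B₀) (hK : IsCompact K) :
    ∃ U : Set P, IsOpen U ∧ (1 : P) ∈ U ∧ U ⊆ B₀ ∧ (∀ u ∈ U, u⁻¹ ∈ U) ∧
      ∀ u ∈ U, ∀ g ∈ K, g⁻¹ * u * g ∈ B₀ := by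
  have h2 : ∀ᶠ u in 𝓝 (1 : P), ∀ g ∈ K, g⁻¹ * u * g ∈ B₀ := by
    refine hK.eventually_forall_of_forall_eventually fun g _ => ?_
    have hc : Continuous fun z : P × P => z.2⁻¹ * z.1 * z.2 := by fun_prop
    have h3 : (fun z : P × P => z.2⁻¹ * z.1 * z.2) (1, g) ∈ B₀ := by
      simpa using h1
    exact hc.continuousAt.eventually (hB.mem_nhds h3)
  obtain ⟨V, hV, hVo, h1V⟩ := eventually_nhds_iff.mp h2
  refine ⟨(V ∩ B₀) ∩ (V ∩ B₀)⁻¹, (hVo.inter hB).inter (hVo.inter hB).inv, ?_, ?_, ?_, ?_⟩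
  · refine ⟨⟨h1V, h1⟩, ?_⟩
    rw [Set.mem_inv, inv_one]
    exact ⟨h1V, h1⟩
  · exact fun u hu => hu.1.2
  · rintro u ⟨hu1, hu2⟩
    refine ⟨hu2, ?_⟩
    rw [Set.mem_inv, inv_inv]
    exact hu1
  · exact fun u hu g hg => hV u hu.1.1 g hg

private theorem i7_nu_meas (D : Dat P H) (hD : D.Ok) (hσ₂ : SigmaFinite D.μ₂) (n : ℕ) :
    Measurable (D.nu n) := by
  have h1 : ∀ n, Measurable (D.nuA n) := by
    intro n
    induction n with
    | zero => exact hD.νc.measurable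
    | succ n ih =>
      have h2 : Measurable fun t : H × H => D.ν t.2 * D.nuA n (t.2⁻¹ * t.1) :=
        (hD.νc.measurable.comp measurable_snd).mul (ih.comp (measurable_snd.inv.mul measurable_fst))
      exact h2.lintegral_prod_right'
  exact h1 (n - 1)

private theorem i7_tk_mono (D : Dat P H) (S S' : Set P) (h : S ⊆ S') (n : ℕ) (g : P × H) :
    D.tk (iK S) n g ≤ D.tk (iK S') n g := by
  unfold Dat.tk iK
  exact mul_le_mul_left (Set.indicator_le_indicator_of_subset h (fun _ => zero_le) g.1) _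

private theorem i7_KB (G : Geo P) (hG : G.Ok) (g : P) : KB (iK (g • G.B 0)) := by
  have ho : IsOpen (g • G.B 0) := (hG.bo 0).smul g
  refine ⟨measurable_const.indicator ho.measurableSet, ⟨1, ENNReal.one_ne_top, fun x =>
    Set.indicator_le_self' (fun _ _ => zero_le) x⟩, ⟨g • closure (G.B 0), (hG.bc 0).smul g,
    fun x hx => ?_⟩⟩
  exact Set.indicator_of_notMem (fun h => hx (Set.smul_set_mono subset_closure h)) _

private theorem i7_Bm (G : Geo P) (hG : G.Ok) (k : ℕ) : G.B k ⊆ G.B (k + 1) := by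
  intro g hg
  have := hG.bm k (Set.mul_mem_mul hg (hG.b1 k))
  rwa [mul_one] at this

private theorem i7_Om (G : Geo P) (hG : G.Ok) (M : ℕ) (a : Ty) (l : ℕ) :
    G.Om M a (l + 1) ⊆ G.Om M a l := by
  intro g hg
  have := hG.om M a l (Set.mul_mem_mul (Set.mul_mem_mul (hG.b1 9) hg) (hG.b1 9))
  rwa [one_mul, mul_one] at this

private theorem i7_smul (G : Geo P) (hG : G.Ok) (M : ℕ) (a : Ty) (l k : ℕ) (hk : k ≤ 9) (g : P)
    (hg : g ∈ G.Om M a (l + 1)) : g • G.B k ⊆ G.Om M a l := by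
  have hB : ∀ k, k ≤ 9 → G.B k ⊆ G.B 9 := by
    intro k hk
    induction hk using Nat.decreasingInduction with
    | self => exact subset_rfl
    | of_succ k hk ih => exact (i7_Bm G hG k).trans ih
  rintro _ ⟨x, hx, rfl⟩
  have := hG.om M a l (Set.mul_mem_mul (Set.mul_mem_mul (hG.b1 9) hg) (hB k hk hx))
  rwa [one_mul] at this

private theorem i7_Om0 (G : Geo P) (hG : G.Ok) (M : ℕ) (a : Ty) (l : ℕ) :
    G.Om M a l ⊆ G.Om M a 0 := by
  induction l with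
  | zero => exact subset_rfl
  | succ l ih => exact (i7_Om G hG M a l).trans ih

/-- (D): the balance of the second copy. -/
private theorem i7_bal (D : Dat P H) (hD : D.Ok) (hσ₁ : SigmaFinite D.μ₁)
    (G : Geo P) (hG : G.Ok) (M : ℕ) (hBal : Bal D G.Hyp)
    (hcp : Cp (0, 8) (2, 0)) (hT2 : S_T2II P H) (φ : D.Γ → ℝ) (hφ : OddC φ) (g₀ g₁ : P)
    (hg₀ : g₀ ∈ G.Om M (0, 8) 6) (hg₁ : g₁ ∈ G.Om M (2, 0) 6) (n m : ℕ) (hn : 1 ≤ n)
    (hm : 1 ≤ m) :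
    D.T2 (D.tk (iK (g₀ • G.B 0)) n) (D.tk (iK (g₁ • G.B 0)) m)
      (fun u v => ENNReal.ofReal (ph φ u v)) =
    D.T2 (D.tk (iK (g₀ • G.B 0)) n) (D.tk (iK (g₁ • G.B 0)) m)
      (fun u v => ENNReal.ofReal (- ph φ u v)) := by
  obtain ⟨m0, -, -⟩ := i7_KB G hG g₀
  obtain ⟨m1, -, -⟩ := i7_KB G hG g₁
  have c1 : ∀ g x : D.Γ, ENNReal.ofReal (φ (g * x * g⁻¹)) = ENNReal.ofReal (φ x) := by
    intro g x
    rw [hφ.conj]
  have c2 : ∀ g x : D.Γ, ENNReal.ofReal (- φ (g * x * g⁻¹)) = ENNReal.ofReal (- φ x) := by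
    intro g x
    rw [hφ.conj]
  have e1 := (hT2 D hD (fun γ => ENNReal.ofReal (φ γ)) c1).1 (iK (g₀ • G.B 0))
    (iK (g₁ • G.B 0)) n m m0 m1 hn hm
  have e2 := (hT2 D hD (fun γ => ENNReal.ofReal (- φ γ)) c2).1 (iK (g₀ • G.B 0))
    (iK (g₁ • G.B 0)) n m m0 m1 hn hm
  change D.T2 (D.tk (iK (g₀ • G.B 0)) n) (D.tk (iK (g₁ • G.B 0)) m)
      (fun u v => ENNReal.ofReal (ph φ u v)) = _ at e1
  change D.T2 (D.tk (iK (g₀ • G.B 0)) n) (D.tk (iK (g₁ • G.B 0)) m)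
      (fun u v => ENNReal.ofReal (- ph φ u v)) = _ at e2
  rw [e1, e2]
  have hsub : ∀ g : P, (∫⁻ y, iK (g₀ • G.B 0) (g * y) * iK (g₁ • G.B 0) y ∂D.μ₁) ≠ 0 →
      ∃ y, y ∈ g₁ • G.B 0 ∧ g * y ∈ g₀ • G.B 0 := by
    intro g hg
    by_contra hcon
    apply hg
    refine lintegral_eq_zero_of_ae_eq_zero (Filter.Eventually.of_forall fun y => ?_)
    change iK (g₀ • G.B 0) (g * y) * iK (g₁ • G.B 0) y = 0
    by_cases hy : y ∈ g₁ • G.B 0
    · have h3 : g * y ∉ g₀ • G.B 0 := fun h => hcon ⟨y, hy, h⟩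
      unfold iK
      rw [Set.indicator_of_notMem h3, zero_mul]
    · unfold iK
      rw [Set.indicator_of_notMem hy, mul_zero]
  have hcomp : IsCompact (g₀ • closure (G.B 0) * (g₁ • closure (G.B 0))⁻¹) :=
    ((hG.bc 0).smul g₀).mul ((hG.bc 0).smul g₁).inv
  haveI := hD.haar₁
  have hfin : D.μ₁ (g₁ • G.B 0) ≠ ∞ :=
    ne_top_of_le_ne_top ((hG.bc 0).smul g₁).measure_lt_top.ne
      (measure_mono (Set.smul_set_mono subset_closure))
  have hbal := hBal (fun g => ∫⁻ y, iK (g₀ • G.B 0) (g * y) * iK (g₁ • G.B 0) y ∂D.μ₁)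
    (by
      have h2 : Measurable fun t : P × P => iK (g₀ • G.B 0) (t.1 * t.2) * iK (g₁ • G.B 0) t.2 :=
        (m0.comp (measurable_fst.mul measurable_snd)).mul (m1.comp measurable_snd)
      exact h2.lintegral_prod_right')
    ⟨D.μ₁ (g₁ • G.B 0), hfin, fun g => by
      calc ∫⁻ y, iK (g₀ • G.B 0) (g * y) * iK (g₁ • G.B 0) y ∂D.μ₁
          ≤ ∫⁻ y, (g₁ • G.B 0).indicator (fun _ => 1) y ∂D.μ₁ := by
            refine lintegral_mono fun y => ?_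
            have h3 : iK (g₀ • G.B 0) (g * y) ≤ 1 :=
              Set.indicator_le_self' (fun _ _ => zero_le) (g * y)
            calc iK (g₀ • G.B 0) (g * y) * iK (g₁ • G.B 0) y ≤ 1 * iK (g₁ • G.B 0) y := by
                  gcongr
              _ = _ := by
                  rw [one_mul]
                  rfl
        _ = D.μ₁ (g₁ • G.B 0) := by
            rw [lintegral_indicator ((hG.bo 0).smul g₁).measurableSet, setLIntegral_one]⟩
    ⟨_, hcomp, fun g hg => by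
      by_contra h3
      obtain ⟨y, hy, hgy⟩ := hsub g h3
      apply hg
      have h4 : g = (g * y) * y⁻¹ := by group
      rw [h4]
      exact Set.mul_mem_mul (Set.smul_set_mono subset_closure hgy)
        (Set.inv_mem_inv.mpr (Set.smul_set_mono subset_closure hy))⟩
    (fun g hg => by
      by_contra h3
      obtain ⟨y, hy, hgy⟩ := hsub g h3
      apply hg
      have h4 : g = (g * y) * y⁻¹ := by group
      rw [h4]
      refine hG.hy M (0, 8) (2, 0) hcp (Set.mul_mem_mul ?_ (Set.inv_mem_inv.mpr ?_))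
      · exact i7_Om0 G hG M _ 5 (i7_smul G hG M (0, 8) 5 0 (by norm_num) g₀ hg₀ hgy)
      · exact i7_Om0 G hG M _ 5 (i7_smul G hG M (2, 0) 5 0 (by norm_num) g₁ hg₁ hy))
    (n + m) (by omega) (fun γ => ENNReal.ofReal (φ γ)) c1
  rw [hbal]
  congr 1
  funext γ
  rw [hφ.inv]

end

section
variable (P H : Type) [Group P] [Group H] [TopologicalSpace P] [TopologicalSpace H]
  [IsTopologicalGroup P] [IsTopologicalGroup H] [LocallyCompactSpace P] [LocallyCompactSpace H]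
  [T2Space P] [T2Space H] [SecondCountableTopology P] [SecondCountableTopology H]
  [MeasurableSpace P] [MeasurableSpace H] [BorelSpace P] [BorelSpace H]

theorem tI7 : S_dec → S_inst P H → S_O P H → S_st P H → S_near P H → S_hk P H → S_bd P H →
    S_fin P H → S_mean P H → S_T2II P H → S_I6 P H → S_I7 P H := by
  intro hdec hi hO hst hnear hhk hbd hfin hmean hT2 hI6 D G M ka kb hCx hBal b cm cp hb hcm hcp
    hNK C₁ c₀ hC₁
  have hD := hCx.d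
  have hG := hCx.g
  obtain ⟨hσ₁, hσ₂, hσ, hc, hHaar, -⟩ := hi D hD
  obtain ⟨hO1, -, hO3, -, -, hO6, -⟩ := hO D hD
  obtain ⟨hst1, -, -, hst4, hst5, -⟩ := hst D hD
  obtain ⟨-, -, -, -, -, -, -, -, -, -, -, -, -, -, -, hcpt⟩ := hdec
  have hnm : ∀ n, Measurable (D.nu n) := i7_nu_meas D hD hσ₂
  have hmB : ∀ (g : P) (k : ℕ), Measurable (iK (g • G.B k)) := fun g k =>
    measurable_const.indicator ((hG.bo k).smul g).measurableSet
  have hB02 : G.B 0 ⊆ G.B 2 := (i7_Bm G hG 0).trans (i7_Bm G hG 1)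
  obtain ⟨U, hUo, hU1, hUB, hUi, hUc⟩ := i7_U (G.B 0)
    (closure (G.Om M (0, 8) 6) ∪ closure (G.Om M (2, 0) 6)) (hG.bo 0) (hG.b1 0)
    ((hG.oc M _ _).union (hG.oc M _ _))
  obtain ⟨b₄, Cn, hb₄, hCn, hnr⟩ := (hnear D hD).1 U hUo hU1
  obtain ⟨Ch, hCh, hkk⟩ := hhk D hD b₄
  obtain ⟨-, ⟨b₂, c₂, C₂, hb₂, hc₂, hC₂, hbd2⟩, ⟨b₃, c₃, hb₃, hc₃, hbd3⟩, -⟩ := hbd D G hD hG
  obtain ⟨C₆, c₆, hC₆, h6⟩ := hI6 D G M ka kb hCx b cm cp hb hcm hcp hNK C₁ c₀ hC₁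
  have hSm : MeasurableSet (U ×ˢ (D.O ^ b₄)) :=
    hUo.measurableSet.prod (hO1 b₄ hb₄).measurableSet
  have hSf : D.μ (U ×ˢ (D.O ^ b₄)) ≠ ∞ := by
    have h1 : U ×ˢ (D.O ^ b₄) ⊆ closure (G.B 0) ×ˢ closure (D.O ^ b₄) :=
      Set.prod_mono (hUB.trans subset_closure) subset_closure
    exact ne_top_of_le_ne_top ((hG.bc 0).prod (hO6 b₄)).measure_lt_top.ne (measure_mono h1)
  have hc₃t : c₃ ≠ ∞ := by
    have h1 := hbd3 1 1 1 b₃ le_rfl
    have h2 := (hbd2 1 1 1).2 b₃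
    refine ne_top_of_le_ne_top hC₂ (h1.trans (le_trans ?_ h2))
    unfold Dat.N
    exact ENNReal.tsum_le_tsum fun u => i7_tk_mono D _ _ (Set.smul_set_mono hB02) _ _
  have hcc0 : c₃ * c₃ ≠ 0 := mul_ne_zero hc₃.ne' hc₃.ne'
  have hcct : c₃ * c₃ ≠ ∞ := ENNReal.mul_ne_top hc₃t hc₃t
  set B₁ : ℝ≥0∞ := (Cn * D.μ (U ×ˢ (D.O ^ b₄)) * Ch) ^ 2 with hB₁
  have hB₁t : B₁ ≠ ∞ := ENNReal.pow_ne_top (ENNReal.mul_ne_top (ENNReal.mul_ne_top hCn hSf) hCh)
  refine ⟨(c₃ * c₃)⁻¹ * (B₁ * (C₂ * C₆ + C₂ * C₆)), c₆ + (2 * b₄ + 2) + b₃ + 1,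
    ENNReal.mul_ne_top (ENNReal.inv_ne_top.mpr hcc0) (ENNReal.mul_ne_top hB₁t
      (ENNReal.add_ne_top.mpr ⟨ENNReal.mul_ne_top hC₂ hC₆, ENNReal.mul_ne_top hC₂ hC₆⟩)), ?_⟩
  intro r hr φ h β hφ hHH g₀ hg₀ g₁ hg₁ n m hn1 hn2 hm1 hm2
  have hodd : OddC fun x => φ x - h x := i7_odd φ h hφ hHH.1
  set φ₁ : D.Γ → ℝ := fun x => φ x - h x with hφ₁
  have hcN : ∀ n, r + (c₆ + (2 * b₄ + 2) + b₃ + 1) ≤ n →
      1 ≤ n - (2 * b₄ + 2) ∧ b₃ ≤ n - (2 * b₄ + 2) ∧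
        n - (2 * b₄ + 2) + 2 * b₄ + 2 = n := by
    intro n hn
    omega
  obtain ⟨n1, n2, n3⟩ := hcN n hn1
  obtain ⟨m1, m2, m3⟩ := hcN m hm1
  -- conditions for S_hk
  have hcond : ∀ g, g ∈ closure (G.Om M (0, 8) 6) ∪ closure (G.Om M (2, 0) 6) →
      ∀ q ∈ U, ∀ w ∈ g • G.B 0, ∀ q' ∈ U, q * w * q' ∈ g • G.B 2 := by
    rintro g hg q hq _ ⟨β₀, hβ₀, rfl⟩ q' hq'
    have h1 := hUc q hq g hg
    have h2 : (g⁻¹ * q * g) * β₀ * q' ∈ G.B 2 :=
      hG.bm 1 (Set.mul_mem_mul (hG.bm 0 (Set.mul_mem_mul h1 hβ₀))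
        (i7_Bm G hG 0 (hUB hq')))
    refine ⟨(g⁻¹ * q * g) * β₀ * q', h2, ?_⟩
    simp only [smul_eq_mul]
    group
  have hinvS : ∀ q ∈ U ×ˢ (D.O ^ b₄), q⁻¹ ∈ U ×ˢ (D.O ^ b₄) := fun q hq =>
    ⟨hUi _ hq.1, hO3 _ _ hq.2⟩
  have hw : ∀ g, g ∈ closure (G.Om M (0, 8) 6) ∪ closure (G.Om M (2, 0) 6) → ∀ n,
      1 ≤ n - (2 * b₄ + 2) → n - (2 * b₄ + 2) + 2 * b₄ + 2 = n →
      ∀ q ∈ U ×ˢ (D.O ^ b₄), ∀ q' ∈ U ×ˢ (D.O ^ b₄), ∀ w,
        D.tk (iK (g • G.B 0)) (n - (2 * b₄ + 2)) (q⁻¹ * w * q') ≤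
          Ch * D.tk (iK (g • G.B 2)) n w := by
    intro g hg n hn1 hn2 q hq q' hq' w
    have h1 := hkk U (g • G.B 0) (g • G.B 2) (hcond g hg) (n - (2 * b₄ + 2)) hn1
      (q⁻¹ * w * q') q q'⁻¹ hq (hinvS q' hq')
    have h2 : q * (q⁻¹ * w * q') * q'⁻¹ = w := by group
    rwa [h2, hn2] at h1
  have hg₀c : g₀ ∈ closure (G.Om M (0, 8) 6) ∪ closure (G.Om M (2, 0) 6) :=
    Or.inl (subset_closure hg₀)
  have hg₁c : g₁ ∈ closure (G.Om M (0, 8) 6) ∪ closure (G.Om M (2, 0) 6) :=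
    Or.inr (subset_closure hg₁)
  have hkb0 := i7_KB G hG g₀
  have hkb1 := i7_KB G hG g₁
  have hfin2 := (hfin D hD (iK (g₀ • G.B 0)) (iK (g₁ • G.B 0)) (iK (g₁ • G.B 0)) hkb0 hkb1 hkb1
    (n - (2 * b₄ + 2)) (m - (2 * b₄ + 2)) 1).2.1
  have hbal := i7_bal D hD hσ₁ G hG M hBal hcpt hT2 φ₁ hodd g₀ g₁ hg₀ hg₁
    (n - (2 * b₄ + 2)) (m - (2 * b₄ + 2)) n1 m1
  set K₁' := D.tk (iK (g₀ • G.B 0)) (n - (2 * b₄ + 2)) with hK₁'
  set K₂' := D.tk (iK (g₁ • G.B 0)) (m - (2 * b₄ + 2)) with hK₂'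
  set a := D.tk (iK (g₀ • G.B 2)) n with ha
  set bb := D.tk (iK (g₁ • G.B 2)) m with hbb
  have mK₁' : Measurable K₁' := i7_tk_meas D hnm _ (hmB g₀ 0) _
  have mK₂' : Measurable K₂' := i7_tk_meas D hnm _ (hmB g₁ 0) _
  have ma : Measurable a := i7_tk_meas D hnm _ (hmB g₀ 2) _
  have mb : Measurable bb := i7_tk_meas D hnm _ (hmB g₁ 2) _
  -- pointwise
  have hpt : ∀ (x y : P × H) (u V : D.Γ), D.T2 K₁' K₂' (fun _ _ => 1) * ab (ph φ₁ u V) ≤
      B₁ * D.st2 a bb x y fun u' V' => ab (ph φ₁ u V - ph φ₁ u' V') := by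
    intro x y u V
    have h1 := (hmean D hD 0 (ph φ₁ u V)).2 K₁' K₂' mK₁' mK₂' (fun u' V' => ph φ₁ u' V')
      (hfin2 _ fun _ _ => ENNReal.ofReal_ne_top) (hfin2 _ fun _ _ => ENNReal.ofReal_ne_top)
      (by rw [add_zero]; exact hbal.le) (by rw [add_zero]; exact hbal.ge)
    rw [add_zero] at h1
    refine h1.trans ?_
    refine i7_B D hD hσ hst1 hst4 hst5 (U ×ˢ (D.O ^ b₄)) hSm Cn hnr K₁' K₂' a bb mK₁' mK₂' Ch
      (hw g₀ hg₀c n n1 n3) (hw g₁ hg₁c m m1 m3)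
      (fun u' V' => ab (ph φ₁ u V - ph φ₁ u' V')) ?_ ?_ x y
    · intro γ u' V'
      rw [i7_phL φ₁ hodd]
    · intro γ u' V'
      rw [i7_phR φ₁]
  have hfin1 : D.T2 K₁' K₂' (fun _ _ => 1) ≠ ∞ := hfin2 _ fun _ _ => ENNReal.one_ne_top
  have hint := i7_int D (D.tk (iK (g₀ • G.B 0)) n) (D.tk (iK (g₁ • G.B 0)) m) a bb
    (fun g => i7_tk_mono D _ _ (Set.smul_set_mono hB02) _ _)
    (fun g => i7_tk_mono D _ _ (Set.smul_set_mono hB02) _ _)
    (fun u V => ph φ₁ u V) _ B₁ hfin1 hB₁t hpt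
  have hA := i7_A D hD hσ hc hst1 (fun u V => ph φ₁ u V) a bb ma mb C₂ hC₂
    (fun x y => (hbd2 g₀ x y).2 n) (fun x y => (hbd2 g₁ x y).2 m)
  have hRn : RG r c₆ n := ⟨by omega, by omega⟩
  have hRm : RG r c₆ m := ⟨by omega, by omega⟩
  have hx1 := (h6 r (by omega) φ h β hφ hHH g₀ hg₀ g₁ hg₁ n m hRn hRm).1
  have hx2 := (h6 r (by omega) φ h β hφ hHH g₀ hg₀ g₁ hg₁ m n hRm hRn).2
  have hX1 : (D.IM fun x => D.IM fun y => ∑' V : D.Γ, bb (x⁻¹ * (V : P × H) * y) *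
      D.st2 a a x y fun u u' => ab (ph φ₁ u V - ph φ₁ u' V)) ≤ C₆ * r * (D.EE ka r φ + β) := by
    refine le_trans (i7_IM_mono D _ _ fun x => i7_IM_mono D _ _ fun y =>
      ENNReal.tsum_le_tsum fun V => mul_le_mul_left ?_ _) hx1
    exact i7_tk_mono D _ _ (i7_smul G hG M (2, 0) 5 2 (by norm_num) g₁ hg₁) _ _
  have hX2 : (D.IM fun x => D.IM fun y => ∑' u : D.Γ, a (x⁻¹ * (u : P × H) * y) *
      D.st2 bb bb x y fun V V' => ab (ph φ₁ u V - ph φ₁ u V')) ≤ C₆ * r * (D.EE ka r φ + β) := by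
    refine le_trans (i7_IM_mono D _ _ fun x => i7_IM_mono D _ _ fun y =>
      ENNReal.tsum_le_tsum fun V => mul_le_mul_left ?_ _) hx2
    exact i7_tk_mono D _ _ (i7_smul G hG M (0, 8) 5 2 (by norm_num) g₀ hg₀) _ _
  have hmass := i7_mass D hD K₁' K₂' c₃ (fun x y => hbd3 g₀ x y _ n2)
    (fun x y => hbd3 g₁ x y _ m2)
  set X := D.T2 (D.tk (iK (g₀ • G.B 0)) n) (D.tk (iK (g₁ • G.B 0)) m)
    (fun u v => ab (ph φ₁ u v)) with hX
  have hfinal : c₃ * c₃ * X ≤ B₁ * (C₂ * (C₆ * r * (D.EE ka r φ + β)) +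
      C₂ * (C₆ * r * (D.EE ka r φ + β))) := by
    calc c₃ * c₃ * X ≤ D.T2 K₁' K₂' (fun _ _ => 1) * X := by gcongr
      _ ≤ _ := hint
      _ ≤ _ := mul_le_mul_right (hA.trans (add_le_add (mul_le_mul_right hX1 _)
          (mul_le_mul_right hX2 _))) _
  calc X = (c₃ * c₃)⁻¹ * (c₃ * c₃ * X) := by
        rw [← mul_assoc, ENNReal.inv_mul_cancel hcc0 hcct, one_mul]
    _ ≤ (c₃ * c₃)⁻¹ * (B₁ * (C₂ * (C₆ * r * (D.EE ka r φ + β)) +
      C₂ * (C₆ * r * (D.EE ka r φ + β)))) := by gcongr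
    _ = _ := by ring

end

end Pool.Agent.MPEF
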