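import Pool.Agent.Lib.MP_ef3f0f_gt.I.Spec

set_option autoImplicit false
set_option linter.unusedSectionVars false

/-! MP_ef3f0f_gt, part I, module I8. -/

namespace Pool.Agent.MPEF

open MeasureTheory Topology
open scoped ENNReal Pointwise

section
variable {P H : Type} [Group P] [Group H] [MeasurableSpace P] [MeasurableSpace H]

private theorem I8_IMmono {D : Dat P H} {f g : P × H → ℝ≥0∞} (h : ∀ x, f x ≤ g x) :
    D.IM f ≤ D.IM g :=
  lintegral_mono fun x => mul_le_mul' le_rfl (h x)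

private theorem I8_IMadd {D : Dat P H} (hχ : Measurable D.χ) {f g : P × H → ℝ≥0∞}
    (hf : Measurable f) :
    D.IM (fun x => f x + g x) = D.IM f + D.IM g := by
  have e := lintegral_add_left (μ := D.μ) (show Measurable fun x => D.χ x * f x from hχ.mul hf)
    (fun x => D.χ x * g x)
  unfold Dat.IM
  rw [← e]
  refine lintegral_congr fun x => ?_
  ring

private theorem I8_IMmul' {D : Dat P H} {f : P × H → ℝ≥0∞} {c : ℝ≥0∞} (hc : c ≠ ∞) :
    D.IM (fun x => c * f x) = c * D.IM f := by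
  unfold Dat.IM
  rw [← lintegral_const_mul' c _ hc]
  refine lintegral_congr fun x => ?_
  ring

private theorem I8_tkm {D : Dat P H} (hν : ∀ n, Measurable (D.nu n)) {k : P → ℝ≥0∞}
    (hk : Measurable k) (n : ℕ) : Measurable (D.tk k n) := by
  unfold Dat.tk
  exact (hk.comp measurable_fst).mul ((hν n).comp measurable_snd)

omit [Group P] in
private theorem I8_iKm {S : Set P} (h : MeasurableSet S) :
    Measurable (iK S) :=
  measurable_const.indicator h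

end

section
variable {P H : Type} [Group P] [Group H] [TopologicalSpace P] [TopologicalSpace H]
  [IsTopologicalGroup P] [IsTopologicalGroup H] [LocallyCompactSpace P] [LocallyCompactSpace H]
  [T2Space P] [T2Space H] [SecondCountableTopology P] [SecondCountableTopology H]
  [MeasurableSpace P] [MeasurableSpace H] [BorelSpace P] [BorelSpace H]

private theorem I8_IImono {D : Dat P H} {ψ ψ' : P → ℝ≥0∞} (h : ∀ s, ψ s ≤ ψ' s) (N : ℕ)
    (Φ : D.Γ → ℝ≥0∞) : D.II ψ N Φ ≤ D.II ψ' N Φ := by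
  refine I8_IMmono fun x => ENNReal.tsum_le_tsum fun γ => ?_
  exact mul_le_mul' (mul_le_mul' (h _) le_rfl) le_rfl

private theorem I8_IImul {D : Dat P H} {ψ : P → ℝ≥0∞} {c : ℝ≥0∞} (hc : c ≠ ∞) (N : ℕ)
    (Φ : D.Γ → ℝ≥0∞) : D.II (fun s => c * ψ s) N Φ = c * D.II ψ N Φ := by
  unfold Dat.II
  rw [← I8_IMmul' hc]
  refine lintegral_congr fun x => congrArg (fun t => D.χ x * t) ?_
  beta_reduce
  rw [← ENNReal.tsum_mul_left]
  refine tsum_congr fun γ => ?_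
  unfold Dat.tk
  ring

private theorem I8_IIadd {D : Dat P H} [Countable D.Γ] (hχ : Measurable D.χ)
    (νm : ∀ n, Measurable (D.nu n)) {ψ ψ' : P → ℝ≥0∞} (hψ : Measurable ψ) (N : ℕ)
    (Φ : D.Γ → ℝ≥0∞) : D.II (fun s => ψ s + ψ' s) N Φ = D.II ψ N Φ + D.II ψ' N Φ := by
  unfold Dat.II
  have hm : Measurable fun x : P × H => ∑' γ : D.Γ, D.tk ψ N (x⁻¹ * (γ : P × H) * x) * Φ γ := by
    refine Measurable.tsum fun γ => ?_
    exact ((I8_tkm νm hψ N).comp (by fun_prop)).mul_const _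
  rw [← I8_IMadd hχ hm]
  refine lintegral_congr fun x => congrArg (fun t => D.χ x * t) ?_
  beta_reduce
  rw [← ENNReal.tsum_add]
  refine tsum_congr fun γ => ?_
  unfold Dat.tk
  ring

private theorem I8_IIsum {D : Dat P H} [Countable D.Γ] (hχ : Measurable D.χ)
    (νm : ∀ n, Measurable (D.nu n)) (F : Finset P) (ψ : P → P → ℝ≥0∞)
    (hψ : ∀ i ∈ F, Measurable (ψ i)) (N : ℕ) (Φ : D.Γ → ℝ≥0∞) :
    D.II (fun s => ∑ i ∈ F, ψ i s) N Φ = ∑ i ∈ F, D.II (ψ i) N Φ := by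
  classical
  induction F using Finset.induction_on with
  | empty =>
    simp only [Finset.sum_empty]
    unfold Dat.II Dat.tk Dat.IM
    simp only [zero_mul, tsum_zero, mul_zero, lintegral_zero]
  | insert a F ha ih =>
    simp only [Finset.sum_insert ha]
    rw [I8_IIadd hχ νm (hψ a (Finset.mem_insert_self _ _)),
      ih fun i hi => hψ i (Finset.mem_insert_of_mem hi)]

/-- The kernel `ψ₂`. -/
private noncomputable def I8_p2 (μ₁ : Measure P) (B : Set P) (g₀ g₁ : P) (s : P) : ℝ≥0∞ :=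
  ∫⁻ y, iK (g₀ • B) (s * y) * iK (g₁ • B) y ∂μ₁

private theorem I8_p2m (μ₁ : Measure P) [SFinite μ₁] {B : Set P} (hB : IsOpen B) (g₀ g₁ : P) :
    Measurable (I8_p2 μ₁ B g₀ g₁) := by
  unfold I8_p2
  have h1 : Measurable (iK (g₀ • B)) := I8_iKm (hB.smul g₀).measurableSet
  have h2 : Measurable (iK (g₁ • B)) := I8_iKm (hB.smul g₁).measurableSet
  exact Measurable.lintegral_prod_right'
    (f := fun q : P × P => iK (g₀ • B) (q.1 * q.2) * iK (g₁ • B) q.2)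
    ((h1.comp (measurable_fst.mul measurable_snd)).mul (h2.comp measurable_snd))

private theorem I8_low (μ₁ : Measure P) [μ₁.IsHaarMeasure] {B : Set P} (hB : IsOpen B)
    (hB1 : (1 : P) ∈ B) (g₀ g₁ q g : P) (hq : q⁻¹ * g * q = g₀ * g₁⁻¹) :
    ∃ c : ℝ≥0∞, c ≠ 0 ∧ c ≠ ∞ ∧ {s : P | c ≤ I8_p2 μ₁ B g₀ g₁ (q⁻¹ * s * q)} ∈ 𝓝 g := by
  have hcont : Continuous fun p : P × P => p.1 * p.2 := continuous_mul
  have hnb : (fun p : P × P => p.1 * p.2) ⁻¹' B ∈ 𝓝 ((1 : P), (1 : P)) := by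
    refine (hB.preimage hcont).mem_nhds ?_
    change (1 : P) * 1 ∈ B
    rw [one_mul]
    exact hB1
  rw [mem_nhds_prod_iff'] at hnb
  obtain ⟨V₁, V₂, ho1, h11, ho2, h12, hV⟩ := hnb
  have hW : IsOpen (g₁ • (V₂ ∩ B)) := (ho2.inter hB).smul g₁
  have hpos : 0 < μ₁ (g₁ • (V₂ ∩ B)) :=
    hW.measure_pos _ ⟨g₁ • (1 : P), Set.smul_mem_smul_set ⟨h12, hB1⟩⟩
  refine ⟨min (μ₁ (g₁ • (V₂ ∩ B))) 1, ?_, (lt_of_le_of_lt (min_le_right _ _)
    ENNReal.one_lt_top).ne, ?_⟩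
  · intro h
    rcases min_eq_iff.1 h with h | h
    · exact hpos.ne' h.1
    · exact one_ne_zero h.1
  · have hO : IsOpen {s : P | g₀⁻¹ * (q⁻¹ * s * q) * g₁ ∈ V₁} := ho1.preimage (by fun_prop)
    refine Filter.mem_of_superset (hO.mem_nhds ?_) ?_
    · change g₀⁻¹ * (q⁻¹ * g * q) * g₁ ∈ V₁
      rw [hq]
      have : g₀⁻¹ * (g₀ * g₁⁻¹) * g₁ = 1 := by group
      rw [this]
      exact h11
    · intro s hs
      change min (μ₁ (g₁ • (V₂ ∩ B))) 1 ≤ I8_p2 μ₁ B g₀ g₁ (q⁻¹ * s * q)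
      refine (min_le_left _ _).trans ?_
      unfold I8_p2
      rw [← lintegral_indicator_one hW.measurableSet]
      refine lintegral_mono fun y => ?_
      by_cases hy : y ∈ g₁ • (V₂ ∩ B)
      · rw [Set.indicator_of_mem hy]
        obtain ⟨t, ht, rfl⟩ := hy
        have e1 : (q⁻¹ * s * q) * g₁ • t ∈ g₀ • B := by
          refine Set.mem_smul_set_iff_inv_smul_mem.2 ?_
          have e : g₀⁻¹ • ((q⁻¹ * s * q) * g₁ • t) = (g₀⁻¹ * (q⁻¹ * s * q) * g₁) * t := by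
            simp only [smul_eq_mul]
            group
          rw [e]
          exact hV (Set.mk_mem_prod hs ht.1)
        have e2 : g₁ • t ∈ g₁ • B := Set.smul_mem_smul_set ht.2
        unfold iK
        rw [Set.indicator_of_mem e1, Set.indicator_of_mem e2]
        simp
      · rw [Set.indicator_of_notMem hy]
        exact zero_le

end

variable (P H : Type) [Group P] [Group H] [TopologicalSpace P] [TopologicalSpace H]
  [IsTopologicalGroup P] [IsTopologicalGroup H] [LocallyCompactSpace P] [LocallyCompactSpace H]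
  [T2Space P] [T2Space H] [SecondCountableTopology P] [SecondCountableTopology H]
  [MeasurableSpace P] [MeasurableSpace H] [BorelSpace P] [BorelSpace H]

theorem tI8 : S_inst P H → S_T2II P H → S_I7 P H → S_nu P H → S_I8 P H := by
  intro hinst hT2 hI7 hnu D G M ka kb cx hbal hbig b cm cp hb hcm hcp hN C₁ c₀ hC₁ ψ K hψ hψb
    hK hKT hψK
  have hd := cx.d
  have hg := cx.g
  obtain ⟨hσ₁, -, hσ, hcount, -, -, -, -, -⟩ := hinst D hd
  have hH₁ := hd.haar₁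
  have νm := (hnu D hd).1
  obtain ⟨Cψ, hCψ, hψC⟩ := hψb
  obtain ⟨C₇, c₇, hC₇, h7⟩ := hI7 D G M ka kb cx hbal b cm cp hb hcm hcp hN C₁ c₀ hC₁
  have hex : ∀ g ∈ K, ∃ (g₀ g₁ q : P) (c : ℝ≥0∞), g₀ ∈ G.Om M (0, 8) 6 ∧ g₁ ∈ G.Om M (2, 0) 6 ∧
      c ≠ 0 ∧ c ≠ ∞ ∧ {s : P | c ≤ I8_p2 D.μ₁ (G.B 0) g₀ g₁ (q⁻¹ * s * q)} ∈ 𝓝 g := by
    intro g hgK
    obtain ⟨g₀, h0, g₁, h1, q, hq⟩ := hbig g (hKT hgK)
    obtain ⟨c, hc, hc', hn⟩ := I8_low D.μ₁ (hg.bo 0) (hg.b1 0) g₀ g₁ q g hq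
    exact ⟨g₀, g₁, q, c, h0, h1, hc, hc', hn⟩
  choose! g₀ g₁ q c h0 h1 hc hc' hn using hex
  obtain ⟨F, hFK, hcov⟩ := hK.elim_nhds_subcover
    (fun x => {s : P | c x ≤ I8_p2 D.μ₁ (G.B 0) (g₀ x) (g₁ x) ((q x)⁻¹ * s * q x)}) hn
  have hat : ∀ i ∈ F, Cψ / c i ≠ ∞ := fun i hi => ENNReal.div_ne_top hCψ (hc i (hFK i hi))
  refine ⟨∑ i ∈ F, Cψ / c i * C₇, 2 * c₇ + 2, ?_, ?_⟩
  · exact (ENNReal.sum_lt_top.2 fun i hi =>
      lt_top_iff_ne_top.2 (ENNReal.mul_ne_top (hat i hi) hC₇)).ne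
  intro r hr φ h β hodd hHH N hN1 hN2
  have hhom := hHH.1
  obtain ⟨Φ, hΦ⟩ : ∃ Φ : D.Γ → ℝ≥0∞, ∀ γ, Φ γ = ab (φ γ - h γ) := ⟨_, fun _ => rfl⟩
  have hΦf : (fun γ => ab (φ γ - h γ)) = Φ := (funext hΦ).symm
  have hΦc : ∀ g x, Φ (g * x * g⁻¹) = Φ x := by
    intro g x
    have h1 : h 1 = 0 := by
      have := hhom 1 1
      rw [mul_one] at this
      linarith
    have h2 := hhom g g⁻¹
    rw [mul_inv_cancel, h1] at h2
    have h3 : h (g * x * g⁻¹) = h x := by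
      rw [hhom, hhom]
      linarith
    rw [hΦ, hΦ, hodd.conj, h3]
  rw [hΦf]
  have hψle : ∀ s, ψ s ≤ ∑ i ∈ F, Cψ / c i *
      I8_p2 D.μ₁ (G.B 0) (g₀ i) (g₁ i) ((q i)⁻¹ * s * q i) := by
    intro s
    by_cases hs : s ∈ K
    · have h2 := hcov hs
      simp only [Set.mem_iUnion] at h2
      obtain ⟨i, hi, hsi⟩ := h2
      have h3 : c i ≤ I8_p2 D.μ₁ (G.B 0) (g₀ i) (g₁ i) ((q i)⁻¹ * s * q i) := hsi
      calc ψ s ≤ Cψ := hψC s
        _ = Cψ / c i * c i := (ENNReal.div_mul_cancel (hc i (hFK i hi)) (hc' i (hFK i hi))).symm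
        _ ≤ Cψ / c i * I8_p2 D.μ₁ (G.B 0) (g₀ i) (g₁ i) ((q i)⁻¹ * s * q i) :=
          mul_le_mul' le_rfl h3
        _ ≤ _ := Finset.single_le_sum (f := fun i => Cψ / c i *
          I8_p2 D.μ₁ (G.B 0) (g₀ i) (g₁ i) ((q i)⁻¹ * s * q i)) (fun _ _ => zero_le) hi
    · rw [hψK s hs]
      exact zero_le
  have hp2 : ∀ i, Measurable fun s => I8_p2 D.μ₁ (G.B 0) (g₀ i) (g₁ i)
      ((q i)⁻¹ * s * q i) := fun i =>
    (I8_p2m D.μ₁ (hg.bo 0) (g₀ i) (g₁ i)).comp (by fun_prop)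
  obtain ⟨n, hn'⟩ : ∃ n, n = N / 2 := ⟨_, rfl⟩
  obtain ⟨m, hm'⟩ : ∃ m, m = N - N / 2 := ⟨_, rfl⟩
  have hnm : n + m = N := by omega
  calc D.II ψ N Φ ≤ D.II (fun s => ∑ i ∈ F, Cψ / c i *
          I8_p2 D.μ₁ (G.B 0) (g₀ i) (g₁ i) ((q i)⁻¹ * s * q i)) N Φ := I8_IImono hψle N Φ
    _ = ∑ i ∈ F, D.II (fun s => Cψ / c i *
          I8_p2 D.μ₁ (G.B 0) (g₀ i) (g₁ i) ((q i)⁻¹ * s * q i)) N Φ :=
        I8_IIsum hd.χm νm F (fun i s => Cψ / c i *
          I8_p2 D.μ₁ (G.B 0) (g₀ i) (g₁ i) ((q i)⁻¹ * s * q i))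
          (fun i _ => (hp2 i).const_mul _) N Φ
    _ ≤ ∑ i ∈ F, Cψ / c i * C₇ * (r * (D.EE ka r φ + β)) := by
        refine Finset.sum_le_sum fun i hi => ?_
        rw [I8_IImul (hat i hi) N Φ, mul_assoc]
        refine mul_le_mul' le_rfl ?_
        rw [(hT2 D hd Φ hΦc).2 (I8_p2 D.μ₁ (G.B 0) (g₀ i) (g₁ i)) N (q i)
          (I8_p2m D.μ₁ (hg.bo 0) (g₀ i) (g₁ i)), ← hnm]
        have e1 := (hT2 D hd Φ hΦc).1 (iK (g₀ i • G.B 0)) (iK (g₁ i • G.B 0)) n m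
          (I8_iKm ((hg.bo 0).smul (g₀ i)).measurableSet)
          (I8_iKm ((hg.bo 0).smul (g₁ i)).measurableSet) (by omega) (by omega)
        have e2 : D.II (I8_p2 D.μ₁ (G.B 0) (g₀ i) (g₁ i)) (n + m) Φ =
            D.T2 (D.tk (iK (g₀ i • G.B 0)) n) (D.tk (iK (g₁ i • G.B 0)) m)
              (fun u v => Φ (u * v⁻¹)) := e1.symm
        rw [e2]
        have e3 := h7 r (by omega) φ h β hodd hHH (g₀ i) (h0 i (hFK i hi)) (g₁ i)
          (h1 i (hFK i hi)) n m (by omega) (by omega) (by omega) (by omega)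
        have e4 : (fun u v : D.Γ => Φ (u * v⁻¹)) =
            fun u v => ab (ph (fun x => φ x - h x) u v) := by
          funext u v
          rw [hΦ]
          rfl
        rw [e4, ← mul_assoc]
        exact e3
    _ = (∑ i ∈ F, Cψ / c i * C₇) * r * (D.EE ka r φ + β) := by
        rw [← Finset.sum_mul, mul_assoc]

end Pool.Agent.MPEF
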