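import Pool.Agent.Lib.MP_ef3f0f_gt.I.Spec

set_option autoImplicit false

/-!
# MP_ef3f0f_gt, Part I: pairs at different vertices
-/

namespace Pool.Agent.MPEF

open MeasureTheory Topology
open scoped ENNReal Pointwise

section aux

variable {P H : Type} [Group P] [Group H] [MeasurableSpace P] [MeasurableSpace H]

private theorem PI_IM_mono (D : Dat P H) {f g : P × H → ℝ≥0∞} (h : ∀ x, f x ≤ g x) :
    D.IM f ≤ D.IM g :=
  lintegral_mono fun x => by gcongr; exact h x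

private theorem PI_IM_mul (D : Dat P H) (C : ℝ≥0∞) (hC : C ≠ ∞) (f : P × H → ℝ≥0∞) :
    D.IM (fun x => C * f x) = C * D.IM f := by
  unfold Dat.IM
  rw [← lintegral_const_mul' _ _ hC]
  congr 1
  funext x
  ring

private theorem PI_lp_mono (D : Dat P H) (S : Set (P × H)) (z : P × H) {f g : D.Γ → ℝ≥0∞}
    (h : ∀ u, f u ≤ g u) : D.lp S z f ≤ D.lp S z g :=
  ENNReal.tsum_le_tsum fun u => by gcongr; exact h u

private theorem PI_lp_mul (D : Dat P H) (S : Set (P × H)) (z : P × H) (C : ℝ≥0∞)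
    (f : D.Γ → ℝ≥0∞) : D.lp S z (fun u => C * f u) = C * D.lp S z f := by
  unfold Dat.lp
  rw [← ENNReal.tsum_mul_left]
  refine tsum_congr fun u => ?_
  ring

private theorem PI_st2_le (D : Dat P H) {K₁ K₂ K₁' K₂' : P × H → ℝ≥0∞} {x y x' y' : P × H}
    {f f' : D.Γ → D.Γ → ℝ≥0∞} (C₁ C₂ C₃ : ℝ≥0∞)
    (h₁ : ∀ u : D.Γ, K₁ (x⁻¹ * (u : P × H) * y) ≤ C₁ * K₁' (x'⁻¹ * (u : P × H) * y'))
    (h₂ : ∀ u : D.Γ, K₂ (x⁻¹ * (u : P × H) * y) ≤ C₂ * K₂' (x'⁻¹ * (u : P × H) * y'))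
    (h₃ : ∀ u v, f u v ≤ C₃ * f' u v) :
    D.st2 K₁ K₂ x y f ≤ (C₁ * C₂ * C₃) * D.st2 K₁' K₂' x' y' f' := by
  unfold Dat.st2
  rw [← ENNReal.tsum_mul_left]
  refine ENNReal.tsum_le_tsum fun u => ?_
  rw [← ENNReal.tsum_mul_left]
  refine ENNReal.tsum_le_tsum fun v => ?_
  calc K₁ (x⁻¹ * (u : P × H) * y) * K₂ (x⁻¹ * (v : P × H) * y) * f u v
      ≤ (C₁ * K₁' (x'⁻¹ * (u : P × H) * y')) * (C₂ * K₂' (x'⁻¹ * (v : P × H) * y')) *
        (C₃ * f' u v) := by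
        gcongr
        · exact h₁ u
        · exact h₂ v
        · exact h₃ u v
    _ = (C₁ * C₂ * C₃) * (K₁' (x'⁻¹ * (u : P × H) * y') * K₂' (x'⁻¹ * (v : P × H) * y') *
        f' u v) := by ring

private theorem PI_Dv_inv {G : Type} [Group G] {φ : G → ℝ} (hφ : OddC φ) (γ v u g : G) :
    Dv φ (γ * v) (γ * u * g) (γ * u) = Dv φ v (u * g) u := by
  unfold Dv ph
  have h1 : γ * u * g * (γ * v)⁻¹ = γ * (u * g * v⁻¹) * γ⁻¹ := by group
  have h2 : γ * u * (γ * v)⁻¹ = γ * (u * v⁻¹) * γ⁻¹ := by group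
  rw [h1, h2, hφ.conj, hφ.conj]

end aux

section

variable (P H : Type) [Group P] [Group H] [TopologicalSpace P] [TopologicalSpace H]
  [IsTopologicalGroup P] [IsTopologicalGroup H] [LocallyCompactSpace P] [LocallyCompactSpace H]
  [T2Space P] [T2Space H] [SecondCountableTopology P] [SecondCountableTopology H]
  [MeasurableSpace P] [MeasurableSpace H] [BorelSpace P] [BorelSpace H]

private theorem PI_tkm {D : Dat P H} (hn : ∀ n, Measurable (D.nu n)) (S : Set P)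
    (hS : IsOpen S) (n : ℕ) : Measurable (D.tk (iK S) n) := by
  unfold Dat.tk iK
  exact ((measurable_const.indicator hS.measurableSet).comp measurable_fst).mul
    ((hn n).comp measurable_snd)

/-- The inner estimate, for general kernels. -/
private theorem PI_key (D : Dat P H) (hcnt : Countable D.Γ) (φ : D.Γ → ℝ) (hφ : OddC φ)
    (S : Set (P × H)) (hS : MeasurableSet S) (C₁ C₂ : ℝ≥0∞)
    (K₁ K₂ K₁' K₂' L₁ L₂ L₁' L₂' : P × H → ℝ≥0∞)
    (hm : ∀ f : D.Γ → D.Γ → ℝ≥0∞,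
      Measurable fun q : (P × H) × (P × H) => D.st2 K₁' K₂' q.1 q.2 f)
    (hstl : ∀ (x y) (γ : D.Γ) (f : D.Γ → D.Γ → ℝ≥0∞),
      D.st2 K₁' K₂' ((γ : P × H) * x) y f = D.st2 K₁' K₂' x y fun u v => f (γ * u) (γ * v))
    (hnr : ∀ f : P × H → ℝ≥0∞, Measurable f → (∀ γ ∈ D.Γ, ∀ x, f (γ * x) = f x) →
      ∀ x : P × H, D.IM f ≤ C₁ * ∫⁻ q in S, f (x * q) ∂D.μ)
    (h1 : ∀ s, K₁ s ≤ L₁ s) (h2 : ∀ s, K₂ s ≤ L₂ s)
    (h3 : ∀ q ∈ S, ∀ s, K₁' (q⁻¹ * s) ≤ C₂ * L₁' s)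
    (h4 : ∀ q ∈ S, ∀ s, K₂' (q⁻¹ * s) ≤ C₂ * L₂' s) (z : P × H) (g : D.Γ) (x : P × H) :
    (D.IM fun x' => D.st2 K₁ K₂ x z fun u v => D.st2 K₁' K₂' x' z
        fun u' v' => ab (Dv φ v (u * g) u - Dv φ v' (u' * g) u')) ≤
      C₁ * (C₂ * C₂ * D.μ S) * D.st2 L₁ L₂ x z fun u v => D.st2 L₁' L₂' x z
        fun u' v' => ab (Dv φ v (u * g) u - Dv φ v' (u' * g) u') := by
  have hmeas : Measurable fun x' : P × H => D.st2 K₁ K₂ x z fun u v => D.st2 K₁' K₂' x' z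
        fun u' v' => ab (Dv φ v (u * g) u - Dv φ v' (u' * g) u') := by
    have h : ∀ u v : D.Γ, Measurable fun x' : P × H => D.st2 K₁' K₂' x' z
        fun u' v' => ab (Dv φ v (u * g) u - Dv φ v' (u' * g) u') := fun u v =>
      (hm (fun u' v' => ab (Dv φ v (u * g) u - Dv φ v' (u' * g) u'))).comp
        (measurable_id.prodMk measurable_const)
    exact Measurable.ennreal_tsum fun u => Measurable.ennreal_tsum fun v =>
      Measurable.const_mul (h u v) _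
  have hinv : ∀ γ ∈ D.Γ, ∀ x' : P × H,
      (D.st2 K₁ K₂ x z fun u v => D.st2 K₁' K₂' (γ * x') z
        fun u' v' => ab (Dv φ v (u * g) u - Dv φ v' (u' * g) u')) =
      D.st2 K₁ K₂ x z fun u v => D.st2 K₁' K₂' x' z
        fun u' v' => ab (Dv φ v (u * g) u - Dv φ v' (u' * g) u') := by
    intro γ hγ x'
    have h : ∀ u v : D.Γ, (D.st2 K₁' K₂' (γ * x') z
        fun u' v' => ab (Dv φ v (u * g) u - Dv φ v' (u' * g) u')) =
        D.st2 K₁' K₂' x' z fun u' v' => ab (Dv φ v (u * g) u - Dv φ v' (u' * g) u') := by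
      intro u v
      rw [hstl x' z ⟨γ, hγ⟩ (fun u' v' => ab (Dv φ v (u * g) u - Dv φ v' (u' * g) u'))]
      have h' : (fun u' v' : D.Γ => ab (Dv φ v (u * g) u -
          Dv φ (⟨γ, hγ⟩ * v') (⟨γ, hγ⟩ * u' * g) (⟨γ, hγ⟩ * u'))) =
          fun u' v' => ab (Dv φ v (u * g) u - Dv φ v' (u' * g) u') := by
        funext u' v'
        rw [PI_Dv_inv hφ]
      rw [h']
    exact congrArg _ (funext fun u => funext fun v => h u v)
  refine (hnr _ hmeas hinv x).trans ?_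
  rw [mul_assoc]
  refine mul_le_mul_right ?_ C₁
  have hval : ∀ q ∈ S,
      (D.st2 K₁ K₂ x z fun u v => D.st2 K₁' K₂' (x * q) z
        fun u' v' => ab (Dv φ v (u * g) u - Dv φ v' (u' * g) u')) ≤
      C₂ * C₂ * D.st2 L₁ L₂ x z fun u v => D.st2 L₁' L₂' x z
        fun u' v' => ab (Dv φ v (u * g) u - Dv φ v' (u' * g) u') := by
    intro q hq
    have he : ∀ u : D.Γ, (x * q)⁻¹ * (u : P × H) * z = q⁻¹ * (x⁻¹ * (u : P × H) * z) := by
      intro u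
      rw [mul_inv_rev]
      simp only [mul_assoc]
    have h' : ∀ u v : D.Γ, (D.st2 K₁' K₂' (x * q) z
        fun u' v' => ab (Dv φ v (u * g) u - Dv φ v' (u' * g) u')) ≤
        C₂ * C₂ * D.st2 L₁' L₂' x z
        fun u' v' => ab (Dv φ v (u * g) u - Dv φ v' (u' * g) u') := by
      intro u v
      have h'' := PI_st2_le D (x := x * q) (y := z) (x' := x) (y' := z) C₂ C₂ 1
        (K₁ := K₁') (K₂ := K₂') (K₁' := L₁') (K₂' := L₂')
        (f := fun u' v' => ab (Dv φ v (u * g) u - Dv φ v' (u' * g) u'))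
        (f' := fun u' v' => ab (Dv φ v (u * g) u - Dv φ v' (u' * g) u'))
        (fun u' => by rw [he]; exact h3 q hq _) (fun u' => by rw [he]; exact h4 q hq _)
        (fun u' v' => by rw [one_mul])
      rwa [mul_one] at h''
    have h := PI_st2_le D (x := x) (y := z) (x' := x) (y' := z) 1 1 (C₂ * C₂)
      (K₁ := K₁) (K₂ := K₂) (K₁' := L₁) (K₂' := L₂)
      (f := fun u v => D.st2 K₁' K₂' (x * q) z
        fun u' v' => ab (Dv φ v (u * g) u - Dv φ v' (u' * g) u'))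
      (f' := fun u v => D.st2 L₁' L₂' x z
        fun u' v' => ab (Dv φ v (u * g) u - Dv φ v' (u' * g) u'))
      (fun u => by rw [one_mul]; exact h1 _) (fun u => by rw [one_mul]; exact h2 _) h'
    rwa [one_mul, one_mul] at h
  refine (setLIntegral_mono' hS hval).trans (le_of_eq ?_)
  rw [setLIntegral_const]
  ring

/-- The outer sums. -/
private theorem PI_out (D : Dat P H) (S : Set (P × H)) (A B : ℝ≥0∞) (hA : A ≠ ∞)
    (F F' : P × H → D.Γ → P × H → ℝ≥0∞) (h : ∀ z g x, F z g x ≤ A * F' z g x)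
    (hB : (D.IM fun z => D.lp S z fun g => D.IM fun x => F' z g x) ≤ B) :
    (D.IM fun z => D.lp S z fun g => D.IM fun x => F z g x) ≤ A * B := by
  calc (D.IM fun z => D.lp S z fun g => D.IM fun x => F z g x)
      ≤ D.IM fun z => D.lp S z fun g => D.IM fun x => A * F' z g x :=
        PI_IM_mono D fun z => PI_lp_mono D _ z fun g => PI_IM_mono D fun x => h z g x
    _ = A * D.IM fun z => D.lp S z fun g => D.IM fun x => F' z g x := by
        simp_rw [PI_IM_mul D _ hA, PI_lp_mul D, PI_IM_mul D _ hA]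
    _ ≤ A * B := mul_le_mul_right hB A

theorem tPI : S_inst P H → S_st P H → S_near P H → S_hk P H → S_PI0 P H → S_O P H → S_nu P H →
    S_PI P H := by
  intro hinst hst hnear hhk hPI0 hO hnu D G M ka kb hx c
  obtain ⟨b, C₁, hb, hC₁, hnr⟩ := (hnear D hx.d).1 (G.B 2) (hx.g.bo 2) (hx.g.b1 2)
  obtain ⟨C₂, hC₂, hk⟩ := hhk D hx.d b
  obtain ⟨C₃, c₀, hC₃, hP⟩ := hPI0 D G M ka kb hx c
  obtain ⟨hOo, hO1, -, -, -, hOc, -⟩ := hO D hx.d
  obtain ⟨hnm, -⟩ := hnu D hx.d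
  obtain ⟨-, -, hsf, hcnt, hHaar, -⟩ := hinst D hx.d
  obtain ⟨hstm, -, -, hstl, -⟩ := hst D hx.d
  -- the sets `B k`
  have hBm : ∀ k, G.B k ⊆ G.B (k + 1) := fun k g hg =>
    hx.g.bm k ⟨1, hx.g.b1 k, g, hg, one_mul g⟩
  have hB29 : G.B 2 ⊆ G.B 9 :=
    (hBm 2).trans ((hBm 3).trans ((hBm 4).trans ((hBm 5).trans ((hBm 6).trans
      ((hBm 7).trans (hBm 8))))))
  have hom : ∀ a l, ∀ q ∈ G.B 9, ∀ g ∈ G.Om M a (l + 1), ∀ q' ∈ G.B 9,
      q * g * q' ∈ G.Om M a l := fun a l q hq g hg q' hq' =>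
    hx.g.om M a l (Set.mul_mem_mul (Set.mul_mem_mul hq hg) hq')
  have hOm : ∀ a, G.Om M a 4 ⊆ G.Om M a 3 := fun a g hg => by
    have := hom a 3 1 (hx.g.b1 9) g hg 1 (hx.g.b1 9)
    simpa using this
  -- finiteness of the measure
  have hfin : D.μ (G.B 2 ×ˢ (D.O ^ b)) ≠ ∞ := by
    have h1 : G.B 2 ×ˢ (D.O ^ b) ⊆ closure (G.B 2) ×ˢ closure (D.O ^ b) :=
      Set.prod_mono subset_closure subset_closure
    have h2 : IsCompact (closure (G.B 2) ×ˢ closure (D.O ^ b)) := (hx.g.bc 2).prod (hOc b)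
    exact ((measure_mono h1).trans_lt h2.measure_lt_top).ne
  have hA : C₁ * (C₂ * C₂ * D.μ (G.B 2 ×ˢ (D.O ^ b))) ≠ ∞ :=
    ENNReal.mul_ne_top hC₁ (ENNReal.mul_ne_top (ENNReal.mul_ne_top hC₂ hC₂) hfin)
  refine ⟨C₁ * (C₂ * C₂ * D.μ (G.B 2 ×ˢ (D.O ^ b))) * C₃, c₀ + (2 * b + 2),
    ENNReal.mul_ne_top hA hC₃, ?_⟩
  intro r φ hr hφ e j e' j' hv hv' n m n' m' hn hm hn' hm'
  have hmono : ∀ (a : Ty) (k : ℕ) (s : P × H),
      D.tk (iK (G.Om M a 4)) k s ≤ D.tk (iK (G.Om M a 3)) k s := by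
    intro a k s
    unfold Dat.tk iK
    exact mul_le_mul_left (Set.indicator_le_indicator_of_subset (hOm a) (fun _ => zero_le) s.1)
      _
  have hshift : ∀ (a : Ty) (k : ℕ), 1 ≤ k → ∀ q ∈ G.B 2 ×ˢ (D.O ^ b), ∀ s : P × H,
      D.tk (iK (G.Om M a 4)) k (q⁻¹ * s) ≤
        C₂ * D.tk (iK (G.Om M a 3)) (k + 2 * b + 2) s := by
    intro a k hk1 q hq s
    have h := hk (G.B 9) (G.Om M a 4) (G.Om M a 3) (hom a 3) k hk1
      (q⁻¹ * s) q 1 ⟨hB29 hq.1, hq.2⟩ ⟨hx.g.b1 9, hO1 b⟩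
    rwa [mul_inv_cancel_left, mul_one] at h
  have hSm : MeasurableSet (G.B 2 ×ˢ (D.O ^ b)) :=
    (hx.g.bo 2).measurableSet.prod (hOo b hb).measurableSet
  have hfinal := hP r φ hr hφ e j e' j' hv hv' n m (n' + 2 * b + 2) (m' + 2 * b + 2)
    ⟨hn.1, by have := hn.2; omega⟩ ⟨hm.1, by have := hm.2; omega⟩
    ⟨by have := hn'.1; omega, by have := hn'.2; omega⟩
    ⟨by have := hm'.1; omega, by have := hm'.2; omega⟩
  rw [mul_assoc]
  refine PI_out P H D _ _ _ hA _ _ (fun z g x => ?_) hfinal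
  exact PI_key P H D hcnt φ hφ (G.B 2 ×ˢ (D.O ^ b)) hSm C₁ C₂ _ _ _ _ _ _ _ _
    (hstm _ _ (PI_tkm P H hnm _ (hx.g.oo _ _ _) n') (PI_tkm P H hnm _ (hx.g.oo _ _ _) m'))
    (hstl _ _) hnr (hmono _ _) (hmono _ _) (hshift _ _ (hr.trans hn'.1))
    (hshift _ _ (hr.trans hm'.1)) z g x

end

end Pool.Agent.MPEF
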