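import Pool.Agent.Lib.MP_ef3f0f_gt.I.Spec

set_option autoImplicit false

/-! MP_ef3f0f_gt, part I, module PI0: pairs at the same vertices. -/

namespace Pool.Agent.MPEF

open MeasureTheory Topology
open scoped ENNReal Pointwise

section abstr

variable {Γ : Type}

/-- weighted sum -/
private noncomputable def PI0_W (a : Γ → ℝ≥0∞) (f : Γ → ℝ≥0∞) : ℝ≥0∞ := ∑' u, a u * f u

private theorem PI0_mono (a f g : Γ → ℝ≥0∞) (h : ∀ u, f u ≤ g u) : PI0_W a f ≤ PI0_W a g :=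
  ENNReal.tsum_le_tsum fun u => mul_le_mul_right (h u) _

private theorem PI0_add (a f g : Γ → ℝ≥0∞) :
    PI0_W a (fun u => f u + g u) = PI0_W a f + PI0_W a g := by
  unfold PI0_W
  rw [← ENNReal.tsum_add]
  exact tsum_congr fun u => mul_add _ _ _

private theorem PI0_const (a : Γ → ℝ≥0∞) (k : ℝ≥0∞) : PI0_W a (fun _ => k) = (∑' u, a u) * k :=
  ENNReal.tsum_mul_right

private theorem PI0_cmul (a f : Γ → ℝ≥0∞) (k : ℝ≥0∞) :
    PI0_W a (fun u => k * f u) = k * PI0_W a f := by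
  unfold PI0_W
  rw [← ENNReal.tsum_mul_left]
  exact tsum_congr fun u => by ring

private theorem PI0_comm (a b : Γ → ℝ≥0∞) (f : Γ → Γ → ℝ≥0∞) :
    PI0_W a (fun u => PI0_W b fun v => f u v) = PI0_W b (fun v => PI0_W a fun u => f u v) := by
  unfold PI0_W
  simp only [← ENNReal.tsum_mul_left]
  rw [ENNReal.tsum_comm]
  exact tsum_congr fun v => tsum_congr fun u => by ring

private theorem PI0_ab_add (s t : ℝ) : ab (s + t) ≤ ab s + ab t := by
  unfold ab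
  rw [← ENNReal.ofReal_add (abs_nonneg _) (abs_nonneg _)]
  exact ENNReal.ofReal_le_ofReal (abs_add_le _ _)

private theorem PI0_ab_neg (t : ℝ) : ab (-t) = ab t := by
  unfold ab
  rw [abs_neg]

private theorem PI0_ab_sub (s t : ℝ) : ab (s - t) ≤ ab s + ab t := by
  have := PI0_ab_add s (-t)
  rwa [PI0_ab_neg, ← sub_eq_add_neg] at this

variable [Group Γ]

private theorem PI0_pt (φ : Γ → ℝ) (g u v u' v' u₀ w : Γ) :
    ab (Dv φ v (u * g) u - Dv φ v' (u' * g) u') ≤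
      ab (Dv φ v (u * g) u - Dv φ v (u₀ * g) u₀) + ab (Dv φ v (u₀ * g) u₀ - Dv φ w (u₀ * g) u₀) +
        ab (Dv φ v' (u₀ * g) u₀ - Dv φ w (u₀ * g) u₀) +
        ab (Dv φ v' (u' * g) u' - Dv φ v' (u₀ * g) u₀) := by
  have h1 : Dv φ v (u * g) u - Dv φ v' (u' * g) u' =
      (((Dv φ v (u * g) u - Dv φ v (u₀ * g) u₀) + (Dv φ v (u₀ * g) u₀ - Dv φ w (u₀ * g) u₀)) -
        (Dv φ v' (u₀ * g) u₀ - Dv φ w (u₀ * g) u₀)) -
        (Dv φ v' (u' * g) u' - Dv φ v' (u₀ * g) u₀) := by ring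
  rw [h1]
  exact (PI0_ab_sub _ _).trans (add_le_add ((PI0_ab_sub _ _).trans (add_le_add (PI0_ab_add _ _)
    le_rfl)) le_rfl)

/-- the sum of Xii -/
private noncomputable def PI0_A (φ : Γ → ℝ) (g : Γ) (p p' s : Γ → ℝ≥0∞) : ℝ≥0∞ :=
  PI0_W p fun u => PI0_W p' fun u' => PI0_W s fun v =>
    ab (Dv φ v (u * g) u - Dv φ v (u' * g) u')

/-- the sum of Xi -/
private noncomputable def PI0_B (φ : Γ → ℝ) (g : Γ) (p s t : Γ → ℝ≥0∞) : ℝ≥0∞ :=
  PI0_W p fun u => PI0_W s fun v => PI0_W t fun w =>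
    ab (Dv φ v (u * g) u - Dv φ w (u * g) u)

private theorem PI0_abs (φ : Γ → ℝ) (p s p' s' q t : Γ → ℝ≥0∞) (c C : ℝ≥0∞) (g : Γ)
    (hc0 : c ≠ 0) (hct : c ≠ ∞) (hp : ∑' u, p u ≤ C) (hs : ∑' u, s u ≤ C) (hp' : ∑' u, p' u ≤ C)
    (hs' : ∑' u, s' u ≤ C) (ht' : ∑' u, t u ≤ C) (hq : c ≤ ∑' u, q u) (ht : c ≤ ∑' u, t u) :
    PI0_W p (fun u => PI0_W s fun v => PI0_W p' fun u' => PI0_W s' fun v' =>
      ab (Dv φ v (u * g) u - Dv φ v' (u' * g) u')) ≤
    ((c * c)⁻¹ * (C * (C * C))) *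
      (PI0_A φ g p q s + PI0_B φ g q s t + PI0_B φ g q s' t + PI0_A φ g p' q s') := by
  have hcc0 : c * c ≠ 0 := mul_ne_zero hc0 hc0
  have hcct : c * c ≠ ∞ := ENNReal.mul_ne_top hct hct
  have hpt : ∀ u v u' v', ab (Dv φ v (u * g) u - Dv φ v' (u' * g) u') ≤
      (c * c)⁻¹ * PI0_W q fun u₀ => PI0_W t fun w =>
      ab (Dv φ v (u * g) u - Dv φ v (u₀ * g) u₀) + ab (Dv φ v (u₀ * g) u₀ - Dv φ w (u₀ * g) u₀) +
        ab (Dv φ v' (u₀ * g) u₀ - Dv φ w (u₀ * g) u₀) +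
        ab (Dv φ v' (u' * g) u' - Dv φ v' (u₀ * g) u₀) := by
    intro u v u' v'
    rw [← ENNReal.mul_le_iff_le_inv hcc0 hcct]
    calc c * c * ab (Dv φ v (u * g) u - Dv φ v' (u' * g) u')
        ≤ (∑' u, q u) * ((∑' u, t u) * ab (Dv φ v (u * g) u - Dv φ v' (u' * g) u')) := by
          rw [mul_assoc]
          exact mul_le_mul' hq (mul_le_mul' ht le_rfl)
      _ = PI0_W q (fun _ => PI0_W t fun _ => ab (Dv φ v (u * g) u - Dv φ v' (u' * g) u')) := by
          rw [PI0_const, PI0_const]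
      _ ≤ _ := PI0_mono _ _ _ fun u₀ => PI0_mono _ _ _ fun w => PI0_pt φ g u v u' v' u₀ w
  refine (PI0_mono _ _ _ fun u => PI0_mono _ _ _ fun v => PI0_mono _ _ _ fun u' =>
    PI0_mono _ _ _ fun v' => hpt u v u' v').trans ?_
  simp only [PI0_cmul, PI0_add, PI0_const]
  rw [mul_assoc]
  refine mul_le_mul_right ?_ _
  rw [mul_add, mul_add, mul_add]
  refine add_le_add (add_le_add (add_le_add ?_ ?_) ?_) ?_
  · calc _ = (∑' u, t u) * ((∑' u, s' u) * ((∑' u, p' u) * PI0_W p fun u => PI0_W s fun v =>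
          PI0_W q fun u₀ => ab (Dv φ v (u * g) u - Dv φ v (u₀ * g) u₀))) := by
          ring
      _ ≤ C * (C * (C * PI0_W p fun u => PI0_W s fun v =>
          PI0_W q fun u₀ => ab (Dv φ v (u * g) u - Dv φ v (u₀ * g) u₀))) :=
          mul_le_mul' ht' (mul_le_mul' hs' (mul_le_mul' hp' le_rfl))
      _ = C * (C * C) * PI0_A φ g p q s := by
          unfold PI0_A
          simp only [PI0_comm s q]
          ring
  · calc _ = (∑' u, p u) * ((∑' u, s' u) * ((∑' u, p' u) * PI0_W s fun v =>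
          PI0_W q fun u₀ => PI0_W t fun w => ab (Dv φ v (u₀ * g) u₀ - Dv φ w (u₀ * g) u₀))) := by
          ring
      _ ≤ C * (C * (C * PI0_W s fun v =>
          PI0_W q fun u₀ => PI0_W t fun w => ab (Dv φ v (u₀ * g) u₀ - Dv φ w (u₀ * g) u₀))) :=
          mul_le_mul' hp (mul_le_mul' hs' (mul_le_mul' hp' le_rfl))
      _ = C * (C * C) * PI0_B φ g q s t := by
          unfold PI0_B
          rw [PI0_comm s q]
          ring
  · calc _ = (∑' u, p u) * ((∑' u, s u) * ((∑' u, p' u) * PI0_W s' fun v =>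
          PI0_W q fun u₀ => PI0_W t fun w => ab (Dv φ v (u₀ * g) u₀ - Dv φ w (u₀ * g) u₀))) := by
          ring
      _ ≤ C * (C * (C * PI0_W s' fun v =>
          PI0_W q fun u₀ => PI0_W t fun w => ab (Dv φ v (u₀ * g) u₀ - Dv φ w (u₀ * g) u₀))) :=
          mul_le_mul' hp (mul_le_mul' hs (mul_le_mul' hp' le_rfl))
      _ = C * (C * C) * PI0_B φ g q s' t := by
          unfold PI0_B
          rw [PI0_comm s' q]
          ring
  · calc _ = (∑' u, t u) * ((∑' u, s u) * ((∑' u, p u) * PI0_W p' fun u => PI0_W s' fun v =>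
          PI0_W q fun u₀ => ab (Dv φ v (u * g) u - Dv φ v (u₀ * g) u₀))) := by
          ring
      _ ≤ C * (C * (C * PI0_W p' fun u => PI0_W s' fun v =>
          PI0_W q fun u₀ => ab (Dv φ v (u * g) u - Dv φ v (u₀ * g) u₀))) :=
          mul_le_mul' ht' (mul_le_mul' hs (mul_le_mul' hp le_rfl))
      _ = C * (C * C) * PI0_A φ g p' q s' := by
          unfold PI0_A
          simp only [PI0_comm s' q]
          ring

end abstr

section two

variable {P H : Type} [Group P] [Group H] [MeasurableSpace P] [MeasurableSpace H]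

private theorem PI0_st3 (D : Dat P H) (K₁ K₂ K₃ : P × H → ℝ≥0∞) (x y : P × H)
    (f : D.Γ → D.Γ → D.Γ → ℝ≥0∞) :
    D.st3 K₁ K₂ K₃ x y f = PI0_W (fun u : D.Γ => K₁ (x⁻¹ * (u : P × H) * y)) fun u =>
      PI0_W (fun v : D.Γ => K₂ (x⁻¹ * (v : P × H) * y)) fun v =>
        PI0_W (fun w : D.Γ => K₃ (x⁻¹ * (w : P × H) * y)) fun w => f u v w := by
  unfold Dat.st3 PI0_W
  simp only [← ENNReal.tsum_mul_left]
  exact tsum_congr fun u => tsum_congr fun v => tsum_congr fun w => by ring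

private theorem PI0_st2 (D : Dat P H) (K₁ K₂ : P × H → ℝ≥0∞) (x y : P × H)
    (f : D.Γ → D.Γ → ℝ≥0∞) :
    D.st2 K₁ K₂ x y f = PI0_W (fun u : D.Γ => K₁ (x⁻¹ * (u : P × H) * y)) fun u =>
      PI0_W (fun v : D.Γ => K₂ (x⁻¹ * (v : P × H) * y)) fun v => f u v := by
  unfold Dat.st2 PI0_W
  simp only [← ENNReal.tsum_mul_left]
  exact tsum_congr fun u => tsum_congr fun v => by ring

private theorem PI0_IM_mono (D : Dat P H) (f g : P × H → ℝ≥0∞) (h : ∀ x, f x ≤ g x) :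
    D.IM f ≤ D.IM g := lintegral_mono fun x => mul_le_mul_right (h x) _

private theorem PI0_IM_cmul (D : Dat P H) (k : ℝ≥0∞) (hk : k ≠ ∞) (f : P × H → ℝ≥0∞) :
    D.IM (fun x => k * f x) = k * D.IM f := by
  unfold Dat.IM
  rw [← lintegral_const_mul' _ _ hk]
  exact lintegral_congr fun y => by ring

private theorem PI0_IM_add (D : Dat P H) (hχ : Measurable D.χ) (f g : P × H → ℝ≥0∞)
    (hf : Measurable f) : D.IM (fun x => f x + g x) = D.IM f + D.IM g := by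
  unfold Dat.IM
  have hm : Measurable fun x => D.χ x * f x := hχ.mul hf
  rw [← lintegral_add_left hm]
  exact lintegral_congr fun y => mul_add _ _ _

private theorem PI0_lp_mono (D : Dat P H) (S : Set (P × H)) (z : P × H) (f g : D.Γ → ℝ≥0∞)
    (h : ∀ γ, f γ ≤ g γ) : D.lp S z f ≤ D.lp S z g :=
  ENNReal.tsum_le_tsum fun γ => mul_le_mul_right (h γ) _

private theorem PI0_lp_add (D : Dat P H) (S : Set (P × H)) (z : P × H) (f g : D.Γ → ℝ≥0∞) :
    D.lp S z (fun γ => f γ + g γ) = D.lp S z f + D.lp S z g := by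
  unfold Dat.lp
  rw [← ENNReal.tsum_add]
  exact tsum_congr fun γ => mul_add _ _ _

private theorem PI0_lp_cmul (D : Dat P H) (S : Set (P × H)) (z : P × H) (k : ℝ≥0∞)
    (f : D.Γ → ℝ≥0∞) : D.lp S z (fun γ => k * f γ) = k * D.lp S z f := by
  unfold Dat.lp
  rw [← ENNReal.tsum_mul_left]
  exact tsum_congr fun γ => by ring

/-- the functional -/
private noncomputable def PI0_L (D : Dat P H) (S : Set (P × H))
    (F : D.Γ → (P × H) × (P × H) → ℝ≥0∞) : ℝ≥0∞ :=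
  D.IM fun z => D.lp S z fun g => D.IM fun x => F g (x, z)

private theorem PI0_L_mono (D : Dat P H) (S : Set (P × H)) (F F' : D.Γ → (P × H) × (P × H) → ℝ≥0∞)
    (h : ∀ g q, F g q ≤ F' g q) : PI0_L D S F ≤ PI0_L D S F' :=
  PI0_IM_mono D _ _ fun _ => PI0_lp_mono D S _ _ _ fun _ => PI0_IM_mono D _ _ fun _ => h _ _

private theorem PI0_L_cmul (D : Dat P H) (S : Set (P × H)) (k : ℝ≥0∞) (hk : k ≠ ∞)
    (F : D.Γ → (P × H) × (P × H) → ℝ≥0∞) : PI0_L D S (fun g q => k * F g q) = k * PI0_L D S F := by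
  unfold PI0_L
  rw [← PI0_IM_cmul D k hk]
  congr 1
  funext z
  rw [← PI0_lp_cmul]
  congr 1
  funext g
  exact PI0_IM_cmul D k hk _

private theorem PI0_L_add (D : Dat P H) (S : Set (P × H)) (hχ : Measurable D.χ)
    (F F' : D.Γ → (P × H) × (P × H) → ℝ≥0∞) (hF : ∀ g, Measurable (F g))
    (hL : Measurable fun z => D.lp S z fun g => D.IM fun x => F g (x, z)) :
    PI0_L D S (fun g q => F g q + F' g q) = PI0_L D S F + PI0_L D S F' := by
  unfold PI0_L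
  rw [← PI0_IM_add D hχ _ _ hL]
  congr 1
  funext z
  rw [← PI0_lp_add]
  congr 1
  funext g
  exact PI0_IM_add D hχ _ _ ((hF g).comp (measurable_id.prodMk measurable_const))

end two

variable (P H : Type) [Group P] [Group H] [TopologicalSpace P] [TopologicalSpace H]
  [IsTopologicalGroup P] [IsTopologicalGroup H] [LocallyCompactSpace P] [LocallyCompactSpace H]
  [T2Space P] [T2Space H] [SecondCountableTopology P] [SecondCountableTopology H]
  [MeasurableSpace P] [MeasurableSpace H] [BorelSpace P] [BorelSpace H]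

private theorem PI0_num (D : Dat P H) (hD : D.Ok) [SFinite D.μ₂] (n : ℕ) : Measurable (D.nu n) := by
  unfold Dat.nu
  generalize n - 1 = k
  induction k with
  | zero => exact hD.νc.measurable
  | succ k ih =>
    have h1 : Measurable fun p : H × H => D.ν p.2 * D.nuA k (p.2⁻¹ * p.1) :=
      (hD.νc.measurable.comp measurable_snd).mul
        (ih.comp ((measurable_inv.comp measurable_snd).mul measurable_fst))
    exact Measurable.lintegral_prod_right' (f := fun p : H × H => D.ν p.2 * D.nuA k (p.2⁻¹ * p.1)) h1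

private theorem PI0_Om (D : Dat P H) (hD : D.Ok) (c : ℕ) : MeasurableSet (D.O ^ c) := by
  have h1 : IsOpen D.O := isOpen_lt continuous_const hD.νc
  cases c with
  | zero =>
    rw [pow_zero, ← Set.singleton_one]
    exact measurableSet_singleton _
  | succ c =>
    rw [pow_succ]
    exact h1.mul_left.measurableSet

theorem tPI0 : S_dec → S_inst P H → S_st P H → S_bd P H → S_Xi P H → S_Xii P H → S_PI0 P H := by
  intro hdec hinst hst hbd hXi hXii D G M ka kb hcx c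
  obtain ⟨d0, v1, v2, -, -, -, d1, d2, -, -, -, -, -, -, -, -⟩ := hdec
  have hD := hcx.d
  have hG := hcx.g
  obtain ⟨s1, s2, s3, -, -, -, -, -, -⟩ := hinst D hD
  obtain ⟨b, cN, CN, hb, hcN, hCN, hN⟩ := (hbd D G hD hG).1 M hcx.ne hcx.nm
  obtain ⟨C₁, c₁, hC₁, hX1⟩ := hXi D G M ka kb hcx c
  obtain ⟨C₂, c₂, hC₂, hX2⟩ := hXii D G M ka kb hcx c
  have hct : cN ≠ ∞ := by
    have h1 := (hN 1 1).1 (0, 0) 0 b (by norm_num) le_rfl
    have h2 := (hN 1 1).2.2 (0, 0) 0 b (by norm_num)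
    exact ((h1.trans h2).trans_lt (lt_top_iff_ne_top.2 hCN)).ne
  have hA : (cN * cN)⁻¹ * (CN * (CN * CN)) ≠ ∞ :=
    ENNReal.mul_ne_top (ENNReal.inv_ne_top.2 (mul_ne_zero hcN.ne' hcN.ne'))
      (ENNReal.mul_ne_top hCN (ENNReal.mul_ne_top hCN hCN))
  refine ⟨((cN * cN)⁻¹ * (CN * (CN * CN))) * (C₂ + C₁ + C₁ + C₂), 3 * (b + c₁ + c₂),
    ENNReal.mul_ne_top hA (ENNReal.add_ne_top.2 ⟨ENNReal.add_ne_top.2
      ⟨ENNReal.add_ne_top.2 ⟨hC₂, hC₁⟩, hC₁⟩, hC₂⟩), ?_⟩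
  intro r φ hr hφ e j e' j' hv hv' n m n' m' hn hm hn' hm'
  have hSm : MeasurableSet (G.B 7 ×ˢ (D.O ^ c)) := (hG.bo 7).measurableSet.prod (PI0_Om P H D hD c)
  have hKm : ∀ a k, Measurable (D.tk (iK (G.Om M a 3)) k) := by
    intro a k
    unfold Dat.tk iK
    exact ((measurable_const.indicator (hG.oo M a 3).measurableSet).comp measurable_fst).mul
      ((PI0_num P H D hD k).comp measurable_snd)
  have hR : ∀ k, RG r (3 * (b + c₁ + c₂)) k → RG r c₁ k ∧ RG r c₂ k := by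
    intro k hk
    have h1 := hk.1
    have h2 := hk.2
    exact ⟨⟨by omega, by omega⟩, ⟨by omega, by omega⟩⟩
  have hbr : b + c₁ + c₂ ≤ r := by
    have h1 := hn.1
    have h2 := hn.2
    omega
  have h2r1 : RG r c₁ (2 * r) := ⟨by omega, by omega⟩
  have h2r2 : RG r c₂ (2 * r) := ⟨by omega, by omega⟩
  have hv4 : ∀ e, vst e 4 := by
    intro e
    cases e
    · exact v1
    · exact v2
  have hd12 : ∀ e, PTu (0, 4) (ety e) (1, 2) := by
    intro e
    cases e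
    · exact d1
    · exact d2
  let XA : Ty → ℕ → Ty → ℕ → Ty → ℕ → D.Γ → (P × H) × (P × H) → ℝ≥0∞ := fun a i a' i' e j g q =>
    D.st3 (D.tk (iK (G.Om M a 3)) i) (D.tk (iK (G.Om M a' 3)) i') (D.tk (iK (G.Om M e 3)) j) q.1 q.2
      fun u u' v => ab (Dv φ v (u * g) u - Dv φ v (u' * g) u')
  let XB : Ty → ℕ → Ty → ℕ → Ty → ℕ → D.Γ → (P × H) × (P × H) → ℝ≥0∞ := fun a i a' i' e j g q =>
    D.st3 (D.tk (iK (G.Om M a 3)) i) (D.tk (iK (G.Om M a' 3)) i') (D.tk (iK (G.Om M e 3)) j) q.1 q.2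
      fun u v w => ab (Dv φ v (u * g) u - Dv φ w (u * g) u)
  have mA : ∀ a i a' i' e j g, Measurable (XA a i a' i' e j g) := fun a i a' i' e j g =>
    (hst D hD).2.1 _ _ _ (hKm a i) (hKm a' i') (hKm e j) _
  have mB : ∀ a i a' i' e j g, Measurable (XB a i a' i' e j g) := fun a i a' i' e j g =>
    (hst D hD).2.1 _ _ _ (hKm a i) (hKm a' i') (hKm e j) _
  have hχ := hD.χm
  have hLm : ∀ F : D.Γ → (P × H) × (P × H) → ℝ≥0∞, (∀ g, Measurable (F g)) →
      Measurable fun z => D.lp (G.B 7 ×ˢ (D.O ^ c)) z fun g => D.IM fun x => F g (x, z) := by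
    intro F hF
    refine (hst D hD).2.2.1 _ hSm (fun z g => D.IM fun x => F g (x, z)) fun g => ?_
    unfold Dat.IM
    exact Measurable.lintegral_prod_left' (f := fun q : (P × H) × (P × H) => D.χ q.1 * F g q)
      ((hχ.comp measurable_fst).mul (hF g))
  have bA : ∀ e j i k, vst e j → RG r c₂ i → RG r c₂ k →
      PI0_L D (G.B 7 ×ˢ (D.O ^ c)) (XA (0, j) i (0, 4) (2 * r) (ety e) k) ≤ C₂ * D.EE ka r φ := by
    intro e j i k hv h1 h2
    exact hX2 r φ hr hφ (0, j) (0, 4) (ety e) (tty e) (d0 e j hv) (d0 e 4 (hv4 e)) i (2 * r) k h1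
      h2r2 h2
  have bB : ∀ e k, RG r c₁ k →
      PI0_L D (G.B 7 ×ˢ (D.O ^ c)) (XB (0, 4) (2 * r) (ety e) k (1, 2) (2 * r)) ≤
        C₁ * D.EE ka r φ := by
    intro e k h1
    exact hX1 r φ hr hφ (0, 4) (ety e) (1, 2) (hd12 e) (2 * r) k (2 * r) h2r1 h1 h2r1
  have hpt : ∀ (g : D.Γ) (q : (P × H) × (P × H)),
      D.st2 (D.tk (iK (G.Om M (0, j) 3)) n) (D.tk (iK (G.Om M (ety e) 3)) m) q.1 q.2 (fun u v =>
          D.st2 (D.tk (iK (G.Om M (0, j') 3)) n') (D.tk (iK (G.Om M (ety e') 3)) m') q.1 q.2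
            fun u' v' => ab (Dv φ v (u * g) u - Dv φ v' (u' * g) u')) ≤
      ((cN * cN)⁻¹ * (CN * (CN * CN))) *
        (XA (0, j) n (0, 4) (2 * r) (ety e) m g q + XB (0, 4) (2 * r) (ety e) m (1, 2) (2 * r) g q +
        XB (0, 4) (2 * r) (ety e') m' (1, 2) (2 * r) g q +
        XA (0, j') n' (0, 4) (2 * r) (ety e') m' g q) := by
    intro g q
    simp only [XA, XB, PI0_st2, PI0_st3]
    exact PI0_abs φ _ _ _ _ _ _ cN CN g hcN.ne' hct ((hN q.1 q.2).2.2 _ 3 _ (by norm_num))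
      ((hN q.1 q.2).2.2 _ 3 _ (by norm_num)) ((hN q.1 q.2).2.2 _ 3 _ (by norm_num))
      ((hN q.1 q.2).2.2 _ 3 _ (by norm_num)) ((hN q.1 q.2).2.2 _ 3 _ (by norm_num))
      ((hN q.1 q.2).1 _ 3 (2 * r) (by norm_num) (by omega))
      ((hN q.1 q.2).1 _ 3 (2 * r) (by norm_num) (by omega))
  refine (PI0_L_mono D (G.B 7 ×ˢ (D.O ^ c)) _ _ hpt).trans ?_
  rw [PI0_L_cmul D _ _ hA]
  rw [mul_assoc ((cN * cN)⁻¹ * (CN * (CN * CN)))]
  refine mul_le_mul_right ?_ _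
  have e1 := PI0_L_add D (G.B 7 ×ˢ (D.O ^ c)) hχ
    (fun g q => XA (0, j) n (0, 4) (2 * r) (ety e) m g q +
      XB (0, 4) (2 * r) (ety e) m (1, 2) (2 * r) g q +
      XB (0, 4) (2 * r) (ety e') m' (1, 2) (2 * r) g q)
    (fun g q => XA (0, j') n' (0, 4) (2 * r) (ety e') m' g q)
    (fun g => ((mA _ _ _ _ _ _ g).add (mB _ _ _ _ _ _ g)).add (mB _ _ _ _ _ _ g))
    (hLm _ fun g => ((mA _ _ _ _ _ _ g).add (mB _ _ _ _ _ _ g)).add (mB _ _ _ _ _ _ g))
  have e2 := PI0_L_add D (G.B 7 ×ˢ (D.O ^ c)) hχ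
    (fun g q => XA (0, j) n (0, 4) (2 * r) (ety e) m g q +
      XB (0, 4) (2 * r) (ety e) m (1, 2) (2 * r) g q)
    (fun g q => XB (0, 4) (2 * r) (ety e') m' (1, 2) (2 * r) g q)
    (fun g => (mA _ _ _ _ _ _ g).add (mB _ _ _ _ _ _ g))
    (hLm _ fun g => (mA _ _ _ _ _ _ g).add (mB _ _ _ _ _ _ g))
  have e3 := PI0_L_add D (G.B 7 ×ˢ (D.O ^ c)) hχ
    (fun g q => XA (0, j) n (0, 4) (2 * r) (ety e) m g q)
    (fun g q => XB (0, 4) (2 * r) (ety e) m (1, 2) (2 * r) g q)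
    (fun g => mA _ _ _ _ _ _ g) (hLm _ fun g => mA _ _ _ _ _ _ g)
  rw [e1, e2, e3, add_mul, add_mul, add_mul]
  exact add_le_add (add_le_add (add_le_add (bA e j n m hv (hR n hn).2 (hR m hm).2)
    (bB e m (hR m hm).1)) (bB e' m' (hR m' hm').1)) (bA e' j' n' m' hv' (hR n' hn').2 (hR m' hm').2)

end Pool.Agent.MPEF
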