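import Pool.Agent.Lib.MP_ef3f0f_gt.Z.Spec
import Pool.Agent.Lib.MP_ef3f0f_gt.I.Defs

set_option autoImplicit false

/-!
# MP_ef3f0f_gt, Part I (coercivity): the statements

Modules `I/X.lean`: `theorem tX : S_Y P H → ... → S_X P H`, in a section with the same `variable` line
(explicit `P H`), namespace `Pool.Agent.MPEF`. Everything is in `ℝ≥0∞`. `(a, l, n)` stands for the kernel
`D.tk (iK (G.Om M a l)) n`, `E` for `D.EE ka r φ`.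

Identities for real functions on a group (`φ̂ = ph φ`, `δ = dl φ`, `D = Dv φ`):
(I1) `D_v(u,u') - D_w(u,u') = δ(u,v,w) - δ(u',v,w)`;
(I2) `D_v(ug,u) - D_v(u'g,u') = δ(ug,v,w) - δ(u'g,v,w) - δ(u,v,wg⁻¹) + δ(u',v,wg⁻¹)`;
`δ` is alternating (for `OddC φ`), `δ(gu,gv,gw) = δ(u,v,w) = δ(ug,vg,wg)`, `D_{gv}(gu,gu') = D_v(u,u')`.
-/

namespace Pool.Agent.MPEF

open MeasureTheory Topology
open scoped ENNReal Pointwise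

/-- Combinatorics of the types. Proof: `decide`. -/
def S_dec : Prop :=
  (∀ (e : Bool) (j : Fin 16), vst e j → PTu (0, j) (ety e) (tty e)) ∧
  vst false 4 ∧ vst true 4 ∧ vst false 12 ∧ vst true 12 ∧ vst false 8 ∧
  PTu (0, 4) (2, 0) (1, 2) ∧ PTu (0, 4) (3, 8) (1, 2) ∧ PTu (0, 4) (2, 0) (3, 8) ∧
  PTu (0, 12) (2, 0) (4, 14) ∧ PTu (0, 12) (3, 8) (4, 14) ∧
  PTu (2, 0) (0, 12) (1, 4) ∧ PTu (2, 0) (3, 8) (1, 4) ∧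
  PTu (3, 8) (0, 12) (4, 4) ∧ PTu (3, 8) (2, 0) (4, 4) ∧ Cp (0, 8) (2, 0)

/-- Finite dimensional linear algebra for the relations (0.9.4). Proof. Let `V` be the space of functions `S → ℝ`. For a word `w` in `S` with
product `1` let `ev_w f = (w.map f).sum`. If all `ev_w f = 0` then `f` is the restriction of a homomorphism: `h γ = (w.map f).sum` for any
word `w` in `S` with product `γ`; well defined because `f g⁻¹ = - f g` (word `[g, g⁻¹]`), so that `w ++ (inverse of w')` is a relation.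
Choose a finite set `R` of relation words such that the `ev_w`, `w ∈ R`, span the span of all `ev_w` (a subspace of
the dual of `V`). The linear map `f ↦ (ev_w f)_{w ∈ R}` on `V` has as kernel the restrictions of homomorphisms, so
for every `f` there is `f'` in the kernel with `max |f - f'| ≤ C max_R |ev_w f|` (finite dimension; e.g. a linear right inverse on the
range). -/
def S_lin : Prop :=
  ∀ (Γ : Type) [Group Γ] (S : Set Γ), S.Finite → (∀ g ∈ S, g⁻¹ ∈ S) →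
    Subgroup.closure S = ⊤ →
    ∃ R : Finset (List Γ), (∀ w ∈ R, w.prod = 1 ∧ ∀ g ∈ w, g ∈ S) ∧ ∃ C : ℝ, 0 ≤ C ∧
      ∀ (f : Γ → ℝ) (B : ℝ), (∀ w ∈ R, |(w.map f).sum| ≤ B) →
        ∃ h : Γ → ℝ, (∀ x y, h (x * y) = h x + h y) ∧ ∀ g ∈ S, |f g - h g| ≤ C * B

variable (P H : Type) [Group P] [Group H] [TopologicalSpace P] [TopologicalSpace H]
  [IsTopologicalGroup P] [IsTopologicalGroup H] [LocallyCompactSpace P] [LocallyCompactSpace H]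
  [T2Space P] [T2Space H] [SecondCountableTopology P] [SecondCountableTopology H]
  [MeasurableSpace P] [MeasurableSpace H] [BorelSpace P] [BorelSpace H]

/-- Measurability and invariance of the star sums. Proof. Countable sums of measurable functions; reindexing. -/
def S_st : Prop :=
  ∀ D : Dat P H, D.Ok →
    (∀ K₁ K₂ : P × H → ℝ≥0∞, Measurable K₁ → Measurable K₂ → ∀ f : D.Γ → D.Γ → ℝ≥0∞,
      Measurable fun q : (P × H) × (P × H) => D.st2 K₁ K₂ q.1 q.2 f) ∧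
    (∀ K₁ K₂ K₃ : P × H → ℝ≥0∞, Measurable K₁ → Measurable K₂ → Measurable K₃ →
      ∀ f : D.Γ → D.Γ → D.Γ → ℝ≥0∞,
      Measurable fun q : (P × H) × (P × H) => D.st3 K₁ K₂ K₃ q.1 q.2 f) ∧
    (∀ S : Set (P × H), MeasurableSet S → ∀ f : P × H → D.Γ → ℝ≥0∞, (∀ g, Measurable fun z => f z g) →
      Measurable fun z => D.lp S z (f z)) ∧
    (∀ (K₁ K₂ : P × H → ℝ≥0∞) (x y) (γ : D.Γ) (f : D.Γ → D.Γ → ℝ≥0∞),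
      D.st2 K₁ K₂ ((γ : P × H) * x) y f = D.st2 K₁ K₂ x y fun u v => f (γ * u) (γ * v)) ∧
    (∀ (K₁ K₂ : P × H → ℝ≥0∞) (x y) (γ : D.Γ) (f : D.Γ → D.Γ → ℝ≥0∞),
      D.st2 K₁ K₂ x ((γ : P × H) * y) f = D.st2 K₁ K₂ x y fun u v => f (u * γ⁻¹) (v * γ⁻¹)) ∧
    (∀ (K₁ K₂ K₃ : P × H → ℝ≥0∞) (x y) (γ : D.Γ) (f : D.Γ → D.Γ → D.Γ → ℝ≥0∞),
      D.st3 K₁ K₂ K₃ ((γ : P × H) * x) y f =
        D.st3 K₁ K₂ K₃ x y fun u v w => f (γ * u) (γ * v) (γ * w)) ∧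
    (∀ (K₁ K₂ K₃ : P × H → ℝ≥0∞) (x y) (γ : D.Γ) (f : D.Γ → D.Γ → D.Γ → ℝ≥0∞),
      D.st3 K₁ K₂ K₃ x ((γ : P × H) * y) f =
        D.st3 K₁ K₂ K₃ x y fun u v w => f (u * γ⁻¹) (v * γ⁻¹) (w * γ⁻¹)) ∧
    (∀ (S : Set (P × H)) (z) (γ : D.Γ) (f : D.Γ → ℝ≥0∞),
      D.lp S ((γ : P × H) * z) f = D.lp S z fun g => f (γ * g * γ⁻¹))

/-- **Moving a vertex.** Proof. (1) Let `k = iK U`; by `S_Lo` `N (tk k b) x z ≥ c > 0`. For invariant `f`: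
`IM f ≤ c⁻¹ ∫ χ(z) ∑_e (tk k b)(x⁻¹ e z) f(e z) = c⁻¹ ∫ (tk k b)(x⁻¹ z) f(z) dz = c⁻¹ ∫ (tk k b)(q) f(x q) dq`, and `tk k b` is bounded and
supported in `U × O^b`. (2) `∫_K f(x q) dq = ∫_{x K} f = ∫ χ(z) f(z) #{γ | γ z ∈ x K}`; the number is bounded uniformly (`S_Up` for a kernel `≥ c` on `K`).
(3) `∑_γ 1_E(γ z) ≥ 1`. -/
def S_near : Prop :=
  ∀ D : Dat P H, D.Ok →
    (∀ U : Set P, IsOpen U → (1 : P) ∈ U → ∃ (b : ℕ) (C : ℝ≥0∞), 1 ≤ b ∧ C ≠ ∞ ∧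
      ∀ f : P × H → ℝ≥0∞, Measurable f → (∀ γ ∈ D.Γ, ∀ x, f (γ * x) = f x) → ∀ x : P × H,
        D.IM f ≤ C * ∫⁻ q in U ×ˢ (D.O ^ b), f (x * q) ∂D.μ) ∧
    (∀ K : Set (P × H), IsCompact K → ∃ C : ℝ≥0∞, C ≠ ∞ ∧
      ∀ f : P × H → ℝ≥0∞, Measurable f → (∀ γ ∈ D.Γ, ∀ x, f (γ * x) = f x) → ∀ x : P × H,
        ∫⁻ q in K, f (x * q) ∂D.μ ≤ C * D.IM f) ∧
    (∀ E : Set (P × H), MeasurableSet E → (∀ x : P × H, ∃ γ ∈ D.Γ, γ * x ∈ E) →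
      ∀ f : P × H → ℝ≥0∞, Measurable f → (∀ γ ∈ D.Γ, ∀ x, f (γ * x) = f x) →
        D.IM f ≤ ∫⁻ x in E, f x ∂D.μ)

/-- **Harnack for the indicator kernels.** Proof. `tk (iK U) n g = 1_U(g₁) ν^(n)(g₂)`; `S_Harn` on the left and on the right. -/
def S_hk : Prop :=
  ∀ D : Dat P H, D.Ok → ∀ c : ℕ, ∃ C : ℝ≥0∞, C ≠ ∞ ∧ ∀ Q U U' : Set P,
    (∀ q ∈ Q, ∀ g ∈ U, ∀ q' ∈ Q, q * g * q' ∈ U') → ∀ n, 1 ≤ n → ∀ g q q' : P × H,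
      q ∈ Q ×ˢ (D.O ^ c) → q' ∈ Q ×ˢ (D.O ^ c) →
        D.tk (iK U) n g ≤ C * D.tk (iK U') (n + 2 * c + 2) (q * g * q')

/-- Bounds for `N` of the windows (finitely many types and levels) and the number of loops; chords `g₀ B 2`, uniformly in `g₀`
(translates in `S_Lo`; upper bound: `N (tk (iK (g₀ • B 2)) n) x y = N (tk (iK (B 2)) n) (x (g₀,1)) y`). Loops: `lp S z 1` is
`#{g ∈ Γ | z⁻¹ g z ∈ S} ≤ C N (tk (iK (B 9)) c') z z` for `S = B 9 × O^c ⊆ {tk (iK (B 9)) c' ≥ ε}`, `c' = c + 1`. -/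
def S_bd : Prop :=
  ∀ (D : Dat P H) (G : Geo P), D.Ok → G.Ok →
    (∀ M, (∀ a l, l ≤ 10 → (G.Om M a l).Nonempty) → (∀ a, (G.Mid M a).Nonempty) →
      ∃ (b : ℕ) (c C : ℝ≥0∞), 1 ≤ b ∧ 0 < c ∧ C ≠ ∞ ∧ ∀ x y,
        (∀ a l n, l ≤ 10 → b ≤ n → c ≤ D.N (D.tk (iK (G.Om M a l)) n) x y) ∧
        (∀ a n, b ≤ n → c ≤ D.N (D.tk (iK (G.Mid M a)) n) x y) ∧
        (∀ a l n, l ≤ 10 → D.N (D.tk (iK (G.Om M a l)) n) x y ≤ C)) ∧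
    (∃ (b : ℕ) (c C : ℝ≥0∞), 1 ≤ b ∧ 0 < c ∧ C ≠ ∞ ∧ ∀ (g₀ : P) (x y : P × H),
      (∀ n, b ≤ n → c ≤ D.N (D.tk (iK (g₀ • G.B 2)) n) x y) ∧
      (∀ n, D.N (D.tk (iK (g₀ • G.B 2)) n) x y ≤ C)) ∧
    (∃ (b : ℕ) (c : ℝ≥0∞), 1 ≤ b ∧ 0 < c ∧ ∀ (g₀ : P) (x y : P × H) (n), b ≤ n →
      c ≤ D.N (D.tk (iK (g₀ • G.B 0)) n) x y) ∧
    (∀ c : ℕ, ∃ C : ℝ≥0∞, C ≠ ∞ ∧ ∀ z, D.lp (G.B 9 ×ˢ (D.O ^ c)) z (fun _ => 1) ≤ C)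

/-- **(0.8).** Proof. `PTs` contains `(a,b,c)` or `(b,a,c)`; `T3` is symmetric under exchange of the first two edges (`|δ|` too, `OddC`) and monotone in the
kernels; a single term of the sum `EE`. For (2): `iK (Om a 2) ≤ C ka a`, `ν^(n) ≤ ν_r` for `r ≤ n ≤ 4 r`. -/
def S_base : Prop :=
  ∀ (D : Dat P H) (G : Geo P) (M : ℕ) (ka kb : Ty → P → ℝ≥0∞), Cx D G M ka kb →
    (∀ r (φ : D.Γ → ℝ), OddC φ → ∀ a b c, PTu a b c → ∀ K₁ K₂ K₃ : P × H → ℝ≥0∞,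
      (∀ g, K₁ g ≤ D.wr (ka a) r g) → (∀ g, K₂ g ≤ D.wr (ka b) r g) →
      (∀ g, K₃ g ≤ D.wr (ka c) r g) →
      D.T3 K₁ K₂ K₃ (fun u v w => ab (dl φ u v w)) ≤ D.EE ka r φ) ∧
    ∃ C : ℝ≥0∞, C ≠ ∞ ∧ ∀ r (φ : D.Γ → ℝ), OddC φ → ∀ a b c, PTu a b c → ∀ n m l,
      RG r 0 n → RG r 0 m → RG r 0 l →
      D.T3 (D.tk (iK (G.Om M a 2)) n) (D.tk (iK (G.Om M b 2)) m) (D.tk (iK (G.Om M c 2)) l)
        (fun u v w => ab (dl φ u v w)) ≤ C * D.EE ka r φ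

/-- Exchange of `v` (step (i)). Proof. By (I1) the integrand is at most `|δ(ug,v,w)| + |δ(u,v,w)|`. First term: for `z⁻¹ g z ∈ B 7 × O^c` the
weight of `u` is (`S_hk`, `Q = B 9 ∋ 1`, `om`: level 3 to level 2) at most `C` times the one of `ũ = u g`, of length `n + 2c + 2`, displacement `(x⁻¹uz)(z⁻¹gz)`; for each `g` sum over `ũ`;
the number of `g` is bounded (`S_bd`). Then `S_base`. Second term: number of `g`, `S_base` (`Om 3 ⊆ Om 2`). -/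
def S_Xi : Prop :=
  ∀ (D : Dat P H) (G : Geo P) (M : ℕ) (ka kb : Ty → P → ℝ≥0∞), Cx D G M ka kb → ∀ c : ℕ,
    ∃ (C : ℝ≥0∞) (c₀ : ℕ), C ≠ ∞ ∧ ∀ r (φ : D.Γ → ℝ), 1 ≤ r → OddC φ → ∀ a e t, PTu a e t →
      ∀ n m l, RG r c₀ n → RG r c₀ m → RG r c₀ l →
      D.IM (fun z => D.lp (G.B 7 ×ˢ (D.O ^ c)) z fun g => D.IM fun x =>
        D.st3 (D.tk (iK (G.Om M a 3)) n) (D.tk (iK (G.Om M e 3)) m) (D.tk (iK (G.Om M t 3)) l) x z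
          fun u v w => ab (Dv φ v (u * g) u - Dv φ w (u * g) u)) ≤ C * D.EE ka r φ

/-- Exchange of `u` (step (ii)). Proof. Insert an edge `w` of type `(t, 3, 2 r)` (`N ≥ c`, `S_bd`, `r` large, i.e. `b ≤ 2 r`; for small `r` there are no
lengths if `c₀ ≥ 3 b`, since `r ≤ n`, `n + c₀ ≤ 4 r`). By (I2) four terms: `δ(ug,v,w)`, `δ(u'g,v,w)` as in `S_Xi`; `δ(u,v,wg⁻¹)`, `δ(u',v,wg⁻¹)`: the weight of `w` is at most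
`C` times the one of `w g⁻¹` (`z⁻¹ g⁻¹ z ∈ B 7 × O^c` too). In each term drop the edge (`u` or `u'`) which does not occur (`N ≤ C`). `S_base`. -/
def S_Xii : Prop :=
  ∀ (D : Dat P H) (G : Geo P) (M : ℕ) (ka kb : Ty → P → ℝ≥0∞), Cx D G M ka kb → ∀ c : ℕ,
    ∃ (C : ℝ≥0∞) (c₀ : ℕ), C ≠ ∞ ∧ ∀ r (φ : D.Γ → ℝ), 1 ≤ r → OddC φ → ∀ a a' e t,
      PTu a e t → PTu a' e t → ∀ n n' m, RG r c₀ n → RG r c₀ n' → RG r c₀ m →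
      D.IM (fun z => D.lp (G.B 7 ×ˢ (D.O ^ c)) z fun g => D.IM fun x =>
        D.st3 (D.tk (iK (G.Om M a 3)) n) (D.tk (iK (G.Om M a' 3)) n') (D.tk (iK (G.Om M e 3)) m) x z
          fun u u' v => ab (Dv φ v (u * g) u - Dv φ v (u' * g) u')) ≤ C * D.EE ka r φ

/-- Pairs at the same vertices. Proof. Insert `u₀` of type `((0,4), 3, 2r)`: `D_v(ug,u) → D_v(u₀g,u₀)` (`S_Xii` with `a = (0,j)`, `a' = (0,4)`, `e = ety e`, `t = tty e`)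
`→ D_{v'}(u₀g,u₀)` `→ D_{v'}(u'g,u')` (`S_Xii` for `e'`). Middle step: insert `w` of type `((1,2), 3, 2r)` and use `S_Xi` twice (`PTu (0,4) (ety e) (1,2)` for both
`e`; if `e = e'` use `S_Xi` with `t = tty e` or also `(1,2)`). Drop the edges which do not occur in each term. -/
def S_PI0 : Prop :=
  ∀ (D : Dat P H) (G : Geo P) (M : ℕ) (ka kb : Ty → P → ℝ≥0∞), Cx D G M ka kb → ∀ c : ℕ,
    ∃ (C : ℝ≥0∞) (c₀ : ℕ), C ≠ ∞ ∧ ∀ r (φ : D.Γ → ℝ), 1 ≤ r → OddC φ → ∀ e j e' j',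
      vst e j → vst e' j' → ∀ n m n' m', RG r c₀ n → RG r c₀ m → RG r c₀ n' → RG r c₀ m' →
      D.IM (fun z => D.lp (G.B 7 ×ˢ (D.O ^ c)) z fun g => D.IM fun x =>
        D.st2 (D.tk (iK (G.Om M (0, j) 3)) n) (D.tk (iK (G.Om M (ety e) 3)) m) x z fun u v =>
          D.st2 (D.tk (iK (G.Om M (0, j') 3)) n') (D.tk (iK (G.Om M (ety e') 3)) m') x z
            fun u' v' => ab (Dv φ v (u * g) u - Dv φ v' (u' * g) u')) ≤ C * D.EE ka r φ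

/-- Pairs at different vertices `x`, `x'`. Proof. For fixed `z`, `g`, `x` the function of `x'` is invariant (`D_{γv}(γug,γu) = D_v(ug,u)`), so by `S_near` with
`U = B 2` `IM_{x'} ≤ C ∫_{q ∈ B 2 × O^b}` of its value at `x' = x q`; the edges `u', v'` at `(x q, z)` have displacement `q⁻¹ (x⁻¹u'z)`, so by `S_hk` (`c = b`) the weights are at
most `C` times those of level 3, length `+ 2b + 2`, at `(x, z)`. `S_PI0`. -/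
def S_PI : Prop :=
  ∀ (D : Dat P H) (G : Geo P) (M : ℕ) (ka kb : Ty → P → ℝ≥0∞), Cx D G M ka kb → ∀ c : ℕ,
    ∃ (C : ℝ≥0∞) (c₀ : ℕ), C ≠ ∞ ∧ ∀ r (φ : D.Γ → ℝ), 1 ≤ r → OddC φ → ∀ e j e' j',
      vst e j → vst e' j' → ∀ n m n' m', RG r c₀ n → RG r c₀ m → RG r c₀ n' → RG r c₀ m' →
      D.IM (fun z => D.lp (G.B 7 ×ˢ (D.O ^ c)) z fun g => D.IM fun x => D.IM fun x' =>
        D.st2 (D.tk (iK (G.Om M (0, j) 4)) n) (D.tk (iK (G.Om M (ety e) 4)) m) x z fun u v =>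
          D.st2 (D.tk (iK (G.Om M (0, j') 4)) n') (D.tk (iK (G.Om M (ety e') 4)) m') x' z
            fun u' v' => ab (Dv φ v (u * g) u - Dv φ v' (u' * g) u')) ≤ C * D.EE ka r φ

/-- Theta exchange at the same vertices (I.4). Proof. `δ(u,v,w) → δ(u',v,w) → δ(u',v',w) → δ(u',v',w')`; each step: insert a fourth edge `t` (length `2r`, level 2):
`δ(u,v,w) - δ(u',v,w) = D_v(u,u') - D_w(u,u') = [δ(u,v,t) - δ(u',v,t)] - [δ(u,w,t) - δ(u',w,t)]`, with `t` of type `(4,14)` (`PTu (0,12) (2,0) (4,14)`, `PTu (0,12) (3,8) (4,14)`);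
second step (alternating): the same with the roles `v; u', w`, `t` of type `(1,4)`; third: `w; u', v'`, `t` of type `(4,4)`. In each term drop the other edges, `S_base` (after
permuting the edges of `T3`). -/
def S_E1 : Prop :=
  ∀ (D : Dat P H) (G : Geo P) (M : ℕ) (ka kb : Ty → P → ℝ≥0∞), Cx D G M ka kb →
    ∃ (C : ℝ≥0∞) (c₀ : ℕ), C ≠ ∞ ∧ ∀ r (φ : D.Γ → ℝ), 1 ≤ r → OddC φ → ∀ n m l n' m' l',
      RG r c₀ n → RG r c₀ m → RG r c₀ l → RG r c₀ n' → RG r c₀ m' → RG r c₀ l' →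
      D.IM (fun x => D.IM fun y =>
        D.st3 (D.tk (iK (G.Om M (0, 12) 2)) n) (D.tk (iK (G.Om M (2, 0) 2)) m)
          (D.tk (iK (G.Om M (3, 8) 2)) l) x y fun u v w =>
          D.st3 (D.tk (iK (G.Om M (0, 12) 2)) n') (D.tk (iK (G.Om M (2, 0) 2)) m')
            (D.tk (iK (G.Om M (3, 8) 2)) l') x y fun u' v' w' =>
              ab (dl φ u v w - dl φ u' v' w')) ≤ C * D.EE ka r φ

/-- Finiteness. Proof. `χ` has compact support `K`; for `x, y ∈ K` only the finitely many `u ∈ Γ ∩ K (supp) K⁻¹` occur; on them the finite valued `Φ` is bounded by a constant; `S_Up`. -/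
def S_fin : Prop :=
  ∀ D : Dat P H, D.Ok → ∀ k₁ k₂ k₃ : P → ℝ≥0∞, KB k₁ → KB k₂ → KB k₃ → ∀ n m l,
    (∀ Φ : D.Γ → D.Γ → D.Γ → ℝ≥0∞, (∀ u v w, Φ u v w ≠ ∞) →
      D.T3 (D.tk k₁ n) (D.tk k₂ m) (D.tk k₃ l) Φ ≠ ∞) ∧
    (∀ Φ : D.Γ → D.Γ → ℝ≥0∞, (∀ u v, Φ u v ≠ ∞) → D.T2 (D.tk k₁ n) (D.tk k₂ m) Φ ≠ ∞) ∧
    (∀ Φ : D.Γ → ℝ≥0∞, (∀ u, Φ u ≠ ∞) → D.II k₁ n Φ ≠ ∞)

/-- Mean value lemma. Proof. Let `f = F(u,v,w)`, `P = T(f⁺)`, `Q = T(f⁻)`, finite. For `t > 0`: pointwise `t + f⁻ ≤ |t - f| + f⁺`, so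
`T(1) t + Q ≤ T(|t - f|) + P ≤ T(|t - f|) + Q + β`; cancel `Q`. `t < 0`: the same with `-f`. `t = 0`: trivial. -/
def S_mean : Prop :=
  ∀ D : Dat P H, D.Ok → ∀ (β : ℝ≥0∞) (t : ℝ),
    (∀ K₁ K₂ K₃ : P × H → ℝ≥0∞, Measurable K₁ → Measurable K₂ → Measurable K₃ →
      ∀ F : D.Γ → D.Γ → D.Γ → ℝ,
      D.T3 K₁ K₂ K₃ (fun u v w => ENNReal.ofReal (F u v w)) ≠ ∞ →
      D.T3 K₁ K₂ K₃ (fun u v w => ENNReal.ofReal (- F u v w)) ≠ ∞ →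
      D.T3 K₁ K₂ K₃ (fun u v w => ENNReal.ofReal (F u v w)) ≤
        D.T3 K₁ K₂ K₃ (fun u v w => ENNReal.ofReal (- F u v w)) + β →
      D.T3 K₁ K₂ K₃ (fun u v w => ENNReal.ofReal (- F u v w)) ≤
        D.T3 K₁ K₂ K₃ (fun u v w => ENNReal.ofReal (F u v w)) + β →
      D.T3 K₁ K₂ K₃ (fun _ _ _ => 1) * ab t ≤
        D.T3 K₁ K₂ K₃ (fun u v w => ab (t - F u v w)) + β) ∧
    (∀ K₁ K₂ : P × H → ℝ≥0∞, Measurable K₁ → Measurable K₂ → ∀ F : D.Γ → D.Γ → ℝ,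
      D.T2 K₁ K₂ (fun u v => ENNReal.ofReal (F u v)) ≠ ∞ →
      D.T2 K₁ K₂ (fun u v => ENNReal.ofReal (- F u v)) ≠ ∞ →
      D.T2 K₁ K₂ (fun u v => ENNReal.ofReal (F u v)) ≤
        D.T2 K₁ K₂ (fun u v => ENNReal.ofReal (- F u v)) + β →
      D.T2 K₁ K₂ (fun u v => ENNReal.ofReal (- F u v)) ≤
        D.T2 K₁ K₂ (fun u v => ENNReal.ofReal (F u v)) + β →
      D.T2 K₁ K₂ (fun _ _ => 1) * ab t ≤ D.T2 K₁ K₂ (fun u v => ab (t - F u v)) + β)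

/-- **The torus type triple** (I.4). Proof. Copy A: `(x,y;u,v,w)` with the kernels of level 3, lengths `n, m, l`; copy B: `(x',y';u',v',w')` with the kernels `tk (kb ·) (2r)` of
`QQ` (`kb a ≤ C iK (Om a 4) ≤ C iK (Om a 3)`). `X := ∫∫ (A)(B) |δ - δ'| ≤ C E`: by `S_near` (`U = B 2`, in `x'` at `x`, and in `y'` at `y`) `x' = x q`, `y' = y q'`, the displacements are
`q⁻¹ (x⁻¹u'y) q'`; `S_hk`: level 2, lengths `2r + 2b + 2`; `S_E1`. `S_mean` for copy B with `t = δ(u,v,w)` (`S_fin`; `BB`): `T3_B(1) |δ| ≤ T3_B(|δ - δ'|) + β`; integrate over copy A: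
`T3_B(1) T3_A(|δ|) ≤ X + T3_A(1) β`; `T3_B(1) ≥ c` (`kb ≥ c` on `Om 6`, `S_bd`), `T3_A(1) ≤ C`. -/
def S_Th : Prop :=
  ∀ (D : Dat P H) (G : Geo P) (M : ℕ) (ka kb : Ty → P → ℝ≥0∞), Cx D G M ka kb →
    ∃ (C : ℝ≥0∞) (c₀ : ℕ), C ≠ ∞ ∧ ∀ r (φ : D.Γ → ℝ) (β : ℝ≥0∞), c₀ ≤ r → OddC φ →
      BB D kb r φ β → ∀ n m l, RG r c₀ n → RG r c₀ m → RG r c₀ l →
      D.T3 (D.tk (iK (G.Om M (0, 12) 3)) n) (D.tk (iK (G.Om M (2, 0) 3)) m)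
        (D.tk (iK (G.Om M (3, 8) 3)) l) (fun u v w => ab (dl φ u v w)) ≤ C * (D.EE ka r φ + β)

/-- Generators (0.10). Proof. `b` as in `S_near` for `U = B 2` or from `S_Lo`: for all `x, y` there is `γ ∈ Γ` with `x⁻¹ γ y ∈ B 2 × O^b`. `B 0` generates `P`, `O` generates `H`, so for
`γ ∈ Γ` there is a chain `1 = x_0, ..., x_k = γ` in `P × H` with `x_i⁻¹ x_{i+1} ∈ B 0 × O`. Choose `γ_i ∈ Γ` with `x_i⁻¹ γ_i ∈ B 2 × O^b`, `γ_0 = 1`, `γ_k = γ`; then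
`γ_i⁻¹ γ_{i+1} ∈ (B 2)⁻¹ B 0 B 2 × O^(2b+1) ⊆ B 4 × O^(2b+1)`. -/
def S_gen : Prop :=
  ∀ (D : Dat P H) (G : Geo P), D.Ok → G.Ok → ∃ b : ℕ, ∀ c, b ≤ c →
    Subgroup.closure {g : D.Γ | (g : P × H) ∈ G.B 5 ×ˢ (D.O ^ c)} = ⊤

/-- **The function `F₀`.** Proof. Fix `g ∈ Γ` in `B 5 × O^c₁`. Reference: `z' ∈ B 0 × O` (then `z'⁻¹ g z' ∈ B 7 × O^c₃`), `x'`, `u'` of type `((0,4), 5, 2r)`, `v'` of type `((2,0), 5, 2r)` at `(x', z')`.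
(A) `∫_{z ∈ B 2 × O^c₂, z⁻¹gz ∈ B 7 × O^c₃} ∫_{z'} IM_x IM_x' ∑ ∑ |D_v(ug,u) - D_{v'}(u'g,u')| ≤ C E` for the reference type also at `z`: write `z' = z q`, `q ∈ B 3 × O^(c₂+1)`; the displacements of `u', v'` at `(x', z q)` are
those at `(x', z)` times `q`: `S_hk`, level 4 at `z`; then `S_PI` (level 4, `c = c₃`; the term of `g` in `lp`), and `∫_{z ∈ Z₀} (invariant function) ≤ C IM` (`S_near` (2), `x = 1`; the invariant function is `z ↦ lp ...`).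
The weight of `(z', x', u', v')` has total mass in `[c, C]` (`S_bd`), so there is one `(z', x', u', v')` of positive weight for which the remaining integral is `≤ C' E`; put
`F₀ g = D_{v'}(u'g,u')`. (If `E = ∞` nothing to prove; use `exists_le_lintegral` type arguments or contradiction.)
(B) For an arbitrary valid state at `z` insert a reference copy at the same `z` (`S_PI`, mass bounded below) and use (A). For `g` outside the set put `F₀ g = 0`. -/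
def S_F0 : Prop :=
  ∀ (D : Dat P H) (G : Geo P) (M : ℕ) (ka kb : Ty → P → ℝ≥0∞), Cx D G M ka kb →
    ∀ c₁ c₂ c₃ : ℕ, c₁ + 2 ≤ c₃ → ∃ (C : ℝ≥0∞) (c₀ : ℕ), C ≠ ∞ ∧ ∀ r (φ : D.Γ → ℝ), c₀ ≤ r →
      OddC φ → ∃ F₀ : D.Γ → ℝ, F0ok D G M ka c₁ c₂ c₃ C c₀ r φ F₀

/-- **Words** (I.5, step 2). Proof. The words of `R`, projected to `P`, have letters in `B 5 ⊆ B 7`: `wd` gives `M₀`, and for `M ≥ M₀` `gs` and for each `w` the indices `j_i`. Fix `w = (g_1..g_L)`,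
`P_i = g_1 ⋯ g_i`, and `gs P_{i,1} ∈ Om (0, j_i) 7`. There are a neighbourhood `U₀ ⊆ B 2 × O^c₂` of `1` and `c` with: for `z ∈ U₀`: `W z₁⁻¹ P_{i,1} z₁ ⊆ Om (0, j_i) 6`, `W = B 0 gs` (as `P_i⁻¹ z₁⁻¹ P_i z₁ ∈ B 0` for
`z₁` near `1`, `om`), `z⁻¹ P_i z ∈ P × O^c`, and `z⁻¹ g_i z ∈ B 7 × O^c₃`. Let `z ∈ U₀`, `x ∈ M`, `u` of type `(iK W, 2r)` at `(x,z)`, `v` of type `((2,0), 6, 2r)`, `v'` of type `((3,8), 6, 2r)`: total mass in `[c, C]`. `u_i = u P_i`,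
displacement `(x⁻¹uz)(z⁻¹P_iz)`; by `S_Harn` the weight of `u` is `≤ C` times the weight of `u_i` of type `((0,j_i), 6, 2r + c + 1)`. Put `v_i = v` if `j_i, j_{i+1} ∈ {4..12}`, else `v_i = v'` (indices mod `L`); then
`(v_i`-type`, j_i)` is a valid state. By `F0ok` (with `ũ = u_i`; `Om 6 ⊆ Om 5`): `∫ |D_{v_i}(u_i g_{i+1}, u_i) - F₀(g_{i+1})| ≤ C E`, and `D_{v_i}(u_{i+1}, u_i) = φ̂(u_{i+1},v_i) - φ̂(u_i,v_i)`. With `s_i = 0` if `v_i = v`, `1` else, and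
`S(u) = φ̂(u,v) - φ̂(u,v') = δ(u,v,v') - φ̂(v,v')`: `∑_i [φ̂(u_{i+1},v_i) - φ̂(u_i,v_i)] = ∑_i [φ̂(u_{i+1},v_i) - φ̂(u_{i+1},v_{i+1})] = ∑_i (s_{i+1} - s_i) S(u_{i+1}) = ∑_i (s_{i+1} - s_i) δ(u_{i+1},v,v')` (`u_L = u_0`, `∑ (s_{i+1} - s_i) = 0`).
If `s_{i+1} ≠ s_i` then `j_{i+1} ∈ {4, 12}` (neighbours): `∫ |δ(u_{i+1},v,v')| ≤ C E` for `4` (`PTu (0,4) (2,0) (3,8)`, `S_base`) and `≤ C (E + β)` for `12` (`S_Th`). The integrals over `z ∈ U₀` and `x` are bounded by `IM IM` (`S_near` (2)). So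
`mass · |∑ F₀(g_i)| ≤ C (E + β)`. -/
def S_word : Prop :=
  ∀ (D : Dat P H) (G : Geo P), D.Ok → G.Ok → ∀ c₁ c₂ c₃ : ℕ, 1 ≤ c₂ → c₁ + 2 ≤ c₃ →
    ∀ R : Finset (List D.Γ),
      (∀ w ∈ R, w.prod = 1 ∧ ∀ g ∈ w, (g : P × H) ∈ G.B 5 ×ˢ (D.O ^ c₁)) →
    ∃ M₀ : ℕ, ∀ M, M₀ ≤ M → ∀ ka kb : Ty → P → ℝ≥0∞, Cx D G M ka kb →
      ∀ (C₁ : ℝ≥0∞) (c₀' : ℕ), C₁ ≠ ∞ → ∃ (C : ℝ≥0∞) (r₀ : ℕ), C ≠ ∞ ∧ ∀ r, r₀ ≤ r →
        ∀ (φ : D.Γ → ℝ) (β : ℝ≥0∞), OddC φ → BB D kb r φ β →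
        ∀ F₀ : D.Γ → ℝ, F0ok D G M ka c₁ c₂ c₃ C₁ c₀' r φ F₀ →
          ∀ w ∈ R, ab ((w.map F₀).sum) ≤ C * (D.EE ka r φ + β)

/-- `h` approximates the effect of the insertion of small loops. -/
def HH {P H : Type} [Group P] [Group H] [MeasurableSpace P] [MeasurableSpace H] (D : Dat P H)
    (G : Geo P) (M : ℕ) (ka : Ty → P → ℝ≥0∞) (c : ℕ) (C : ℝ≥0∞) (c₀ r : ℕ) (φ h : D.Γ → ℝ)
    (β : ℝ≥0∞) : Prop :=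
  (∀ x y, h (x * y) = h x + h y) ∧ ∀ e j n m, vst e j → RG r c₀ n → RG r c₀ m →
    D.IM (fun z => D.lp (G.B 3 ×ˢ (D.O ^ c)) z fun g => D.IM fun x =>
      D.st2 (D.tk (iK (G.Om M (0, j) 5)) n) (D.tk (iK (G.Om M (ety e) 5)) m) x z
        fun u v => ab (Dv φ v (u * g) u - h g)) ≤ C * (D.EE ka r φ + β)

/-- **The homomorphism** (I.5). Proof. `c₂ ≥ 1` with `Γ (B 2 × O^c₂) = P × H` (`S_Lo`), `c₁ ≥ c + 2 c₂` and `≥` the `b` of `S_gen`, `c₃ = c₁ + 2`. `S = {g ∈ Γ | g ∈ B 5 × O^c₁}`: finite (`disc`, relatively compact), symmetric, generates;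
`R`, `C_R` from `S_lin`; `M₀` from `S_word`. `F₀` from `S_F0`, `|ev_w F₀| ≤ C (E + β)` from `S_word` (if `E + β = ∞` take `h = 0`), so `h` with `|F₀ g - h g| ≤ C (E + β)` on `S`. By `S_near` (3) `IM_z f ≤ ∫_{z ∈ B 2 × O^c₂} f`; for such `z` and
`z⁻¹ g z ∈ B 3 × O^c`: `g ∈ B 2 B 3 B 2 × O^(c + 2c₂) ⊆ B 5 × O^c₁`, so `g ∈ S`, and `z⁻¹gz ∈ B 7 × O^c₃`: the sum over `g ∈ S` of `∫_z [..] IM_x ∑ |D_v(ug,u) - F₀ g| + |F₀ g - h g| (mass)`; `F0ok`. The integrand of `IM_z` is an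
invariant function as `h` and `φ` are class functions. -/
def S_h : Prop :=
  ∀ (D : Dat P H) (G : Geo P), D.Ok → G.Ok → ∀ c : ℕ, ∃ M₀ : ℕ, ∀ M, M₀ ≤ M →
    ∀ ka kb : Ty → P → ℝ≥0∞, Cx D G M ka kb → ∃ (C : ℝ≥0∞) (c₀ : ℕ), C ≠ ∞ ∧ ∀ r, c₀ ≤ r →
      ∀ (φ : D.Γ → ℝ) (β : ℝ≥0∞), OddC φ → BB D kb r φ β →
        ∃ h : D.Γ → ℝ, HH D G M ka c C c₀ r φ h β

/-- **Length transfer.** Proof. `(tk k' (m + L))(x⁻¹vz) = ∫ ν^(L)(p) (tk k' m)((1,p)⁻¹ x⁻¹vz) dp`; shift `x ↦ x (1,p)⁻¹` (the sum over `u, v` is an invariant function of `x` as `F` is left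
invariant); `∫ ν^(L)(p) (tk k a)((1,p) g) dp = tk k (a + L) g` (symmetry of `ν^(L)`). -/
def S_trans : Prop :=
  ∀ D : Dat P H, D.Ok → ∀ (k k' : P → ℝ≥0∞), Measurable k → Measurable k' → ∀ a m L : ℕ,
    1 ≤ a → 1 ≤ m → 1 ≤ L → ∀ F : D.Γ → D.Γ → ℝ≥0∞, (∀ γ u v, F (γ * u) (γ * v) = F u v) →
    ∀ z, D.IM (fun x => D.st2 (D.tk k a) (D.tk k' (m + L)) x z F) =
      D.IM fun x => D.st2 (D.tk k (a + L)) (D.tk k' m) x z F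

/-- **Telescoping** (I.6 without path space). Proof. Let `K = tk k b`, `N_K(x,y) ∈ [cm, cp]`, and `Δ(a,a';a₁,a₁') := N_K(a,a')⁻¹ N_K(a₁,a₁')⁻¹ ∑_{c,c'} K(a⁻¹ c a') K(a₁⁻¹ c' a₁') |ψ c V - ψ c' V|` (`V` fixed): the triangle inequality
`Δ(1,3) ≤ Δ(1,2) + Δ(2,3)` holds. Write points as `x p = x (1,p)`. `S_N(x,y) := ∫ν^(N)(p) ∫ν^(N)(q) Δ(x, yq; xp, y)`. Induction on `N ≥ 1`:
`S_{N+1}(x,y) ≤ ∫ν(p₁)ν(h)ν^(N)(q₁) Δ(x, y q₁ h; x p₁, y q₁) + ∫ν(p₁) S_N(x p₁, y)` (`ν^(N+1) = ν * ν^(N) = ν^(N) * ν`, triangle inequality with the middle point `(x p₁, y q₁)`). Let `q(x,y) = ∫∫ν(h')ν(h) Δ(x, yh; xh', y)`,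
`(A F)(x,y) = ∫ν(p)F(xp,y)`, `(B F)(x,y) = ∫ν(q)F(x,yq)`: `S_N ≤ ∑_{i<N} A^i B^(N-1-i) q`. Now
`(tk k (b+N))(x⁻¹uy) = ∫ν^(N)(q) K(x⁻¹u(yq)) = ∫ν^(N)(p) K((xp)⁻¹uy)`, so the left side is `≤ cp² IM IM ∑_V (tk k' m)(x⁻¹Vy) S_N^V(x,y)`. For equivariant `F_V` (`F_{γVγ'}(γx, γ'⁻¹y) = F_V(x,y)`) by the shift rule
`IM IM ∑_V (tk k' m)(x⁻¹Vy) (A F_V)(x,y) = IM IM ∑_V (tk k' (m+1))(x⁻¹Vy) F_V(x,y)`, the same for `B`. So each of the `N` terms is `IM IM ∑_V (tk k' (m+N-1))(x⁻¹Vy) q^V(x,y)`, and `q^V ≤ cm⁻² D.q1 k b ψ V`. -/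
def S_tele : Prop :=
  ∀ D : Dat P H, D.Ok → ∀ (k k' : P → ℝ≥0∞), Measurable k → Measurable k' →
    ∀ (b N m : ℕ) (cm cp : ℝ≥0∞), 1 ≤ b → 1 ≤ N → 1 ≤ m → 0 < cm → cp ≠ ∞ →
    (∀ x y, cm ≤ D.N (D.tk k b) x y ∧ D.N (D.tk k b) x y ≤ cp) →
    ∀ ψ : D.Γ → D.Γ → ℝ, (∀ γ γ' c V, ψ (γ * c * γ') (γ * V * γ') = ψ c V) →
      D.IM (fun x => D.IM fun y => ∑' V : D.Γ, D.tk k' m (x⁻¹ * (V : P × H) * y) *
        D.st2 (D.tk k (b + N)) (D.tk k (b + N)) x y fun u u' => ab (ψ u V - ψ u' V)) ≤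
      (cp / cm) ^ 2 * N * D.IM fun x => D.IM fun y => ∑' V : D.Γ,
        D.tk k' (m + N - 1) (x⁻¹ * (V : P × H) * y) * D.q1 k b ψ V x y

/-- One step is a small loop. Proof. Put `c' = c g`: `∑_c ∑_{c'} = ∑_c ∑_g`; `y⁻¹ g y = ((x h')⁻¹ c y)⁻¹ h'⁻¹ (x⁻¹ c' (y h)) h⁻¹ ∈ (U⁻¹ U) × O^(2b+2) ⊆ S`. Bound `(tk k b)(x⁻¹ c' (y h)) ≤ C = sup ν`, `∫ν(h) = 1`, and
`∫ν(h') (tk k b)((x h')⁻¹ c y) dh' = tk k (b+1) (x⁻¹cy)`. -/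
def S_q1 : Prop :=
  ∀ (D : Dat P H) (G : Geo P), D.Ok → G.Ok → ∀ b : ℕ, 1 ≤ b → ∃ C : ℝ≥0∞, C ≠ ∞ ∧
    ∀ (g₀ : P) (ψ : D.Γ → D.Γ → ℝ) (V : D.Γ) (x y : P × H),
      D.q1 (iK (g₀ • G.B 2)) b ψ V x y ≤ C * ∑' c : D.Γ,
        D.tk (iK (g₀ • G.B 2)) (b + 1) (x⁻¹ * (c : P × H) * y) *
          D.lp (G.B 3 ×ˢ (D.O ^ (2 * b + 2))) y fun g => ab (ψ c V - ψ (c * g) V)

/-- **(I.6).** Proof. `φ₁ = φ - h`. (a) `S_tele` with `k = iK (g₀ • B 2)`, `b` from the hypothesis, `N = n - b`, `k' = iK (Om (2,0) 5)`, `ψ c V = ph φ₁ c V`; `S_q1`; `ψ (c g) V - ψ c V = D_V(cg,c) - h g` for `φ`; so each term is at most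
`C IM_y lp y (g ↦ IM_x st2 (k, b+1) (k', m+N-1) x y (c, V ↦ |D_V(cg,c) - h g|))` (exchange `IM_x IM_y`); `S_trans` with `L = ⌊(m+n)/2⌋ - b - 1`: the lengths become `⌊(m+n)/2⌋` and `⌈(m+n)/2⌉ ∈ [r, 4r - c₀]`; `g₀ B 2 ⊆ Om (0,8) 5` (`om`);
`HH` with `e = false`, `j = 8`. The number of terms is `N ≤ 4 r`. (b) The same with chords of type `(2,0)`: `ψ c u = ph φ₁ u c`; `ψ (c g) u - ψ c u = φ₁(u g⁻¹ c⁻¹) - φ₁(u c⁻¹) = D_c(ug⁻¹,u) - h(g⁻¹)`; replace `g` by `g⁻¹` in `lp` (the set is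
symmetric). -/
def S_I6 : Prop :=
  ∀ (D : Dat P H) (G : Geo P) (M : ℕ) (ka kb : Ty → P → ℝ≥0∞), Cx D G M ka kb →
    ∀ (b : ℕ) (cm cp : ℝ≥0∞), 1 ≤ b → 0 < cm → cp ≠ ∞ → (∀ (g₀ : P) (x y : P × H),
      cm ≤ D.N (D.tk (iK (g₀ • G.B 2)) b) x y ∧ D.N (D.tk (iK (g₀ • G.B 2)) b) x y ≤ cp) →
    ∀ (C₁ : ℝ≥0∞) (c₀ : ℕ), C₁ ≠ ∞ → ∃ (C : ℝ≥0∞) (c₁ : ℕ), C ≠ ∞ ∧ ∀ r, c₁ ≤ r →
      ∀ (φ h : D.Γ → ℝ) (β : ℝ≥0∞), OddC φ → HH D G M ka (2 * b + 2) C₁ c₀ r φ h β →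
      ∀ g₀ ∈ G.Om M (0, 8) 6, ∀ g₁ ∈ G.Om M (2, 0) 6, ∀ n m, RG r c₁ n → RG r c₁ m →
        D.IM (fun x => D.IM fun y => ∑' V : D.Γ,
          D.tk (iK (G.Om M (2, 0) 5)) m (x⁻¹ * (V : P × H) * y) *
          D.st2 (D.tk (iK (g₀ • G.B 2)) n) (D.tk (iK (g₀ • G.B 2)) n) x y fun u u' =>
            ab (ph (fun x => φ x - h x) u V - ph (fun x => φ x - h x) u' V)) ≤
          C * r * (D.EE ka r φ + β) ∧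
        D.IM (fun x => D.IM fun y => ∑' u : D.Γ,
          D.tk (iK (G.Om M (0, 8) 5)) m (x⁻¹ * (u : P × H) * y) *
          D.st2 (D.tk (iK (g₁ • G.B 2)) n) (D.tk (iK (g₁ • G.B 2)) n) x y fun V V' =>
            ab (ph (fun x => φ x - h x) u V - ph (fun x => φ x - h x) u V')) ≤
          C * r * (D.EE ka r φ + β)

/-- **(6).** Proof. `IM_x IM_y ∑_{u,v} = IM_x IM_y ∑_v ∑_γ` (`u = γ v`); unfold over `v` (`y ↦ v y`): `= IM_x ∑_γ ∫ (tk k n)(x⁻¹γ z) (tk k' m)(x⁻¹ z) Φ(γ) dz = IM_x ∑_γ ∫ (tk k n)((x⁻¹γx) q) (tk k' m)(q) dq Φ(γ)`; product over the two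
factors; on `H`: `∫ν^(n)(s q)ν^(m)(q)dq = ν^(n+m)(s)` (symmetry). Conjugation: shift `x ↦ x (q,1)`. -/
def S_T2II : Prop :=
  ∀ D : Dat P H, D.Ok → ∀ Φ : D.Γ → ℝ≥0∞, (∀ g x, Φ (g * x * g⁻¹) = Φ x) →
    (∀ (k k' : P → ℝ≥0∞) (n m : ℕ), Measurable k → Measurable k' → 1 ≤ n → 1 ≤ m →
      D.T2 (D.tk k n) (D.tk k' m) (fun u v => Φ (u * v⁻¹)) =
        D.II (fun g => ∫⁻ y, k (g * y) * k' y ∂D.μ₁) (n + m) Φ) ∧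
    (∀ (ψ : P → ℝ≥0∞) (N : ℕ) (q : P), Measurable ψ →
      D.II (fun g => ψ (q⁻¹ * g * q)) N Φ = D.II ψ N Φ)

/-- **(I.7).** Proof. `φ₁ = φ - h`, `ψ(u,v) = ph φ₁ u v`. (A) same vertices, kernels `g₀ • B 2`, `g₁ • B 2`: `|ψ(u,V) - ψ(u',V')| ≤ |ψ(u,V) - ψ(u',V)| + |ψ(u',V) - ψ(u',V')|`, drop `V'` resp. `u`; `S_I6` (`g₁ • B 2 ⊆ Om (2,0) 5`).
(B) Let `U ⊆ B 0` be an open symmetric neighbourhood of `1` with `g⁻¹ U g ⊆ B 0` for all `g` in the compact closures of `Om (0,8) 6`, `Om (2,0) 6`; `b₄`, from `S_near` for `U`; `c = 2 b₄ + 2`. Copies `(x,y;u,V)` with kernels `(g₀ • B 0, n)`,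
`(g₁ • B 0, m)` and `(x',y';u',V')` with `(g₀ • B 0, n - c)`, `(g₁ • B 0, m - c)`: move `x'` to `x q`, `y'` to `y q'` (`S_near`), `q, q' ∈ U × O^b₄`; `q⁻¹ (g₀ B 0) q' ⊆ g₀ B 2`, `S_hk`: weights `≤ C (g₀ • B 2, n)`, `(g₁ • B 2, m)` at `(x,y)`. (A).
(C) two independent copies of the first kind: insert a copy of the second kind (mass `≥ c`, `S_bd`): `∫∫ |ψ - ψ''| ≤ C r (E + β)`. (D) `P = Q`: `T2 .. (ofReal ψ) = II Ψ (n+m) (ofReal φ₁)`, `T2 .. (ofReal (-ψ)) = II Ψ (n+m) (ofReal (-φ₁))`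
and `φ₁(γ⁻¹) = -φ₁(γ)`, so they are equal by `Bal` (`Ψ` is supported in `Om (0,8) 0 (Om (2,0) 0)⁻¹ ⊆ Hyp`, `hy`), finite by `S_fin`; `S_mean` with `β = 0` and `t = ψ(u,V)`; integrate. -/
def S_I7 : Prop :=
  ∀ (D : Dat P H) (G : Geo P) (M : ℕ) (ka kb : Ty → P → ℝ≥0∞), Cx D G M ka kb → Bal D G.Hyp →
    ∀ (b : ℕ) (cm cp : ℝ≥0∞), 1 ≤ b → 0 < cm → cp ≠ ∞ → (∀ (g₀ : P) (x y : P × H),
      cm ≤ D.N (D.tk (iK (g₀ • G.B 2)) b) x y ∧ D.N (D.tk (iK (g₀ • G.B 2)) b) x y ≤ cp) →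
    ∀ (C₁ : ℝ≥0∞) (c₀ : ℕ), C₁ ≠ ∞ → ∃ (C : ℝ≥0∞) (c₁ : ℕ), C ≠ ∞ ∧ ∀ r, c₁ ≤ r →
      ∀ (φ h : D.Γ → ℝ) (β : ℝ≥0∞), OddC φ → HH D G M ka (2 * b + 2) C₁ c₀ r φ h β →
      ∀ g₀ ∈ G.Om M (0, 8) 6, ∀ g₁ ∈ G.Om M (2, 0) 6, ∀ n m,
        r + c₁ ≤ n → n + c₁ ≤ 4 * r → r + c₁ ≤ m → m + c₁ ≤ 4 * r →
        D.T2 (D.tk (iK (g₀ • G.B 0)) n) (D.tk (iK (g₁ • G.B 0)) m)
          (fun u v => ab (ph (fun x => φ x - h x) u v)) ≤ C * r * (D.EE ka r φ + β)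

/-- **(I.8).** Proof. For `g ∈ K ⊆ Tr M` take `g₀, g₁, q` from `big`; `ψ₂(s) = ∫ iK(g₀ • B 0)(s y) iK(g₁ • B 0)(y) dy` is bounded below by a positive constant in a neighbourhood of `g₀ g₁⁻¹` (for `s` near `g₀g₁⁻¹` the set contains `g₁ U'`, `U'` a small
neighbourhood of `1`), so `s ↦ ψ₂(q⁻¹ s q)` is in a neighbourhood of `g`. Finitely many of these cover `K`: `ψ ≤ C ∑_i ψ₂,i(q_i⁻¹ · q_i)`. `II` is monotone and additive in `ψ`, `S_T2II`: `II ψ N |φ₁| ≤ C ∑ T2 (iK (g₀,i • B 0), n) (iK (g₁,i • B 0), m) |ψ|` for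
any `n + m = N`; `S_I7` with `n = ⌊N/2⌋`, `m = N - n`. -/
def S_I8 : Prop :=
  ∀ (D : Dat P H) (G : Geo P) (M : ℕ) (ka kb : Ty → P → ℝ≥0∞), Cx D G M ka kb → Bal D G.Hyp →
    (∀ g ∈ G.Tr M, ∃ g₀ ∈ G.Om M (0, 8) 6, ∃ g₁ ∈ G.Om M (2, 0) 6, ∃ q : P,
      q⁻¹ * g * q = g₀ * g₁⁻¹) →
    ∀ (b : ℕ) (cm cp : ℝ≥0∞), 1 ≤ b → 0 < cm → cp ≠ ∞ → (∀ (g₀ : P) (x y : P × H),
      cm ≤ D.N (D.tk (iK (g₀ • G.B 2)) b) x y ∧ D.N (D.tk (iK (g₀ • G.B 2)) b) x y ≤ cp) →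
    ∀ (C₁ : ℝ≥0∞) (c₀ : ℕ), C₁ ≠ ∞ → ∀ (ψ : P → ℝ≥0∞) (K : Set P), Measurable ψ →
      (∃ C : ℝ≥0∞, C ≠ ∞ ∧ ∀ g, ψ g ≤ C) → IsCompact K → K ⊆ G.Tr M → (∀ g, g ∉ K → ψ g = 0) →
    ∃ (C : ℝ≥0∞) (c₁ : ℕ), C ≠ ∞ ∧ ∀ r, c₁ ≤ r →
      ∀ (φ h : D.Γ → ℝ) (β : ℝ≥0∞), OddC φ → HH D G M ka (2 * b + 2) C₁ c₀ r φ h β →
      ∀ N, 2 * r + c₁ ≤ N → N + c₁ ≤ 8 * r →
        D.II ψ N (fun γ => ab (φ γ - h γ)) ≤ C * r * (D.EE ka r φ + β)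

/-- **End of the proof of Theorem 1.** Proof. `b, cm, cp` from `S_bd` (chords); `M₀` from `S_h` (with `c = 2 b + 2`) and `big`; `Cx` from `KerOk` and `big`. For `(a₁,a₂,a₃) ∈ PTs` and `n, m ∈ [r, 4r]`: `u` of kernel `tk (ka a₁) n`, `v` of kernel `tk (ka a₂) m`,
`u'` of kernel `tk (iK (Mid a₁)) (2r)`, `v'` of kernel `tk (iK (Mid a₂)) (2r)`, `w` of kernel `tk (iK (Om a₃ 2)) (2r)` at `(x,y)` (inserted, mass bounded below by `S_bd`):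
`|ψ(u,v)| ≤ |ψ(u,v')| + |ψ(u',v)| + |ψ(u',v')| + |□|`, `ψ = ph φ₁`, `□ = [D_v(u,u') - D_{v'}(u,u')]` for `φ`(`= ` for `φ₁`) `= δ(u,v,w) - δ(u',v,w) - δ(u,v',w) + δ(u',v',w)`, each `≤ C E` by `S_base` (general kernels: `tk (ka a) n ≤ wr (ka a) r`,
`tk (iK (Mid a)) (2r) ≤ C wr (ka a) r` as `Mid ⊆ Om 2`). The other three: `S_T2II` turns them into `II Ψ N |φ₁|`, `N = n + 2r, 2r + m, 4r ∈ [2r + c₁, 8r - c₁]`, `Ψ` bounded with compact support in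
`closure (Om a₁ 0 (Mid a₂)⁻¹) ⊆ Tr M` resp. its inverse (`ti`; `(Mid a₁) (Om a₂ 0)⁻¹ = (Om a₂ 0 (Mid a₁)⁻¹)⁻¹`, `Cp` is symmetric, the triple in `PTs` is pairwise compatible): `S_I8`, `≤ C r (E + β)`. So `T2 (tk (ka a₁) n) (tk (ka a₂) m) |ψ| ≤ C r (E + β)`;
sum over the `(3r+1)²` pairs `(n, m)` and over `PTs`: `A(φ₁) ≤ C r³ (E + β)`. -/
def S_End : Prop :=
  ∀ (D : Dat P H) (G : Geo P), D.Ok → G.Ok → Bal D G.Hyp →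
    ∃ M₀ : ℕ, ∀ M, M₀ ≤ M → ∀ ka kb : Ty → P → ℝ≥0∞, KerOk G M ka kb →
      ∃ (C : ℝ≥0∞) (r₀ : ℕ), C ≠ ∞ ∧ ∀ r, r₀ ≤ r → ∀ φ : D.Γ → ℝ, OddC φ → ∀ β : ℝ≥0∞,
        D.QQ kb r φ 1 ≤ D.QQ kb r φ (-1) + β → D.QQ kb r φ (-1) ≤ D.QQ kb r φ 1 + β →
        ∃ h : D.Γ → ℝ, (∀ x y, h (x * y) = h x + h y) ∧
          D.AA ka r (fun x => φ x - h x) ≤ C * (r : ℝ≥0∞) ^ 3 * (D.EE ka r φ + β)

end Pool.Agent.MPEF
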