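import Pool.Agent.Lib.MP_ef3f0f_gt.I.Spec
import Pool.Agent.Lib.MP_ef3f0f_gt.III.six

set_option autoImplicit false
set_option linter.unusedSectionVars false

/-! MP_ef3f0f_gt, part I, module T2II: unfolding to loops. -/

namespace Pool.Agent.MPEF

open MeasureTheory Topology
open scoped ENNReal Pointwise

variable (P H : Type) [Group P] [Group H] [TopologicalSpace P] [TopologicalSpace H]
  [IsTopologicalGroup P] [IsTopologicalGroup H] [LocallyCompactSpace P] [LocallyCompactSpace H]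
  [T2Space P] [T2Space H] [SecondCountableTopology P] [SecondCountableTopology H]
  [MeasurableSpace P] [MeasurableSpace H] [BorelSpace P] [BorelSpace H]

theorem tT2II (h1 : S_inst P H) (h2 : S_IM P H) (h3 : S_unf P H) (h4 : S_nu P H)
    (_ : S_mg P H) : S_T2II P H := by
  intro D hD Φ hΦ
  refine ⟨fun k k' n m hk hk' hn hm => tsix P H h1 h4 h3 D hD k k' hk hk' n m hn hm Φ, ?_⟩
  intro ψ N q hψ
  obtain ⟨-, -, -, cΓ, -⟩ := h1 D hD
  obtain ⟨n1, -⟩ := h4 D hD
  have e1 : D.II (fun g => ψ (q⁻¹ * g * q)) N Φ =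
      D.IM fun x => (fun x : P × H => ∑' γ : D.Γ, D.tk ψ N (x⁻¹ * (γ : P × H) * x) * Φ γ)
        (x * (q, (1 : H))) := by
    unfold Dat.II
    congr 1
    funext x
    refine tsum_congr fun γ => ?_
    congr 1
    unfold Dat.tk
    have a1 : ((x * (q, (1 : H)))⁻¹ * (γ : P × H) * (x * (q, (1 : H)))).1 =
        q⁻¹ * (x⁻¹ * (γ : P × H) * x).1 * q := by
      simp only [Prod.fst_mul, Prod.fst_inv, mul_inv_rev]
      group
    have a2 : ((x * (q, (1 : H)))⁻¹ * (γ : P × H) * (x * (q, (1 : H)))).2 =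
        (x⁻¹ * (γ : P × H) * x).2 := by
      simp only [Prod.snd_mul, Prod.snd_inv, mul_one]
    rw [a1, a2]
  rw [e1]
  refine (h2 D hD).1 (fun x : P × H => ∑' γ : D.Γ, D.tk ψ N (x⁻¹ * (γ : P × H) * x) * Φ γ)
    ?_ ?_ (q, (1 : H))
  · refine Measurable.ennreal_tsum fun γ => Measurable.mul_const ?_ _
    have h5 : Measurable (D.tk ψ N) :=
      (hψ.comp measurable_fst).mul ((n1 N).comp measurable_snd)
    have h6 : Continuous fun z : P × H => z⁻¹ * (γ : P × H) * z :=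
      (continuous_inv.mul continuous_const).mul continuous_id
    exact h5.comp h6.measurable
  · intro γ hγ x
    have e2 : ∀ f : D.Γ → ℝ≥0∞, ∑' g : D.Γ, f g = ∑' g : D.Γ, f ((⟨γ, hγ⟩ : D.Γ) * g * (⟨γ, hγ⟩ : D.Γ)⁻¹) :=
      fun f => ((MulAut.conj (⟨γ, hγ⟩ : D.Γ)).toEquiv.tsum_eq f).symm
    show ∑' g : D.Γ, D.tk ψ N ((γ * x)⁻¹ * (g : P × H) * (γ * x)) * Φ g = _
    rw [e2]
    refine tsum_congr fun g => ?_
    rw [hΦ]
    congr 2
    push_cast
    group

end Pool.Agent.MPEF
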