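import Pool.Agent.Lib.MP_ef3f0f_gt.I.Spec

set_option autoImplicit false
set_option linter.unusedSectionVars false

/-! MP_ef3f0f_gt, part I, module Th: the torus type triple. -/

namespace Pool.Agent.MPEF

open MeasureTheory Topology
open scoped ENNReal Pointwise

section
variable {P H : Type} [Group P] [Group H] [MeasurableSpace P] [MeasurableSpace H]

private theorem Th_mono {D : Dat P H} {K₁ K₂ K₃ K₁' K₂' K₃' : P × H → ℝ≥0∞} {x y : P × H}
    {f g : D.Γ → D.Γ → D.Γ → ℝ≥0∞} (h1 : ∀ q, K₁ q ≤ K₁' q) (h2 : ∀ q, K₂ q ≤ K₂' q)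
    (h3 : ∀ q, K₃ q ≤ K₃' q) (h : ∀ u v w, f u v w ≤ g u v w) :
    D.st3 K₁ K₂ K₃ x y f ≤ D.st3 K₁' K₂' K₃' x y g := by
  unfold Dat.st3
  refine ENNReal.tsum_le_tsum fun u => ENNReal.tsum_le_tsum fun v =>
    ENNReal.tsum_le_tsum fun w => ?_
  exact mul_le_mul' (mul_le_mul' (mul_le_mul' (h1 _) (h2 _)) (h3 _)) (h _ _ _)

private theorem Th_add {D : Dat P H} {K₁ K₂ K₃ : P × H → ℝ≥0∞} {x y : P × H}
    {f g : D.Γ → D.Γ → D.Γ → ℝ≥0∞} :
    D.st3 K₁ K₂ K₃ x y (fun u v w => f u v w + g u v w) =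
      D.st3 K₁ K₂ K₃ x y f + D.st3 K₁ K₂ K₃ x y g := by
  unfold Dat.st3
  simp only [mul_add, ENNReal.tsum_add]

private theorem Th_drop3 {D : Dat P H} {K₁ K₂ K₃ : P × H → ℝ≥0∞} {x y : P × H}
    {f : D.Γ → D.Γ → ℝ≥0∞} :
    D.st3 K₁ K₂ K₃ x y (fun u v _ => f u v) = D.N K₃ x y * D.st2 K₁ K₂ x y f := by
  unfold Dat.st3 Dat.st2 Dat.N
  rw [← ENNReal.tsum_mul_left]
  refine tsum_congr fun u => ?_
  rw [← ENNReal.tsum_mul_left]
  refine tsum_congr fun v => ?_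
  rw [← ENNReal.tsum_mul_right]
  refine tsum_congr fun w => ?_
  ring

private theorem Th_const {D : Dat P H} {K₁ K₂ K₃ : P × H → ℝ≥0∞} {x y : P × H} {t : ℝ≥0∞} :
    D.st3 K₁ K₂ K₃ x y (fun _ _ _ => t) = D.N K₁ x y * D.N K₂ x y * D.N K₃ x y * t := by
  rw [Th_drop3 (f := fun _ _ => t)]
  unfold Dat.st2 Dat.N
  have e : ∀ u : D.Γ, (∑' v : D.Γ, K₁ (x⁻¹ * (u : P × H) * y) * K₂ (x⁻¹ * (v : P × H) * y) * t) =
      K₁ (x⁻¹ * (u : P × H) * y) * ((∑' v : D.Γ, K₂ (x⁻¹ * (v : P × H) * y)) * t) := by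
    intro u
    rw [← ENNReal.tsum_mul_right, ← ENNReal.tsum_mul_left]
    refine tsum_congr fun v => ?_
    ring
  rw [tsum_congr e, ENNReal.tsum_mul_right]
  ring

private theorem Th_IMmono {D : Dat P H} {f g : P × H → ℝ≥0∞} (h : ∀ x, f x ≤ g x) :
    D.IM f ≤ D.IM g :=
  lintegral_mono fun x => mul_le_mul' le_rfl (h x)

private theorem Th_IMadd {D : Dat P H} (hχ : Measurable D.χ) {f g : P × H → ℝ≥0∞}
    (hf : Measurable f) :
    D.IM (fun x => f x + g x) = D.IM f + D.IM g := by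
  have e := lintegral_add_left (μ := D.μ) (show Measurable fun x => D.χ x * f x from hχ.mul hf)
    (fun x => D.χ x * g x)
  unfold Dat.IM
  rw [← e]
  refine lintegral_congr fun x => ?_
  ring

omit [Group P] [Group H] in
private theorem Th_mx {F : P × H → P × H → ℝ≥0∞}
    (hF : Measurable fun q : (P × H) × (P × H) => F q.1 q.2) (z : P × H) :
    Measurable fun x => F x z :=
  hF.comp (measurable_id.prodMk measurable_const)

private theorem Th_IMm {D : Dat P H} [SFinite D.μ] (hχ : Measurable D.χ)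
    {F : P × H → P × H → ℝ≥0∞}
    (hF : Measurable fun q : (P × H) × (P × H) => F q.1 q.2) :
    Measurable fun z => D.IM fun x => F x z := by
  unfold Dat.IM
  exact ((hχ.comp measurable_fst).mul hF).lintegral_prod_left'

private theorem Th_IMmul' {D : Dat P H} {f : P × H → ℝ≥0∞} {c : ℝ≥0∞} (hc : c ≠ ∞) :
    D.IM (fun x => c * f x) = c * D.IM f := by
  unfold Dat.IM
  rw [← lintegral_const_mul' c _ hc]
  refine lintegral_congr fun x => ?_
  ring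

omit [Group P] [MeasurableSpace P] in
private theorem Th_iKle {S S' : Set P} (h : S ⊆ S') (s : P) : iK S s ≤ iK S' s := by
  unfold iK
  exact Set.indicator_le_indicator_of_subset h (fun _ => zero_le) s

private theorem Th_tkle {D : Dat P H} {k k' : P → ℝ≥0∞} (h : ∀ s, k s ≤ k' s) (n : ℕ)
    (g : P × H) : D.tk k n g ≤ D.tk k' n g := by
  unfold Dat.tk
  exact mul_le_mul' (h _) le_rfl

private theorem Th_tkm {D : Dat P H} (hν : ∀ n, Measurable (D.nu n)) {k : P → ℝ≥0∞}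
    (hk : Measurable k) (n : ℕ) : Measurable (D.tk k n) := by
  unfold Dat.tk
  exact (hk.comp measurable_fst).mul ((hν n).comp measurable_snd)

omit [Group P] in
private theorem Th_iKm {S : Set P} (h : MeasurableSet S) :
    Measurable (iK S) :=
  measurable_const.indicator h

omit [Group P] [Group H] in
private theorem Th_my {F : P × H → P × H → ℝ≥0∞}
    (hF : Measurable fun q : (P × H) × (P × H) => F q.1 q.2) (x : P × H) :
    Measurable fun z => F x z :=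
  hF.comp (measurable_const.prodMk measurable_id)

private theorem Th_IMn {D : Dat P H} [SFinite D.μ] (hχ : Measurable D.χ)
    {F : P × H → P × H → ℝ≥0∞}
    (hF : Measurable fun q : (P × H) × (P × H) => F q.1 q.2) :
    Measurable fun x => D.IM fun y => F x y := by
  unfold Dat.IM
  exact ((hχ.comp measurable_snd).mul hF).lintegral_prod_right'

private theorem Th_T3mono {D : Dat P H} {K₁ K₂ K₃ K₁' K₂' K₃' : P × H → ℝ≥0∞}
    {f g : D.Γ → D.Γ → D.Γ → ℝ≥0∞} (h1 : ∀ q, K₁ q ≤ K₁' q) (h2 : ∀ q, K₂ q ≤ K₂' q)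
    (h3 : ∀ q, K₃ q ≤ K₃' q) (h : ∀ u v w, f u v w ≤ g u v w) :
    D.T3 K₁ K₂ K₃ f ≤ D.T3 K₁' K₂' K₃' g :=
  Th_IMmono fun _ => Th_IMmono fun _ => Th_mono h1 h2 h3 h

private theorem Th_T3add {D : Dat P H} [SFinite D.μ] (hχ : Measurable D.χ)
    {K₁ K₂ K₃ : P × H → ℝ≥0∞} {f g : D.Γ → D.Γ → D.Γ → ℝ≥0∞}
    (hm : Measurable fun q : (P × H) × (P × H) => D.st3 K₁ K₂ K₃ q.1 q.2 f) :
    D.T3 K₁ K₂ K₃ (fun u v w => f u v w + g u v w) =
      D.T3 K₁ K₂ K₃ f + D.T3 K₁ K₂ K₃ g := by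
  change (D.IM fun x => D.IM fun y => D.st3 K₁ K₂ K₃ x y (fun u v w => f u v w + g u v w)) =
    (D.IM fun x => D.IM fun y => D.st3 K₁ K₂ K₃ x y f) +
      D.IM fun x => D.IM fun y => D.st3 K₁ K₂ K₃ x y g
  have h1 : Measurable fun x => D.IM fun y => D.st3 K₁ K₂ K₃ x y f :=
    Th_IMn hχ (F := fun x y => D.st3 K₁ K₂ K₃ x y f) hm
  rw [← Th_IMadd hχ h1]
  refine lintegral_congr fun x => congrArg (fun t => D.χ x * t) ?_
  have h2 : Measurable fun y => D.st3 K₁ K₂ K₃ x y f :=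
    Th_my (F := fun x y => D.st3 K₁ K₂ K₃ x y f) hm x
  beta_reduce
  rw [← Th_IMadd hχ h2]
  exact lintegral_congr fun y => congrArg (fun t => D.χ y * t) Th_add

private theorem Th_T3mul {D : Dat P H} {K₁ K₂ K₃ : P × H → ℝ≥0∞}
    {f : D.Γ → D.Γ → D.Γ → ℝ≥0∞} {c : ℝ≥0∞} (hc : c ≠ ∞) :
    D.T3 K₁ K₂ K₃ (fun u v w => c * f u v w) = c * D.T3 K₁ K₂ K₃ f := by
  change (D.IM fun x => D.IM fun y => D.st3 K₁ K₂ K₃ x y (fun u v w => c * f u v w)) =
    c * (D.IM fun x => D.IM fun y => D.st3 K₁ K₂ K₃ x y f)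
  rw [← Th_IMmul' hc]
  refine lintegral_congr fun x => congrArg (fun t => D.χ x * t) ?_
  beta_reduce
  rw [← Th_IMmul' hc]
  refine lintegral_congr fun y => congrArg (fun t => D.χ y * t) ?_
  unfold Dat.st3
  beta_reduce
  rw [← ENNReal.tsum_mul_left]
  refine tsum_congr fun u => ?_
  rw [← ENNReal.tsum_mul_left]
  refine tsum_congr fun v => ?_
  rw [← ENNReal.tsum_mul_left]
  refine tsum_congr fun w => ?_
  ring

private theorem Th_IMc {D : Dat P H} (hχ : Measurable D.χ) (hm : ∫⁻ x, D.χ x ∂D.μ = 1)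
    (t : ℝ≥0∞) : D.IM (fun _ => t) = t := by
  unfold Dat.IM
  rw [lintegral_mul_const _ hχ, hm, one_mul]

private theorem Th_T3le {D : Dat P H} (hχ : Measurable D.χ) (hm : ∫⁻ x, D.χ x ∂D.μ = 1)
    {K₁ K₂ K₃ : P × H → ℝ≥0∞} {a : ℝ≥0∞}
    (h1 : ∀ x z, D.N K₁ x z ≤ a) (h2 : ∀ x z, D.N K₂ x z ≤ a) (h3 : ∀ x z, D.N K₃ x z ≤ a)
    (t : ℝ≥0∞) : D.T3 K₁ K₂ K₃ (fun _ _ _ => t) ≤ a * a * a * t := by
  calc D.T3 K₁ K₂ K₃ (fun _ _ _ => t) ≤ D.IM fun _ => D.IM fun _ => a * a * a * t := by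
        refine Th_IMmono fun x => Th_IMmono fun y => ?_
        have e := Th_const (D := D) (K₁ := K₁) (K₂ := K₂) (K₃ := K₃) (x := x) (y := y) (t := t)
        change D.st3 K₁ K₂ K₃ x y (fun _ _ _ => t) ≤ a * a * a * t
        rw [e]
        exact mul_le_mul' (mul_le_mul' (mul_le_mul' (h1 _ _) (h2 _ _)) (h3 _ _)) le_rfl
    _ = a * a * a * t := by
        have e := Th_IMc hχ hm (a * a * a * t)
        rw [e, e]

private theorem Th_T3ge {D : Dat P H} (hχ : Measurable D.χ) (hm : ∫⁻ x, D.χ x ∂D.μ = 1)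
    {K₁ K₂ K₃ : P × H → ℝ≥0∞} {a : ℝ≥0∞}
    (h1 : ∀ x z, a ≤ D.N K₁ x z) (h2 : ∀ x z, a ≤ D.N K₂ x z) (h3 : ∀ x z, a ≤ D.N K₃ x z)
    (t : ℝ≥0∞) : a * a * a * t ≤ D.T3 K₁ K₂ K₃ (fun _ _ _ => t) := by
  calc a * a * a * t = D.IM fun _ => D.IM fun _ => a * a * a * t := by
        have e := Th_IMc hχ hm (a * a * a * t)
        rw [e, e]
    _ ≤ D.T3 K₁ K₂ K₃ (fun _ _ _ => t) := by
        refine Th_IMmono fun x => Th_IMmono fun y => ?_
        have e := Th_const (D := D) (K₁ := K₁) (K₂ := K₂) (K₃ := K₃) (x := x) (y := y) (t := t)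
        change a * a * a * t ≤ D.st3 K₁ K₂ K₃ x y (fun _ _ _ => t)
        rw [e]
        exact mul_le_mul' (mul_le_mul' (mul_le_mul' (h1 _ _) (h2 _ _)) (h3 _ _)) le_rfl

private theorem Th_stmul {D : Dat P H} {K₁ K₂ K₃ K₁' K₂' K₃' : P × H → ℝ≥0∞}
    {x y x' y' : P × H} {c : ℝ≥0∞} {f : D.Γ → D.Γ → D.Γ → ℝ≥0∞}
    (h1 : ∀ u : D.Γ, K₁ (x'⁻¹ * (u : P × H) * y') ≤ c * K₁' (x⁻¹ * (u : P × H) * y))
    (h2 : ∀ u : D.Γ, K₂ (x'⁻¹ * (u : P × H) * y') ≤ c * K₂' (x⁻¹ * (u : P × H) * y))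
    (h3 : ∀ u : D.Γ, K₃ (x'⁻¹ * (u : P × H) * y') ≤ c * K₃' (x⁻¹ * (u : P × H) * y)) :
    D.st3 K₁ K₂ K₃ x' y' f ≤ c * c * c * D.st3 K₁' K₂' K₃' x y f := by
  unfold Dat.st3
  rw [← ENNReal.tsum_mul_left]
  refine ENNReal.tsum_le_tsum fun u => ?_
  rw [← ENNReal.tsum_mul_left]
  refine ENNReal.tsum_le_tsum fun v => ?_
  rw [← ENNReal.tsum_mul_left]
  refine ENNReal.tsum_le_tsum fun w => ?_
  calc _ ≤ (c * K₁' (x⁻¹ * (u : P × H) * y)) * (c * K₂' (x⁻¹ * (v : P × H) * y)) *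
        (c * K₃' (x⁻¹ * (w : P × H) * y)) * f u v w :=
      mul_le_mul' (mul_le_mul' (mul_le_mul' (h1 u) (h2 v)) (h3 w)) le_rfl
    _ = _ := by ring

end

section
variable {P H : Type} [Group P] [Group H] [TopologicalSpace P] [TopologicalSpace H]
  [IsTopologicalGroup P] [IsTopologicalGroup H] [LocallyCompactSpace P] [LocallyCompactSpace H]
  [T2Space P] [T2Space H] [SecondCountableTopology P] [SecondCountableTopology H]
  [MeasurableSpace P] [MeasurableSpace H] [BorelSpace P] [BorelSpace H]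

private theorem Th_Bm {G : Geo P} (h : G.Ok) {k l : ℕ} (hkl : k ≤ l) : G.B k ⊆ G.B l := by
  induction l, hkl using Nat.le_induction with
  | base => exact subset_rfl
  | succ l _ ih => exact ih.trans fun x hx => h.bm l ⟨x, hx, 1, h.b1 l, mul_one x⟩

private theorem Th_Om {G : Geo P} (h : G.Ok) (M : ℕ) (a : Ty) {k l : ℕ} (hkl : k ≤ l) :
    G.Om M a l ⊆ G.Om M a k := by
  induction l, hkl using Nat.le_induction with
  | base => exact subset_rfl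
  | succ l _ ih =>
    refine Set.Subset.trans (fun x hx => ?_) ih
    exact h.om M a l ⟨1 * x, ⟨1, h.b1 9, x, hx, rfl⟩, 1, h.b1 9, by simp⟩

/-- Moving both vertices. -/
private theorem Th_move {D : Dat P H} [SFinite D.μ] (hd : D.Ok) (hst : S_st P H)
    {Z : Set (P × H)} (hZm : MeasurableSet Z) {Cn : ℝ≥0∞}
    (hnear : ∀ f : P × H → ℝ≥0∞, Measurable f → (∀ γ ∈ D.Γ, ∀ x, f (γ * x) = f x) →
      ∀ x : P × H, D.IM f ≤ Cn * ∫⁻ q in Z, f (x * q) ∂D.μ)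
    {K₁ K₂ K₃ K₁' K₂' K₃' : P × H → ℝ≥0∞} (m1 : Measurable K₁) (m2 : Measurable K₂)
    (m3 : Measurable K₃) {c : ℝ≥0∞}
    (h1 : ∀ q ∈ Z, ∀ q' ∈ Z, ∀ s, K₁ (q⁻¹ * s * q') ≤ c * K₁' s)
    (h2 : ∀ q ∈ Z, ∀ q' ∈ Z, ∀ s, K₂ (q⁻¹ * s * q') ≤ c * K₂' s)
    (h3 : ∀ q ∈ Z, ∀ q' ∈ Z, ∀ s, K₃ (q⁻¹ * s * q') ≤ c * K₃' s)
    (f : D.Γ → D.Γ → D.Γ → ℝ≥0∞) (hl : ∀ γ u v w, f (γ * u) (γ * v) (γ * w) = f u v w)
    (hr : ∀ γ u v w, f (u * γ) (v * γ) (w * γ) = f u v w) (x y : P × H) :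
    D.T3 K₁ K₂ K₃ f ≤ Cn * Cn * D.μ Z * D.μ Z * (c * c * c) * D.st3 K₁' K₂' K₃' x y f := by
  obtain ⟨-, hm, -, -, -, hL, hR, -⟩ := hst D hd
  have hmf := hm K₁ K₂ K₃ m1 m2 m3 f
  have hmx : Measurable fun x => D.IM fun y => D.st3 K₁ K₂ K₃ x y f :=
    Th_IMn hd.χm (F := fun x y => D.st3 K₁ K₂ K₃ x y f) hmf
  have hmy : ∀ x, Measurable fun y => D.st3 K₁ K₂ K₃ x y f := fun x =>
    Th_my (F := fun x y => D.st3 K₁ K₂ K₃ x y f) hmf x
  have i1 : ∀ γ ∈ D.Γ, ∀ x, (D.IM fun y => D.st3 K₁ K₂ K₃ (γ * x) y f) =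
      D.IM fun y => D.st3 K₁ K₂ K₃ x y f := by
    intro γ hγ x
    refine lintegral_congr fun y => congrArg (fun t => D.χ y * t) ?_
    have e := hL K₁ K₂ K₃ x y ⟨γ, hγ⟩ f
    simp only [hl] at e
    exact e
  have i2 : ∀ x, ∀ γ ∈ D.Γ, ∀ y, D.st3 K₁ K₂ K₃ x (γ * y) f = D.st3 K₁ K₂ K₃ x y f := by
    intro x γ hγ y
    have e := hR K₁ K₂ K₃ x y ⟨γ, hγ⟩ f
    simp only [hr] at e
    exact e
  calc D.T3 K₁ K₂ K₃ f = D.IM fun x => D.IM fun y => D.st3 K₁ K₂ K₃ x y f := rfl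
    _ ≤ Cn * ∫⁻ q in Z, (D.IM fun y => D.st3 K₁ K₂ K₃ (x * q) y f) ∂D.μ :=
      hnear _ hmx i1 x
    _ ≤ Cn * ∫⁻ _ in Z, (Cn * (c * c * c * D.st3 K₁' K₂' K₃' x y f * D.μ Z)) ∂D.μ := by
      refine mul_le_mul' le_rfl (setLIntegral_mono' hZm fun q hq => ?_)
      refine (hnear _ (hmy (x * q)) (i2 (x * q)) y).trans (mul_le_mul' le_rfl ?_)
      calc _ ≤ ∫⁻ _ in Z, c * c * c * D.st3 K₁' K₂' K₃' x y f ∂D.μ := by
            refine setLIntegral_mono' hZm fun q' hq' => ?_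
            refine Th_stmul (fun u => ?_) (fun u => ?_) (fun u => ?_)
            · have e : (x * q)⁻¹ * (u : P × H) * (y * q') =
                  q⁻¹ * (x⁻¹ * (u : P × H) * y) * q' := by group
              rw [e]
              exact h1 q hq q' hq' _
            · have e : (x * q)⁻¹ * (u : P × H) * (y * q') =
                  q⁻¹ * (x⁻¹ * (u : P × H) * y) * q' := by group
              rw [e]
              exact h2 q hq q' hq' _
            · have e : (x * q)⁻¹ * (u : P × H) * (y * q') =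
                  q⁻¹ * (x⁻¹ * (u : P × H) * y) * q' := by group
              rw [e]
              exact h3 q hq q' hq' _
        _ = _ := by rw [lintegral_const, Measure.restrict_apply_univ]
    _ = _ := by
      rw [lintegral_const, Measure.restrict_apply_univ]
      ring

end

variable (P H : Type) [Group P] [Group H] [TopologicalSpace P] [TopologicalSpace H]
  [IsTopologicalGroup P] [IsTopologicalGroup H] [LocallyCompactSpace P] [LocallyCompactSpace H]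
  [T2Space P] [T2Space H] [SecondCountableTopology P] [SecondCountableTopology H]
  [MeasurableSpace P] [MeasurableSpace H] [BorelSpace P] [BorelSpace H]

theorem tTh : S_inst P H → S_st P H → S_near P H → S_hk P H → S_bd P H → S_E1 P H →
    S_fin P H → S_mean P H → S_O P H → S_nu P H → S_Th P H := by
  intro hinst hst hnear hhk hbd hE1 hfin hmean hO hnu D G M ka kb cx
  have hd := cx.d
  have hg := cx.g
  obtain ⟨-, -, hσ, -, hHaar, -, -, -, -⟩ := hinst D hd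
  obtain ⟨Oo, O1, Oi, Om, -, Oc, -⟩ := hO D hd
  have νm := (hnu D hd).1
  obtain ⟨b, Cn, hb, hCn, hne⟩ := (hnear D hd).1 (G.B 2) (hg.bo 2) (hg.b1 2)
  obtain ⟨Ch, hCh, hH⟩ := hhk D hd b
  obtain ⟨b₁, cm, CN, hb₁, hcm, hCN, hN⟩ := (hbd D G hd hg).1 M cx.ne cx.nm
  obtain ⟨CE, c₀, hCE, hE⟩ := hE1 D G M ka kb cx
  obtain ⟨Ck, hCk, hk⟩ := cx.k.ab
  obtain ⟨ck, hck, hkl⟩ := cx.k.al
  obtain ⟨Z, hZ⟩ : ∃ Z : Set (P × H), Z = G.B 2 ×ˢ (D.O ^ b) := ⟨_, rfl⟩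
  have hZm : MeasurableSet Z := by
    rw [hZ]
    exact ((hg.bo 2).prod (Oo b hb)).measurableSet
  have hZt : D.μ Z ≠ ∞ := by
    have h1 : D.μ (closure (G.B 2) ×ˢ closure (D.O ^ b)) ≠ ∞ :=
      ((hg.bc 2).prod (Oc b)).measure_lt_top.ne
    refine ne_top_of_le_ne_top h1 (measure_mono ?_)
    rw [hZ]
    exact Set.prod_mono subset_closure subset_closure
  rw [← hZ] at hne
  obtain ⟨c, hc⟩ : ∃ c, c = Ck * Ch := ⟨_, rfl⟩
  have hct : c ≠ ∞ := by rw [hc]; exact ENNReal.mul_ne_top hCk hCh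
  obtain ⟨Cc, hCc⟩ : ∃ Cc, Cc = Cn * Cn * D.μ Z * D.μ Z * (c * c * c) := ⟨_, rfl⟩
  have hCct : Cc ≠ ∞ := by
    rw [hCc]
    exact ENNReal.mul_ne_top (ENNReal.mul_ne_top (ENNReal.mul_ne_top
      (ENNReal.mul_ne_top hCn hCn) hZt) hZt) (ENNReal.mul_ne_top (ENNReal.mul_ne_top hct hct) hct)
  obtain ⟨a, ha⟩ : ∃ a, a = ck * cm := ⟨_, rfl⟩
  have ha0 : a * a * a ≠ 0 := by
    have : a ≠ 0 := by rw [ha]; exact mul_ne_zero hck.ne' hcm.ne'
    exact mul_ne_zero (mul_ne_zero this this) this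
  have hm1 : min (a * a * a) 1 ≠ 0 := by
    intro h
    rcases min_eq_iff.1 h with h | h
    · exact ha0 h.1
    · exact one_ne_zero h.1
  have hm2 : min (a * a * a) 1 ≠ ∞ :=
    (lt_of_le_of_lt (min_le_right _ _) ENNReal.one_lt_top).ne
  refine ⟨(Cc * CE + CN * CN * CN) / min (a * a * a) 1, b₁ + c₀ + 2 * b + 2,
    ENNReal.div_ne_top (ENNReal.add_ne_top.2 ⟨ENNReal.mul_ne_top hCct hCE,
      ENNReal.mul_ne_top (ENNReal.mul_ne_top hCN hCN) hCN⟩) hm1, ?_⟩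
  intro r φ β hr hodd hBB n m l hn hm hl
  -- the kernels
  have hmA : ∀ a n, Measurable (D.tk (iK (G.Om M a 3)) n) := fun a n =>
    Th_tkm νm (Th_iKm (hg.oo M a 3).measurableSet) n
  have hmB : ∀ a n, Measurable (D.tk (kb a) n) := fun a n => Th_tkm νm (cx.k.bm a) n
  have hKB : ∀ a, KB (kb a) := fun a => ⟨cx.k.bm a, ⟨Ck, hCk, fun g => (hk a g).2⟩,
    ⟨closure (G.Om M a 4), hg.oc M a 4, fun g hgn => cx.k.bs a g fun h => hgn (subset_closure h)⟩⟩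
  -- invariance of `δ`
  have hdl1 : ∀ γ u v w : D.Γ, dl φ (γ * u) (γ * v) (γ * w) = dl φ u v w := by
    intro γ u v w
    have e : ∀ s t : D.Γ, ph φ (γ * s) (γ * t) = ph φ s t := by
      intro s t
      unfold ph
      rw [← hodd.conj γ (s * t⁻¹)]
      congr 1
      group
    unfold dl
    rw [e, e, e]
  have hdl2 : ∀ γ u v w : D.Γ, dl φ (u * γ) (v * γ) (w * γ) = dl φ u v w := by
    intro γ u v w
    simp [dl, ph]
  -- comparison of the kernels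
  have hcomp : ∀ a, ∀ q ∈ Z, ∀ q' ∈ Z, ∀ s, D.tk (kb a) (2 * r) (q⁻¹ * s * q') ≤
      c * D.tk (iK (G.Om M a 2)) (2 * r + 2 * b + 2) s := by
    intro a q hq q' hq' s
    rw [hZ] at hq hq'
    have h1 : D.tk (kb a) (2 * r) (q⁻¹ * s * q') ≤
        Ck * D.tk (iK (G.Om M a 4)) (2 * r) (q⁻¹ * s * q') := by
      unfold Dat.tk
      rw [← mul_assoc]
      refine mul_le_mul' ?_ le_rfl
      by_cases h : (q⁻¹ * s * q').1 ∈ G.Om M a 4
      · unfold iK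
        rw [Set.indicator_of_mem h, mul_one]
        exact (hk a _).2
      · rw [cx.k.bs a _ h]
        exact zero_le
    have h2 := hH (G.B 2) (G.Om M a 4) (G.Om M a 2) (by
      intro p hp g hgo p' hp'
      refine Th_Om hg M a (show 2 ≤ 3 by norm_num) ?_
      refine hg.om M a 3 (Set.mul_mem_mul (Set.mul_mem_mul ?_ hgo) ?_)
      · exact Th_Bm hg (by norm_num) hp
      · exact Th_Bm hg (by norm_num) hp') (2 * r) (by omega) (q⁻¹ * s * q') q q'⁻¹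
      hq ⟨hg.bi 2 _ hq'.1, Oi _ _ hq'.2⟩
    have e : q * (q⁻¹ * s * q') * q'⁻¹ = s := by group
    rw [e] at h2
    calc _ ≤ Ck * D.tk (iK (G.Om M a 4)) (2 * r) (q⁻¹ * s * q') := h1
      _ ≤ Ck * (Ch * D.tk (iK (G.Om M a 2)) (2 * r + 2 * b + 2) s) := mul_le_mul' le_rfl h2
      _ = _ := by rw [hc, mul_assoc]
  -- the lower bound of the mass
  have hlow : ∀ a' x z, a ≤ D.N (D.tk (kb a') (2 * r)) x z := by
    intro a' x z
    have h1 := (hN x z).1 a' 6 (2 * r) (by norm_num) (by omega)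
    rw [ha]
    refine (mul_le_mul' le_rfl h1).trans ?_
    unfold Dat.N
    rw [← ENNReal.tsum_mul_left]
    refine ENNReal.tsum_le_tsum fun u => ?_
    unfold Dat.tk
    rw [← mul_assoc]
    refine mul_le_mul' ?_ le_rfl
    unfold iK
    by_cases h : (x⁻¹ * (u : P × H) * z).1 ∈ G.Om M a' 6
    · rw [Set.indicator_of_mem h, mul_one]
      exact (hkl a').2 _ h
    · rw [Set.indicator_of_notMem h, mul_zero]
      exact zero_le
  -- the mean value lemma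
  obtain ⟨T1, hT1⟩ : ∃ T1, T1 = D.T3 (D.tk (kb (0, 12)) (2 * r)) (D.tk (kb (2, 0)) (2 * r))
    (D.tk (kb (3, 8)) (2 * r)) (fun _ _ _ => 1) := ⟨_, rfl⟩
  have hfT := (hfin D hd (kb (0, 12)) (kb (2, 0)) (kb (3, 8)) (hKB _) (hKB _) (hKB _)
    (2 * r) (2 * r) (2 * r)).1
  have hT1t : T1 ≠ ∞ := by
    rw [hT1]
    exact hfT _ fun _ _ _ => ENNReal.one_ne_top
  have hmv : ∀ t : ℝ, T1 * ab t ≤ D.T3 (D.tk (kb (0, 12)) (2 * r)) (D.tk (kb (2, 0)) (2 * r))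
      (D.tk (kb (3, 8)) (2 * r)) (fun u v w => ab (t - dl φ u v w)) + β := by
    intro t
    have hle := hBB.le
    have hge := hBB.ge
    unfold Dat.QQ at hle hge
    simp only [one_mul, neg_one_mul] at hle hge
    rw [hT1]
    exact (hmean D hd β t).1 _ _ _ (hmB _ _) (hmB _ _) (hmB _ _) (dl φ)
      (hfT _ fun _ _ _ => ENNReal.ofReal_ne_top) (hfT _ fun _ _ _ => ENNReal.ofReal_ne_top)
      hle hge
  -- the exchange
  obtain ⟨A, hA⟩ : ∃ A : (D.Γ → D.Γ → D.Γ → ℝ≥0∞) → ℝ≥0∞, ∀ f, A f =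
    D.T3 (D.tk (iK (G.Om M (0, 12) 3)) n) (D.tk (iK (G.Om M (2, 0) 3)) m)
        (D.tk (iK (G.Om M (3, 8) 3)) l) f := ⟨_, fun _ => rfl⟩
  have h32 : ∀ a s, iK (G.Om M a 3) s ≤ iK (G.Om M a 2) s := fun a s =>
    Th_iKle (Th_Om hg M a (by norm_num)) s
  have hX : A (fun u v w => D.T3 (D.tk (kb (0, 12)) (2 * r)) (D.tk (kb (2, 0)) (2 * r))
      (D.tk (kb (3, 8)) (2 * r)) (fun u' v' w' => ab (dl φ u v w - dl φ u' v' w'))) ≤
      Cc * (CE * D.EE ka r φ) := by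
    have hRG : RG r c₀ (2 * r + 2 * b + 2) := ⟨by omega, by omega⟩
    have hRGn : ∀ n, RG r (b₁ + c₀ + 2 * b + 2) n → RG r c₀ n := fun n hn =>
      ⟨hn.1, by have := hn.2; omega⟩
    refine le_trans ?_ (mul_le_mul' le_rfl (hE r φ (by omega) hodd n m l _ _ _ (hRGn n hn)
      (hRGn m hm) (hRGn l hl) hRG hRG hRG))
    rw [hA, ← Th_IMmul' hCct]
    refine Th_IMmono fun x => ?_
    rw [← Th_IMmul' hCct]
    refine Th_IMmono fun y => ?_
    have e : ∀ f : D.Γ → D.Γ → D.Γ → ℝ≥0∞,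
        Cc * D.st3 (D.tk (iK (G.Om M (0, 12) 2)) n) (D.tk (iK (G.Om M (2, 0) 2)) m)
          (D.tk (iK (G.Om M (3, 8) 2)) l) x y f =
        D.st3 (D.tk (iK (G.Om M (0, 12) 2)) n) (D.tk (iK (G.Om M (2, 0) 2)) m)
          (D.tk (iK (G.Om M (3, 8) 2)) l) x y fun u v w => Cc * f u v w := by
      intro f
      unfold Dat.st3
      rw [← ENNReal.tsum_mul_left]
      refine tsum_congr fun u => ?_
      rw [← ENNReal.tsum_mul_left]
      refine tsum_congr fun v => ?_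
      rw [← ENNReal.tsum_mul_left]
      refine tsum_congr fun w => ?_
      ring
    rw [e]
    refine Th_mono (Th_tkle (h32 _) _) (Th_tkle (h32 _) _) (Th_tkle (h32 _) _)
      fun u v w => ?_
    rw [hCc]
    refine Th_move hd hst hZm hne (hmB _ _) (hmB _ _) (hmB _ _)
      (hcomp _) (hcomp _) (hcomp _) (fun u' v' w' => ab (dl φ u v w - dl φ u' v' w'))
      (fun γ u' v' w' => ?_) (fun γ u' v' w' => ?_) x y
    · rw [hdl1]
    · rw [hdl2]
  -- the end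
  have hmain : T1 * A (fun u v w => ab (dl φ u v w)) ≤
      Cc * (CE * D.EE ka r φ) + CN * CN * CN * β := by
    rw [hA, ← Th_T3mul hT1t]
    calc _ ≤ D.T3 (D.tk (iK (G.Om M (0, 12) 3)) n) (D.tk (iK (G.Om M (2, 0) 3)) m)
            (D.tk (iK (G.Om M (3, 8) 3)) l) (fun u v w =>
              D.T3 (D.tk (kb (0, 12)) (2 * r)) (D.tk (kb (2, 0)) (2 * r))
                (D.tk (kb (3, 8)) (2 * r)) (fun u' v' w' => ab (dl φ u v w - dl φ u' v' w')) +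
                β) :=
          Th_T3mono (fun _ => le_rfl) (fun _ => le_rfl) (fun _ => le_rfl) (fun u v w => hmv _)
      _ = D.T3 (D.tk (iK (G.Om M (0, 12) 3)) n) (D.tk (iK (G.Om M (2, 0) 3)) m)
            (D.tk (iK (G.Om M (3, 8) 3)) l) (fun u v w =>
              D.T3 (D.tk (kb (0, 12)) (2 * r)) (D.tk (kb (2, 0)) (2 * r))
                (D.tk (kb (3, 8)) (2 * r)) (fun u' v' w' => ab (dl φ u v w - dl φ u' v' w'))) +
          D.T3 (D.tk (iK (G.Om M (0, 12) 3)) n) (D.tk (iK (G.Om M (2, 0) 3)) m)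
            (D.tk (iK (G.Om M (3, 8) 3)) l) (fun _ _ _ => β) :=
          Th_T3add hd.χm ((hst D hd).2.1 _ _ _ (hmA _ _) (hmA _ _) (hmA _ _) _)
      _ ≤ _ := by
          rw [hA] at hX
          refine add_le_add hX (Th_T3le hd.χm hd.mass (fun x z => ?_) (fun x z => ?_)
            (fun x z => ?_) β)
          · exact (hN x z).2.2 _ 3 _ (by norm_num)
          · exact (hN x z).2.2 _ 3 _ (by norm_num)
          · exact (hN x z).2.2 _ 3 _ (by norm_num)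
  have hT1ge : a * a * a ≤ T1 := by
    have := Th_T3ge hd.χm hd.mass (hlow (0, 12)) (hlow (2, 0)) (hlow (3, 8)) 1
    rw [mul_one] at this
    rw [hT1]
    exact this
  rw [hA] at hmain
  obtain ⟨Y, hY⟩ : ∃ Y, Y = D.T3 (D.tk (iK (G.Om M (0, 12) 3)) n)
    (D.tk (iK (G.Om M (2, 0) 3)) m) (D.tk (iK (G.Om M (3, 8) 3)) l)
      (fun u v w => ab (dl φ u v w)) := ⟨_, rfl⟩
  rw [← hY] at hmain ⊢
  have h2 : Y * min (a * a * a) 1 ≤ (Cc * CE + CN * CN * CN) * (D.EE ka r φ + β) := by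
    rw [mul_comm Y]
    refine (mul_le_mul' ((min_le_left _ _).trans hT1ge) le_rfl).trans (hmain.trans ?_)
    rw [add_mul, ← mul_assoc]
    exact add_le_add (mul_le_mul' le_rfl le_self_add) (mul_le_mul' le_rfl le_add_self)
  have h3 := (ENNReal.le_div_iff_mul_le (Or.inl hm1) (Or.inl hm2)).2 h2
  refine h3.trans (le_of_eq ?_)
  rw [ENNReal.div_eq_inv_mul, ENNReal.div_eq_inv_mul]
  ring

end Pool.Agent.MPEF
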