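import Pool.Agent.Lib.MP_ef3f0f_gt.I.Spec

set_option autoImplicit false

/-! MP_ef3f0f_gt, part I, module Xi: exchange of `v`. -/

namespace Pool.Agent.MPEF

open MeasureTheory Topology
open scoped ENNReal Pointwise

section abstr

variable {Γ : Type}

/-- weighted sum -/
private noncomputable def Xi_W (a : Γ → ℝ≥0∞) (f : Γ → ℝ≥0∞) : ℝ≥0∞ := ∑' u, a u * f u

private theorem Xi_mono (a f g : Γ → ℝ≥0∞) (h : ∀ u, f u ≤ g u) : Xi_W a f ≤ Xi_W a g :=
  ENNReal.tsum_le_tsum fun u => mul_le_mul_right (h u) _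

private theorem Xi_monow (a b f : Γ → ℝ≥0∞) (h : ∀ u, a u ≤ b u) : Xi_W a f ≤ Xi_W b f :=
  ENNReal.tsum_le_tsum fun u => mul_le_mul_left (h u) _

private theorem Xi_add (a f g : Γ → ℝ≥0∞) :
    Xi_W a (fun u => f u + g u) = Xi_W a f + Xi_W a g := by
  unfold Xi_W
  rw [← ENNReal.tsum_add]
  exact tsum_congr fun u => mul_add _ _ _

private theorem Xi_const (a : Γ → ℝ≥0∞) (k : ℝ≥0∞) : Xi_W a (fun _ => k) = (∑' u, a u) * k :=
  ENNReal.tsum_mul_right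

private theorem Xi_cmul (a f : Γ → ℝ≥0∞) (k : ℝ≥0∞) :
    Xi_W a (fun u => k * f u) = k * Xi_W a f := by
  unfold Xi_W
  rw [← ENNReal.tsum_mul_left]
  exact tsum_congr fun u => by ring

private theorem Xi_ab_add (s t : ℝ) : ab (s + t) ≤ ab s + ab t := by
  unfold ab
  rw [← ENNReal.ofReal_add (abs_nonneg _) (abs_nonneg _)]
  exact ENNReal.ofReal_le_ofReal (abs_add_le _ _)

private theorem Xi_ab_neg (t : ℝ) : ab (-t) = ab t := by
  unfold ab
  rw [abs_neg]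

private theorem Xi_ab_sub (s t : ℝ) : ab (s - t) ≤ ab s + ab t := by
  have := Xi_ab_add s (-t)
  rwa [Xi_ab_neg, ← sub_eq_add_neg] at this

variable [Group Γ]

private theorem Xi_shift (a a' f : Γ → ℝ≥0∞) (C : ℝ≥0∞) (g : Γ) (h : ∀ u, a u ≤ C * a' (u * g)) :
    Xi_W a (fun u => f (u * g)) ≤ C * Xi_W a' f := by
  unfold Xi_W
  calc ∑' u, a u * f (u * g) ≤ ∑' u, C * (a' (u * g) * f (u * g)) := by
        apply ENNReal.tsum_le_tsum
        intro u
        rw [← mul_assoc]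
        exact mul_le_mul_left (h u) _
    _ = C * ∑' u, a' (u * g) * f (u * g) := ENNReal.tsum_mul_left
    _ = C * ∑' u, a' u * f u := by
        rw [← (Equiv.mulRight g).tsum_eq (fun u => a' u * f u)]
        rfl

/-- the sum of `|δ|` -/
private noncomputable def Xi_S (φ : Γ → ℝ) (a b t : Γ → ℝ≥0∞) : ℝ≥0∞ :=
  Xi_W a fun u => Xi_W b fun v => Xi_W t fun w => ab (dl φ u v w)

private theorem Xi_S_mono (φ : Γ → ℝ) (a b t a' b' t' : Γ → ℝ≥0∞) (ha : ∀ u, a u ≤ a' u)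
    (hb : ∀ u, b u ≤ b' u) (ht : ∀ u, t u ≤ t' u) : Xi_S φ a b t ≤ Xi_S φ a' b' t' :=
  (Xi_monow _ _ _ ha).trans (Xi_mono _ _ _ fun _ => (Xi_monow _ _ _ hb).trans
    (Xi_mono _ _ _ fun _ => Xi_monow _ _ _ ht))

private theorem Xi_pt (φ : Γ → ℝ) (hφ : OddC φ) (u v w g : Γ) :
    ab (Dv φ v (u * g) u - Dv φ w (u * g) u) ≤ ab (dl φ (u * g) v w) + ab (dl φ u v w) := by
  have e1 : ∀ s : Γ, ph φ w s = - ph φ s w := by
    intro s
    unfold ph
    rw [← hφ.inv]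
    congr 1
    group
  have h1 : Dv φ v (u * g) u - Dv φ w (u * g) u = dl φ (u * g) v w - dl φ u v w := by
    unfold dl Dv
    rw [e1, e1 u]
    ring
  rw [h1]
  exact Xi_ab_sub _ _

private theorem Xi_abs (φ : Γ → ℝ) (hφ : OddC φ) (p s t pt : Γ → ℝ≥0∞) (Ch : ℝ≥0∞) (g : Γ)
    (h1 : ∀ u, p u ≤ Ch * pt (u * g)) :
    Xi_W p (fun u => Xi_W s fun v => Xi_W t fun w =>
      ab (Dv φ v (u * g) u - Dv φ w (u * g) u)) ≤
    Ch * Xi_S φ pt s t + Xi_S φ p s t := by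
  refine (Xi_mono _ _ _ fun u => Xi_mono _ _ _ fun v => Xi_mono _ _ _ fun w =>
    Xi_pt φ hφ u v w g).trans ?_
  simp only [Xi_add]
  exact add_le_add (Xi_shift p pt (fun u => Xi_W s fun v => Xi_W t fun w => ab (dl φ u v w)) Ch g h1)
    le_rfl

end abstr

section two

variable {P H : Type} [Group P] [Group H] [MeasurableSpace P] [MeasurableSpace H]

private theorem Xi_st3 (D : Dat P H) (K₁ K₂ K₃ : P × H → ℝ≥0∞) (x y : P × H)
    (f : D.Γ → D.Γ → D.Γ → ℝ≥0∞) :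
    D.st3 K₁ K₂ K₃ x y f = Xi_W (fun u : D.Γ => K₁ (x⁻¹ * (u : P × H) * y)) fun u =>
      Xi_W (fun v : D.Γ => K₂ (x⁻¹ * (v : P × H) * y)) fun v =>
        Xi_W (fun w : D.Γ => K₃ (x⁻¹ * (w : P × H) * y)) fun w => f u v w := by
  unfold Dat.st3 Xi_W
  simp only [← ENNReal.tsum_mul_left]
  exact tsum_congr fun u => tsum_congr fun v => tsum_congr fun w => by ring

/-- double integral -/
private noncomputable def Xi_I (D : Dat P H) (f : (P × H) × (P × H) → ℝ≥0∞) : ℝ≥0∞ :=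
  D.IM fun x => D.IM fun y => f (x, y)

private theorem Xi_IM_mono (D : Dat P H) (f g : P × H → ℝ≥0∞) (h : ∀ x, f x ≤ g x) :
    D.IM f ≤ D.IM g := lintegral_mono fun x => mul_le_mul_right (h x) _

private theorem Xi_IM_cmul (D : Dat P H) (k : ℝ≥0∞) (hk : k ≠ ∞) (f : P × H → ℝ≥0∞) :
    D.IM (fun x => k * f x) = k * D.IM f := by
  unfold Dat.IM
  rw [← lintegral_const_mul' _ _ hk]
  exact lintegral_congr fun y => by ring

private theorem Xi_I_add (D : Dat P H) [SFinite D.μ] (hχ : Measurable D.χ)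
    (f g : (P × H) × (P × H) → ℝ≥0∞) (hf : Measurable f) :
    Xi_I D (fun q => f q + g q) = Xi_I D f + Xi_I D g := by
  unfold Xi_I Dat.IM
  have h1 : ∀ x, ∫⁻ y, D.χ y * (f (x, y) + g (x, y)) ∂D.μ =
      ∫⁻ y, D.χ y * f (x, y) ∂D.μ + ∫⁻ y, D.χ y * g (x, y) ∂D.μ := by
    intro x
    have hm : Measurable fun y => D.χ y * f (x, y) :=
      hχ.mul (hf.comp (measurable_const.prodMk measurable_id))
    rw [← lintegral_add_left hm]
    exact lintegral_congr fun y => mul_add _ _ _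
  have h2 : ∀ x, D.χ x * ∫⁻ y, D.χ y * (f (x, y) + g (x, y)) ∂D.μ =
      D.χ x * ∫⁻ y, D.χ y * f (x, y) ∂D.μ + D.χ x * ∫⁻ y, D.χ y * g (x, y) ∂D.μ := by
    intro x
    rw [h1, mul_add]
  rw [lintegral_congr h2]
  apply lintegral_add_left
  apply hχ.mul
  exact Measurable.lintegral_prod_right' (f := fun q : (P × H) × (P × H) => D.χ q.2 * f q)
    ((hχ.comp measurable_snd).mul hf)

private theorem Xi_I_swap (D : Dat P H) [SFinite D.μ] (hχ : Measurable D.χ)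
    (f : (P × H) × (P × H) → ℝ≥0∞) (hf : Measurable f) :
    D.IM (fun z => D.IM fun x => f (x, z)) = Xi_I D f := by
  unfold Xi_I Dat.IM
  have e1 : ∀ z, D.χ z * ∫⁻ x, D.χ x * f (x, z) ∂D.μ = ∫⁻ x, D.χ z * (D.χ x * f (x, z)) ∂D.μ := by
    intro z
    have hm : Measurable fun x => D.χ x * f (x, z) :=
      hχ.mul (hf.comp (measurable_id.prodMk measurable_const))
    rw [lintegral_const_mul _ hm]
  have e2 : ∀ x, D.χ x * ∫⁻ y, D.χ y * f (x, y) ∂D.μ = ∫⁻ y, D.χ y * (D.χ x * f (x, y)) ∂D.μ := by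
    intro x
    have hm : Measurable fun y => D.χ y * f (x, y) :=
      hχ.mul (hf.comp (measurable_const.prodMk measurable_id))
    rw [← lintegral_const_mul _ hm]
    exact lintegral_congr fun y => by ring
  rw [lintegral_congr e1, lintegral_congr e2]
  apply lintegral_lintegral_swap
  apply Measurable.aemeasurable
  have hs : Measurable fun q : (P × H) × (P × H) => f (q.2, q.1) := hf.comp measurable_swap
  exact (hχ.comp measurable_fst).mul ((hχ.comp measurable_snd).mul hs)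

private theorem Xi_two (D : Dat P H) [SFinite D.μ] (hχ : Measurable D.χ)
    (f₁ f₂ : (P × H) × (P × H) → ℝ≥0∞) (h₁ : Measurable f₁) (B : ℝ≥0∞) (b₁ : Xi_I D f₁ ≤ B)
    (b₂ : Xi_I D f₂ ≤ B) : Xi_I D (fun q => f₁ q + f₂ q) ≤ 2 * B := by
  rw [Xi_I_add D hχ f₁ f₂ h₁]
  calc Xi_I D f₁ + Xi_I D f₂ ≤ B + B := add_le_add b₁ b₂
    _ = 2 * B := by ring

private theorem Xi_lp (D : Dat P H) (S S' : Set (P × H)) (hSS : S ⊆ S') (z : P × H)
    (f : D.Γ → ℝ≥0∞) (k C : ℝ≥0∞) (hC : D.lp S' z (fun _ => 1) ≤ C)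
    (h : ∀ g : D.Γ, z⁻¹ * (g : P × H) * z ∈ S → f g ≤ k) : D.lp S z f ≤ C * k := by
  refine le_trans ?_ (mul_le_mul_left hC k)
  unfold Dat.lp
  rw [← ENNReal.tsum_mul_right]
  apply ENNReal.tsum_le_tsum
  intro g
  by_cases hg : z⁻¹ * (g : P × H) * z ∈ S
  · rw [Set.indicator_of_mem hg, Set.indicator_of_mem (hSS hg), one_mul, one_mul, one_mul]
    exact h g hg
  · rw [Set.indicator_of_notMem hg, zero_mul]
    exact zero_le

end two

variable (P H : Type) [Group P] [Group H] [TopologicalSpace P] [TopologicalSpace H]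
  [IsTopologicalGroup P] [IsTopologicalGroup H] [LocallyCompactSpace P] [LocallyCompactSpace H]
  [T2Space P] [T2Space H] [SecondCountableTopology P] [SecondCountableTopology H]
  [MeasurableSpace P] [MeasurableSpace H] [BorelSpace P] [BorelSpace H]

private theorem Xi_num (D : Dat P H) (hD : D.Ok) [SFinite D.μ₂] (n : ℕ) : Measurable (D.nu n) := by
  unfold Dat.nu
  generalize n - 1 = k
  induction k with
  | zero => exact hD.νc.measurable
  | succ k ih =>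
    have h1 : Measurable fun p : H × H => D.ν p.2 * D.nuA k (p.2⁻¹ * p.1) :=
      (hD.νc.measurable.comp measurable_snd).mul
        (ih.comp ((measurable_inv.comp measurable_snd).mul measurable_fst))
    exact Measurable.lintegral_prod_right' (f := fun p : H × H => D.ν p.2 * D.nuA k (p.2⁻¹ * p.1)) h1

private theorem Xi_Oinv (D : Dat P H) (hD : D.Ok) (c : ℕ) (h : H) (hh : h ∈ D.O ^ c) :
    h⁻¹ ∈ D.O ^ c := by
  have h1 : D.O⁻¹ = D.O := by
    ext x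
    rw [Set.mem_inv]
    show 0 < D.ν x⁻¹ ↔ 0 < D.ν x
    rw [hD.νi]
  have h2 : (D.O ^ c)⁻¹ = D.O ^ c := by
    rw [← inv_pow, h1]
  rw [← h2, Set.inv_mem_inv]
  exact hh

theorem tXi : S_inst P H → S_st P H → S_hk P H → S_bd P H → S_base P H → S_Xi P H := by
  intro hinst hst hhk hbd hbase D G M ka kb hcx c
  have hD := hcx.d
  have hG := hcx.g
  obtain ⟨s1, s2, s3, -, -, -, -, -, -⟩ := hinst D hD
  obtain ⟨Cl, hCl, hlp⟩ := (hbd D G hD hG).2.2.2 c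
  obtain ⟨-, C', hC', hT⟩ := hbase D G M ka kb hcx
  obtain ⟨Ch, hCh, hHk⟩ := hhk D hD c
  have hA : Ch + 1 ≠ ∞ := ENNReal.add_ne_top.2 ⟨hCh, ENNReal.one_ne_top⟩
  refine ⟨Cl * ((Ch + 1) * (2 * C')), 2 * c + 2,
    ENNReal.mul_ne_top hCl (ENNReal.mul_ne_top hA (ENNReal.mul_ne_top (by norm_num) hC')), ?_⟩
  intro r φ hr hφ a e t hat n m l hn hm hl
  have hB : ∀ k, G.B k ⊆ G.B (k + 1) := by
    intro k x hx
    have h1 := hG.bm k (Set.mul_mem_mul hx (hG.b1 k))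
    rwa [mul_one] at h1
  have hB79 : G.B 7 ⊆ G.B 9 := (hB 7).trans (hB 8)
  have hOm : ∀ (a : Ty) (l : ℕ), G.Om M a (l + 1) ⊆ G.Om M a l := by
    intro a l x hx
    have h1 := hG.om M a l (Set.mul_mem_mul (Set.mul_mem_mul (hG.b1 9) hx) (hG.b1 9))
    rwa [one_mul, mul_one] at h1
  have hle : ∀ (a : Ty) (i : ℕ) (g : P × H), D.tk (iK (G.Om M a 3)) i g ≤
      D.tk (iK (G.Om M a 2)) i g := by
    intro a i g
    unfold Dat.tk iK
    refine mul_le_mul_left ?_ _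
    exact Set.indicator_le_indicator_of_subset (hOm a 2) (fun _ => zero_le) _
  have hone : (1 : P × H) ∈ G.B 9 ×ˢ (D.O ^ c) := ⟨hG.b1 9, Set.one_mem_pow hD.ν1⟩
  have hk : ∀ (a : Ty) (i : ℕ), 1 ≤ i → ∀ g q' : P × H, q' ∈ G.B 9 ×ˢ (D.O ^ c) →
      D.tk (iK (G.Om M a 3)) i g ≤ Ch * D.tk (iK (G.Om M a 2)) (i + 2 * c + 2) (g * q') := by
    intro a i hi g q' hq'
    have h1 := hHk (G.B 9) (G.Om M a 3) (G.Om M a 2) (fun q hq g hg q' hq' =>
      hG.om M a 2 (Set.mul_mem_mul (Set.mul_mem_mul hq hg) hq')) i hi g 1 q' hone hq'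
    rwa [one_mul] at h1
  have hKm : ∀ a k, Measurable (D.tk (iK (G.Om M a 2)) k) := by
    intro a k
    unfold Dat.tk iK
    exact ((measurable_const.indicator (hG.oo M a 2).measurableSet).comp measurable_fst).mul
      ((Xi_num P H D hD k).comp measurable_snd)
  let G' : Ty → ℕ → Ty → ℕ → Ty → ℕ → (P × H) × (P × H) → ℝ≥0∞ := fun a i a' i' t j q =>
    D.st3 (D.tk (iK (G.Om M a 2)) i) (D.tk (iK (G.Om M a' 2)) i') (D.tk (iK (G.Om M t 2)) j) q.1 q.2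
      fun u v w => ab (dl φ u v w)
  have hg : ∀ a i a' i' t j, Measurable (G' a i a' i' t j) := fun a i a' i' t j =>
    (hst D hD).2.1 _ _ _ (hKm a i) (hKm a' i') (hKm t j) _
  have hgB : ∀ a i a' i' t j, PTu a a' t → RG r 0 i → RG r 0 i' → RG r 0 j →
      Xi_I D (G' a i a' i' t j) ≤ C' * D.EE ka r φ := fun a i a' i' t j h h1 h2 h3 =>
    hT r φ hφ a a' t h i i' j h1 h2 h3
  have hRn : ∀ k, RG r (2 * c + 2) k → 1 ≤ k ∧ RG r 0 k ∧ RG r 0 (k + 2 * c + 2) := by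
    intro k hk
    have h1 := hk.1
    have h2 := hk.2
    exact ⟨by omega, ⟨by omega, by omega⟩, ⟨by omega, by omega⟩⟩
  obtain ⟨n1, n2, n3⟩ := hRn n hn
  obtain ⟨m1, m2, m3⟩ := hRn m hm
  obtain ⟨l1, l2, l3⟩ := hRn l hl
  let Q : (P × H) × (P × H) → ℝ≥0∞ := fun q =>
    G' a (n + 2 * c + 2) e m t l q + G' a n e m t l q
  have hQm : Measurable Q := (hg _ _ _ _ _ _).add (hg _ _ _ _ _ _)
  have hQB : Xi_I D Q ≤ 2 * (C' * D.EE ka r φ) :=
    Xi_two D hD.χm _ _ (hg _ _ _ _ _ _) _ (hgB _ _ _ _ _ _ hat n3 m2 l2)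
      (hgB _ _ _ _ _ _ hat n2 m2 l2)
  have hpt : ∀ (z : P × H) (g : D.Γ), z⁻¹ * (g : P × H) * z ∈ G.B 7 ×ˢ (D.O ^ c) → ∀ x : P × H,
      D.st3 (D.tk (iK (G.Om M a 3)) n) (D.tk (iK (G.Om M e 3)) m) (D.tk (iK (G.Om M t 3)) l) x z
        (fun u v w => ab (Dv φ v (u * g) u - Dv φ w (u * g) u)) ≤ (Ch + 1) * Q (x, z) := by
    intro z g hgS x
    have hq : z⁻¹ * (g : P × H) * z ∈ G.B 9 ×ˢ (D.O ^ c) := ⟨hB79 hgS.1, hgS.2⟩
    have e1 : ∀ u : D.Γ, x⁻¹ * (u : P × H) * z * (z⁻¹ * (g : P × H) * z) =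
        x⁻¹ * ((u * g : D.Γ) : P × H) * z := by
      intro u
      rw [Subgroup.coe_mul]
      group
    have k1 : ∀ (a : Ty) (i : ℕ), 1 ≤ i → ∀ u : D.Γ,
        D.tk (iK (G.Om M a 3)) i (x⁻¹ * (u : P × H) * z) ≤
          Ch * D.tk (iK (G.Om M a 2)) (i + 2 * c + 2) (x⁻¹ * ((u * g : D.Γ) : P × H) * z) := by
      intro a i hi u
      rw [← e1]
      exact hk a i hi _ _ hq
    rw [Xi_st3]
    refine (Xi_abs φ hφ _ _ _
      (fun u : D.Γ => D.tk (iK (G.Om M a 2)) (n + 2 * c + 2) (x⁻¹ * (u : P × H) * z))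
      Ch g (k1 a n n1)).trans ?_
    simp only [Q, G', Xi_st3]
    rw [mul_add]
    refine add_le_add ?_ ?_
    · exact mul_le_mul' le_self_add
        (Xi_S_mono φ _ _ _ _ _ _ (fun u => le_rfl) (fun u => hle _ _ _) (fun u => hle _ _ _))
    · refine (Xi_S_mono φ _ _ _ _ _ _ (fun u => hle _ _ _) (fun u => hle _ _ _)
        (fun u => hle _ _ _)).trans ?_
      exact le_mul_of_one_le_left zero_le le_add_self
  have hz : ∀ z : P × H, D.lp (G.B 7 ×ˢ (D.O ^ c)) z (fun g => D.IM fun x =>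
        D.st3 (D.tk (iK (G.Om M a 3)) n) (D.tk (iK (G.Om M e 3)) m) (D.tk (iK (G.Om M t 3)) l) x z
          fun u v w => ab (Dv φ v (u * g) u - Dv φ w (u * g) u)) ≤
      Cl * ((Ch + 1) * D.IM fun x => Q (x, z)) := by
    intro z
    refine Xi_lp D _ (G.B 9 ×ˢ (D.O ^ c)) (Set.prod_mono hB79 subset_rfl) z _ _ _ (hlp z) ?_
    intro g hgS
    rw [← Xi_IM_cmul D _ hA]
    exact Xi_IM_mono D _ _ fun x => hpt z g hgS x
  refine (Xi_IM_mono D _ _ hz).trans ?_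
  rw [Xi_IM_cmul D _ hCl, Xi_IM_cmul D _ hA, Xi_I_swap D hD.χm Q hQm]
  calc Cl * ((Ch + 1) * Xi_I D Q) ≤ Cl * ((Ch + 1) * (2 * (C' * D.EE ka r φ))) :=
        mul_le_mul_right (mul_le_mul_right hQB _) _
    _ = Cl * ((Ch + 1) * (2 * C')) * D.EE ka r φ := by ring

end Pool.Agent.MPEF
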