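import Pool.Agent.Lib.MP_ef3f0f_gt.I.Spec

set_option autoImplicit false

/-! MP_ef3f0f_gt, part I, module Xii: exchange of `u`. -/

namespace Pool.Agent.MPEF

open MeasureTheory Topology
open scoped ENNReal Pointwise

section abstr

variable {Γ : Type}

/-- weighted sum -/
private noncomputable def Xii_W (a : Γ → ℝ≥0∞) (f : Γ → ℝ≥0∞) : ℝ≥0∞ := ∑' u, a u * f u

private theorem Xii_mono (a f g : Γ → ℝ≥0∞) (h : ∀ u, f u ≤ g u) : Xii_W a f ≤ Xii_W a g :=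
  ENNReal.tsum_le_tsum fun u => mul_le_mul_right (h u) _

private theorem Xii_monow (a b f : Γ → ℝ≥0∞) (h : ∀ u, a u ≤ b u) : Xii_W a f ≤ Xii_W b f :=
  ENNReal.tsum_le_tsum fun u => mul_le_mul_left (h u) _

private theorem Xii_add (a f g : Γ → ℝ≥0∞) :
    Xii_W a (fun u => f u + g u) = Xii_W a f + Xii_W a g := by
  unfold Xii_W
  rw [← ENNReal.tsum_add]
  exact tsum_congr fun u => mul_add _ _ _

private theorem Xii_const (a : Γ → ℝ≥0∞) (k : ℝ≥0∞) : Xii_W a (fun _ => k) = (∑' u, a u) * k :=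
  ENNReal.tsum_mul_right

private theorem Xii_cmul (a f : Γ → ℝ≥0∞) (k : ℝ≥0∞) :
    Xii_W a (fun u => k * f u) = k * Xii_W a f := by
  unfold Xii_W
  rw [← ENNReal.tsum_mul_left]
  exact tsum_congr fun u => by ring

private theorem Xii_ab_add (s t : ℝ) : ab (s + t) ≤ ab s + ab t := by
  unfold ab
  rw [← ENNReal.ofReal_add (abs_nonneg _) (abs_nonneg _)]
  exact ENNReal.ofReal_le_ofReal (abs_add_le _ _)

private theorem Xii_ab_neg (t : ℝ) : ab (-t) = ab t := by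
  unfold ab
  rw [abs_neg]

private theorem Xii_ab_sub (s t : ℝ) : ab (s - t) ≤ ab s + ab t := by
  have := Xii_ab_add s (-t)
  rwa [Xii_ab_neg, ← sub_eq_add_neg] at this

variable [Group Γ]

private theorem Xii_shift (a a' f : Γ → ℝ≥0∞) (C : ℝ≥0∞) (g : Γ) (h : ∀ u, a u ≤ C * a' (u * g)) :
    Xii_W a (fun u => f (u * g)) ≤ C * Xii_W a' f := by
  unfold Xii_W
  calc ∑' u, a u * f (u * g) ≤ ∑' u, C * (a' (u * g) * f (u * g)) := by
        apply ENNReal.tsum_le_tsum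
        intro u
        rw [← mul_assoc]
        exact mul_le_mul_left (h u) _
    _ = C * ∑' u, a' (u * g) * f (u * g) := ENNReal.tsum_mul_left
    _ = C * ∑' u, a' u * f u := by
        rw [← (Equiv.mulRight g).tsum_eq (fun u => a' u * f u)]
        rfl

/-- the sum of `|δ|` -/
private noncomputable def Xii_S (φ : Γ → ℝ) (a b t : Γ → ℝ≥0∞) : ℝ≥0∞ :=
  Xii_W a fun u => Xii_W b fun v => Xii_W t fun w => ab (dl φ u v w)

private theorem Xii_S_mono (φ : Γ → ℝ) (a b t a' b' t' : Γ → ℝ≥0∞) (ha : ∀ u, a u ≤ a' u)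
    (hb : ∀ u, b u ≤ b' u) (ht : ∀ u, t u ≤ t' u) : Xii_S φ a b t ≤ Xii_S φ a' b' t' :=
  (Xii_monow _ _ _ ha).trans (Xii_mono _ _ _ fun _ => (Xii_monow _ _ _ hb).trans
    (Xii_mono _ _ _ fun _ => Xii_monow _ _ _ ht))

private theorem Xii_pt (φ : Γ → ℝ) (u u' v w g : Γ) :
    ab (Dv φ v (u * g) u - Dv φ v (u' * g) u') ≤
      ab (dl φ (u * g) v w) + ab (dl φ (u' * g) v w) + ab (dl φ u v (w * g⁻¹)) +
        ab (dl φ u' v (w * g⁻¹)) := by
  have e1 : ∀ s : Γ, ph φ w (s * g) = ph φ (w * g⁻¹) s := by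
    intro s
    unfold ph
    congr 1
    group
  have h1 : Dv φ v (u * g) u - Dv φ v (u' * g) u' =
      ((dl φ (u * g) v w - dl φ (u' * g) v w) - dl φ u v (w * g⁻¹)) + dl φ u' v (w * g⁻¹) := by
    unfold dl Dv
    rw [e1, e1]
    ring
  rw [h1]
  exact (Xii_ab_add _ _).trans (add_le_add ((Xii_ab_sub _ _).trans (add_le_add (Xii_ab_sub _ _)
    le_rfl)) le_rfl)

private theorem Xii_abs (φ : Γ → ℝ) (p p' s t pt pt' tt : Γ → ℝ≥0∞) (c C Ch : ℝ≥0∞) (g : Γ)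
    (hc0 : c ≠ 0) (hct : c ≠ ∞) (hp : ∑' u, p u ≤ C) (hp' : ∑' u, p' u ≤ C)
    (ht : c ≤ ∑' u, t u) (h1 : ∀ u, p u ≤ Ch * pt (u * g)) (h2 : ∀ u, p' u ≤ Ch * pt' (u * g))
    (h3 : ∀ u, t u ≤ Ch * tt (u * g⁻¹)) :
    Xii_W p (fun u => Xii_W p' fun u' => Xii_W s fun v =>
      ab (Dv φ v (u * g) u - Dv φ v (u' * g) u')) ≤
    c⁻¹ * (C * (Ch * (Xii_S φ pt s t + Xii_S φ pt' s t + Xii_S φ p s tt + Xii_S φ p' s tt))) := by
  let T : Γ → Γ → ℝ≥0∞ := fun u v => Xii_W t fun w => ab (dl φ u v w)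
  let T' : Γ → Γ → ℝ≥0∞ := fun u v => Xii_W t fun w => ab (dl φ u v (w * g⁻¹))
  have hT' : ∀ u v, T' u v ≤ Ch * Xii_W tt fun w => ab (dl φ u v w) := fun u v =>
    Xii_shift t tt (fun w => ab (dl φ u v w)) Ch g⁻¹ h3
  have hpt : ∀ u u' v, ab (Dv φ v (u * g) u - Dv φ v (u' * g) u') ≤
      c⁻¹ * (T (u * g) v + T (u' * g) v + T' u v + T' u' v) := by
    intro u u' v
    rw [← ENNReal.mul_le_iff_le_inv hc0 hct]
    calc c * ab (Dv φ v (u * g) u - Dv φ v (u' * g) u')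
        ≤ (∑' u, t u) * ab (Dv φ v (u * g) u - Dv φ v (u' * g) u') := mul_le_mul_left ht _
      _ = Xii_W t (fun _ => ab (Dv φ v (u * g) u - Dv φ v (u' * g) u')) := (Xii_const _ _).symm
      _ ≤ Xii_W t (fun w => ab (dl φ (u * g) v w) + ab (dl φ (u' * g) v w) +
          ab (dl φ u v (w * g⁻¹)) + ab (dl φ u' v (w * g⁻¹))) :=
          Xii_mono _ _ _ fun w => Xii_pt φ u u' v w g
      _ = T (u * g) v + T (u' * g) v + T' u v + T' u' v := by
          rw [Xii_add, Xii_add, Xii_add]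
  refine (Xii_mono _ _ _ fun u => Xii_mono _ _ _ fun u' => Xii_mono _ _ _ fun v =>
    hpt u u' v).trans ?_
  simp only [Xii_cmul, Xii_add, Xii_const]
  refine mul_le_mul_right ?_ _
  rw [mul_add Ch, mul_add Ch, mul_add Ch, mul_add C, mul_add C, mul_add C]
  refine add_le_add (add_le_add (add_le_add ?_ ?_) ?_) ?_
  · refine mul_le_mul' hp' ?_
    exact Xii_shift p pt (fun u => Xii_W s fun v => T u v) Ch g h1
  · refine mul_le_mul' hp ?_
    exact Xii_shift p' pt' (fun u => Xii_W s fun v => T u v) Ch g h2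
  · refine mul_le_mul' hp' ?_
    refine (Xii_mono _ _ _ fun u => Xii_mono _ _ _ fun v => hT' u v).trans ?_
    simp only [Xii_cmul]
    exact le_rfl
  · refine mul_le_mul' hp ?_
    refine (Xii_mono _ _ _ fun u => Xii_mono _ _ _ fun v => hT' u v).trans ?_
    simp only [Xii_cmul]
    exact le_rfl

end abstr

section two

variable {P H : Type} [Group P] [Group H] [MeasurableSpace P] [MeasurableSpace H]

private theorem Xii_st3 (D : Dat P H) (K₁ K₂ K₃ : P × H → ℝ≥0∞) (x y : P × H)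
    (f : D.Γ → D.Γ → D.Γ → ℝ≥0∞) :
    D.st3 K₁ K₂ K₃ x y f = Xii_W (fun u : D.Γ => K₁ (x⁻¹ * (u : P × H) * y)) fun u =>
      Xii_W (fun v : D.Γ => K₂ (x⁻¹ * (v : P × H) * y)) fun v =>
        Xii_W (fun w : D.Γ => K₃ (x⁻¹ * (w : P × H) * y)) fun w => f u v w := by
  unfold Dat.st3 Xii_W
  simp only [← ENNReal.tsum_mul_left]
  exact tsum_congr fun u => tsum_congr fun v => tsum_congr fun w => by ring

/-- double integral -/
private noncomputable def Xii_I (D : Dat P H) (f : (P × H) × (P × H) → ℝ≥0∞) : ℝ≥0∞ :=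
  D.IM fun x => D.IM fun y => f (x, y)

private theorem Xii_IM_mono (D : Dat P H) (f g : P × H → ℝ≥0∞) (h : ∀ x, f x ≤ g x) :
    D.IM f ≤ D.IM g := lintegral_mono fun x => mul_le_mul_right (h x) _

private theorem Xii_IM_cmul (D : Dat P H) (k : ℝ≥0∞) (hk : k ≠ ∞) (f : P × H → ℝ≥0∞) :
    D.IM (fun x => k * f x) = k * D.IM f := by
  unfold Dat.IM
  rw [← lintegral_const_mul' _ _ hk]
  exact lintegral_congr fun y => by ring

private theorem Xii_I_add (D : Dat P H) [SFinite D.μ] (hχ : Measurable D.χ)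
    (f g : (P × H) × (P × H) → ℝ≥0∞) (hf : Measurable f) :
    Xii_I D (fun q => f q + g q) = Xii_I D f + Xii_I D g := by
  unfold Xii_I Dat.IM
  have h1 : ∀ x, ∫⁻ y, D.χ y * (f (x, y) + g (x, y)) ∂D.μ =
      ∫⁻ y, D.χ y * f (x, y) ∂D.μ + ∫⁻ y, D.χ y * g (x, y) ∂D.μ := by
    intro x
    have hm : Measurable fun y => D.χ y * f (x, y) :=
      hχ.mul (hf.comp (measurable_const.prodMk measurable_id))
    rw [← lintegral_add_left hm]
    exact lintegral_congr fun y => mul_add _ _ _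
  have h2 : ∀ x, D.χ x * ∫⁻ y, D.χ y * (f (x, y) + g (x, y)) ∂D.μ =
      D.χ x * ∫⁻ y, D.χ y * f (x, y) ∂D.μ + D.χ x * ∫⁻ y, D.χ y * g (x, y) ∂D.μ := by
    intro x
    rw [h1, mul_add]
  rw [lintegral_congr h2]
  apply lintegral_add_left
  apply hχ.mul
  exact Measurable.lintegral_prod_right' (f := fun q : (P × H) × (P × H) => D.χ q.2 * f q)
    ((hχ.comp measurable_snd).mul hf)

private theorem Xii_I_swap (D : Dat P H) [SFinite D.μ] (hχ : Measurable D.χ)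
    (f : (P × H) × (P × H) → ℝ≥0∞) (hf : Measurable f) :
    D.IM (fun z => D.IM fun x => f (x, z)) = Xii_I D f := by
  unfold Xii_I Dat.IM
  have e1 : ∀ z, D.χ z * ∫⁻ x, D.χ x * f (x, z) ∂D.μ = ∫⁻ x, D.χ z * (D.χ x * f (x, z)) ∂D.μ := by
    intro z
    have hm : Measurable fun x => D.χ x * f (x, z) :=
      hχ.mul (hf.comp (measurable_id.prodMk measurable_const))
    rw [lintegral_const_mul _ hm]
  have e2 : ∀ x, D.χ x * ∫⁻ y, D.χ y * f (x, y) ∂D.μ = ∫⁻ y, D.χ y * (D.χ x * f (x, y)) ∂D.μ := by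
    intro x
    have hm : Measurable fun y => D.χ y * f (x, y) :=
      hχ.mul (hf.comp (measurable_const.prodMk measurable_id))
    rw [← lintegral_const_mul _ hm]
    exact lintegral_congr fun y => by ring
  rw [lintegral_congr e1, lintegral_congr e2]
  apply lintegral_lintegral_swap
  apply Measurable.aemeasurable
  have hs : Measurable fun q : (P × H) × (P × H) => f (q.2, q.1) := hf.comp measurable_swap
  exact (hχ.comp measurable_fst).mul ((hχ.comp measurable_snd).mul hs)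

private theorem Xii_quad (D : Dat P H) [SFinite D.μ] (hχ : Measurable D.χ)
    (f₁ f₂ f₃ f₄ : (P × H) × (P × H) → ℝ≥0∞) (h₁ : Measurable f₁) (h₂ : Measurable f₂)
    (h₃ : Measurable f₃) (B : ℝ≥0∞) (b₁ : Xii_I D f₁ ≤ B) (b₂ : Xii_I D f₂ ≤ B)
    (b₃ : Xii_I D f₃ ≤ B) (b₄ : Xii_I D f₄ ≤ B) :
    Xii_I D (fun q => f₁ q + f₂ q + f₃ q + f₄ q) ≤ 4 * B := by
  rw [Xii_I_add D hχ (fun q => f₁ q + f₂ q + f₃ q) f₄ ((h₁.add h₂).add h₃),
    Xii_I_add D hχ (fun q => f₁ q + f₂ q) f₃ (h₁.add h₂), Xii_I_add D hχ f₁ f₂ h₁]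
  calc Xii_I D f₁ + Xii_I D f₂ + Xii_I D f₃ + Xii_I D f₄ ≤ B + B + B + B :=
        add_le_add (add_le_add (add_le_add b₁ b₂) b₃) b₄
    _ = 4 * B := by ring

private theorem Xii_lp (D : Dat P H) (S S' : Set (P × H)) (hSS : S ⊆ S') (z : P × H)
    (f : D.Γ → ℝ≥0∞) (k C : ℝ≥0∞) (hC : D.lp S' z (fun _ => 1) ≤ C)
    (h : ∀ g : D.Γ, z⁻¹ * (g : P × H) * z ∈ S → f g ≤ k) : D.lp S z f ≤ C * k := by
  refine le_trans ?_ (mul_le_mul_left hC k)
  unfold Dat.lp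
  rw [← ENNReal.tsum_mul_right]
  apply ENNReal.tsum_le_tsum
  intro g
  by_cases hg : z⁻¹ * (g : P × H) * z ∈ S
  · rw [Set.indicator_of_mem hg, Set.indicator_of_mem (hSS hg), one_mul, one_mul, one_mul]
    exact h g hg
  · rw [Set.indicator_of_notMem hg, zero_mul]
    exact zero_le

end two

variable (P H : Type) [Group P] [Group H] [TopologicalSpace P] [TopologicalSpace H]
  [IsTopologicalGroup P] [IsTopologicalGroup H] [LocallyCompactSpace P] [LocallyCompactSpace H]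
  [T2Space P] [T2Space H] [SecondCountableTopology P] [SecondCountableTopology H]
  [MeasurableSpace P] [MeasurableSpace H] [BorelSpace P] [BorelSpace H]

private theorem Xii_num (D : Dat P H) (hD : D.Ok) [SFinite D.μ₂] (n : ℕ) : Measurable (D.nu n) := by
  unfold Dat.nu
  generalize n - 1 = k
  induction k with
  | zero => exact hD.νc.measurable
  | succ k ih =>
    have h1 : Measurable fun p : H × H => D.ν p.2 * D.nuA k (p.2⁻¹ * p.1) :=
      (hD.νc.measurable.comp measurable_snd).mul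
        (ih.comp ((measurable_inv.comp measurable_snd).mul measurable_fst))
    exact Measurable.lintegral_prod_right' (f := fun p : H × H => D.ν p.2 * D.nuA k (p.2⁻¹ * p.1)) h1

private theorem Xii_Oinv (D : Dat P H) (hD : D.Ok) (c : ℕ) (h : H) (hh : h ∈ D.O ^ c) :
    h⁻¹ ∈ D.O ^ c := by
  have h1 : D.O⁻¹ = D.O := by
    ext x
    rw [Set.mem_inv]
    show 0 < D.ν x⁻¹ ↔ 0 < D.ν x
    rw [hD.νi]
  have h2 : (D.O ^ c)⁻¹ = D.O ^ c := by
    rw [← inv_pow, h1]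
  rw [← h2, Set.inv_mem_inv]
  exact hh

theorem tXii : S_inst P H → S_st P H → S_hk P H → S_bd P H → S_base P H → S_Xii P H := by
  intro hinst hst hhk hbd hbase D G M ka kb hcx c
  have hD := hcx.d
  have hG := hcx.g
  obtain ⟨s1, s2, s3, -, -, -, -, -, -⟩ := hinst D hD
  obtain ⟨b, cN, CN, hb, hcN, hCN, hN⟩ := (hbd D G hD hG).1 M hcx.ne hcx.nm
  obtain ⟨Cl, hCl, hlp⟩ := (hbd D G hD hG).2.2.2 c
  obtain ⟨-, C', hC', hT⟩ := hbase D G M ka kb hcx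
  obtain ⟨Ch, hCh, hHk⟩ := hhk D hD c
  have hct : cN ≠ ∞ := by
    have h1 := (hN 1 1).1 (0, 0) 0 b (by norm_num) le_rfl
    have h2 := (hN 1 1).2.2 (0, 0) 0 b (by norm_num)
    exact ((h1.trans h2).trans_lt (lt_top_iff_ne_top.2 hCN)).ne
  have hA : cN⁻¹ * (CN * Ch) ≠ ∞ :=
    ENNReal.mul_ne_top (ENNReal.inv_ne_top.2 hcN.ne') (ENNReal.mul_ne_top hCN hCh)
  refine ⟨Cl * ((cN⁻¹ * (CN * Ch)) * (4 * C')), 3 * (b + 2 * c + 2),
    ENNReal.mul_ne_top hCl (ENNReal.mul_ne_top hA (ENNReal.mul_ne_top (by norm_num) hC')), ?_⟩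
  intro r φ hr hφ a a' e t hat hat' n n' m hn hn' hm
  have hB : ∀ k, G.B k ⊆ G.B (k + 1) := by
    intro k x hx
    have h1 := hG.bm k (Set.mul_mem_mul hx (hG.b1 k))
    rwa [mul_one] at h1
  have hB79 : G.B 7 ⊆ G.B 9 := (hB 7).trans (hB 8)
  have hOm : ∀ (a : Ty) (l : ℕ), G.Om M a (l + 1) ⊆ G.Om M a l := by
    intro a l x hx
    have h1 := hG.om M a l (Set.mul_mem_mul (Set.mul_mem_mul (hG.b1 9) hx) (hG.b1 9))
    rwa [one_mul, mul_one] at h1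
  have hle : ∀ (a : Ty) (i : ℕ) (g : P × H), D.tk (iK (G.Om M a 3)) i g ≤
      D.tk (iK (G.Om M a 2)) i g := by
    intro a i g
    unfold Dat.tk iK
    refine mul_le_mul_left ?_ _
    exact Set.indicator_le_indicator_of_subset (hOm a 2) (fun _ => zero_le) _
  have hone : (1 : P × H) ∈ G.B 9 ×ˢ (D.O ^ c) := ⟨hG.b1 9, Set.one_mem_pow hD.ν1⟩
  have hk : ∀ (a : Ty) (i : ℕ), 1 ≤ i → ∀ g q' : P × H, q' ∈ G.B 9 ×ˢ (D.O ^ c) →
      D.tk (iK (G.Om M a 3)) i g ≤ Ch * D.tk (iK (G.Om M a 2)) (i + 2 * c + 2) (g * q') := by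
    intro a i hi g q' hq'
    have h1 := hHk (G.B 9) (G.Om M a 3) (G.Om M a 2) (fun q hq g hg q' hq' =>
      hG.om M a 2 (Set.mul_mem_mul (Set.mul_mem_mul hq hg) hq')) i hi g 1 q' hone hq'
    rwa [one_mul] at h1
  have hKm : ∀ a k, Measurable (D.tk (iK (G.Om M a 2)) k) := by
    intro a k
    unfold Dat.tk iK
    exact ((measurable_const.indicator (hG.oo M a 2).measurableSet).comp measurable_fst).mul
      ((Xii_num P H D hD k).comp measurable_snd)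
  let G' : Ty → ℕ → Ty → ℕ → Ty → ℕ → (P × H) × (P × H) → ℝ≥0∞ := fun a i a' i' t j q =>
    D.st3 (D.tk (iK (G.Om M a 2)) i) (D.tk (iK (G.Om M a' 2)) i') (D.tk (iK (G.Om M t 2)) j) q.1 q.2
      fun u v w => ab (dl φ u v w)
  have hg : ∀ a i a' i' t j, Measurable (G' a i a' i' t j) := fun a i a' i' t j =>
    (hst D hD).2.1 _ _ _ (hKm a i) (hKm a' i') (hKm t j) _
  have hgB : ∀ a i a' i' t j, PTu a a' t → RG r 0 i → RG r 0 i' → RG r 0 j →
      Xii_I D (G' a i a' i' t j) ≤ C' * D.EE ka r φ := fun a i a' i' t j h h1 h2 h3 =>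
    hT r φ hφ a a' t h i i' j h1 h2 h3
  have hRn : ∀ k, RG r (3 * (b + 2 * c + 2)) k → 1 ≤ k ∧ RG r 0 k ∧ RG r 0 (k + 2 * c + 2) := by
    intro k hk
    have h1 := hk.1
    have h2 := hk.2
    exact ⟨by omega, ⟨by omega, by omega⟩, ⟨by omega, by omega⟩⟩
  obtain ⟨n1, n2, n3⟩ := hRn n hn
  obtain ⟨n1', n2', n3'⟩ := hRn n' hn'
  obtain ⟨m1, m2, m3⟩ := hRn m hm
  have hbr : b + 2 * c + 2 ≤ r := by
    have h1 := hn.1
    have h2 := hn.2
    omega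
  have h2r : RG r 0 (2 * r) := ⟨by omega, by omega⟩
  have h2r' : RG r 0 (2 * r + 2 * c + 2) := ⟨by omega, by omega⟩
  let Q : (P × H) × (P × H) → ℝ≥0∞ := fun q =>
    G' a (n + 2 * c + 2) e m t (2 * r) q + G' a' (n' + 2 * c + 2) e m t (2 * r) q +
      G' a n e m t (2 * r + 2 * c + 2) q + G' a' n' e m t (2 * r + 2 * c + 2) q
  have hQm : Measurable Q := (((hg _ _ _ _ _ _).add (hg _ _ _ _ _ _)).add (hg _ _ _ _ _ _)).add
    (hg _ _ _ _ _ _)
  have hQB : Xii_I D Q ≤ 4 * (C' * D.EE ka r φ) :=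
    Xii_quad D hD.χm _ _ _ _ (hg _ _ _ _ _ _) (hg _ _ _ _ _ _) (hg _ _ _ _ _ _) _
      (hgB _ _ _ _ _ _ hat n3 m2 h2r) (hgB _ _ _ _ _ _ hat' n3' m2 h2r)
      (hgB _ _ _ _ _ _ hat n2 m2 h2r') (hgB _ _ _ _ _ _ hat' n2' m2 h2r')
  have hpt : ∀ (z : P × H) (g : D.Γ), z⁻¹ * (g : P × H) * z ∈ G.B 7 ×ˢ (D.O ^ c) → ∀ x : P × H,
      D.st3 (D.tk (iK (G.Om M a 3)) n) (D.tk (iK (G.Om M a' 3)) n') (D.tk (iK (G.Om M e 3)) m) x z
        (fun u u' v => ab (Dv φ v (u * g) u - Dv φ v (u' * g) u')) ≤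
      (cN⁻¹ * (CN * Ch)) * Q (x, z) := by
    intro z g hgS x
    have hq : z⁻¹ * (g : P × H) * z ∈ G.B 9 ×ˢ (D.O ^ c) := ⟨hB79 hgS.1, hgS.2⟩
    have hq' : z⁻¹ * (g : P × H)⁻¹ * z ∈ G.B 9 ×ˢ (D.O ^ c) := by
      have h1 : z⁻¹ * (g : P × H)⁻¹ * z = (z⁻¹ * (g : P × H) * z)⁻¹ := by group
      rw [h1]
      exact ⟨hG.bi 9 _ hq.1, Xii_Oinv P H D hD c _ hq.2⟩
    have e1 : ∀ u : D.Γ, x⁻¹ * (u : P × H) * z * (z⁻¹ * (g : P × H) * z) =
        x⁻¹ * ((u * g : D.Γ) : P × H) * z := by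
      intro u
      rw [Subgroup.coe_mul]
      group
    have e2 : ∀ u : D.Γ, x⁻¹ * (u : P × H) * z * (z⁻¹ * (g : P × H)⁻¹ * z) =
        x⁻¹ * ((u * g⁻¹ : D.Γ) : P × H) * z := by
      intro u
      rw [Subgroup.coe_mul, Subgroup.coe_inv]
      group
    have k1 : ∀ (a : Ty) (i : ℕ), 1 ≤ i → ∀ u : D.Γ,
        D.tk (iK (G.Om M a 3)) i (x⁻¹ * (u : P × H) * z) ≤
          Ch * D.tk (iK (G.Om M a 2)) (i + 2 * c + 2) (x⁻¹ * ((u * g : D.Γ) : P × H) * z) := by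
      intro a i hi u
      rw [← e1]
      exact hk a i hi _ _ hq
    have k2 : ∀ (a : Ty) (i : ℕ), 1 ≤ i → ∀ u : D.Γ,
        D.tk (iK (G.Om M a 3)) i (x⁻¹ * (u : P × H) * z) ≤
          Ch * D.tk (iK (G.Om M a 2)) (i + 2 * c + 2) (x⁻¹ * ((u * g⁻¹ : D.Γ) : P × H) * z) := by
      intro a i hi u
      rw [← e2]
      exact hk a i hi _ _ hq'
    rw [Xii_st3]
    refine (Xii_abs φ _ _ _ (fun w : D.Γ => D.tk (iK (G.Om M t 3)) (2 * r) (x⁻¹ * (w : P × H) * z))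
      (fun u : D.Γ => D.tk (iK (G.Om M a 2)) (n + 2 * c + 2) (x⁻¹ * (u : P × H) * z))
      (fun u : D.Γ => D.tk (iK (G.Om M a' 2)) (n' + 2 * c + 2) (x⁻¹ * (u : P × H) * z))
      (fun w : D.Γ => D.tk (iK (G.Om M t 2)) (2 * r + 2 * c + 2) (x⁻¹ * (w : P × H) * z))
      cN CN Ch g hcN.ne' hct ((hN x z).2.2 a 3 n (by norm_num))
      ((hN x z).2.2 a' 3 n' (by norm_num)) ((hN x z).1 t 3 (2 * r) (by norm_num) (by omega))
      (k1 a n n1) (k1 a' n' n1') (k2 t (2 * r) (by omega))).trans ?_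
    rw [← mul_assoc CN, ← mul_assoc cN⁻¹]
    refine mul_le_mul_right ?_ _
    simp only [Q, G', Xii_st3]
    refine add_le_add (add_le_add (add_le_add ?_ ?_) ?_) ?_
    · exact Xii_S_mono φ _ _ _ _ _ _ (fun u => le_rfl) (fun u => hle _ _ _) (fun u => hle _ _ _)
    · exact Xii_S_mono φ _ _ _ _ _ _ (fun u => le_rfl) (fun u => hle _ _ _) (fun u => hle _ _ _)
    · exact Xii_S_mono φ _ _ _ _ _ _ (fun u => hle _ _ _) (fun u => hle _ _ _) (fun u => le_rfl)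
    · exact Xii_S_mono φ _ _ _ _ _ _ (fun u => hle _ _ _) (fun u => hle _ _ _) (fun u => le_rfl)
  have hz : ∀ z : P × H, D.lp (G.B 7 ×ˢ (D.O ^ c)) z (fun g => D.IM fun x =>
        D.st3 (D.tk (iK (G.Om M a 3)) n) (D.tk (iK (G.Om M a' 3)) n') (D.tk (iK (G.Om M e 3)) m) x z
          fun u u' v => ab (Dv φ v (u * g) u - Dv φ v (u' * g) u')) ≤
      Cl * ((cN⁻¹ * (CN * Ch)) * D.IM fun x => Q (x, z)) := by
    intro z
    refine Xii_lp D _ (G.B 9 ×ˢ (D.O ^ c)) (Set.prod_mono hB79 subset_rfl) z _ _ _ (hlp z) ?_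
    intro g hgS
    rw [← Xii_IM_cmul D _ hA]
    exact Xii_IM_mono D _ _ fun x => hpt z g hgS x
  refine (Xii_IM_mono D _ _ hz).trans ?_
  rw [Xii_IM_cmul D _ hCl, Xii_IM_cmul D _ hA, Xii_I_swap D hD.χm Q hQm]
  calc Cl * (cN⁻¹ * (CN * Ch) * Xii_I D Q) ≤ Cl * (cN⁻¹ * (CN * Ch) * (4 * (C' * D.EE ka r φ))) :=
        mul_le_mul_right (mul_le_mul_right hQB _) _
    _ = Cl * ((cN⁻¹ * (CN * Ch)) * (4 * C')) * D.EE ka r φ := by ring

end Pool.Agent.MPEF
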