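import Pool.Agent.Lib.MP_ef3f0f_gt.I.Spec

set_option autoImplicit false
set_option linter.unusedSectionVars false

/-! MP_ef3f0f_gt, part I, module base: the basic bound (0.8). -/

namespace Pool.Agent.MPEF

open MeasureTheory Topology
open scoped ENNReal Pointwise

variable (P H : Type) [Group P] [Group H] [TopologicalSpace P] [TopologicalSpace H]
  [IsTopologicalGroup P] [IsTopologicalGroup H] [LocallyCompactSpace P] [LocallyCompactSpace H]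
  [T2Space P] [T2Space H] [SecondCountableTopology P] [SecondCountableTopology H]
  [MeasurableSpace P] [MeasurableSpace H] [BorelSpace P] [BorelSpace H]

private theorem base_IMmono (D : Dat P H) (f g : P × H → ℝ≥0∞) (h : ∀ x, f x ≤ g x) :
    D.IM f ≤ D.IM g := by
  unfold Dat.IM
  exact lintegral_mono fun x => mul_le_mul_right (h x) _

private theorem base_IMc (D : Dat P H) (c : ℝ≥0∞) (hc : c ≠ ∞) (f : P × H → ℝ≥0∞) :
    D.IM (fun x => c * f x) = c * D.IM f := by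
  unfold Dat.IM
  rw [← lintegral_const_mul' c _ hc]
  refine lintegral_congr fun x => ?_
  ring

private theorem base_T3mono (D : Dat P H) (K₁ K₂ K₃ K₁' K₂' K₃' : P × H → ℝ≥0∞)
    (h₁ : ∀ g, K₁ g ≤ K₁' g) (h₂ : ∀ g, K₂ g ≤ K₂' g) (h₃ : ∀ g, K₃ g ≤ K₃' g)
    (Φ : D.Γ → D.Γ → D.Γ → ℝ≥0∞) : D.T3 K₁ K₂ K₃ Φ ≤ D.T3 K₁' K₂' K₃' Φ := by
  unfold Dat.T3
  refine base_IMmono P H D _ _ fun x => base_IMmono P H D _ _ fun y => ?_
  exact ENNReal.tsum_le_tsum fun u => ENNReal.tsum_le_tsum fun v => ENNReal.tsum_le_tsum fun w =>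
    mul_le_mul' (mul_le_mul' (mul_le_mul' (h₁ _) (h₂ _)) (h₃ _)) le_rfl

private theorem base_T3swap (D : Dat P H) (K₁ K₂ K₃ : P × H → ℝ≥0∞)
    (Φ : D.Γ → D.Γ → D.Γ → ℝ≥0∞) (hΦ : ∀ u v w, Φ u v w = Φ v u w) :
    D.T3 K₁ K₂ K₃ Φ = D.T3 K₂ K₁ K₃ Φ := by
  unfold Dat.T3
  congr 1
  funext x
  congr 1
  funext y
  rw [ENNReal.tsum_comm]
  refine tsum_congr fun u => tsum_congr fun v => tsum_congr fun w => ?_
  rw [hΦ v u w, mul_comm (K₁ _) (K₂ _)]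

private theorem base_T3c (D : Dat P H) (c : ℝ≥0∞) (hc : c ≠ ∞) (K₁ K₂ K₃ : P × H → ℝ≥0∞)
    (Φ : D.Γ → D.Γ → D.Γ → ℝ≥0∞) :
    D.T3 (fun g => c * K₁ g) (fun g => c * K₂ g) (fun g => c * K₃ g) Φ =
      c * c * c * D.T3 K₁ K₂ K₃ Φ := by
  have hc3 : c * c * c ≠ ∞ := ENNReal.mul_ne_top (ENNReal.mul_ne_top hc hc) hc
  unfold Dat.T3
  rw [← base_IMc P H D _ hc3]
  congr 1
  funext x
  rw [← base_IMc P H D _ hc3]
  congr 1
  funext y
  rw [← ENNReal.tsum_mul_left]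
  refine tsum_congr fun u => ?_
  rw [← ENNReal.tsum_mul_left]
  refine tsum_congr fun v => ?_
  rw [← ENNReal.tsum_mul_left]
  refine tsum_congr fun w => ?_
  ring

private theorem base_dl {Γ : Type} [Group Γ] (φ : Γ → ℝ) (hφ : OddC φ) (u v w : Γ) :
    ab (dl φ u v w) = ab (dl φ v u w) := by
  have h1 : ∀ a b : Γ, ph φ a b = - ph φ b a := by
    intro a b
    unfold ph
    rw [← hφ.inv]
    congr 1
    group
  have h2 : dl φ u v w = - dl φ v u w := by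
    unfold dl
    rw [h1 u v, h1 v w, h1 w u]
    ring
  unfold ab
  rw [h2, abs_neg]

private theorem base_filter {ι : Type} [Fintype ι] (p : ι → Prop) [DecidablePred p]
    (f : ι → ℝ≥0∞) (t : ι) (h : p t) : f t ≤ ∑ t ∈ Finset.univ.filter p, f t :=
  Finset.single_le_sum (f := f) (fun _ _ => zero_le) (Finset.mem_filter.2 ⟨Finset.mem_univ t, h⟩)

private theorem base_single (f : Ty × Ty × Ty → ℝ≥0∞) (t : Ty × Ty × Ty)
    (h : PT t.1 t.2.1 t.2.2) : f t ≤ ∑ t ∈ PTs, f t := by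
  unfold PTs
  exact base_filter (fun t : Ty × Ty × Ty => PT t.1 t.2.1 t.2.2) f t h

theorem tbase (_ : S_inst P H) : S_base P H := by
  intro D G M ka kb hx
  have key : ∀ r (φ : D.Γ → ℝ), OddC φ → ∀ a b c, PTu a b c → ∀ K₁ K₂ K₃ : P × H → ℝ≥0∞,
      (∀ g, K₁ g ≤ D.wr (ka a) r g) → (∀ g, K₂ g ≤ D.wr (ka b) r g) →
      (∀ g, K₃ g ≤ D.wr (ka c) r g) →
      D.T3 K₁ K₂ K₃ (fun u v w => ab (dl φ u v w)) ≤ D.EE ka r φ := by
    intro r φ hφ a b c habc K₁ K₂ K₃ h₁ h₂ h₃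
    have hs : ∀ a b c : Ty, PT a b c → D.T3 (D.wr (ka a) r) (D.wr (ka b) r) (D.wr (ka c) r)
        (fun u v w => ab (dl φ u v w)) ≤ D.EE ka r φ := by
      intro a b c h
      exact base_single (fun t : Ty × Ty × Ty => D.T3 (D.wr (ka t.1) r)
        (D.wr (ka t.2.1) r) (D.wr (ka t.2.2) r) fun u v w => ab (dl φ u v w)) (a, b, c) h
    refine (base_T3mono P H D K₁ K₂ K₃ _ _ _ h₁ h₂ h₃ _).trans ?_
    rcases habc with h | h
    · exact hs a b c h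
    · rw [base_T3swap P H D _ _ _ _ (fun u v w => base_dl φ hφ u v w)]
      exact hs b a c h
  refine ⟨key, ?_⟩
  obtain ⟨c, hc, hc1⟩ := hx.k.al
  obtain ⟨C₀, hC₀, hC₀1⟩ := hx.k.ab
  have hct : c ≠ ∞ := by
    obtain ⟨g, hg⟩ := hx.ne (0, 0) 2 (by norm_num)
    exact ne_top_of_le_ne_top hC₀ (((hc1 (0, 0)).1 g hg).trans (hC₀1 (0, 0) g).1)
  have hc3 : c * c * c ≠ ∞ := ENNReal.mul_ne_top (ENNReal.mul_ne_top hct hct) hct
  have hc30 : c * c * c ≠ 0 := mul_ne_zero (mul_ne_zero hc.ne' hc.ne') hc.ne'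
  refine ⟨(c * c * c)⁻¹, ENNReal.inv_ne_top.2 hc30, ?_⟩
  intro r φ hφ a₁ a₂ a₃ ha n m l hn hm hl
  have h5 : ∀ (a : Ty) (n : ℕ), RG r 0 n → ∀ g : P × H,
      c * D.tk (iK (G.Om M a 2)) n g ≤ D.wr (ka a) r g := by
    intro a n hn g
    unfold Dat.tk Dat.wr
    have h6 : c * iK (G.Om M a 2) g.1 ≤ ka a g.1 := by
      unfold iK
      by_cases h7 : g.1 ∈ G.Om M a 2
      · rw [Set.indicator_of_mem h7, mul_one]
        exact (hc1 a).1 _ h7
      · rw [Set.indicator_of_notMem h7, mul_zero]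
        exact bot_le
    have h8 : D.nu n g.2 ≤ ∑ n ∈ Finset.Icc r (4 * r), D.nu n g.2 := by
      have h9 : n ∈ Finset.Icc r (4 * r) := Finset.mem_Icc.2 ⟨hn.1, by have := hn.2; omega⟩
      exact Finset.single_le_sum (f := fun n => D.nu n g.2) (fun _ _ => zero_le) h9
    rw [← mul_assoc]
    exact mul_le_mul' h6 h8
  have h6 := key r φ hφ a₁ a₂ a₃ ha (fun g => c * D.tk (iK (G.Om M a₁ 2)) n g)
    (fun g => c * D.tk (iK (G.Om M a₂ 2)) m g) (fun g => c * D.tk (iK (G.Om M a₃ 2)) l g)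
    (h5 a₁ n hn) (h5 a₂ m hm) (h5 a₃ l hl)
  rw [base_T3c P H D c hct] at h6
  calc D.T3 (D.tk (iK (G.Om M a₁ 2)) n) (D.tk (iK (G.Om M a₂ 2)) m) (D.tk (iK (G.Om M a₃ 2)) l)
        (fun u v w => ab (dl φ u v w))
      = (c * c * c)⁻¹ * (c * c * c * D.T3 (D.tk (iK (G.Om M a₁ 2)) n)
          (D.tk (iK (G.Om M a₂ 2)) m) (D.tk (iK (G.Om M a₃ 2)) l)
          (fun u v w => ab (dl φ u v w))) := by
        rw [← mul_assoc, ENNReal.inv_mul_cancel hc30 hc3, one_mul]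
    _ ≤ (c * c * c)⁻¹ * D.EE ka r φ := mul_le_mul_right h6 _

end Pool.Agent.MPEF
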