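import Pool.Agent.Lib.MP_ef3f0f_gt.I.Spec

set_option autoImplicit false
set_option linter.unusedSectionVars false

/-! MP_ef3f0f_gt, part I, module bd: bounds for `N` and the number of loops. -/

namespace Pool.Agent.MPEF

open MeasureTheory Topology
open scoped ENNReal Pointwise

variable (P H : Type) [Group P] [Group H] [TopologicalSpace P] [TopologicalSpace H]
  [IsTopologicalGroup P] [IsTopologicalGroup H] [LocallyCompactSpace P] [LocallyCompactSpace H]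
  [T2Space P] [T2Space H] [SecondCountableTopology P] [SecondCountableTopology H]
  [MeasurableSpace P] [MeasurableSpace H] [BorelSpace P] [BorelSpace H]

private theorem bd_iKm (U : Set P) (hU : IsOpen U) : Measurable (iK U) :=
  measurable_const.indicator hU.measurableSet

private theorem bd_iK1 (U : Set P) (g : P) (hg : g ∈ U) : iK U g = 1 := by
  unfold iK
  exact Set.indicator_of_mem hg _

private theorem bd_iK0 (U : Set P) (g : P) (hg : g ∉ U) : iK U g = 0 := by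
  unfold iK
  exact Set.indicator_of_notMem hg _

private theorem bd_iKle (U : Set P) (g : P) : iK U g ≤ 1 := by
  by_cases h : g ∈ U
  · rw [bd_iK1 P U g h]
  · rw [bd_iK0 P U g h]
    exact bot_le

/-- Lower bound for a translate of a window. -/
private theorem bd_lo (hL : S_Lo P H) (D : Dat P H) (hD : D.Ok) (U : Set P) (hU : IsOpen U)
    (hne : U.Nonempty) : ∃ (b : ℕ) (c : ℝ≥0∞), 1 ≤ b ∧ 0 < c ∧ ∀ (g₀ : P) (x y : P × H) (n : ℕ),
      b ≤ n → c ≤ D.N (D.tk (iK (g₀ • U)) n) x y := by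
  obtain ⟨b, c, hb, hc, h⟩ := hL D hD (iK U) U 1 (bd_iKm P U hU) hU hne one_pos
    (fun g hg => (bd_iK1 P U g hg).ge)
  refine ⟨b, c, hb, hc, fun g₀ x y n hn => ?_⟩
  have h1 := h n hn g₀⁻¹ 1 x y
  have h2 : (fun g => iK U (g₀⁻¹ * g * 1)) = iK (g₀ • U) := by
    funext g
    rw [mul_one]
    by_cases h3 : g ∈ g₀ • U
    · rw [bd_iK1 P _ g h3]
      exact bd_iK1 P U _ (by rwa [Set.mem_smul_set_iff_inv_smul_mem, smul_eq_mul] at h3)
    · rw [bd_iK0 P _ g h3]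
      exact bd_iK0 P U _ (by rwa [Set.mem_smul_set_iff_inv_smul_mem, smul_eq_mul] at h3)
  rw [h2] at h1
  exact h1

/-- Upper bound for a translate of a window. -/
private theorem bd_up (hUp : S_Up P H) (D : Dat P H) (hD : D.Ok) (U : Set P) (hU : IsOpen U)
    (hK : IsCompact (closure U)) : ∃ C : ℝ≥0∞, C ≠ ∞ ∧ ∀ (g₀ : P) (x y : P × H) (n : ℕ),
      D.N (D.tk (iK (g₀ • U)) n) x y ≤ C := by
  obtain ⟨C, hC, h⟩ := hUp D hD (iK U) (bd_iKm P U hU) ⟨1, ENNReal.one_ne_top, bd_iKle P U⟩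
    ⟨closure U, hK, fun g hg => bd_iK0 P U g fun h => hg (subset_closure h)⟩
  refine ⟨C, hC, fun g₀ x y n => ?_⟩
  have h2 : D.N (D.tk (iK (g₀ • U)) n) x y = D.N (D.tk (iK U) n) (x * (g₀, 1)) y := by
    unfold Dat.N
    refine tsum_congr fun u => ?_
    unfold Dat.tk
    have a1 : ((x * (g₀, (1 : H)))⁻¹ * (u : P × H) * y).1 =
        g₀⁻¹ * (x⁻¹ * (u : P × H) * y).1 := by
      simp only [Prod.fst_mul, Prod.fst_inv, mul_inv_rev]
      group
    have a2 : ((x * (g₀, (1 : H)))⁻¹ * (u : P × H) * y).2 = (x⁻¹ * (u : P × H) * y).2 := by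
      simp only [Prod.snd_mul, Prod.snd_inv, mul_one]
    rw [a1, a2]
    congr 1
    by_cases h3 : (x⁻¹ * (u : P × H) * y).1 ∈ g₀ • U
    · rw [bd_iK1 P _ _ h3]
      exact (bd_iK1 P U _ (by rwa [Set.mem_smul_set_iff_inv_smul_mem, smul_eq_mul] at h3)).symm
    · rw [bd_iK0 P _ _ h3]
      exact (bd_iK0 P U _ (by rwa [Set.mem_smul_set_iff_inv_smul_mem, smul_eq_mul] at h3)).symm
  rw [h2]
  exact h n _ _

private theorem bd_one (U : Set P) : (1 : P) • U = U := one_smul P U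

/-- Uniform lower bound for finitely many windows. -/
private theorem bd_loF (hL : S_Lo P H) (D : Dat P H) (hD : D.Ok) (ι : Type) [Fintype ι]
    (U : ι → Set P) (hU : ∀ i, IsOpen (U i)) (hne : ∀ i, (U i).Nonempty) :
    ∃ (b : ℕ) (c : ℝ≥0∞), 1 ≤ b ∧ 0 < c ∧ ∀ (i : ι) (x y : P × H) (n : ℕ),
      b ≤ n → c ≤ D.N (D.tk (iK (U i)) n) x y := by
  choose b c hb hc h using fun i => bd_lo P H hL D hD (U i) (hU i) (hne i)
  refine ⟨∑ i, b i + 1, Finset.univ.inf c, Nat.le_add_left _ _, ?_, fun i x y n hn => ?_⟩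
  · exact (Finset.lt_inf_iff ENNReal.zero_lt_top).2 fun i _ => hc i
  · have h1 : b i ≤ ∑ j, b j := Finset.single_le_sum (fun _ _ => Nat.zero_le _) (Finset.mem_univ i)
    have h2 := h i 1 x y n (by omega)
    rw [bd_one] at h2
    exact (Finset.inf_le (Finset.mem_univ i)).trans h2

private theorem bd_upF (hUp : S_Up P H) (D : Dat P H) (hD : D.Ok) (ι : Type) [Fintype ι]
    (U : ι → Set P) (hU : ∀ i, IsOpen (U i)) (hK : ∀ i, IsCompact (closure (U i))) :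
    ∃ C : ℝ≥0∞, C ≠ ∞ ∧ ∀ (i : ι) (x y : P × H) (n : ℕ), D.N (D.tk (iK (U i)) n) x y ≤ C := by
  choose C hC h using fun i => bd_up P H hUp D hD (U i) (hU i) (hK i)
  refine ⟨∑ i, C i, ENNReal.sum_ne_top.2 fun i _ => hC i, fun i x y n => ?_⟩
  have h2 := h i 1 x y n
  rw [bd_one] at h2
  exact h2.trans (Finset.single_le_sum (f := C) (fun _ _ => bot_le) (Finset.mem_univ i))

theorem tbd (h1 : S_inst P H) (h2 : S_O P H) (h3 : S_nu P H) (h4 : S_Up P H) (h5 : S_Lo P H) :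
    S_bd P H := by
  intro D G hD hG
  have _ := h1
  refine ⟨?_, ?_, ?_, ?_⟩
  · intro M hne hnm
    obtain ⟨b, c, hb, hc, h6⟩ := bd_loF P H h5 D hD ((Ty × Fin 11) ⊕ Ty)
      (fun i => match i with
        | Sum.inl p => G.Om M p.1 p.2.val
        | Sum.inr a => G.Mid M a)
      (fun i => match i with
        | Sum.inl p => hG.oo M p.1 p.2.val
        | Sum.inr a => hG.mo M a)
      (fun i => match i with
        | Sum.inl p => hne p.1 p.2.val (by omega)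
        | Sum.inr a => hnm a)
    obtain ⟨C, hC, h7⟩ := bd_upF P H h4 D hD (Ty × Fin 11) (fun p => G.Om M p.1 p.2.val)
      (fun p => hG.oo M p.1 p.2.val) (fun p => hG.oc M p.1 p.2.val)
    refine ⟨b, c, C, hb, hc, hC, fun x y => ⟨?_, ?_, ?_⟩⟩
    · intro a l n hl hn
      exact h6 (Sum.inl (a, ⟨l, by omega⟩)) x y n hn
    · intro a n hn
      exact h6 (Sum.inr a) x y n hn
    · intro a l n hl
      exact h7 (a, ⟨l, by omega⟩) x y n
  · obtain ⟨b, c, hb, hc, h6⟩ := bd_lo P H h5 D hD (G.B 2) (hG.bo 2) ⟨1, hG.b1 2⟩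
    obtain ⟨C, hC, h7⟩ := bd_up P H h4 D hD (G.B 2) (hG.bo 2) (hG.bc 2)
    exact ⟨b, c, C, hb, hc, hC, fun g₀ x y => ⟨fun n hn => h6 g₀ x y n hn, fun n => h7 g₀ x y n⟩⟩
  · obtain ⟨b, c, hb, hc, h6⟩ := bd_lo P H h5 D hD (G.B 0) (hG.bo 0) ⟨1, hG.b1 0⟩
    exact ⟨b, c, hb, hc, h6⟩
  · intro c
    obtain ⟨o1, o2, o3, o4, o5, o6, o7⟩ := h2 D hD
    obtain ⟨n1, n2, n3, -⟩ := h3 D hD
    obtain ⟨C, hC, h7⟩ := bd_up P H h4 D hD (G.B 9) (hG.bo 9) (hG.bc 9)
    have e1 : ∃ ε : ℝ≥0∞, 0 < ε ∧ ε ≠ ∞ ∧ ∀ h ∈ closure (D.O ^ c), ε ≤ D.nu (c + 1) h := by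
      have a1 : (closure (D.O ^ c)).Nonempty := ⟨1, subset_closure (o2 c)⟩
      obtain ⟨m, hm, hm1⟩ := LowerSemicontinuousOn.exists_isMinOn a1 (o6 c)
        ((n2 (c + 1)).lowerSemicontinuousOn _)
      exact ⟨min (D.nu (c + 1) m) 1, lt_min ((n3 (c + 1) (by omega) m).2 (o5 c hm)) one_pos,
        ne_top_of_le_ne_top ENNReal.one_ne_top (min_le_right _ _),
        fun h hh => (min_le_left _ _).trans (isMinOn_iff.1 hm1 h hh)⟩
    obtain ⟨ε, hε, hεt, e2⟩ := e1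
    refine ⟨ε⁻¹ * C, ENNReal.mul_ne_top (ENNReal.inv_ne_top.2 hε.ne') hC, fun z => ?_⟩
    have e3 : ε ≠ 0 → ∀ g : P × H, (G.B 9 ×ˢ (D.O ^ c)).indicator (fun _ => (1 : ℝ≥0∞)) g ≤
        ε⁻¹ * D.tk (iK (G.B 9)) (c + 1) g := by
      intro hε0 g
      by_cases h8 : g ∈ G.B 9 ×ˢ (D.O ^ c)
      · rw [Set.indicator_of_mem h8]
        unfold Dat.tk
        rw [bd_iK1 P _ _ h8.1, one_mul]
        have h9 : ε ≤ D.nu (c + 1) g.2 := e2 g.2 (subset_closure h8.2)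
        rw [← ENNReal.inv_mul_cancel hε0 hεt]
        exact mul_le_mul_right h9 _
      · rw [Set.indicator_of_notMem h8]
        exact bot_le
    have e4 : D.lp (G.B 9 ×ˢ (D.O ^ c)) z (fun _ => 1) ≤
        ε⁻¹ * D.N (D.tk (iK (G.B 9)) (c + 1)) z z := by
      unfold Dat.lp Dat.N
      rw [← ENNReal.tsum_mul_left]
      refine ENNReal.tsum_le_tsum fun g => ?_
      rw [mul_one]
      exact e3 hε.ne' _
    refine e4.trans (mul_le_mul_right ?_ _)
    have e5 := h7 1 z z (c + 1)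
    rwa [bd_one] at e5

end Pool.Agent.MPEF
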