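import Pool.Agent.Lib.MP_ef3f0f_gt.I.Spec

set_option autoImplicit false

/-! MP_ef3f0f_gt, part I, module dec: the combinatorics of the types. -/

namespace Pool.Agent.MPEF

theorem tdec : S_dec := by
  refine ⟨by decide, by decide, by decide, by decide, by decide, by decide, by decide, by decide,
    by decide, by decide, by decide, by decide, by decide, by decide, by decide, by decide⟩

end Pool.Agent.MPEF
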