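import Pool.Agent.Lib.MP_ef3f0f_gt.I.Spec
import Pool.Agent.Lib.MP_ef3f0f_gt.III.finK

set_option autoImplicit false
set_option linter.unusedSectionVars false

/-! MP_ef3f0f_gt, part I, module fin: finiteness. -/

namespace Pool.Agent.MPEF

open MeasureTheory Topology
open scoped ENNReal Pointwise

variable (P H : Type) [Group P] [Group H] [TopologicalSpace P] [TopologicalSpace H]
  [IsTopologicalGroup P] [IsTopologicalGroup H] [LocallyCompactSpace P] [LocallyCompactSpace H]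
  [T2Space P] [T2Space H] [SecondCountableTopology P] [SecondCountableTopology H]
  [MeasurableSpace P] [MeasurableSpace H] [BorelSpace P] [BorelSpace H]

theorem tfin (h1 : S_inst P H) (h2 : S_nu P H) (_ : S_Up P H) : S_fin P H := by
  intro D hD k₁ k₂ k₃ b₁ b₂ b₃ n m l
  obtain ⟨f1, -, f3⟩ := tfinK P H h1 h2 D hD
  have g := f3 (D.tk k₁ n) (D.tk k₂ m) (D.tk k₃ l) (f1 k₁ n b₁) (f1 k₂ m b₂) (f1 k₃ l b₃)
  refine ⟨fun Φ hΦ => g.2 Φ hΦ, fun Φ hΦ => g.1 Φ hΦ, fun Φ hΦ => ?_⟩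
  obtain ⟨X, hX, hX0⟩ := hD.χK
  obtain ⟨Z, hZ, hZ0⟩ := (f1 k₁ n b₁).supp
  obtain ⟨C, hC, hC1⟩ := (f1 k₁ n b₁).bdd
  have e1 : IsCompact (X * Z * X⁻¹) := (hX.mul hZ).mul hX.inv
  have e2 := hD.disc _ e1
  have e3 : {u : D.Γ | (u : P × H) ∈ X * Z * X⁻¹}.Finite := by
    have h4 : {u : D.Γ | (u : P × H) ∈ X * Z * X⁻¹} =
        (Subtype.val : D.Γ → P × H) ⁻¹' {γ : P × H | γ ∈ D.Γ ∧ γ ∈ X * Z * X⁻¹} := by
      ext u
      exact ⟨fun h => ⟨u.2, h⟩, fun h => h.2⟩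
    rw [h4]
    exact e2.preimage Subtype.val_injective.injOn
  have hB : ∑ u ∈ e3.toFinset, C * Φ u ≠ ∞ :=
    ENNReal.sum_ne_top.2 fun u _ => ENNReal.mul_ne_top hC (hΦ u)
  refine ne_top_of_le_ne_top hB ?_
  have e4 : ∀ x ∈ X, (∑' γ : D.Γ, D.tk k₁ n (x⁻¹ * (γ : P × H) * x) * Φ γ) ≤
      ∑ u ∈ e3.toFinset, C * Φ u := by
    intro x hx
    rw [tsum_eq_sum (s := e3.toFinset)]
    · exact Finset.sum_le_sum fun u _ => mul_le_mul' (hC1 _) le_rfl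
    · intro u hu
      rw [hZ0, zero_mul]
      intro h5
      refine hu ?_
      rw [Set.Finite.mem_toFinset]
      have h6 : (u : P × H) = x * (x⁻¹ * (u : P × H) * x) * x⁻¹ := by group
      show (u : P × H) ∈ X * Z * X⁻¹
      rw [h6]
      exact Set.mul_mem_mul (Set.mul_mem_mul hx h5) (Set.inv_mem_inv.2 hx)
  unfold Dat.II Dat.IM
  have e5 : ∀ x, D.χ x * (∑' γ : D.Γ, D.tk k₁ n (x⁻¹ * (γ : P × H) * x) * Φ γ) ≤
      D.χ x * ∑ u ∈ e3.toFinset, C * Φ u := by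
    intro x
    by_cases h4 : x ∈ X
    · exact mul_le_mul_right (e4 x h4) _
    · rw [hX0 x h4, zero_mul, zero_mul]
  refine (lintegral_mono e5).trans ?_
  rw [lintegral_mul_const _ hD.χm, hD.mass, one_mul]

end Pool.Agent.MPEF
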