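import Pool.Agent.Lib.MP_ef3f0f_gt.I.Spec

set_option autoImplicit false

/-!
MP_ef3f0f_gt, Part I: generators of the lattice (`S_gen`).
-/

namespace Pool.Agent.MPEF

open MeasureTheory Topology
open scoped ENNReal Pointwise

variable (P H : Type) [Group P] [Group H] [TopologicalSpace P] [TopologicalSpace H]
  [IsTopologicalGroup P] [IsTopologicalGroup H] [LocallyCompactSpace P] [LocallyCompactSpace H]
  [T2Space P] [T2Space H] [SecondCountableTopology P] [SecondCountableTopology H]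
  [MeasurableSpace P] [MeasurableSpace H] [BorelSpace P] [BorelSpace H]

private theorem gen_nuA {P H : Type} [Group P] [Group H] [MeasurableSpace P] [MeasurableSpace H]
    (D : Dat P H) (n : ℕ) : ∀ h : H, D.nuA n h ≠ 0 → h ∈ D.O ^ (n + 1) := by
  induction n with
  | zero =>
    intro h hh
    rw [zero_add, pow_one]
    exact pos_iff_ne_zero.2 hh
  | succ n ih =>
    intro h hh
    have h1 : ∃ q : H, D.ν q * D.nuA n (q⁻¹ * h) ≠ 0 := by
      by_contra hcon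
      push Not at hcon
      refine hh ?_
      show ∫⁻ q, D.ν q * D.nuA n (q⁻¹ * h) ∂D.μ₂ = 0
      simp only [hcon, lintegral_zero]
    obtain ⟨q, hq⟩ := h1
    have h2 : q ∈ D.O := pos_iff_ne_zero.2 (left_ne_zero_of_mul hq)
    have h3 := ih _ (right_ne_zero_of_mul hq)
    have h4 : q * (q⁻¹ * h) ∈ D.O * D.O ^ (n + 1) := Set.mul_mem_mul h2 h3
    rw [mul_inv_cancel_left, ← pow_succ'] at h4
    exact h4

set_option linter.unusedSectionVars false in
private theorem gen_cov (hLo : S_Lo P H) (D : Dat P H) (G : Geo P) (hD : D.Ok) (hG : G.Ok) :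
    ∃ b : ℕ, ∀ x y : P × H, ∃ γ : D.Γ, x⁻¹ * (γ : P × H) * y ∈ G.B 2 ×ˢ (D.O ^ b) := by
  classical
  obtain ⟨b, c, hb, hc, h⟩ := hLo D hD ((G.B 2).indicator fun _ => (1 : ℝ≥0∞)) (G.B 2) 1
    (measurable_const.indicator (hG.bo 2).measurableSet) (hG.bo 2) ⟨1, hG.b1 2⟩ one_pos
    (fun g hg => by rw [Set.indicator_of_mem hg])
  refine ⟨b, fun x y => ?_⟩
  have h1 := h b le_rfl 1 1 x y
  have h2 : D.N (D.tk (fun g => (G.B 2).indicator (fun _ => (1 : ℝ≥0∞)) (1 * g * 1)) b) x y ≠ 0 :=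
    (hc.trans_le h1).ne'
  have h3 : ∃ u : D.Γ, D.tk (fun g => (G.B 2).indicator (fun _ => (1 : ℝ≥0∞)) (1 * g * 1)) b
      (x⁻¹ * (u : P × H) * y) ≠ 0 := by
    by_contra hcon
    push Not at hcon
    refine h2 ?_
    unfold Dat.N
    rw [ENNReal.tsum_eq_zero]
    exact hcon
  obtain ⟨u, hu⟩ := h3
  refine ⟨u, ?_⟩
  unfold Dat.tk at hu
  have h4 := left_ne_zero_of_mul hu
  have h5 := right_ne_zero_of_mul hu
  dsimp only at h4
  rw [one_mul, mul_one] at h4
  refine Set.mem_prod.2 ⟨?_, ?_⟩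
  · by_contra hcon
    exact h4 (Set.indicator_of_notMem hcon _)
  · unfold Dat.nu at h5
    have h6 := gen_nuA D (b - 1) _ h5
    rwa [Nat.sub_add_cancel hb] at h6

/-- Generators of the lattice. -/
theorem tgen : S_inst P H → S_O P H → S_Lo P H → S_gen P H := by
  intro _ hO hLo D G hD hG
  obtain ⟨b, hcov⟩ := gen_cov P H hLo D G hD hG
  obtain ⟨-, hO1, hOi, hOm, -, -, -⟩ := hO D hD
  refine ⟨2 * b + 1, fun c hc => ?_⟩
  have hB : ∀ k, G.B k ⊆ G.B (k + 1) := fun k g hg => by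
    have := hG.bm k (Set.mul_mem_mul hg (hG.b1 k))
    rwa [mul_one] at this
  have hB02 : G.B 0 ⊆ G.B 2 := (hB 0).trans (hB 1)
  have hB23 : G.B 2 ⊆ G.B 3 := hB 2
  have hB45 : G.B 4 ⊆ G.B 5 := hB 4
  set S : Set D.Γ := {g : D.Γ | (g : P × H) ∈ G.B 5 ×ˢ (D.O ^ c)} with hS
  -- the induction predicate
  let Q : P × H → Prop := fun z => ∀ δ : D.Γ, z⁻¹ * (δ : P × H) ∈ G.B 2 ×ˢ (D.O ^ b) →
    δ ∈ Subgroup.closure S
  have hQ1 : Q 1 := by
    intro δ hδ
    rw [inv_one, one_mul] at hδ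
    refine Subgroup.subset_closure ?_
    refine Set.mem_prod.2 ⟨?_, ?_⟩
    · exact hB45 (hB 3 (hB23 hδ.1))
    · exact hOm b c (by omega) hδ.2
  have hstep : ∀ z q : P × H, q ∈ G.B 0 ×ˢ D.O → Q z → Q (z * q) := by
    intro z q hq hz δ hδ
    obtain ⟨δ', hδ'⟩ := hcov z 1
    rw [mul_one] at hδ'
    have h1 := hz δ' hδ'
    have h2 : δ'⁻¹ * δ ∈ Subgroup.closure S := by
      refine Subgroup.subset_closure ?_
      have e : ((δ'⁻¹ * δ : D.Γ) : P × H) =
          (z⁻¹ * (δ' : P × H))⁻¹ * q * ((z * q)⁻¹ * (δ : P × H)) := by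
        rw [Subgroup.coe_mul, Subgroup.coe_inv]
        group
      show ((δ'⁻¹ * δ : D.Γ) : P × H) ∈ G.B 5 ×ˢ (D.O ^ c)
      rw [e]
      refine Set.mem_prod.2 ⟨?_, ?_⟩
      · have g1 : (z⁻¹ * (δ' : P × H)).1⁻¹ ∈ G.B 2 := hG.bi 2 _ hδ'.1
        have g2 : (z⁻¹ * (δ' : P × H)).1⁻¹ * q.1 ∈ G.B 3 :=
          hG.bm 2 (Set.mul_mem_mul g1 (hB02 hq.1))
        have g3 : (z⁻¹ * (δ' : P × H)).1⁻¹ * q.1 * ((z * q)⁻¹ * (δ : P × H)).1 ∈ G.B 4 :=
          hG.bm 3 (Set.mul_mem_mul g2 (hB23 hδ.1))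
        exact hB45 g3
      · have g1 : (z⁻¹ * (δ' : P × H)).2⁻¹ ∈ D.O ^ b := hOi b _ hδ'.2
        have g2 : (z⁻¹ * (δ' : P × H)).2⁻¹ * q.2 ∈ D.O ^ (b + 1) := by
          rw [pow_succ]
          exact Set.mul_mem_mul g1 hq.2
        have g3 : (z⁻¹ * (δ' : P × H)).2⁻¹ * q.2 * ((z * q)⁻¹ * (δ : P × H)).2 ∈
            D.O ^ (b + 1 + b) := by
          rw [pow_add _ (b + 1) b]
          exact Set.mul_mem_mul g2 hδ.2
        exact hOm _ c (by omega) g3
    have h3 := (Subgroup.closure S).mul_mem h1 h2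
    rwa [mul_inv_cancel_left] at h3
  have hOone : (1 : H) ∈ D.O := hD.ν1
  have hH : ∀ n : ℕ, ∀ h ∈ D.O ^ n, Q (1, h) := by
    intro n
    induction n with
    | zero =>
      intro h hh
      rw [pow_zero, Set.mem_one] at hh
      rw [hh]
      exact hQ1
    | succ n ih =>
      intro h hh
      rw [pow_succ, Set.mem_mul] at hh
      obtain ⟨h1, hh1, h2, hh2, rfl⟩ := hh
      have := hstep (1, h1) (1, h2) (Set.mem_prod.2 ⟨hG.b1 0, hh2⟩) (ih h1 hh1)
      rwa [Prod.mk_mul_mk, one_mul] at this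
  have hP : ∀ p : P, (∀ z, Q z → Q (z * (p, 1))) ∧ ∀ z, Q z → Q (z * (p⁻¹, 1)) := by
    intro p
    have hp : p ∈ Subgroup.closure (G.B 0) := by
      rw [hG.bg]
      exact Subgroup.mem_top p
    induction hp using Subgroup.closure_induction with
    | mem q hq =>
      exact ⟨fun z hz => hstep z (q, 1) (Set.mem_prod.2 ⟨hq, hOone⟩) hz,
        fun z hz => hstep z (q⁻¹, 1) (Set.mem_prod.2 ⟨hG.bi 0 q hq, hOone⟩) hz⟩
    | one =>
      rw [inv_one]
      have e : ((1 : P), (1 : H)) = 1 := rfl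
      rw [e]
      exact ⟨fun z hz => by rwa [mul_one], fun z hz => by rwa [mul_one]⟩
    | mul x y _ _ hx hy =>
      constructor
      · intro z hz
        have e : z * (x, (1 : H)) * (y, (1 : H)) = z * (x * y, (1 : H)) := by
          rw [mul_assoc]
          congr 1
          exact Prod.ext rfl (one_mul _)
        exact e ▸ hy.1 _ (hx.1 z hz)
      · intro z hz
        have e : z * (y⁻¹, (1 : H)) * (x⁻¹, (1 : H)) = z * ((x * y)⁻¹, (1 : H)) := by
          rw [mul_assoc, mul_inv_rev]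
          congr 1
          exact Prod.ext rfl (one_mul _)
        exact e ▸ hx.2 _ (hy.2 z hz)
    | inv x _ hx =>
      rw [inv_inv]
      exact ⟨hx.2, hx.1⟩
  have hall : ∀ z : P × H, Q z := by
    rintro ⟨p, h⟩
    obtain ⟨n, hn⟩ := hD.νgen h
    have := (hP p).1 _ (hH n h hn)
    rwa [Prod.mk_mul_mk, one_mul, mul_one] at this
  rw [Subgroup.eq_top_iff']
  intro γ
  refine hall (γ : P × H) γ ?_
  rw [inv_mul_cancel]
  exact Set.mem_prod.2 ⟨hG.b1 2, hO1 b⟩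

end Pool.Agent.MPEF
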