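import Pool.Agent.Lib.MP_ef3f0f_gt.I.Spec

set_option autoImplicit false
set_option linter.unusedSectionVars false

/-! MP_ef3f0f_gt, part I, module h: the homomorphism. -/

namespace Pool.Agent.MPEF

open MeasureTheory Topology
open scoped ENNReal Pointwise

private theorem h_ab_add (s t : ℝ) : ab (s + t) ≤ ab s + ab t := by
  unfold ab
  rw [← ENNReal.ofReal_add (abs_nonneg _) (abs_nonneg _)]
  exact ENNReal.ofReal_le_ofReal (abs_add_le _ _)

section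
variable {P H : Type} [Group P] [Group H] [MeasurableSpace P] [MeasurableSpace H]

private theorem h_mono2 {D : Dat P H} {K₁ K₂ K₁' K₂' : P × H → ℝ≥0∞} {x y : P × H}
    {f g : D.Γ → D.Γ → ℝ≥0∞} (h1 : ∀ q, K₁ q ≤ K₁' q) (h2 : ∀ q, K₂ q ≤ K₂' q)
    (h : ∀ u v, f u v ≤ g u v) :
    D.st2 K₁ K₂ x y f ≤ D.st2 K₁' K₂' x y g := by
  unfold Dat.st2
  refine ENNReal.tsum_le_tsum fun u => ENNReal.tsum_le_tsum fun v => ?_
  exact mul_le_mul' (mul_le_mul' (h1 _) (h2 _)) (h _ _)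

private theorem h_add2 {D : Dat P H} {K₁ K₂ : P × H → ℝ≥0∞} {x y : P × H}
    {f g : D.Γ → D.Γ → ℝ≥0∞} :
    D.st2 K₁ K₂ x y (fun u v => f u v + g u v) =
      D.st2 K₁ K₂ x y f + D.st2 K₁ K₂ x y g := by
  unfold Dat.st2
  simp only [mul_add, ENNReal.tsum_add]

private theorem h_const2 {D : Dat P H} {K₁ K₂ : P × H → ℝ≥0∞} {x y : P × H} {t : ℝ≥0∞} :
    D.st2 K₁ K₂ x y (fun _ _ => t) = D.N K₁ x y * D.N K₂ x y * t := by
  unfold Dat.st2 Dat.N
  have e : ∀ u : D.Γ, (∑' v : D.Γ, K₁ (x⁻¹ * (u : P × H) * y) * K₂ (x⁻¹ * (v : P × H) * y) * t) =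
      K₁ (x⁻¹ * (u : P × H) * y) * ((∑' v : D.Γ, K₂ (x⁻¹ * (v : P × H) * y)) * t) := by
    intro u
    rw [← ENNReal.tsum_mul_right, ← ENNReal.tsum_mul_left]
    refine tsum_congr fun v => ?_
    ring
  rw [tsum_congr e, ENNReal.tsum_mul_right]
  ring

private theorem h_IMmono {D : Dat P H} {f g : P × H → ℝ≥0∞} (h : ∀ x, f x ≤ g x) :
    D.IM f ≤ D.IM g :=
  lintegral_mono fun x => mul_le_mul' le_rfl (h x)

private theorem h_IMadd {D : Dat P H} (hχ : Measurable D.χ) {f g : P × H → ℝ≥0∞}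
    (hf : Measurable f) :
    D.IM (fun x => f x + g x) = D.IM f + D.IM g := by
  have e := lintegral_add_left (μ := D.μ) (show Measurable fun x => D.χ x * f x from hχ.mul hf)
    (fun x => D.χ x * g x)
  unfold Dat.IM
  rw [← e]
  refine lintegral_congr fun x => ?_
  ring

omit [Group P] [Group H] in
private theorem h_mx {F : P × H → P × H → ℝ≥0∞}
    (hF : Measurable fun q : (P × H) × (P × H) => F q.1 q.2) (z : P × H) :
    Measurable fun x => F x z :=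
  hF.comp (measurable_id.prodMk measurable_const)

private theorem h_IMm {D : Dat P H} [SFinite D.μ] (hχ : Measurable D.χ)
    {F : P × H → P × H → ℝ≥0∞}
    (hF : Measurable fun q : (P × H) × (P × H) => F q.1 q.2) :
    Measurable fun z => D.IM fun x => F x z := by
  unfold Dat.IM
  exact ((hχ.comp measurable_fst).mul hF).lintegral_prod_left'

private theorem h_tkm {D : Dat P H} (hν : ∀ n, Measurable (D.nu n)) {k : P → ℝ≥0∞}
    (hk : Measurable k) (n : ℕ) : Measurable (D.tk k n) := by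
  unfold Dat.tk
  exact (hk.comp measurable_fst).mul ((hν n).comp measurable_snd)

omit [Group P] in
private theorem h_iKm {S : Set P} (h : MeasurableSet S) :
    Measurable (iK S) :=
  measurable_const.indicator h

end

section
variable {P H : Type} [Group P] [Group H] [TopologicalSpace P] [TopologicalSpace H]
  [IsTopologicalGroup P] [IsTopologicalGroup H] [LocallyCompactSpace P] [LocallyCompactSpace H]
  [T2Space P] [T2Space H] [SecondCountableTopology P] [SecondCountableTopology H]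
  [MeasurableSpace P] [MeasurableSpace H] [BorelSpace P] [BorelSpace H]

private theorem h_Bm {G : Geo P} (h : G.Ok) {k l : ℕ} (hkl : k ≤ l) : G.B k ⊆ G.B l := by
  induction l, hkl using Nat.le_induction with
  | base => exact subset_rfl
  | succ l _ ih => exact ih.trans fun x hx => h.bm l ⟨x, hx, 1, h.b1 l, mul_one x⟩

/-- The covering. -/
private theorem h_cov (hnu : S_nu P H) (hLo : S_Lo P H) (D : Dat P H) (G : Geo P) (hd : D.Ok)
    (hg : G.Ok) : ∃ c₂ : ℕ, 1 ≤ c₂ ∧ ∀ x : P × H, ∃ γ ∈ D.Γ, γ * x ∈ G.B 2 ×ˢ (D.O ^ c₂) := by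
  obtain ⟨b, c, hb, hc, hN⟩ := hLo D hd (iK (G.B 2)) (G.B 2) 1
    (h_iKm (hg.bo 2).measurableSet) (hg.bo 2) ⟨1, hg.b1 2⟩ one_pos (fun s hs => by
      unfold iK
      rw [Set.indicator_of_mem hs])
  refine ⟨b, hb, fun x => ?_⟩
  have h1 := hc.trans_le (hN b le_rfl 1 1 1 x)
  unfold Dat.N at h1
  obtain ⟨u, hu⟩ : ∃ u : D.Γ, D.tk (fun g => iK (G.B 2) (1 * g * 1)) b
      ((1 : P × H)⁻¹ * (u : P × H) * x) ≠ 0 := by
    by_contra hno
    push Not at hno
    exact h1.ne' (ENNReal.tsum_eq_zero.2 hno)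
  refine ⟨u, u.2, ?_⟩
  unfold Dat.tk iK at hu
  have h2 := left_ne_zero_of_mul hu
  have h3 := right_ne_zero_of_mul hu
  have h4 := Set.mem_of_indicator_ne_zero h2
  have h5 := ((hnu D hd).2.2.1 b hb _).1 (pos_iff_ne_zero.2 h3)
  simp only [inv_one, one_mul, mul_one] at h4 h5
  exact ⟨h4, h5⟩

/-- The estimate for one element `g`. -/
private theorem h_g {D : Dat P H} [SFinite D.μ] (hd : D.Ok) {G : Geo P} {c₁ c₂ c₃ : ℕ}
    {M : ℕ} {ka : Ty → P → ℝ≥0∞} {C₁ CN T : ℝ≥0∞} {c₀ r n m : ℕ} {φ F₀ h : D.Γ → ℝ}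
    (hF : F0ok D G M ka c₁ c₂ c₃ C₁ c₀ r φ F₀) (g : D.Γ)
    (hg5 : (g : P × H) ∈ G.B 5 ×ˢ (D.O ^ c₁)) (e : Bool) (j : Fin 16)
    (hv : vst e j) (hn : RG r c₀ n) (hm : RG r c₀ m)
    (hmeas : Measurable fun q : (P × H) × (P × H) =>
      D.st2 (D.tk (iK (G.Om M (0, j) 5)) n) (D.tk (iK (G.Om M (ety e) 5)) m) q.1 q.2
          fun u v => ab (Dv φ v (u * g) u - F₀ g))
    (hN1 : ∀ x z, D.N (D.tk (iK (G.Om M (0, j) 5)) n) x z ≤ CN)
    (hN2 : ∀ x z, D.N (D.tk (iK (G.Om M (ety e) 5)) m) x z ≤ CN)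
    (hT : ab (F₀ g - h g) ≤ T) :
    ∫⁻ z in G.B 2 ×ˢ (D.O ^ c₂),
      (G.B 7 ×ˢ (D.O ^ c₃)).indicator (fun _ => (1 : ℝ≥0∞)) (z⁻¹ * (g : P × H) * z) *
        D.IM (fun x => D.st2 (D.tk (iK (G.Om M (0, j) 5)) n) (D.tk (iK (G.Om M (ety e) 5)) m) x z
          fun u v => ab (Dv φ v (u * g) u - h g)) ∂D.μ ≤
      C₁ * D.EE ka r φ + CN * CN * T * D.μ (G.B 2 ×ˢ (D.O ^ c₂)) := by
  have h1 : ∀ z, (G.B 7 ×ˢ (D.O ^ c₃)).indicator (fun _ => (1 : ℝ≥0∞)) (z⁻¹ * (g : P × H) * z) *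
        D.IM (fun x => D.st2 (D.tk (iK (G.Om M (0, j) 5)) n) (D.tk (iK (G.Om M (ety e) 5)) m) x z
          fun u v => ab (Dv φ v (u * g) u - h g)) ≤
      (G.B 7 ×ˢ (D.O ^ c₃)).indicator (fun _ => (1 : ℝ≥0∞)) (z⁻¹ * (g : P × H) * z) *
        D.IM (fun x => D.st2 (D.tk (iK (G.Om M (0, j) 5)) n) (D.tk (iK (G.Om M (ety e) 5)) m) x z
          fun u v => ab (Dv φ v (u * g) u - F₀ g)) + CN * CN * T := by
    intro z
    have h2 : D.IM (fun x => D.st2 (D.tk (iK (G.Om M (0, j) 5)) n)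
        (D.tk (iK (G.Om M (ety e) 5)) m) x z fun u v => ab (Dv φ v (u * g) u - h g)) ≤
        D.IM (fun x => D.st2 (D.tk (iK (G.Om M (0, j) 5)) n)
          (D.tk (iK (G.Om M (ety e) 5)) m) x z fun u v => ab (Dv φ v (u * g) u - F₀ g)) +
          CN * CN * T := by
      have hx : Measurable fun x => D.st2 (D.tk (iK (G.Om M (0, j) 5)) n)
          (D.tk (iK (G.Om M (ety e) 5)) m) x z fun u v => ab (Dv φ v (u * g) u - F₀ g) :=
        h_mx (F := fun x z => D.st2 (D.tk (iK (G.Om M (0, j) 5)) n)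
          (D.tk (iK (G.Om M (ety e) 5)) m) x z fun u v => ab (Dv φ v (u * g) u - F₀ g)) hmeas z
      calc _ ≤ D.IM (fun x => D.st2 (D.tk (iK (G.Om M (0, j) 5)) n)
            (D.tk (iK (G.Om M (ety e) 5)) m) x z (fun u v => ab (Dv φ v (u * g) u - F₀ g)) +
            D.st2 (D.tk (iK (G.Om M (0, j) 5)) n)
            (D.tk (iK (G.Om M (ety e) 5)) m) x z fun _ _ => T) := by
            refine h_IMmono fun x => ?_
            rw [← h_add2]
            refine h_mono2 (fun _ => le_rfl) (fun _ => le_rfl) fun u v => ?_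
            have e1 : Dv φ v (u * g) u - h g = (Dv φ v (u * g) u - F₀ g) + (F₀ g - h g) := by ring
            rw [e1]
            exact (h_ab_add _ _).trans (add_le_add le_rfl hT)
        _ = D.IM (fun x => D.st2 (D.tk (iK (G.Om M (0, j) 5)) n)
            (D.tk (iK (G.Om M (ety e) 5)) m) x z (fun u v => ab (Dv φ v (u * g) u - F₀ g))) +
            D.IM (fun x => D.st2 (D.tk (iK (G.Om M (0, j) 5)) n)
            (D.tk (iK (G.Om M (ety e) 5)) m) x z fun _ _ => T) := h_IMadd hd.χm hx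
        _ ≤ _ := by
            refine add_le_add le_rfl ?_
            calc _ ≤ D.IM (fun _ => CN * CN * T) := by
                  refine h_IMmono fun x => ?_
                  rw [h_const2]
                  exact mul_le_mul' (mul_le_mul' (hN1 _ _) (hN2 _ _)) le_rfl
              _ = CN * CN * T := by
                  unfold Dat.IM
                  rw [lintegral_mul_const _ hd.χm, hd.mass, one_mul]
    by_cases h3 : z⁻¹ * (g : P × H) * z ∈ G.B 7 ×ˢ (D.O ^ c₃)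
    · rw [Set.indicator_of_mem h3, one_mul, one_mul]
      exact h2
    · rw [Set.indicator_of_notMem h3, zero_mul, zero_mul]
      exact zero_le
  calc _ ≤ ∫⁻ z in G.B 2 ×ˢ (D.O ^ c₂), ((G.B 7 ×ˢ (D.O ^ c₃)).indicator
        (fun _ => (1 : ℝ≥0∞)) (z⁻¹ * (g : P × H) * z) *
        D.IM (fun x => D.st2 (D.tk (iK (G.Om M (0, j) 5)) n) (D.tk (iK (G.Om M (ety e) 5)) m) x z
          fun u v => ab (Dv φ v (u * g) u - F₀ g)) + CN * CN * T) ∂D.μ := lintegral_mono h1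
    _ = _ := lintegral_add_right _ measurable_const
    _ ≤ _ := by
      rw [lintegral_const, Measure.restrict_apply_univ]
      exact add_le_add (hF g hg5 e j n m hv hn hm) le_rfl

end

variable (P H : Type) [Group P] [Group H] [TopologicalSpace P] [TopologicalSpace H]
  [IsTopologicalGroup P] [IsTopologicalGroup H] [LocallyCompactSpace P] [LocallyCompactSpace H]
  [T2Space P] [T2Space H] [SecondCountableTopology P] [SecondCountableTopology H]
  [MeasurableSpace P] [MeasurableSpace H] [BorelSpace P] [BorelSpace H]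

theorem th : S_lin → S_inst P H → S_O P H → S_st P H → S_near P H → S_Lo P H → S_bd P H →
    S_gen P H → S_F0 P H → S_word P H → S_nu P H → S_h P H := by
  intro hlin hinst hO hst hnear hLo hbd hgen hF0 hword hnu D G hd hg c
  classical
  obtain ⟨-, -, hσ, -, hHaar, -, -, -, -⟩ := hinst D hd
  obtain ⟨Oo, O1, Oi, Om, -, Oc, -⟩ := hO D hd
  have νm := (hnu D hd).1
  have Omul : ∀ {m n : ℕ} {a b : H}, a ∈ D.O ^ m → b ∈ D.O ^ n → a * b ∈ D.O ^ (m + n) := by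
    intro m n a b ha hb
    rw [pow_add]
    exact Set.mul_mem_mul ha hb
  obtain ⟨c₂, hc₂, hcov⟩ := h_cov hnu hLo D G hd hg
  obtain ⟨bg, hbg⟩ := hgen D G hd hg
  obtain ⟨c₁, hc₁⟩ : ∃ c₁, c₁ = c + 2 * c₂ + bg := ⟨_, rfl⟩
  obtain ⟨c₃, hc₃⟩ : ∃ c₃, c₃ = c₁ + 2 := ⟨_, rfl⟩
  obtain ⟨S, hS⟩ : ∃ S : Set D.Γ, S = {g : D.Γ | (g : P × H) ∈ G.B 5 ×ˢ (D.O ^ c₁)} := ⟨_, rfl⟩
  have hSfin : S.Finite := by
    have h1 := hd.disc (closure (G.B 5) ×ˢ closure (D.O ^ c₁)) ((hg.bc 5).prod (Oc c₁))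
    refine (h1.preimage (Subtype.val_injective.injOn)).subset ?_
    intro g hgS
    rw [hS] at hgS
    exact ⟨g.2, subset_closure hgS.1, subset_closure hgS.2⟩
  have hSi : ∀ g ∈ S, g⁻¹ ∈ S := by
    intro g hgS
    rw [hS] at hgS ⊢
    exact ⟨hg.bi 5 _ hgS.1, Oi _ _ hgS.2⟩
  have hSg : Subgroup.closure S = ⊤ := by
    rw [hS]
    exact hbg c₁ (by omega)
  obtain ⟨R, hR, CR, hCR, hRh⟩ := hlin D.Γ S hSfin hSi hSg
  obtain ⟨M₀, hM₀⟩ := hword D G hd hg c₁ c₂ c₃ hc₂ hc₃.ge R (fun w hw => by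
    refine ⟨(hR w hw).1, fun g hgw => ?_⟩
    have := (hR w hw).2 g hgw
    rw [hS] at this
    exact this)
  refine ⟨M₀, fun M hM ka kb cx => ?_⟩
  obtain ⟨C₁, c₀F, hC₁, hF⟩ := hF0 D G M ka kb cx c₁ c₂ c₃ hc₃.ge
  obtain ⟨Cw, r₀, hCw, hw⟩ := hM₀ M hM ka kb cx C₁ c₀F hC₁
  obtain ⟨b₁, cm, CN, hb₁, hcm, hCN, hN⟩ := (hbd D G hd hg).1 M cx.ne cx.nm
  obtain ⟨Z, hZ⟩ : ∃ Z : Set (P × H), Z = G.B 2 ×ˢ (D.O ^ c₂) := ⟨_, rfl⟩
  have hZm : MeasurableSet Z := by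
    rw [hZ]
    exact ((hg.bo 2).prod (Oo c₂ hc₂)).measurableSet
  have hZt : D.μ Z ≠ ∞ := by
    have h1 : D.μ (closure (G.B 2) ×ˢ closure (D.O ^ c₂)) ≠ ∞ :=
      ((hg.bc 2).prod (Oc c₂)).measure_lt_top.ne
    refine ne_top_of_le_ne_top h1 (measure_mono ?_)
    rw [hZ]
    exact Set.prod_mono subset_closure subset_closure
  obtain ⟨Sf, hSf⟩ : ∃ Sf : Finset D.Γ, ∀ g, g ∈ Sf ↔ g ∈ S :=
    ⟨hSfin.toFinset, fun g => hSfin.mem_toFinset⟩
  obtain ⟨X, hX⟩ : ∃ X, X = (Sf.card : ℝ≥0∞) *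
    (C₁ + CN * CN * (ENNReal.ofReal CR * Cw) * D.μ Z) + 1 := ⟨_, rfl⟩
  have hXt : X ≠ ∞ := by
    rw [hX]
    refine ENNReal.add_ne_top.2 ⟨ENNReal.mul_ne_top (ENNReal.natCast_ne_top _)
      (ENNReal.add_ne_top.2 ⟨hC₁, ?_⟩), ENNReal.one_ne_top⟩
    exact ENNReal.mul_ne_top (ENNReal.mul_ne_top (ENNReal.mul_ne_top hCN hCN)
      (ENNReal.mul_ne_top ENNReal.ofReal_ne_top hCw)) hZt
  refine ⟨X, c₀F + r₀, hXt, fun r hr φ β hodd hBB => ?_⟩
  by_cases htop : D.EE ka r φ + β = ∞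
  · refine ⟨fun _ => 0, fun _ _ => (add_zero _).symm, fun e j n m _ _ _ => ?_⟩
    rw [htop, ENNReal.mul_top (by rw [hX]; exact (by simp : _ + (1 : ℝ≥0∞) ≠ 0))]
    exact le_top
  obtain ⟨F₀, hF₀⟩ := hF r φ (by omega) hodd
  have hwR := hw r (by omega) φ β hodd hBB F₀ hF₀
  have hYt : Cw * (D.EE ka r φ + β) ≠ ∞ := ENNReal.mul_ne_top hCw htop
  obtain ⟨h, hhom, hhS⟩ := hRh F₀ (Cw * (D.EE ka r φ + β)).toReal (fun w hw' => by
    have := hwR w hw'
    unfold ab at this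
    exact (ENNReal.ofReal_le_iff_le_toReal hYt).1 this)
  have hT : ∀ g ∈ S, ab (F₀ g - h g) ≤ ENNReal.ofReal CR * Cw * (D.EE ka r φ + β) := by
    intro g hgS
    unfold ab
    refine (ENNReal.ofReal_le_ofReal (hhS g hgS)).trans ?_
    rw [ENNReal.ofReal_mul hCR, ENNReal.ofReal_toReal hYt, mul_assoc]
  refine ⟨h, hhom, fun e j n m hv hn hm => ?_⟩
  have hn' : RG r c₀F n := ⟨hn.1, by have := hn.2; omega⟩
  have hm' : RG r c₀F m := ⟨hm.1, by have := hm.2; omega⟩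
  have hk1 : Measurable (D.tk (iK (G.Om M (0, j) 5)) n) :=
    h_tkm νm (h_iKm (hg.oo M _ 5).measurableSet) n
  have hk2 : Measurable (D.tk (iK (G.Om M (ety e) 5)) m) :=
    h_tkm νm (h_iKm (hg.oo M _ 5).measurableSet) m
  obtain ⟨st1, -, st3, -, st5, -, -, st8⟩ := hst D hd
  obtain ⟨Φ, hΦ⟩ : ∃ Φ : P × H → D.Γ → ℝ≥0∞, ∀ z g, Φ z g = D.IM fun x =>
      D.st2 (D.tk (iK (G.Om M (0, j) 5)) n) (D.tk (iK (G.Om M (ety e) 5)) m) x z
        fun u v => ab (Dv φ v (u * g) u - h g) := ⟨_, fun _ _ => rfl⟩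
  have hΦm : ∀ g, Measurable fun z => Φ z g := by
    intro g
    simp only [hΦ]
    exact h_IMm hd.χm (F := fun x z => D.st2 (D.tk (iK (G.Om M (0, j) 5)) n)
      (D.tk (iK (G.Om M (ety e) 5)) m) x z fun u v => ab (Dv φ v (u * g) u - h g))
      (st1 _ _ hk1 hk2 _)
  have hB3m : MeasurableSet (G.B 3 ×ˢ (D.O ^ c)) := by
    rcases Nat.eq_zero_or_pos c with h0 | h0
    · rw [h0, pow_zero]
      exact (hg.bo 3).measurableSet.prod (measurableSet_singleton (1 : H))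
    · exact ((hg.bo 3).prod (Oo c h0)).measurableSet
  have hgoal : D.IM (fun z => D.lp (G.B 3 ×ˢ (D.O ^ c)) z (Φ z)) ≤
      X * (D.EE ka r φ + β) := by
    have hm1 : Measurable fun z => D.lp (G.B 3 ×ˢ (D.O ^ c)) z (Φ z) :=
      st3 _ hB3m _ hΦm
    have hinv : ∀ γ ∈ D.Γ, ∀ z, D.lp (G.B 3 ×ˢ (D.O ^ c)) (γ * z) (Φ (γ * z)) =
        D.lp (G.B 3 ×ˢ (D.O ^ c)) z (Φ z) := by
      intro γ hγ z
      obtain ⟨γ', hγ'⟩ : ∃ γ' : D.Γ, γ' = ⟨γ, hγ⟩ := ⟨_, rfl⟩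
      have e0 : γ = (γ' : P × H) := by rw [hγ']
      rw [e0, st8]
      congr 1
      funext g
      rw [hΦ, hΦ]
      refine lintegral_congr fun x => ?_
      have e1 := st5 (D.tk (iK (G.Om M (0, j) 5)) n) (D.tk (iK (G.Om M (ety e) 5)) m) x z γ'
        (fun u v => ab (Dv φ v (u * (γ' * g * γ'⁻¹)) u - h (γ' * g * γ'⁻¹)))
      have e2 : (fun u v : D.Γ => ab (Dv φ (v * γ'⁻¹) (u * γ'⁻¹ * (γ' * g * γ'⁻¹)) (u * γ'⁻¹) -
          h (γ' * g * γ'⁻¹))) = fun u v => ab (Dv φ v (u * g) u - h g) := by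
        funext u v
        have e3 : h (γ' * g * γ'⁻¹) = h g := by
          have h1 : h 1 = 0 := by
            have := hhom 1 1
            rw [mul_one] at this
            linarith
          have h2 := hhom γ' γ'⁻¹
          rw [mul_inv_cancel, h1] at h2
          rw [hhom, hhom]
          linarith
        rw [e3]
        simp [Dv, ph, mul_assoc]
      rw [e2] at e1
      exact congrArg (fun t => D.χ x * t) e1
    refine ((hnear D hd).2.2 Z hZm (by rw [hZ]; exact hcov) _ hm1 hinv).trans ?_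
    have hpt : ∀ z ∈ Z, D.lp (G.B 3 ×ˢ (D.O ^ c)) z (Φ z) ≤ ∑ g ∈ Sf,
        (G.B 7 ×ˢ (D.O ^ c₃)).indicator (fun _ => (1 : ℝ≥0∞)) (z⁻¹ * (g : P × H) * z) *
          Φ z g := by
      intro z hz
      rw [hZ] at hz
      have h37 : G.B 3 ×ˢ (D.O ^ c) ⊆ G.B 7 ×ˢ (D.O ^ c₃) :=
        Set.prod_mono (h_Bm hg (by norm_num)) (Om _ _ (by omega))
      unfold Dat.lp
      rw [tsum_eq_sum (s := Sf) (fun g hgS => ?_)]
      · refine Finset.sum_le_sum fun g _ => mul_le_mul' ?_ le_rfl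
        exact Set.indicator_le_indicator_of_subset h37 (fun _ => zero_le) _
      · have h1 : z⁻¹ * (g : P × H) * z ∉ G.B 3 ×ˢ (D.O ^ c) := by
          intro h2
          apply hgS
          rw [hSf, hS]
          have e1 : (g : P × H) = z * (z⁻¹ * (g : P × H) * z) * z⁻¹ := by group
          change (g : P × H) ∈ G.B 5 ×ˢ (D.O ^ c₁)
          rw [e1]
          refine ⟨?_, ?_⟩
          · refine hg.bm 4 (Set.mul_mem_mul (hg.bm 3 (Set.mul_mem_mul ?_ h2.1)) ?_)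
            · exact h_Bm hg (by norm_num) hz.1
            · exact h_Bm hg (by norm_num) (hg.bi 2 _ hz.1)
          · refine Om _ _ ?_ (Omul (Omul hz.2 h2.2) (Oi _ _ hz.2))
            omega
        rw [Set.indicator_of_notMem h1, zero_mul]
    calc ∫⁻ z in Z, D.lp (G.B 3 ×ˢ (D.O ^ c)) z (Φ z) ∂D.μ ≤
          ∫⁻ z in Z, ∑ g ∈ Sf, (G.B 7 ×ˢ (D.O ^ c₃)).indicator (fun _ => (1 : ℝ≥0∞))
            (z⁻¹ * (g : P × H) * z) * Φ z g ∂D.μ := setLIntegral_mono' hZm hpt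
      _ = ∑ g ∈ Sf, ∫⁻ z in Z, (G.B 7 ×ˢ (D.O ^ c₃)).indicator (fun _ => (1 : ℝ≥0∞))
            (z⁻¹ * (g : P × H) * z) * Φ z g ∂D.μ := by
          refine lintegral_finsetSum _ fun g _ => ?_
          have h7 : MeasurableSet (G.B 7 ×ˢ (D.O ^ c₃)) :=
            ((hg.bo 7).prod (Oo c₃ (by omega))).measurableSet
          exact ((measurable_const.indicator h7).comp (by fun_prop)).mul (hΦm g)
      _ ≤ ∑ g ∈ Sf, (C₁ * D.EE ka r φ + CN * CN * (ENNReal.ofReal CR * Cw *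
            (D.EE ka r φ + β)) * D.μ Z) := by
          refine Finset.sum_le_sum fun g hgS => ?_
          rw [hSf] at hgS
          have h5 : (g : P × H) ∈ G.B 5 ×ˢ (D.O ^ c₁) := by
            rw [hS] at hgS
            exact hgS
          have h6 := h_g hd (c₂ := c₂) hF₀ g h5 e j hv hn' hm' (st1 _ _ hk1 hk2 _)
            (fun x z => (hN x z).2.2 _ 5 _ (by norm_num))
            (fun x z => (hN x z).2.2 _ 5 _ (by norm_num)) (hT g hgS)
          rw [hZ]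
          simp only [hΦ]
          exact h6
      _ ≤ X * (D.EE ka r φ + β) := by
          rw [Finset.sum_const, nsmul_eq_mul, hX, add_mul, mul_assoc (Sf.card : ℝ≥0∞)]
          refine le_trans (mul_le_mul' le_rfl ?_) le_self_add
          rw [add_mul]
          refine add_le_add (mul_le_mul' le_rfl le_self_add) (le_of_eq ?_)
          ring
  have hΦf : ∀ z, Φ z = fun g => D.IM fun x =>
      D.st2 (D.tk (iK (G.Om M (0, j) 5)) n) (D.tk (iK (G.Om M (ety e) 5)) m) x z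
        fun u v => ab (Dv φ v (u * g) u - h g) := fun z => funext (hΦ z)
  simp only [hΦf] at hgoal
  exact hgoal

end Pool.Agent.MPEF
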