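import Pool.Agent.Lib.MP_ef3f0f_gt.I.Spec

set_option autoImplicit false

/-! MP_ef3f0f_gt, Part I, module hk: Harnack for the indicator kernels. -/

namespace Pool.Agent.MPEF

open MeasureTheory Topology
open scoped ENNReal Pointwise

variable (P H : Type) [Group P] [Group H] [TopologicalSpace P] [TopologicalSpace H]
  [IsTopologicalGroup P] [IsTopologicalGroup H] [LocallyCompactSpace P] [LocallyCompactSpace H]
  [T2Space P] [T2Space H] [SecondCountableTopology P] [SecondCountableTopology H]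
  [MeasurableSpace P] [MeasurableSpace H] [BorelSpace P] [BorelSpace H]

theorem thk : S_Harn P H → S_hk P H := by
  intro hH D hD c
  obtain ⟨C, hC, hC'⟩ := hH D hD c
  refine ⟨C * C, ENNReal.mul_ne_top hC hC, ?_⟩
  intro Q U U' hQ n hn g q q' hq hq'
  unfold Dat.tk iK
  by_cases hg : g.1 ∈ U
  · have hg' : q.1 * g.1 * q'.1 ∈ U' := hQ _ hq.1 _ hg _ hq'.1
    have e : (q * g * q').1 = q.1 * g.1 * q'.1 := rfl
    have e2 : (q * g * q').2 = q.2 * g.2 * q'.2 := rfl
    rw [Set.indicator_of_mem hg, e, e2, Set.indicator_of_mem hg', one_mul, one_mul]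
    have h1 := (hC' n hn g.2 q.2 hq.2).2
    have h2 := (hC' (n + c + 1) (by omega) (q.2 * g.2) q'.2 hq'.2).1
    calc D.nu n g.2 ≤ C * D.nu (n + c + 1) (q.2 * g.2) := h1
      _ ≤ C * (C * D.nu (n + c + 1 + c + 1) (q.2 * g.2 * q'.2)) := by gcongr
      _ = C * C * D.nu (n + 2 * c + 2) (q.2 * g.2 * q'.2) := by
        rw [mul_assoc C C, show n + c + 1 + c + 1 = n + 2 * c + 2 by ring]
  · rw [Set.indicator_of_notMem hg, zero_mul]
    exact bot_le

end Pool.Agent.MPEF
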