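import Pool.Agent.Lib.MP_ef3f0f_gt.I.Spec

set_option autoImplicit false

/-! MP_ef3f0f_gt, part I, module lin: finite dimensional linear algebra for the relations. -/

namespace Pool.Agent.MPEF

open MeasureTheory Topology
open scoped ENNReal Pointwise

private noncomputable def lin_ev {X : Type} (w : List X) : (X → ℝ) →ₗ[ℝ] ℝ :=
  (w.map fun g => (LinearMap.proj g : (X → ℝ) →ₗ[ℝ] ℝ)).sum

private theorem lin_ev_apply {X : Type} (w : List X) (f : X → ℝ) :
    lin_ev w f = (w.map f).sum := by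
  induction w with
  | nil => simp [lin_ev]
  | cons a w ih =>
    have e : lin_ev (a :: w) = (LinearMap.proj a : (X → ℝ) →ₗ[ℝ] ℝ) + lin_ev w := by
      simp [lin_ev]
    rw [e, LinearMap.add_apply, ih]
    simp

/-- Inverse word. -/
private def lin_iv {Γ : Type} [Group Γ] (S : Set Γ) (hi : ∀ g ∈ S, g⁻¹ ∈ S) (w : List S) : List S :=
  (w.map fun g : S => (⟨(g : Γ)⁻¹, hi g g.2⟩ : S)).reverse

private theorem lin_iv_prod {Γ : Type} [Group Γ] (S : Set Γ) (hi : ∀ g ∈ S, g⁻¹ ∈ S)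
    (w : List S) : ((lin_iv S hi w).map Subtype.val).prod = ((w.map Subtype.val).prod)⁻¹ := by
  induction w with
  | nil => simp [lin_iv]
  | cons a w ih =>
    have e : lin_iv S hi (a :: w) = lin_iv S hi w ++ [⟨(a : Γ)⁻¹, hi a a.2⟩] := by
      simp [lin_iv]
    rw [e, List.map_append, List.prod_append, ih]
    simp

private theorem lin_iv_sum {Γ : Type} [Group Γ] (S : Set Γ) (hi : ∀ g ∈ S, g⁻¹ ∈ S)
    (f : S → ℝ) (hf : ∀ g : S, f ⟨(g : Γ)⁻¹, hi g g.2⟩ = - f g)
    (w : List S) : ((lin_iv S hi w).map f).sum = - (w.map f).sum := by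
  induction w with
  | nil => simp [lin_iv]
  | cons a w ih =>
    have e : lin_iv S hi (a :: w) = lin_iv S hi w ++ [⟨(a : Γ)⁻¹, hi a a.2⟩] := by
      simp [lin_iv]
    rw [e, List.map_append, List.sum_append, ih]
    simp [hf]

private theorem lin_hom {Γ : Type} [Group Γ] (S : Set Γ) (hi : ∀ g ∈ S, g⁻¹ ∈ S)
    (hg : Subgroup.closure S = ⊤) (f : S → ℝ)
    (hf : ∀ w : List S, (w.map Subtype.val).prod = 1 → (w.map f).sum = 0) :
    ∃ h : Γ → ℝ, (∀ x y, h (x * y) = h x + h y) ∧ ∀ g : S, h g = f g := by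
  have ex : ∀ γ : Γ, ∃ w : List S, (w.map Subtype.val).prod = γ := by
    intro γ
    have hγ : γ ∈ Subgroup.closure S := by rw [hg]; trivial
    refine Subgroup.closure_induction
      (p := fun γ _ => ∃ w : List S, (w.map Subtype.val).prod = γ) ?_ ?_ ?_ ?_ hγ
    · intro x hx
      exact ⟨[⟨x, hx⟩], by simp⟩
    · exact ⟨[], by simp⟩
    · rintro x y _ _ ⟨w, rfl⟩ ⟨w', rfl⟩
      exact ⟨w ++ w', by simp⟩
    · rintro x _ ⟨w, rfl⟩
      exact ⟨lin_iv S hi w, lin_iv_prod S hi w⟩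
  have hfi : ∀ g : S, f ⟨(g : Γ)⁻¹, hi g g.2⟩ = - f g := by
    intro g
    have := hf [g, ⟨(g : Γ)⁻¹, hi g g.2⟩] (by simp)
    simp at this
    linarith
  have key : ∀ w w' : List S, (w.map Subtype.val).prod = (w'.map Subtype.val).prod →
      (w.map f).sum = (w'.map f).sum := by
    intro w w' h
    have h1 := hf (w ++ lin_iv S hi w') (by
      rw [List.map_append, List.prod_append, lin_iv_prod, h, mul_inv_cancel])
    rw [List.map_append, List.sum_append, lin_iv_sum S hi f hfi] at h1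
    linarith
  choose W hW using ex
  refine ⟨fun γ => ((W γ).map f).sum, fun x y => ?_, fun g => ?_⟩
  · have h1 := key (W (x * y)) (W x ++ W y) (by
      rw [List.map_append, List.prod_append, hW, hW, hW])
    rw [List.map_append, List.sum_append] at h1
    exact h1
  · have h1 := key (W g) [g] (by rw [hW]; simp)
    simpa using h1

theorem tlin : S_lin := by
  intro Γ _ S hS hi hg
  classical
  have : Finite S := hS
  have : Fintype S := Fintype.ofFinite S
  obtain ⟨Wd, hWd⟩ : ∃ Wd : Set (List S), Wd = {w : List S | (w.map Subtype.val).prod = 1} :=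
    ⟨_, rfl⟩
  have hfg : (Submodule.span ℝ ((fun w : List S => lin_ev w) '' Wd)).FG :=
    IsNoetherian.noetherian _
  obtain ⟨T', hT', hspan⟩ := (Submodule.fg_span_iff_fg_span_finset_subset _).1 hfg
  have hpre : ∀ t : T', ∃ w ∈ Wd, lin_ev w = (t : Module.Dual ℝ (S → ℝ)) := by
    intro t
    obtain ⟨w, hw, e⟩ := hT' t.2
    exact ⟨w, hw, e⟩
  choose wd hwd hev using hpre
  -- the linear map
  obtain ⟨A, hA⟩ : ∃ A : (S → ℝ) →ₗ[ℝ] (T' → ℝ), ∀ f t, A f t = ((wd t).map f).sum :=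
    ⟨LinearMap.pi fun t => lin_ev (wd t), fun f t => by
      rw [LinearMap.pi_apply, lin_ev_apply]⟩
  have hker : ∀ f, A f = 0 → ∀ w ∈ Wd, (w.map f).sum = 0 := by
    intro f hf w hw
    have h1 : lin_ev w ∈ Submodule.span ℝ (T' : Set (Module.Dual ℝ (S → ℝ))) := by
      rw [← hspan]
      exact Submodule.subset_span ⟨w, hw, rfl⟩
    have h2 : Submodule.span ℝ (T' : Set (Module.Dual ℝ (S → ℝ))) ≤
        LinearMap.ker (Module.Dual.eval ℝ (S → ℝ) f) := by
      rw [Submodule.span_le]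
      intro t ht
      have h3 := hA f ⟨t, ht⟩
      rw [hf] at h3
      have h4 := hev ⟨t, ht⟩
      change t f = 0
      have h5 : lin_ev (wd ⟨t, ht⟩) f = t f := by rw [h4]
      rw [← h5, lin_ev_apply, ← h3]
      rfl
    have h3 := h2 h1
    have h4 : lin_ev w f = 0 := h3
    rw [lin_ev_apply] at h4
    exact h4
  obtain ⟨Gi, hGi⟩ := A.rangeRestrict.exists_rightInverse_of_surjective A.range_rangeRestrict
  obtain ⟨Gc, hGc⟩ : ∃ Gc : (LinearMap.range A) →L[ℝ] (S → ℝ), ∀ v, Gc v = Gi v :=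
    ⟨LinearMap.toContinuousLinearMap Gi, fun v => rfl⟩
  refine ⟨insert [] (Finset.univ.image fun t : T' => (wd t).map Subtype.val), ?_, ‖Gc‖,
    Gc.opNorm_nonneg, ?_⟩
  · intro w hw
    rw [Finset.mem_insert, Finset.mem_image] at hw
    rcases hw with rfl | ⟨t, -, rfl⟩
    · simp
    · refine ⟨?_, ?_⟩
      · have := hwd t
        rw [hWd] at this
        exact this
      · intro g hg
        rw [List.mem_map] at hg
        obtain ⟨s, -, rfl⟩ := hg
        exact s.2
  · intro f B hB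
    have hB0 : 0 ≤ B := by
      have := hB [] (Finset.mem_insert_self _ _)
      simpa using this
    obtain ⟨f', hf'⟩ : ∃ f' : S → ℝ, ∀ s, f' s = f s := ⟨fun s => f s, fun s => rfl⟩
    obtain ⟨v, hv⟩ : ∃ v : LinearMap.range A, v = A.rangeRestrict f' := ⟨_, rfl⟩
    have hv1 : (v : T' → ℝ) = A f' := by rw [hv]; rfl
    have hnorm : ‖v‖ ≤ B := by
      have : ‖v‖ = ‖(v : T' → ℝ)‖ := rfl
      rw [this, pi_norm_le_iff_of_nonneg hB0]
      intro t
      rw [hv1, hA, Real.norm_eq_abs]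
      have h1 := hB ((wd t).map Subtype.val) (Finset.mem_insert_of_mem
        (Finset.mem_image_of_mem _ (Finset.mem_univ t)))
      rw [List.map_map] at h1
      have h2 : (wd t).map f' = (wd t).map (f ∘ Subtype.val) := by
        apply List.map_congr_left
        intro s _
        exact hf' s
      rw [h2]
      exact h1
    have hAG : A (Gi v) = v := by
      have h1 : (A.rangeRestrict ∘ₗ Gi) v = v := by rw [hGi]; rfl
      have h2 : ((A.rangeRestrict (Gi v) : LinearMap.range A) : T' → ℝ) = v :=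
        congrArg Subtype.val h1
      exact h2
    have hK : A (f' - Gi v) = 0 := by
      rw [map_sub, hAG, hv1, sub_self]
    obtain ⟨h, hh, hhS⟩ := lin_hom S hi hg (f' - Gi v) (fun w hw => hker _ hK w (by
      rw [hWd]
      exact hw))
    refine ⟨h, hh, fun g hgS => ?_⟩
    have h1 := hhS ⟨g, hgS⟩
    have h2 : f g - h g = Gc v ⟨g, hgS⟩ := by
      rw [hGc]
      have h3 : h g = f' ⟨g, hgS⟩ - Gi v ⟨g, hgS⟩ := h1
      rw [h3, hf']
      ring
    rw [h2, ← Real.norm_eq_abs]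
    calc ‖Gc v ⟨g, hgS⟩‖ ≤ ‖Gc v‖ := norm_le_pi_norm (Gc v) ⟨g, hgS⟩
      _ ≤ ‖Gc‖ * ‖v‖ := Gc.le_opNorm v
      _ ≤ ‖Gc‖ * B := mul_le_mul_of_nonneg_left hnorm Gc.opNorm_nonneg

end Pool.Agent.MPEF
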