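import Pool.Agent.Lib.MP_ef3f0f_gt.I.Spec

set_option autoImplicit false

/-! MP_ef3f0f_gt, Part I, module mean: the mean value lemma. -/

namespace Pool.Agent.MPEF

open MeasureTheory Topology
open scoped ENNReal Pointwise

/-- The mean value lemma for an additive and monotone functional. -/
private theorem mean_abs {ι : Type} (Λ : (ι → ℝ≥0∞) → ℝ≥0∞)
    (hmono : ∀ f g : ι → ℝ≥0∞, (∀ i, f i ≤ g i) → Λ f ≤ Λ g)
    (hadd : ∀ f g : ι → ℝ≥0∞, Λ (fun i => f i + g i) = Λ f + Λ g)
    (hc : ∀ c : ℝ≥0∞, Λ (fun _ => c) = Λ (fun _ => 1) * c)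
    (F : ι → ℝ) (β : ℝ≥0∞) (t : ℝ)
    (hP : Λ (fun i => ENNReal.ofReal (F i)) ≠ ∞) (hQ : Λ (fun i => ENNReal.ofReal (- F i)) ≠ ∞)
    (h1 : Λ (fun i => ENNReal.ofReal (F i)) ≤ Λ (fun i => ENNReal.ofReal (- F i)) + β)
    (h2 : Λ (fun i => ENNReal.ofReal (- F i)) ≤ Λ (fun i => ENNReal.ofReal (F i)) + β) :
    Λ (fun _ => 1) * ab t ≤ Λ (fun i => ab (t - F i)) + β := by
  -- pointwise inequality
  have key : ∀ (s f : ℝ), 0 ≤ s →
      ENNReal.ofReal s + ENNReal.ofReal (-f) ≤ ENNReal.ofReal |s - f| + ENNReal.ofReal f := by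
    intro s f hs
    rcases le_total 0 f with hf | hf
    · rw [ENNReal.ofReal_of_nonpos (by linarith : -f ≤ 0), add_zero,
        ← ENNReal.ofReal_add (abs_nonneg _) hf]
      apply ENNReal.ofReal_le_ofReal
      have := le_abs_self (s - f)
      linarith
    · rw [ENNReal.ofReal_of_nonpos hf, add_zero, ← ENNReal.ofReal_add hs (by linarith)]
      apply ENNReal.ofReal_le_ofReal
      have := le_abs_self (s - f)
      linarith
  have gen : ∀ (G : ι → ℝ) (s : ℝ), 0 ≤ s → Λ (fun i => ENNReal.ofReal (- G i)) ≠ ∞ →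
      Λ (fun i => ENNReal.ofReal (G i)) ≤ Λ (fun i => ENNReal.ofReal (- G i)) + β →
      Λ (fun _ => 1) * ENNReal.ofReal s ≤ Λ (fun i => ENNReal.ofReal |s - G i|) + β := by
    intro G s hs hfin hle
    have h3 : Λ (fun _ => 1) * ENNReal.ofReal s + Λ (fun i => ENNReal.ofReal (- G i)) ≤
        Λ (fun i => ENNReal.ofReal |s - G i|) + Λ (fun i => ENNReal.ofReal (G i)) := by
      rw [← hc, ← hadd, ← hadd]
      exact hmono _ _ fun i => key s (G i) hs
    have h4 : Λ (fun _ => 1) * ENNReal.ofReal s + Λ (fun i => ENNReal.ofReal (- G i)) ≤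
        (Λ (fun i => ENNReal.ofReal |s - G i|) + β) + Λ (fun i => ENNReal.ofReal (- G i)) := by
      refine le_trans h3 (le_trans (add_le_add_right hle _) (le_of_eq ?_))
      ring
    exact (ENNReal.add_le_add_iff_right hfin).1 h4
  unfold ab
  rcases le_total 0 t with ht | ht
  · rw [abs_of_nonneg ht]
    exact gen F t ht hQ h1
  · rw [abs_of_nonpos ht]
    have h5 := gen (fun i => - F i) (-t) (by linarith) (by simpa only [neg_neg] using hP)
      (by simpa only [neg_neg] using h2)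
    refine le_trans h5 (le_of_eq ?_)
    congr 2
    funext i
    congr 1
    rw [← abs_neg]
    congr 1
    ring

variable (P H : Type) [Group P] [Group H] [TopologicalSpace P] [TopologicalSpace H]
  [IsTopologicalGroup P] [IsTopologicalGroup H] [LocallyCompactSpace P] [LocallyCompactSpace H]
  [T2Space P] [T2Space H] [SecondCountableTopology P] [SecondCountableTopology H]
  [MeasurableSpace P] [MeasurableSpace H] [BorelSpace P] [BorelSpace H]

private theorem mean_IM_mono {P H : Type} [Group P] [Group H] [MeasurableSpace P]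
    [MeasurableSpace H] (D : Dat P H) {f g : P × H → ℝ≥0∞} (h : ∀ x, f x ≤ g x) :
    D.IM f ≤ D.IM g := by
  unfold Dat.IM
  exact lintegral_mono fun x => by
    have := h x
    gcongr

private theorem mean_IM_add {P H : Type} [Group P] [Group H] [MeasurableSpace P]
    [MeasurableSpace H] (D : Dat P H) (hχ : Measurable D.χ) {f : P × H → ℝ≥0∞}
    (hf : Measurable f) (g : P × H → ℝ≥0∞) : D.IM (fun x => f x + g x) = D.IM f + D.IM g := by
  have hm : Measurable fun x => D.χ x * f x := hχ.mul hf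
  unfold Dat.IM
  rw [← lintegral_add_left hm]
  simp only [mul_add]

private theorem mean_IM_mul {P H : Type} [Group P] [Group H] [MeasurableSpace P]
    [MeasurableSpace H] (D : Dat P H) (hχ : Measurable D.χ) {f : P × H → ℝ≥0∞}
    (hf : Measurable f) (c : ℝ≥0∞) : D.IM (fun x => f x * c) = D.IM f * c := by
  have hm : Measurable fun x => D.χ x * f x := hχ.mul hf
  unfold Dat.IM
  rw [← lintegral_mul_const c hm]
  simp only [mul_assoc]

private theorem mean_meas_IM {P H : Type} [Group P] [Group H] [MeasurableSpace P]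
    [MeasurableSpace H] (D : Dat P H) (hχ : Measurable D.χ) [SFinite D.μ]
    {f : P × H → P × H → ℝ≥0∞} (hf : Measurable fun q : (P × H) × (P × H) => f q.1 q.2) :
    Measurable fun x => D.IM (f x) := by
  unfold Dat.IM
  exact Measurable.lintegral_prod_right' (f := fun q : (P × H) × (P × H) => D.χ q.2 * f q.1 q.2)
    ((hχ.comp measurable_snd).mul hf)

variable {P H} in
omit [LocallyCompactSpace P] [LocallyCompactSpace H] [T2Space P] [T2Space H] in
private theorem mean_meas3 (D : Dat P H) [Countable D.Γ] {K₁ K₂ K₃ : P × H → ℝ≥0∞}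
    (h1 : Measurable K₁) (h2 : Measurable K₂) (h3 : Measurable K₃)
    (f : D.Γ → D.Γ → D.Γ → ℝ≥0∞) :
    Measurable fun q : (P × H) × (P × H) => D.st3 K₁ K₂ K₃ q.1 q.2 f := by
  have hm : ∀ (u : P × H), Measurable fun q : (P × H) × (P × H) => q.1⁻¹ * u * q.2 := fun u =>
    (measurable_fst.inv.mul_const u).mul measurable_snd
  unfold Dat.st3
  exact Measurable.tsum fun u => Measurable.tsum fun v =>
    Measurable.tsum fun w =>
      (((h1.comp (hm u)).mul (h2.comp (hm v))).mul (h3.comp (hm w))).mul_const _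

variable {P H} in
omit [LocallyCompactSpace P] [LocallyCompactSpace H] [T2Space P] [T2Space H] in
private theorem mean_meas2 (D : Dat P H) [Countable D.Γ] {K₁ K₂ : P × H → ℝ≥0∞}
    (h1 : Measurable K₁) (h2 : Measurable K₂) (f : D.Γ → D.Γ → ℝ≥0∞) :
    Measurable fun q : (P × H) × (P × H) => D.st2 K₁ K₂ q.1 q.2 f := by
  have hm : ∀ (u : P × H), Measurable fun q : (P × H) × (P × H) => q.1⁻¹ * u * q.2 := fun u =>
    (measurable_fst.inv.mul_const u).mul measurable_snd
  unfold Dat.st2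
  exact Measurable.tsum fun u => Measurable.tsum fun v =>
      ((h1.comp (hm u)).mul (h2.comp (hm v))).mul_const _

variable {P H} in
omit [LocallyCompactSpace P] [LocallyCompactSpace H] [T2Space P] [T2Space H] in
private theorem mean_meas3x (D : Dat P H) [Countable D.Γ] {K₁ K₂ K₃ : P × H → ℝ≥0∞}
    (h1 : Measurable K₁) (h2 : Measurable K₂) (h3 : Measurable K₃)
    (f : D.Γ → D.Γ → D.Γ → ℝ≥0∞) (x : P × H) : Measurable fun y => D.st3 K₁ K₂ K₃ x y f := by
  have hm : ∀ (u : P × H), Measurable fun y : P × H => x⁻¹ * u * y := fun u =>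
    measurable_const_mul _
  unfold Dat.st3
  exact Measurable.tsum fun u => Measurable.tsum fun v => Measurable.tsum fun w =>
      (((h1.comp (hm u)).mul (h2.comp (hm v))).mul (h3.comp (hm w))).mul_const _

variable {P H} in
omit [LocallyCompactSpace P] [LocallyCompactSpace H] [T2Space P] [T2Space H] in
private theorem mean_meas2x (D : Dat P H) [Countable D.Γ] {K₁ K₂ : P × H → ℝ≥0∞}
    (h1 : Measurable K₁) (h2 : Measurable K₂)
    (f : D.Γ → D.Γ → ℝ≥0∞) (x : P × H) : Measurable fun y => D.st2 K₁ K₂ x y f := by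
  have hm : ∀ (u : P × H), Measurable fun y : P × H => x⁻¹ * u * y := fun u =>
    measurable_const_mul _
  unfold Dat.st2
  exact Measurable.tsum fun u => Measurable.tsum fun v =>
      ((h1.comp (hm u)).mul (h2.comp (hm v))).mul_const _

theorem tmean : S_inst P H → S_mean P H := by
  intro hI D hD β t
  obtain ⟨_, _, hσ, hcount, -⟩ := hI D hD
  have hχ := hD.χm
  constructor
  · intro K₁ K₂ K₃ m1 m2 m3 F hP hQ h1 h2
    have hm := mean_meas3 D m1 m2 m3
    have hx := mean_meas3x D m1 m2 m3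
    have T3e : ∀ Φ : D.Γ → D.Γ → D.Γ → ℝ≥0∞, D.T3 K₁ K₂ K₃ Φ =
      D.IM (fun x => D.IM fun y => D.st3 K₁ K₂ K₃ x y Φ) := fun Φ => rfl
    have hmono : ∀ f g : D.Γ × D.Γ × D.Γ → ℝ≥0∞, (∀ i, f i ≤ g i) →
        D.T3 K₁ K₂ K₃ (fun u v w => f (u, v, w)) ≤ D.T3 K₁ K₂ K₃ (fun u v w => g (u, v, w)) := by
      intro f g hfg
      rw [T3e, T3e]
      refine mean_IM_mono D fun x => mean_IM_mono D fun y => ?_
      exact ENNReal.tsum_le_tsum fun u => ENNReal.tsum_le_tsum fun v =>
        ENNReal.tsum_le_tsum fun w => mul_le_mul_right (hfg _) _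
    have hadd : ∀ f g : D.Γ × D.Γ × D.Γ → ℝ≥0∞,
        D.T3 K₁ K₂ K₃ (fun u v w => f (u, v, w) + g (u, v, w)) =
          D.T3 K₁ K₂ K₃ (fun u v w => f (u, v, w)) + D.T3 K₁ K₂ K₃ (fun u v w => g (u, v, w)) := by
      intro f g
      rw [T3e, T3e, T3e,
        ← mean_IM_add D hχ (mean_meas_IM D hχ (hm fun u v w => f (u, v, w)))]
      congr 1
      funext x
      rw [← mean_IM_add D hχ (hx _ x)]
      congr 1
      funext y
      unfold Dat.st3
      simp only [mul_add, ENNReal.tsum_add]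
    have hc : ∀ c : ℝ≥0∞, D.T3 K₁ K₂ K₃ (fun _ _ _ => c) =
        D.T3 K₁ K₂ K₃ (fun _ _ _ => 1) * c := by
      intro c
      rw [T3e, T3e, ← mean_IM_mul D hχ (mean_meas_IM D hχ (hm fun _ _ _ => 1))]
      congr 1
      funext x
      rw [← mean_IM_mul D hχ (hx _ x)]
      congr 1
      funext y
      unfold Dat.st3
      simp only [mul_one, ENNReal.tsum_mul_right]
    exact mean_abs (fun Φ : D.Γ × D.Γ × D.Γ → ℝ≥0∞ => D.T3 K₁ K₂ K₃ fun u v w => Φ (u, v, w))
      hmono hadd hc (fun i => F i.1 i.2.1 i.2.2) β t hP hQ h1 h2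
  · intro K₁ K₂ m1 m2 F hP hQ h1 h2
    have hm := mean_meas2 D m1 m2
    have hx := mean_meas2x D m1 m2
    have T2e : ∀ Φ : D.Γ → D.Γ → ℝ≥0∞, D.T2 K₁ K₂ Φ =
      D.IM (fun x => D.IM fun y => D.st2 K₁ K₂ x y Φ) := fun Φ => rfl
    have hmono : ∀ f g : D.Γ × D.Γ → ℝ≥0∞, (∀ i, f i ≤ g i) →
        D.T2 K₁ K₂ (fun u v => f (u, v)) ≤ D.T2 K₁ K₂ (fun u v => g (u, v)) := by
      intro f g hfg
      rw [T2e, T2e]
      refine mean_IM_mono D fun x => mean_IM_mono D fun y => ?_
      exact ENNReal.tsum_le_tsum fun u => ENNReal.tsum_le_tsum fun v =>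
        mul_le_mul_right (hfg _) _
    have hadd : ∀ f g : D.Γ × D.Γ → ℝ≥0∞,
        D.T2 K₁ K₂ (fun u v => f (u, v) + g (u, v)) =
          D.T2 K₁ K₂ (fun u v => f (u, v)) + D.T2 K₁ K₂ (fun u v => g (u, v)) := by
      intro f g
      rw [T2e, T2e, T2e, ← mean_IM_add D hχ (mean_meas_IM D hχ (hm fun u v => f (u, v)))]
      congr 1
      funext x
      rw [← mean_IM_add D hχ (hx _ x)]
      congr 1
      funext y
      unfold Dat.st2
      simp only [mul_add, ENNReal.tsum_add]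
    have hc : ∀ c : ℝ≥0∞, D.T2 K₁ K₂ (fun _ _ => c) = D.T2 K₁ K₂ (fun _ _ => 1) * c := by
      intro c
      rw [T2e, T2e, ← mean_IM_mul D hχ (mean_meas_IM D hχ (hm fun _ _ => 1))]
      congr 1
      funext x
      rw [← mean_IM_mul D hχ (hx _ x)]
      congr 1
      funext y
      unfold Dat.st2
      simp only [mul_one, ENNReal.tsum_mul_right]
    exact mean_abs (fun Φ : D.Γ × D.Γ → ℝ≥0∞ => D.T2 K₁ K₂ fun u v => Φ (u, v))
      hmono hadd hc (fun i => F i.1 i.2) β t hP hQ h1 h2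

end Pool.Agent.MPEF
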