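import Pool.Agent.Lib.MP_ef3f0f_gt.I.Spec

set_option autoImplicit false
set_option linter.unusedSectionVars false

/-! MP_ef3f0f_gt, part I, module near: moving a vertex. -/

namespace Pool.Agent.MPEF

open MeasureTheory Topology
open scoped ENNReal Pointwise

variable (P H : Type) [Group P] [Group H] [TopologicalSpace P] [TopologicalSpace H]
  [IsTopologicalGroup P] [IsTopologicalGroup H] [LocallyCompactSpace P] [LocallyCompactSpace H]
  [T2Space P] [T2Space H] [SecondCountableTopology P] [SecondCountableTopology H]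
  [MeasurableSpace P] [MeasurableSpace H] [BorelSpace P] [BorelSpace H]

private theorem near_iK1 (U : Set P) (g : P) (hg : g ∈ U) : iK U g = 1 := by
  unfold iK
  exact Set.indicator_of_mem hg _

private theorem near_iK0 (U : Set P) (g : P) (hg : g ∉ U) : iK U g = 0 := by
  unfold iK
  exact Set.indicator_of_notMem hg _

private theorem near_iKle (U : Set P) (g : P) : iK U g ≤ 1 := by
  by_cases h : g ∈ U
  · rw [near_iK1 P U g h]
  · rw [near_iK0 P U g h]
    exact zero_le

private theorem near_IMmono (D : Dat P H) (f g : P × H → ℝ≥0∞) (h : ∀ x, f x ≤ g x) :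
    D.IM f ≤ D.IM g := by
  unfold Dat.IM
  exact lintegral_mono fun x => mul_le_mul_right (h x) _

private theorem near_IMc (D : Dat P H) (c : ℝ≥0∞) (hc : c ≠ ∞) (f : P × H → ℝ≥0∞) :
    D.IM (fun x => c * f x) = c * D.IM f := by
  unfold Dat.IM
  rw [← lintegral_const_mul' c _ hc]
  refine lintegral_congr fun x => ?_
  ring

/-- Unfolding with a kernel: `IM (z ↦ N K x z * f z) = ∫ K q f (x q) dq`. -/
private theorem near_key (h1 : S_inst P H) (hu : S_unf P H) (D : Dat P H) (hD : D.Ok)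
    (K : P × H → ℝ≥0∞) (hK : Measurable K) (f : P × H → ℝ≥0∞) (hf : Measurable f)
    (hi : ∀ γ ∈ D.Γ, ∀ x, f (γ * x) = f x) (x : P × H) :
    D.IM (fun z => D.N K x z * f z) = ∫⁻ q, K q * f (x * q) ∂D.μ := by
  obtain ⟨-, -, -, -, -, iL, -⟩ := h1 D hD
  have e1 : D.IM (fun z => D.N K x z * f z) =
      D.IM (fun z => ∑' γ : D.Γ, (fun z => K (x⁻¹ * z) * f z) ((γ : P × H) * z)) := by
    congr 1
    funext z
    unfold Dat.N
    rw [← ENNReal.tsum_mul_right]
    refine tsum_congr fun γ => ?_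
    show K (x⁻¹ * (γ : P × H) * z) * f z = K (x⁻¹ * ((γ : P × H) * z)) * f ((γ : P × H) * z)
    rw [hi γ γ.2, mul_assoc x⁻¹]
  have hm : Measurable fun z => K (x⁻¹ * z) * f z := (hK.comp (measurable_const_mul x⁻¹)).mul hf
  rw [e1, hu D hD _ hm]
  have e2 := lintegral_mul_left_eq_self (μ := D.μ) (fun z => K (x⁻¹ * z) * f z) x
  rw [← e2]
  refine lintegral_congr fun q => ?_
  rw [inv_mul_cancel_left]

theorem tnear (h1 : S_inst P H) (h2 : S_O P H) (h3 : S_nu P H) (h4 : S_unf P H)
    (h5 : S_Up P H) (h6 : S_Lo P H) : S_near P H := by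
  intro D hD
  obtain ⟨o1, o2, o3, o4, o5, o6, o7⟩ := h2 D hD
  obtain ⟨n1, n2, n3, -, -, -, ⟨Cν, hCν, hCν1⟩, n8⟩ := h3 D hD
  obtain ⟨-, -, -, -, -, iL, -⟩ := h1 D hD
  refine ⟨?_, ?_, ?_⟩
  · intro U hU hU1
    have mU : Measurable (iK U) := measurable_const.indicator hU.measurableSet
    obtain ⟨b, c, hb, hc, hlo⟩ := h6 D hD (iK U) U 1 mU hU ⟨1, hU1⟩ one_pos
      (fun g hg => (near_iK1 P U g hg).ge)
    have mtk : Measurable (D.tk (iK U) b) :=
      (mU.comp measurable_fst).mul ((n1 b).comp measurable_snd)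
    have hc' : (min c 1) ≠ 0 := (lt_min hc one_pos).ne'
    have hc't : (min c 1) ≠ ∞ := ne_top_of_le_ne_top ENNReal.one_ne_top (min_le_right _ _)
    refine ⟨b, (min c 1)⁻¹ * Cν, hb, ENNReal.mul_ne_top (ENNReal.inv_ne_top.2 hc') hCν,
      fun f hf hi x => ?_⟩
    have e0 : ∀ z, min c 1 ≤ D.N (D.tk (iK U) b) x z := by
      intro z
      have e := hlo b le_rfl 1 1 x z
      have e' : (fun g => iK U (1 * g * 1)) = iK U := by
        funext g
        rw [one_mul, mul_one]
      rw [e'] at e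
      exact (min_le_left _ _).trans e
    have hm : MeasurableSet (U ×ˢ (D.O ^ b)) := hU.measurableSet.prod (o1 b hb).measurableSet
    calc D.IM f = (min c 1)⁻¹ * (min c 1 * D.IM f) := by
          rw [← mul_assoc, ENNReal.inv_mul_cancel hc' hc't, one_mul]
      _ = (min c 1)⁻¹ * D.IM (fun z => min c 1 * f z) := by rw [near_IMc P H D _ hc't]
      _ ≤ (min c 1)⁻¹ * D.IM (fun z => D.N (D.tk (iK U) b) x z * f z) :=
          mul_le_mul_right (near_IMmono P H D _ _ fun z => mul_le_mul_left (e0 z) _) _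
      _ = (min c 1)⁻¹ * ∫⁻ q, D.tk (iK U) b q * f (x * q) ∂D.μ := by
          rw [near_key P H h1 h4 D hD _ mtk f hf hi x]
      _ ≤ (min c 1)⁻¹ * (Cν * ∫⁻ q in U ×ˢ (D.O ^ b), f (x * q) ∂D.μ) := by
          refine mul_le_mul_right ?_ _
          rw [← lintegral_const_mul' _ _ hCν, ← lintegral_indicator hm]
          refine lintegral_mono fun q => ?_
          by_cases h7 : q ∈ U ×ˢ (D.O ^ b)
          · rw [Set.indicator_of_mem h7]
            refine mul_le_mul_left ?_ _
            unfold Dat.tk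
            calc iK U q.1 * D.nu b q.2 ≤ 1 * Cν := mul_le_mul' (near_iKle P U _) (hCν1 _ _)
              _ = Cν := one_mul _
          · rw [Set.indicator_of_notMem h7]
            have h8 : D.tk (iK U) b q = 0 := by
              unfold Dat.tk
              by_cases h9 : q.1 ∈ U
              · have h10 : D.nu b q.2 = 0 := by
                  by_contra h11
                  exact h7 ⟨h9, (n3 b hb q.2).1 (pos_iff_ne_zero.2 h11)⟩
                rw [h10, mul_zero]
              · rw [near_iK0 P U _ h9, zero_mul]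
            rw [h8, zero_mul]
      _ = (min c 1)⁻¹ * Cν * ∫⁻ q in U ×ˢ (D.O ^ b), f (x * q) ∂D.μ := (mul_assoc _ _ _).symm
  · intro K hK
    obtain ⟨m, hm⟩ := o7 (Prod.snd '' K) (hK.image continuous_snd)
    have hK1 : IsCompact (Prod.fst '' K) := hK.image continuous_fst
    have mK1 : Measurable (iK (Prod.fst '' K)) :=
      measurable_const.indicator hK1.isClosed.measurableSet
    obtain ⟨C, hC, hC1⟩ := h5 D hD (iK (Prod.fst '' K)) mK1
      ⟨1, ENNReal.one_ne_top, near_iKle P _⟩ ⟨_, hK1, fun g hg => near_iK0 P _ g hg⟩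
    have e1 : ∃ ε : ℝ≥0∞, 0 < ε ∧ ε ≠ ∞ ∧ ∀ h ∈ closure (D.O ^ m), ε ≤ D.nu (m + 1) h := by
      have a1 : (closure (D.O ^ m)).Nonempty := ⟨1, subset_closure (o2 m)⟩
      obtain ⟨p, hp, hp1⟩ := LowerSemicontinuousOn.exists_isMinOn a1 (o6 m)
        ((n2 (m + 1)).lowerSemicontinuousOn _)
      exact ⟨min (D.nu (m + 1) p) 1, lt_min ((n3 (m + 1) (by omega) p).2 (o5 m hp)) one_pos,
        ne_top_of_le_ne_top ENNReal.one_ne_top (min_le_right _ _),
        fun h hh => (min_le_left _ _).trans (isMinOn_iff.1 hp1 h hh)⟩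
    obtain ⟨ε, hε, hεt, e2⟩ := e1
    refine ⟨ε⁻¹ * C, ENNReal.mul_ne_top (ENNReal.inv_ne_top.2 hε.ne') hC, fun f hf hi x => ?_⟩
    have hmK : MeasurableSet K := hK.isClosed.measurableSet
    have mtk : Measurable (D.tk (iK (Prod.fst '' K)) (m + 1)) :=
      (mK1.comp measurable_fst).mul ((n1 (m + 1)).comp measurable_snd)
    calc ∫⁻ q in K, f (x * q) ∂D.μ = ∫⁻ q, K.indicator (fun q => f (x * q)) q ∂D.μ :=
          (lintegral_indicator hmK _).symm
      _ ≤ ∫⁻ q, ε⁻¹ * (D.tk (iK (Prod.fst '' K)) (m + 1) q * f (x * q)) ∂D.μ := by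
          refine lintegral_mono fun q => ?_
          by_cases h7 : q ∈ K
          · rw [Set.indicator_of_mem h7]
            have h8 : 1 ≤ ε⁻¹ * D.tk (iK (Prod.fst '' K)) (m + 1) q := by
              unfold Dat.tk
              have h9 : q.1 ∈ Prod.fst '' K := ⟨q, h7, rfl⟩
              have h10 : q.2 ∈ Prod.snd '' K := ⟨q, h7, rfl⟩
              rw [near_iK1 P _ _ h9, one_mul, ← ENNReal.inv_mul_cancel hε.ne' hεt]
              exact mul_le_mul_right (e2 q.2 (subset_closure (hm h10))) _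
            calc f (x * q) = 1 * f (x * q) := (one_mul _).symm
              _ ≤ ε⁻¹ * D.tk (iK (Prod.fst '' K)) (m + 1) q * f (x * q) := mul_le_mul_left h8 _
              _ = _ := mul_assoc _ _ _
          · rw [Set.indicator_of_notMem h7]
            exact zero_le
      _ = ε⁻¹ * ∫⁻ q, D.tk (iK (Prod.fst '' K)) (m + 1) q * f (x * q) ∂D.μ :=
          lintegral_const_mul' _ _ (ENNReal.inv_ne_top.2 hε.ne')
      _ = ε⁻¹ * D.IM (fun z => D.N (D.tk (iK (Prod.fst '' K)) (m + 1)) x z * f z) := by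
          rw [near_key P H h1 h4 D hD _ mtk f hf hi x]
      _ ≤ ε⁻¹ * D.IM (fun z => C * f z) :=
          mul_le_mul_right (near_IMmono P H D _ _ fun z => mul_le_mul_left (hC1 _ _ _) _) _
      _ = ε⁻¹ * C * D.IM f := by rw [near_IMc P H D C hC, mul_assoc]
  · intro E hE hcov f hf hi
    have e1 : ∀ z, 1 ≤ ∑' γ : D.Γ, E.indicator (fun _ => (1 : ℝ≥0∞)) ((γ : P × H) * z) := by
      intro z
      obtain ⟨γ, hγ, hz⟩ := hcov z
      have h7 := ENNReal.le_tsum (f := fun γ : D.Γ =>
        E.indicator (fun _ => (1 : ℝ≥0∞)) ((γ : P × H) * z)) ⟨γ, hγ⟩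
      refine le_trans ?_ h7
      show 1 ≤ E.indicator (fun _ => (1 : ℝ≥0∞)) (γ * z)
      rw [Set.indicator_of_mem hz]
    calc D.IM f ≤ D.IM (fun z => ∑' γ : D.Γ, (fun z => E.indicator f z) ((γ : P × H) * z)) := by
          refine near_IMmono P H D _ _ fun z => ?_
          have h8 : ∀ γ : D.Γ, E.indicator f ((γ : P × H) * z) =
              E.indicator (fun _ => (1 : ℝ≥0∞)) ((γ : P × H) * z) * f z := by
            intro γ
            by_cases h9 : (γ : P × H) * z ∈ E
            · rw [Set.indicator_of_mem h9, Set.indicator_of_mem h9, one_mul, hi γ γ.2]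
            · rw [Set.indicator_of_notMem h9, Set.indicator_of_notMem h9, zero_mul]
          rw [tsum_congr h8, ENNReal.tsum_mul_right]
          calc f z = 1 * f z := (one_mul _).symm
            _ ≤ _ := mul_le_mul_left (e1 z) _
      _ = ∫⁻ z, E.indicator f z ∂D.μ := h4 D hD _ (hf.indicator hE)
      _ = ∫⁻ z in E, f z ∂D.μ := lintegral_indicator hE _

end Pool.Agent.MPEF
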