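import Pool.Agent.Lib.MP_ef3f0f_gt.I.Spec

set_option autoImplicit false
set_option linter.unusedSectionVars false

/-! MP_ef3f0f_gt, part I, module q1: one step is a small loop. -/

namespace Pool.Agent.MPEF

open MeasureTheory Topology
open scoped ENNReal Pointwise

variable (P H : Type) [Group P] [Group H] [TopologicalSpace P] [TopologicalSpace H]
  [IsTopologicalGroup P] [IsTopologicalGroup H] [LocallyCompactSpace P] [LocallyCompactSpace H]
  [T2Space P] [T2Space H] [SecondCountableTopology P] [SecondCountableTopology H]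
  [MeasurableSpace P] [MeasurableSpace H] [BorelSpace P] [BorelSpace H]

private theorem q1_iKne (U : Set P) (g : P) (h : iK U g ≠ 0) : g ∈ U := by
  by_contra hg
  exact h (by unfold iK; exact Set.indicator_of_notMem hg _)

private theorem q1_iKle (U : Set P) (g : P) : iK U g ≤ 1 := by
  unfold iK
  by_cases hg : g ∈ U
  · rw [Set.indicator_of_mem hg]
  · rw [Set.indicator_of_notMem hg]
    exact zero_le

/-- The loop is small. -/
private theorem q1_loop (hO : S_O P H) (hnu : S_nu P H) (D : Dat P H) (G : Geo P) (hD : D.Ok)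
    (hG : G.Ok) (b : ℕ) (hb : 1 ≤ b) (g₀ : P) (x y : P × H) (h' h : H) (c g : P × H)
    (hh' : D.ν h' ≠ 0) (hh : D.ν h ≠ 0)
    (h1 : D.tk (iK (g₀ • G.B 2)) b ((x * ((1 : P), h'))⁻¹ * c * y) ≠ 0)
    (h2 : D.tk (iK (g₀ • G.B 2)) b (x⁻¹ * (c * g) * (y * ((1 : P), h))) ≠ 0) :
    y⁻¹ * g * y ∈ G.B 3 ×ˢ (D.O ^ (2 * b + 2)) := by
  obtain ⟨-, -, o3, -, -, -, -⟩ := hO D hD
  obtain ⟨-, -, n3, -⟩ := hnu D hD
  unfold Dat.tk at h1 h2
  have a1 := mul_ne_zero_iff.1 h1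
  have a2 := mul_ne_zero_iff.1 h2
  have b1 := q1_iKne P _ _ a1.1
  have b2 := q1_iKne P _ _ a2.1
  have c1 := (n3 b hb _).1 (pos_iff_ne_zero.2 a1.2)
  have c2 := (n3 b hb _).1 (pos_iff_ne_zero.2 a2.2)
  have e : y⁻¹ * g * y = ((x * ((1 : P), h'))⁻¹ * c * y)⁻¹ * ((1 : P), h')⁻¹ *
      (x⁻¹ * (c * g) * (y * ((1 : P), h))) * ((1 : P), h)⁻¹ := by group
  have hO' : h'⁻¹ ∈ D.O := by
    show 0 < D.ν h'⁻¹
    rw [hD.νi]
    exact pos_iff_ne_zero.2 hh'
  have hOh : h⁻¹ ∈ D.O := by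
    show 0 < D.ν h⁻¹
    rw [hD.νi]
    exact pos_iff_ne_zero.2 hh
  constructor
  · rw [e]
    simp only [Prod.fst_mul, Prod.fst_inv, inv_one, mul_one]
    rw [Set.mem_smul_set_iff_inv_smul_mem, smul_eq_mul] at b1 b2
    have e2 : ((x * ((1 : P), h'))⁻¹ * c * y).1⁻¹ * (x⁻¹ * (c * g) * (y * ((1 : P), h))).1 =
        (g₀⁻¹ * ((x * ((1 : P), h'))⁻¹ * c * y).1)⁻¹ *
          (g₀⁻¹ * (x⁻¹ * (c * g) * (y * ((1 : P), h))).1) := by group
    have e3 := hG.bm 2 (Set.mul_mem_mul (hG.bi 2 _ b1) b2)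
    rw [← e2] at e3
    simpa only [Prod.fst_mul, Prod.fst_inv, inv_one, mul_one, mul_inv_rev, one_mul] using e3
  · rw [e]
    have e4 : 2 * b + 2 = b + 1 + b + 1 := by ring
    rw [e4, pow_succ, pow_add, pow_succ]
    show (((x * ((1 : P), h'))⁻¹ * c * y)⁻¹ * ((1 : P), h')⁻¹ *
      (x⁻¹ * (c * g) * (y * ((1 : P), h))) * ((1 : P), h)⁻¹).2 ∈ _
    rw [Prod.snd_mul, Prod.snd_mul, Prod.snd_mul, Prod.snd_inv, Prod.snd_inv, Prod.snd_inv]
    exact Set.mul_mem_mul (Set.mul_mem_mul (Set.mul_mem_mul (o3 b _ c1) hO') c2) hOh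

theorem tq1 (h1 : S_inst P H) (h2 : S_O P H) (h3 : S_nu P H) : S_q1 P H := by
  intro D G hD hG b hb
  obtain ⟨s1, s2, s3, cΓ, -⟩ := h1 D hD
  obtain ⟨n1, -, -, n4, -, n6, ⟨C, hC, hC1⟩, -⟩ := h3 D hD
  refine ⟨C, hC, fun g₀ ψ V x y => ?_⟩
  have mU : Measurable (iK (g₀ • G.B 2)) :=
    measurable_const.indicator ((hG.bo 2).smul g₀).measurableSet
  have mK : Measurable (D.tk (iK (g₀ • G.B 2)) b) :=
    (mU.comp measurable_fst).mul ((n1 b).comp measurable_snd)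
  have nu1 : D.nu 1 = D.ν := rfl
  -- the convolution
  have r1 : ∀ c : P × H, ∫⁻ h', D.ν h' *
      D.tk (iK (g₀ • G.B 2)) b ((x * ((1 : P), h'))⁻¹ * c * y) ∂D.μ₂ =
      D.tk (iK (g₀ • G.B 2)) (b + 1) (x⁻¹ * c * y) := by
    intro c
    unfold Dat.tk
    have e : ∀ p : H, D.ν p * (iK (g₀ • G.B 2) ((x * ((1 : P), p))⁻¹ * c * y).1 *
        D.nu b ((x * ((1 : P), p))⁻¹ * c * y).2) =
        iK (g₀ • G.B 2) (x⁻¹ * c * y).1 * (D.nu 1 p * D.nu b (p⁻¹ * (x⁻¹ * c * y).2)) := by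
      intro p
      have e1 : (x * ((1 : P), p))⁻¹ * c * y = ((1 : P), p⁻¹) * (x⁻¹ * c * y) := by
        rw [mul_inv_rev, Prod.inv_mk, inv_one]
        group
      rw [e1, Prod.fst_mul, Prod.snd_mul, one_mul, nu1]
      ring
    have hme : Measurable fun p : H => D.nu 1 p * D.nu b (p⁻¹ * (x⁻¹ * c * y).2) :=
      (n1 1).mul ((n1 b).comp (measurable_inv.mul_const _))
    rw [lintegral_congr e, lintegral_const_mul _ hme, n6 1 b le_rfl hb, Nat.add_comm 1 b]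
  -- pointwise bound of the inner sum
  have r2 : ∀ h' h : H, D.ν h' * D.ν h * (∑' c : D.Γ, ∑' c' : D.Γ,
      D.tk (iK (g₀ • G.B 2)) b ((x * ((1 : P), h'))⁻¹ * (c : P × H) * y) *
        D.tk (iK (g₀ • G.B 2)) b (x⁻¹ * (c' : P × H) * (y * ((1 : P), h))) *
          ab (ψ c V - ψ c' V)) ≤
      D.ν h * (C * ∑' c : D.Γ, (D.ν h' *
        D.tk (iK (g₀ • G.B 2)) b ((x * ((1 : P), h'))⁻¹ * (c : P × H) * y)) *
          D.lp (G.B 3 ×ˢ (D.O ^ (2 * b + 2))) y fun g => ab (ψ c V - ψ (c * g) V)) := by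
    intro h' h
    have e1 : D.ν h * (C * ∑' c : D.Γ, (D.ν h' *
        D.tk (iK (g₀ • G.B 2)) b ((x * ((1 : P), h'))⁻¹ * (c : P × H) * y)) *
          D.lp (G.B 3 ×ˢ (D.O ^ (2 * b + 2))) y fun g => ab (ψ c V - ψ (c * g) V)) =
        ∑' c : D.Γ, ∑' g : D.Γ, D.ν h * (C * ((D.ν h' *
          D.tk (iK (g₀ • G.B 2)) b ((x * ((1 : P), h'))⁻¹ * (c : P × H) * y)) *
          ((G.B 3 ×ˢ (D.O ^ (2 * b + 2))).indicator (fun _ => (1 : ℝ≥0∞))
            (y⁻¹ * (g : P × H) * y) * ab (ψ c V - ψ (c * g) V)))) := by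
      unfold Dat.lp
      rw [← ENNReal.tsum_mul_left, ← ENNReal.tsum_mul_left]
      refine tsum_congr fun c => ?_
      rw [← ENNReal.tsum_mul_left, ← ENNReal.tsum_mul_left, ← ENNReal.tsum_mul_left]
    rw [e1, ← ENNReal.tsum_mul_left]
    refine ENNReal.tsum_le_tsum fun c => ?_
    rw [← ENNReal.tsum_mul_left, ← (Equiv.mulLeft c).tsum_eq]
    refine ENNReal.tsum_le_tsum fun g => ?_
    rw [Equiv.coe_mulLeft]
    by_cases hh' : D.ν h' = 0
    · rw [hh', zero_mul, zero_mul]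
      exact zero_le
    by_cases hh : D.ν h = 0
    · rw [hh, mul_zero, zero_mul]
      exact zero_le
    by_cases hA : D.tk (iK (g₀ • G.B 2)) b ((x * ((1 : P), h'))⁻¹ * (c : P × H) * y) = 0
    · rw [hA, zero_mul, zero_mul, mul_zero]
      exact zero_le
    have hcg : (((c * g : D.Γ) : P × H)) = (c : P × H) * (g : P × H) := rfl
    by_cases hB : D.tk (iK (g₀ • G.B 2)) b (x⁻¹ * ((c * g : D.Γ) : P × H) *
        (y * ((1 : P), h))) = 0
    · rw [hB, mul_zero, zero_mul, mul_zero]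
      exact zero_le
    have hS := q1_loop P H h2 h3 D G hD hG b hb g₀ x y h' h c g hh' hh hA (by rw [← hcg]; exact hB)
    rw [Set.indicator_of_mem hS, one_mul]
    have hB2 : D.tk (iK (g₀ • G.B 2)) b (x⁻¹ * ((c * g : D.Γ) : P × H) * (y * ((1 : P), h))) ≤
        C := by
      unfold Dat.tk
      calc _ ≤ 1 * C := mul_le_mul' (q1_iKle P _ _) (hC1 _ _)
        _ = C := one_mul _
    calc D.ν h' * D.ν h *
        (D.tk (iK (g₀ • G.B 2)) b ((x * ((1 : P), h'))⁻¹ * (c : P × H) * y) *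
          D.tk (iK (g₀ • G.B 2)) b (x⁻¹ * ((c * g : D.Γ) : P × H) * (y * ((1 : P), h))) *
            ab (ψ c V - ψ (c * g) V))
        ≤ D.ν h' * D.ν h *
        (D.tk (iK (g₀ • G.B 2)) b ((x * ((1 : P), h'))⁻¹ * (c : P × H) * y) * C *
            ab (ψ c V - ψ (c * g) V)) :=
          mul_le_mul_right (mul_le_mul_left (mul_le_mul_right hB2 _) _) _
      _ = _ := by ring
  -- integrate
  unfold Dat.q1
  have m1 : ∀ c : P × H, Measurable fun h' : H => D.ν h' *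
      D.tk (iK (g₀ • G.B 2)) b ((x * ((1 : P), h'))⁻¹ * c * y) := by
    intro c
    have hc : Continuous fun h' : H => (x * ((1 : P), h'))⁻¹ * c * y :=
      ((continuous_const.mul (continuous_const.prodMk continuous_id)).inv.mul
        continuous_const).mul continuous_const
    exact hD.νc.measurable.mul (mK.comp hc.measurable)
  calc ∫⁻ h', ∫⁻ h, D.ν h' * D.ν h * (∑' c : D.Γ, ∑' c' : D.Γ,
      D.tk (iK (g₀ • G.B 2)) b ((x * ((1 : P), h'))⁻¹ * (c : P × H) * y) *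
        D.tk (iK (g₀ • G.B 2)) b (x⁻¹ * (c' : P × H) * (y * ((1 : P), h))) *
          ab (ψ c V - ψ c' V)) ∂D.μ₂ ∂D.μ₂
      ≤ ∫⁻ h', ∫⁻ h, D.ν h * (C * ∑' c : D.Γ, (D.ν h' *
        D.tk (iK (g₀ • G.B 2)) b ((x * ((1 : P), h'))⁻¹ * (c : P × H) * y)) *
          D.lp (G.B 3 ×ˢ (D.O ^ (2 * b + 2))) y fun g => ab (ψ c V - ψ (c * g) V))
          ∂D.μ₂ ∂D.μ₂ := lintegral_mono fun h' => lintegral_mono fun h => r2 h' h
    _ = ∫⁻ h', C * ∑' c : D.Γ, (D.ν h' *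
        D.tk (iK (g₀ • G.B 2)) b ((x * ((1 : P), h'))⁻¹ * (c : P × H) * y)) *
          D.lp (G.B 3 ×ˢ (D.O ^ (2 * b + 2))) y (fun g => ab (ψ c V - ψ (c * g) V)) ∂D.μ₂ := by
        refine lintegral_congr fun h' => ?_
        rw [lintegral_mul_const _ hD.νc.measurable, hD.νint, one_mul]
    _ = C * ∑' c : D.Γ, D.tk (iK (g₀ • G.B 2)) (b + 1) (x⁻¹ * (c : P × H) * y) *
          D.lp (G.B 3 ×ˢ (D.O ^ (2 * b + 2))) y (fun g => ab (ψ c V - ψ (c * g) V)) := by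
        rw [lintegral_const_mul' _ _ hC, lintegral_tsum fun c : D.Γ =>
          ((m1 c).mul_const _).aemeasurable]
        congr 1
        refine tsum_congr fun c => ?_
        rw [lintegral_mul_const _ (m1 c), r1]

end Pool.Agent.MPEF
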