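import Pool.Agent.Lib.MP_ef3f0f_gt.I.Spec

set_option autoImplicit false
set_option linter.unusedSectionVars false

/-! MP_ef3f0f_gt, part I, module st: measurability and invariance of the star sums. -/

namespace Pool.Agent.MPEF

open MeasureTheory Topology
open scoped ENNReal Pointwise

variable (P H : Type) [Group P] [Group H] [TopologicalSpace P] [TopologicalSpace H]
  [IsTopologicalGroup P] [IsTopologicalGroup H] [LocallyCompactSpace P] [LocallyCompactSpace H]
  [T2Space P] [T2Space H] [SecondCountableTopology P] [SecondCountableTopology H]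
  [MeasurableSpace P] [MeasurableSpace H] [BorelSpace P] [BorelSpace H]

private theorem st_meas1 (K : P × H → ℝ≥0∞) (hK : Measurable K) (u : P × H) :
    Measurable fun q : (P × H) × (P × H) => K (q.1⁻¹ * u * q.2) := by
  refine hK.comp ?_
  have h1 : Continuous fun q : (P × H) × (P × H) => q.1⁻¹ * u * q.2 :=
    ((continuous_fst.inv).mul continuous_const).mul continuous_snd
  exact h1.measurable

private theorem st_L (Γ : Subgroup (P × H)) (f : Γ → ℝ≥0∞) (γ : Γ) :
    ∑' u : Γ, f u = ∑' u : Γ, f (γ * u) :=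
  ((Equiv.mulLeft γ).tsum_eq f).symm

private theorem st_R (Γ : Subgroup (P × H)) (f : Γ → ℝ≥0∞) (γ : Γ) :
    ∑' u : Γ, f u = ∑' u : Γ, f (u * γ) :=
  ((Equiv.mulRight γ).tsum_eq f).symm

private theorem st_l (Γ : Subgroup (P × H)) (x y : P × H) (γ u : Γ) :
    ((γ : P × H) * x)⁻¹ * ((γ * u : Γ) : P × H) * y = x⁻¹ * (u : P × H) * y := by
  push_cast
  group

private theorem st_r (Γ : Subgroup (P × H)) (x y : P × H) (γ u : Γ) :
    x⁻¹ * ((u * γ⁻¹ : Γ) : P × H) * ((γ : P × H) * y) = x⁻¹ * (u : P × H) * y := by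
  push_cast
  group

theorem tst (h1 : S_inst P H) : S_st P H := by
  intro D hD
  obtain ⟨-, -, -, cΓ, -⟩ := h1 D hD
  refine ⟨?_, ?_, ?_, ?_, ?_, ?_, ?_, ?_⟩
  · intro K₁ K₂ m₁ m₂ f
    unfold Dat.st2
    refine Measurable.ennreal_tsum fun u => Measurable.ennreal_tsum fun v => ?_
    exact ((st_meas1 P H K₁ m₁ u).mul (st_meas1 P H K₂ m₂ v)).mul_const _
  · intro K₁ K₂ K₃ m₁ m₂ m₃ f
    unfold Dat.st3
    refine Measurable.ennreal_tsum fun u => Measurable.ennreal_tsum fun v =>
      Measurable.ennreal_tsum fun w => ?_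
    exact (((st_meas1 P H K₁ m₁ u).mul (st_meas1 P H K₂ m₂ v)).mul
      (st_meas1 P H K₃ m₃ w)).mul_const _
  · intro S hS f hf
    unfold Dat.lp
    refine Measurable.ennreal_tsum fun g => ?_
    have h2 : Measurable fun z : P × H =>
        S.indicator (fun _ => (1 : ℝ≥0∞)) (z⁻¹ * (g : P × H) * z) := by
      refine (measurable_const.indicator hS).comp ?_
      have h3 : Continuous fun z : P × H => z⁻¹ * (g : P × H) * z :=
        (continuous_inv.mul continuous_const).mul continuous_id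
      exact h3.measurable
    exact h2.mul (hf g)
  · intro K₁ K₂ x y γ f
    unfold Dat.st2
    rw [st_L P H D.Γ _ γ]
    refine tsum_congr fun u => ?_
    rw [st_L P H D.Γ _ γ]
    refine tsum_congr fun v => ?_
    rw [st_l, st_l]
  · intro K₁ K₂ x y γ f
    unfold Dat.st2
    rw [st_R P H D.Γ _ γ⁻¹]
    refine tsum_congr fun u => ?_
    rw [st_R P H D.Γ _ γ⁻¹]
    refine tsum_congr fun v => ?_
    rw [st_r, st_r]
  · intro K₁ K₂ K₃ x y γ f
    unfold Dat.st3
    rw [st_L P H D.Γ _ γ]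
    refine tsum_congr fun u => ?_
    rw [st_L P H D.Γ _ γ]
    refine tsum_congr fun v => ?_
    rw [st_L P H D.Γ _ γ]
    refine tsum_congr fun w => ?_
    rw [st_l, st_l, st_l]
  · intro K₁ K₂ K₃ x y γ f
    unfold Dat.st3
    rw [st_R P H D.Γ _ γ⁻¹]
    refine tsum_congr fun u => ?_
    rw [st_R P H D.Γ _ γ⁻¹]
    refine tsum_congr fun v => ?_
    rw [st_R P H D.Γ _ γ⁻¹]
    refine tsum_congr fun w => ?_
    rw [st_r, st_r, st_r]
  · intro S z γ f
    unfold Dat.lp
    rw [st_L P H D.Γ _ γ, st_R P H D.Γ _ γ⁻¹]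
    refine tsum_congr fun g => ?_
    have h2 : ((γ : P × H) * z)⁻¹ * ((γ * (g * γ⁻¹) : D.Γ) : P × H) * ((γ : P × H) * z) =
        z⁻¹ * (g : P × H) * z := by
      push_cast
      group
    have h3 : (γ * (g * γ⁻¹) : D.Γ) = γ * g * γ⁻¹ := (mul_assoc _ _ _).symm
    rw [h2, h3]

end Pool.Agent.MPEF
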