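import Pool.Agent.Lib.MP_ef3f0f_gt.I.Spec

set_option autoImplicit false
set_option linter.unusedSectionVars false

/-! Telescoping. -/

namespace Pool.Agent.MPEF

open MeasureTheory Topology
open scoped ENNReal Pointwise

/-- Triangle inequality for normalised averages. -/
private theorem tele_tri {α : Type} (f g h : α → ℝ≥0∞) (d : α → α → ℝ≥0∞)
    (hd : ∀ a b c, d a c ≤ d a b + d b c) (hf0 : ∑' a, f a ≠ 0) (hft : ∑' a, f a ≠ ∞)
    (hg0 : ∑' a, g a ≠ 0) (hgt : ∑' a, g a ≠ ∞) (hh0 : ∑' a, h a ≠ 0) (hht : ∑' a, h a ≠ ∞) :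
    (∑' a, f a)⁻¹ * (∑' a, h a)⁻¹ * ∑' a, ∑' c, f a * h c * d a c ≤
      (∑' a, f a)⁻¹ * (∑' a, g a)⁻¹ * ∑' a, ∑' b, f a * g b * d a b +
        (∑' a, g a)⁻¹ * (∑' a, h a)⁻¹ * ∑' b, ∑' c, g b * h c * d b c := by
  set F := ∑' a, f a with hF
  set G := ∑' a, g a with hG
  set S := ∑' a, h a with hS
  have key : G * ∑' a, ∑' c, f a * h c * d a c ≤
      S * ∑' a, ∑' b, f a * g b * d a b + F * ∑' b, ∑' c, g b * h c * d b c := by
    calc G * ∑' a, ∑' c, f a * h c * d a c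
        = ∑' b, ∑' a, ∑' c, g b * (f a * h c * d a c) := by
          rw [hG, ← ENNReal.tsum_mul_right]
          refine tsum_congr fun b => ?_
          rw [← ENNReal.tsum_mul_left]
          refine tsum_congr fun a => ?_
          rw [← ENNReal.tsum_mul_left]
      _ ≤ ∑' b, ∑' a, ∑' c, (h c * (f a * g b * d a b) + f a * (g b * h c * d b c)) := by
          refine ENNReal.tsum_le_tsum fun b => ENNReal.tsum_le_tsum fun a =>
            ENNReal.tsum_le_tsum fun c => ?_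
          calc g b * (f a * h c * d a c) ≤ g b * (f a * h c * (d a b + d b c)) := by
                gcongr
                exact hd a b c
            _ = h c * (f a * g b * d a b) + f a * (g b * h c * d b c) := by ring
      _ = ∑' b, ∑' a, (S * (f a * g b * d a b) + f a * ∑' c, g b * h c * d b c) := by
          refine tsum_congr fun b => tsum_congr fun a => ?_
          rw [ENNReal.tsum_add, ENNReal.tsum_mul_right, ENNReal.tsum_mul_left]
      _ = S * (∑' b, ∑' a, f a * g b * d a b) + F * ∑' b, ∑' c, g b * h c * d b c := by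
          rw [← ENNReal.tsum_mul_left, ← ENNReal.tsum_mul_left, ← ENNReal.tsum_add]
          refine tsum_congr fun b => ?_
          rw [ENNReal.tsum_add, ENNReal.tsum_mul_left, ENNReal.tsum_mul_right]
      _ = _ := by rw [ENNReal.tsum_comm]
  calc F⁻¹ * S⁻¹ * ∑' a, ∑' c, f a * h c * d a c
      = F⁻¹ * S⁻¹ * G⁻¹ * (G * ∑' a, ∑' c, f a * h c * d a c) := by
        rw [mul_assoc (F⁻¹ * S⁻¹), ← mul_assoc G⁻¹, ENNReal.inv_mul_cancel hg0 hgt, one_mul]
    _ ≤ F⁻¹ * S⁻¹ * G⁻¹ * (S * ∑' a, ∑' b, f a * g b * d a b +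
          F * ∑' b, ∑' c, g b * h c * d b c) := by gcongr
    _ = (S⁻¹ * S) * (F⁻¹ * G⁻¹ * ∑' a, ∑' b, f a * g b * d a b) +
          (F⁻¹ * F) * (G⁻¹ * S⁻¹ * ∑' b, ∑' c, g b * h c * d b c) := by ring
    _ = _ := by
        rw [ENNReal.inv_mul_cancel hh0 hht, ENNReal.inv_mul_cancel hf0 hft, one_mul, one_mul]

section
variable {P H : Type} [Group P] [Group H] [TopologicalSpace P] [TopologicalSpace H]
  [IsTopologicalGroup P] [IsTopologicalGroup H] [LocallyCompactSpace P] [LocallyCompactSpace H]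
  [T2Space P] [T2Space H] [SecondCountableTopology P] [SecondCountableTopology H]
  [MeasurableSpace P] [MeasurableSpace H] [BorelSpace P] [BorelSpace H]

/-- The probability measure with density `ν^(n)`. -/
private noncomputable def teleW (D : Dat P H) (n : ℕ) : Measure H := D.μ₂.withDensity (D.nu n)

private theorem tele_lint (D : Dat P H) (hnm : ∀ n, Measurable (D.nu n)) (n : ℕ)
    (f : H → ℝ≥0∞) (hf : Measurable f) :
    ∫⁻ p, f p ∂(teleW D n) = ∫⁻ p, D.nu n p * f p ∂D.μ₂ := by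
  unfold teleW
  rw [lintegral_withDensity_eq_lintegral_mul _ (hnm n) hf]
  rfl

private theorem tele_prob (D : Dat P H) (hint : ∀ n, ∫⁻ h, D.nu n h ∂D.μ₂ = 1) (n : ℕ) :
    IsProbabilityMeasure (teleW D n) := by
  refine ⟨?_⟩
  unfold teleW
  rw [withDensity_apply _ MeasurableSet.univ, Measure.restrict_univ]
  exact hint n

/-- Convolution. -/
private theorem tele_conv (D : Dat P H) (hD : D.Ok) (hσ : SigmaFinite D.μ₂)
    (hnm : ∀ n, Measurable (D.nu n))
    (hcv : ∀ n m, 1 ≤ n → 1 ≤ m → ∀ h,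
      ∫⁻ q, D.nu n q * D.nu m (q⁻¹ * h) ∂D.μ₂ = D.nu (n + m) h)
    (hint : ∀ n, ∫⁻ h, D.nu n h ∂D.μ₂ = 1)
    (n m : ℕ) (hn : 1 ≤ n) (hm : 1 ≤ m) (f : H → ℝ≥0∞) (hf : Measurable f) :
    ∫⁻ p, f p ∂(teleW D (n + m)) = ∫⁻ p, ∫⁻ q, f (p * q) ∂(teleW D m) ∂(teleW D n) := by
  haveI := hD.haar₂
  haveI := tele_prob D hint m
  haveI := tele_prob D hint n
  have hfm : Measurable fun q : H × H => f (q.1 * q.2) := hf.comp (measurable_fst.mul measurable_snd)
  have h1 : Measurable fun p => ∫⁻ q, f (p * q) ∂(teleW D m) := hfm.lintegral_prod_right'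
  rw [tele_lint D hnm (n + m) f hf, tele_lint D hnm n _ h1]
  have e1 : ∀ p, D.nu (n + m) p * f p =
      ∫⁻ q, D.nu n q * D.nu m (q⁻¹ * p) * f p ∂D.μ₂ := by
    intro p
    have m0 : Measurable fun q => D.nu n q * D.nu m (q⁻¹ * p) :=
      (hnm n).mul ((hnm m).comp (measurable_inv.mul_const p))
    rw [lintegral_mul_const _ m0, hcv n m hn hm]
  have e2 : ∀ q, D.nu n q * ∫⁻ p, f (q * p) ∂(teleW D m) =
      ∫⁻ p, D.nu n q * D.nu m (q⁻¹ * p) * f p ∂D.μ₂ := by
    intro q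
    have m0 : Measurable fun p => f (q * p) := hf.comp (measurable_const_mul q)
    have m1 : Measurable fun p => D.nu m p * f (q * p) := (hnm m).mul m0
    rw [tele_lint D hnm m _ m0, ← lintegral_const_mul _ m1,
      ← lintegral_mul_left_eq_self (fun p => D.nu n q * D.nu m (q⁻¹ * p) * f p) q]
    refine lintegral_congr fun p => ?_
    rw [inv_mul_cancel_left, mul_assoc]
  simp_rw [e1, e2]
  rw [lintegral_lintegral_swap]
  have m1 : Measurable fun q : H × H => D.nu n q.2 := (hnm n).comp measurable_snd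
  have m2 : Measurable fun q : H × H => D.nu m (q.2⁻¹ * q.1) :=
    (hnm m).comp (measurable_snd.inv.mul measurable_fst)
  have m3 : Measurable fun q : H × H => f q.1 := hf.comp measurable_fst
  exact ((m1.mul m2).mul m3).aemeasurable

/-- `E`. -/
@[irreducible] private noncomputable def teleE (D : Dat P H) (K : P × H → ℝ≥0∞) (ψ : D.Γ → D.Γ → ℝ) (V : D.Γ)
    (a a' a₁ a₁' : P × H) : ℝ≥0∞ :=
  ∑' c : D.Γ, ∑' c' : D.Γ, K (a⁻¹ * (c : P × H) * a') * K (a₁⁻¹ * (c' : P × H) * a₁') *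
    ab (ψ c V - ψ c' V)

/-- `Δ`. -/
@[irreducible] private noncomputable def teleD (D : Dat P H) (K : P × H → ℝ≥0∞) (ψ : D.Γ → D.Γ → ℝ) (V : D.Γ)
    (a a' a₁ a₁' : P × H) : ℝ≥0∞ :=
  (D.N K a a')⁻¹ * (D.N K a₁ a₁')⁻¹ * teleE D K ψ V a a' a₁ a₁'

private theorem tele_ab (x y z : ℝ) : ab (x - z) ≤ ab (x - y) + ab (y - z) := by
  unfold ab
  rw [← ENNReal.ofReal_add (abs_nonneg _) (abs_nonneg _)]
  exact ENNReal.ofReal_le_ofReal (abs_sub_le x y z)

private theorem tele_D_tri (D : Dat P H) (K : P × H → ℝ≥0∞) (ψ : D.Γ → D.Γ → ℝ)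
    (h0 : ∀ x y, D.N K x y ≠ 0) (ht : ∀ x y, D.N K x y ≠ ∞) (V : D.Γ)
    (a a' b b' c c' : P × H) :
    teleD D K ψ V a a' c c' ≤ teleD D K ψ V a a' b b' + teleD D K ψ V b b' c c' := by
  unfold teleD teleE Dat.N
  exact tele_tri (fun u : D.Γ => K (a⁻¹ * (u : P × H) * a'))
    (fun u : D.Γ => K (b⁻¹ * (u : P × H) * b')) (fun u : D.Γ => K (c⁻¹ * (u : P × H) * c'))
    (fun u v => ab (ψ u V - ψ v V)) (fun u v w => tele_ab _ _ _)
    (h0 a a') (ht a a') (h0 b b') (ht b b') (h0 c c') (ht c c')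

private theorem tele_E_meas (D : Dat P H) (hc : Countable D.Γ) (K : P × H → ℝ≥0∞)
    (hK : Measurable K) (ψ : D.Γ → D.Γ → ℝ) (V : D.Γ) {α : Type} [MeasurableSpace α]
    (a a' b b' : α → P × H) (ha : Measurable a) (ha' : Measurable a') (hb : Measurable b)
    (hb' : Measurable b') : Measurable fun t => teleE D K ψ V (a t) (a' t) (b t) (b' t) := by
  unfold teleE
  refine Measurable.tsum fun c => Measurable.tsum fun c' => ?_
  exact ((hK.comp ((ha.inv.mul_const _).mul ha')).mul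
    (hK.comp ((hb.inv.mul_const _).mul hb'))).mul_const _

private theorem tele_N_meas (D : Dat P H) (hc : Countable D.Γ) (K : P × H → ℝ≥0∞)
    (hK : Measurable K) {α : Type} [MeasurableSpace α]
    (a a' : α → P × H) (ha : Measurable a) (ha' : Measurable a') :
    Measurable fun t => D.N K (a t) (a' t) := by
  unfold Dat.N
  exact Measurable.tsum fun c => hK.comp ((ha.inv.mul_const _).mul ha')

private theorem tele_D_meas (D : Dat P H) (hc : Countable D.Γ) (K : P × H → ℝ≥0∞)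
    (hK : Measurable K) (ψ : D.Γ → D.Γ → ℝ) (V : D.Γ) {α : Type} [MeasurableSpace α]
    (a a' b b' : α → P × H) (ha : Measurable a) (ha' : Measurable a') (hb : Measurable b)
    (hb' : Measurable b') : Measurable fun t => teleD D K ψ V (a t) (a' t) (b t) (b' t) := by
  unfold teleD
  exact ((tele_N_meas D hc K hK a a' ha ha').inv.mul (tele_N_meas D hc K hK b b' hb hb').inv).mul
    (tele_E_meas D hc K hK ψ V a a' b b' ha ha' hb hb')

/-- `S_N`. -/
@[irreducible] private noncomputable def teleS (D : Dat P H) (K : P × H → ℝ≥0∞) (ψ : D.Γ → D.Γ → ℝ) (N : ℕ)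
    (V : D.Γ) (x y : P × H) : ℝ≥0∞ :=
  ∫⁻ p, ∫⁻ q, teleD D K ψ V x (y * ((1 : P), q)) (x * ((1 : P), p)) y ∂(teleW D N) ∂(teleW D N)

private theorem tele_pair : Measurable fun q : H => (((1 : P), q) : P × H) :=
  measurable_const.prodMk measurable_id

private theorem tele_S_meas (D : Dat P H) (hc : Countable D.Γ)
    (hint : ∀ n, ∫⁻ h, D.nu n h ∂D.μ₂ = 1) (K : P × H → ℝ≥0∞)
    (hK : Measurable K) (ψ : D.Γ → D.Γ → ℝ) (N : ℕ) (V : D.Γ) :
    Measurable fun q : (P × H) × (P × H) => teleS D K ψ N V q.1 q.2 := by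
  haveI := tele_prob D hint N
  unfold teleS
  have h1 : Measurable fun t : (((P × H) × (P × H)) × H) × H =>
      teleD D K ψ V t.1.1.1 (t.1.1.2 * ((1 : P), t.2)) (t.1.1.1 * ((1 : P), t.1.2)) t.1.1.2 := by
    refine tele_D_meas D hc K hK ψ V _ _ _ _ ?_ ?_ ?_ ?_
    · exact measurable_fst.comp (measurable_fst.comp measurable_fst)
    · exact (measurable_snd.comp (measurable_fst.comp measurable_fst)).mul
        (tele_pair.comp measurable_snd)
    · exact (measurable_fst.comp (measurable_fst.comp measurable_fst)).mul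
        (tele_pair.comp (measurable_snd.comp measurable_fst))
    · exact measurable_snd.comp (measurable_fst.comp measurable_fst)
  exact (h1.lintegral_prod_right').lintegral_prod_right'

/-- Left equivariance. -/
private theorem tele_D_L (D : Dat P H) (K : P × H → ℝ≥0∞) (ψ : D.Γ → D.Γ → ℝ)
    (hψ : ∀ γ γ' c V, ψ (γ * c * γ') (γ * V * γ') = ψ c V) (γ V : D.Γ) (a a' b b' : P × H) :
    teleD D K ψ (γ * V) ((γ : P × H) * a) a' ((γ : P × H) * b) b' = teleD D K ψ V a a' b b' := by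
  have hψ' : ∀ c, ψ (γ * c) (γ * V) = ψ c V := by
    intro c
    have := hψ γ 1 c V
    rwa [mul_one, mul_one] at this
  have e1 : ∀ (a : P × H) (c : D.Γ), (((γ : P × H) * a)⁻¹ * ((γ * c : D.Γ) : P × H)) =
      a⁻¹ * (c : P × H) := by
    intro a c
    rw [Subgroup.coe_mul]
    group
  have eN : ∀ a a' : P × H, D.N K ((γ : P × H) * a) a' = D.N K a a' := by
    intro a a'
    unfold Dat.N
    rw [← (Equiv.mulLeft γ).tsum_eq]
    refine tsum_congr fun c => ?_
    change K (((γ : P × H) * a)⁻¹ * ((γ * c : D.Γ) : P × H) * a') = _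
    rw [e1]
  unfold teleD
  rw [eN, eN]
  congr 1
  unfold teleE
  rw [← (Equiv.mulLeft γ).tsum_eq]
  refine tsum_congr fun c => ?_
  rw [← (Equiv.mulLeft γ).tsum_eq]
  refine tsum_congr fun c' => ?_
  change K (((γ : P × H) * a)⁻¹ * ((γ * c : D.Γ) : P × H) * a') *
    K (((γ : P × H) * b)⁻¹ * ((γ * c' : D.Γ) : P × H) * b') *
      ab (ψ (γ * c) (γ * V) - ψ (γ * c') (γ * V)) = _
  rw [e1, e1, hψ', hψ']

/-- Right equivariance. -/
private theorem tele_D_R (D : Dat P H) (K : P × H → ℝ≥0∞) (ψ : D.Γ → D.Γ → ℝ)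
    (hψ : ∀ γ γ' c V, ψ (γ * c * γ') (γ * V * γ') = ψ c V) (γ V : D.Γ) (a a' b b' : P × H) :
    teleD D K ψ (V * γ⁻¹) a ((γ : P × H) * a') b ((γ : P × H) * b') =
      teleD D K ψ V a a' b b' := by
  have hψ' : ∀ c, ψ (c * γ⁻¹) (V * γ⁻¹) = ψ c V := by
    intro c
    have := hψ 1 γ⁻¹ c V
    rwa [one_mul, one_mul] at this
  have e1 : ∀ (a a' : P × H) (c : D.Γ), a⁻¹ * ((c * γ⁻¹ : D.Γ) : P × H) * ((γ : P × H) * a') =
      a⁻¹ * (c : P × H) * a' := by
    intro a a' c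
    rw [Subgroup.coe_mul, Subgroup.coe_inv]
    group
  have eN : ∀ a a' : P × H, D.N K a ((γ : P × H) * a') = D.N K a a' := by
    intro a a'
    unfold Dat.N
    rw [← (Equiv.mulRight γ⁻¹).tsum_eq]
    refine tsum_congr fun c => ?_
    change K (a⁻¹ * ((c * γ⁻¹ : D.Γ) : P × H) * ((γ : P × H) * a')) = _
    rw [e1]
  unfold teleD
  rw [eN, eN]
  congr 1
  unfold teleE
  rw [← (Equiv.mulRight γ⁻¹).tsum_eq]
  refine tsum_congr fun c => ?_
  rw [← (Equiv.mulRight γ⁻¹).tsum_eq]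
  refine tsum_congr fun c' => ?_
  change K (a⁻¹ * ((c * γ⁻¹ : D.Γ) : P × H) * ((γ : P × H) * a')) *
    K (b⁻¹ * ((c' * γ⁻¹ : D.Γ) : P × H) * ((γ : P × H) * b')) *
      ab (ψ (c * γ⁻¹) (V * γ⁻¹) - ψ (c' * γ⁻¹) (V * γ⁻¹)) = _
  rw [e1, e1, hψ', hψ']

private theorem tele_S_L (D : Dat P H) (K : P × H → ℝ≥0∞) (ψ : D.Γ → D.Γ → ℝ)
    (hψ : ∀ γ γ' c V, ψ (γ * c * γ') (γ * V * γ') = ψ c V) (N : ℕ) (γ V : D.Γ) (x y : P × H) :
    teleS D K ψ N (γ * V) ((γ : P × H) * x) y = teleS D K ψ N V x y := by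
  unfold teleS
  refine lintegral_congr fun p => lintegral_congr fun q => ?_
  rw [mul_assoc, tele_D_L D K ψ hψ]

private theorem tele_S_R (D : Dat P H) (K : P × H → ℝ≥0∞) (ψ : D.Γ → D.Γ → ℝ)
    (hψ : ∀ γ γ' c V, ψ (γ * c * γ') (γ * V * γ') = ψ c V) (N : ℕ) (γ V : D.Γ) (x y : P × H) :
    teleS D K ψ N (V * γ⁻¹) x ((γ : P × H) * y) = teleS D K ψ N V x y := by
  unfold teleS
  refine lintegral_congr fun p => lintegral_congr fun q => ?_
  rw [mul_assoc, tele_D_R D K ψ hψ]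

/-- The integrated quantity. -/
private noncomputable def teleJ (D : Dat P H) (k' : P → ℝ≥0∞) (m : ℕ)
    (F : D.Γ → P × H → P × H → ℝ≥0∞) : ℝ≥0∞ :=
  D.IM fun x => D.IM fun y => ∑' V : D.Γ, D.tk k' m (x⁻¹ * (V : P × H) * y) * F V x y

private theorem tele_IM_mono (D : Dat P H) (f g : P × H → ℝ≥0∞) (h : ∀ x, f x ≤ g x) :
    D.IM f ≤ D.IM g := by
  unfold Dat.IM
  exact lintegral_mono fun x => mul_le_mul_right (h x) _

private theorem tele_IM_meas (D : Dat P H) (hσ : SigmaFinite D.μ) (hχ : Measurable D.χ)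
    {α : Type} [MeasurableSpace α] (F : α → P × H → ℝ≥0∞)
    (hF : Measurable fun t : α × (P × H) => F t.1 t.2) : Measurable fun a => D.IM (F a) := by
  unfold Dat.IM
  have h1 : Measurable fun t : α × (P × H) => D.χ t.2 * F t.1 t.2 :=
    (hχ.comp measurable_snd).mul hF
  exact h1.lintegral_prod_right'

/-- Exchange of the integral over `H` with `IM`. -/
private theorem tele_IM_swap (D : Dat P H) (hσ : SigmaFinite D.μ) (hχ : Measurable D.χ)
    (hχ1 : ∀ x, D.χ x ≤ 1) (W : Measure H) [SFinite W] (F : P × H → H → ℝ≥0∞)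
    (hF : Measurable fun t : (P × H) × H => F t.1 t.2) :
    D.IM (fun x => ∫⁻ p, F x p ∂W) = ∫⁻ p, D.IM (fun x => F x p) ∂W := by
  unfold Dat.IM
  have e1 : ∀ x, D.χ x * ∫⁻ p, F x p ∂W = ∫⁻ p, D.χ x * F x p ∂W := fun x =>
    (lintegral_const_mul' _ _ (ne_top_of_le_ne_top ENNReal.one_ne_top (hχ1 x))).symm
  simp_rw [e1]
  rw [lintegral_lintegral_swap]
  exact ((hχ.comp measurable_fst).mul hF).aemeasurable

private theorem tele_swap3 (D : Dat P H) (hD : D.Ok) (hc : Countable D.Γ) (hσ : SigmaFinite D.μ)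
    (W : Measure H) [SFinite W] (F : D.Γ → P × H → P × H → H → ℝ≥0∞)
    (hF : ∀ V, Measurable fun t : ((P × H) × (P × H)) × H => F V t.1.1 t.1.2 t.2) :
    D.IM (fun x => D.IM fun y => ∑' V : D.Γ, ∫⁻ p, F V x y p ∂W) =
      ∫⁻ p, D.IM (fun x => D.IM fun y => ∑' V : D.Γ, F V x y p) ∂W := by
  have h1 : ∀ x y, ∑' V : D.Γ, ∫⁻ p, F V x y p ∂W = ∫⁻ p, ∑' V : D.Γ, F V x y p ∂W := by
    intro x y
    rw [lintegral_tsum]
    intro V
    have h0 : Measurable fun p : H => (((x, y), p) : ((P × H) × (P × H)) × H) :=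
      measurable_const.prodMk measurable_id
    exact ((hF V).comp h0).aemeasurable
  have hS : Measurable fun t : ((P × H) × (P × H)) × H => ∑' V : D.Γ, F V t.1.1 t.1.2 t.2 :=
    Measurable.tsum hF
  have h3 : ∀ x, D.IM (fun y => ∑' V : D.Γ, ∫⁻ p, F V x y p ∂W) =
      ∫⁻ p, D.IM (fun y => ∑' V : D.Γ, F V x y p) ∂W := by
    intro x
    simp_rw [h1]
    refine tele_IM_swap D hσ hD.χm hD.χ1 W (fun y p => ∑' V : D.Γ, F V x y p) ?_
    exact hS.comp ((measurable_const.prodMk measurable_fst).prodMk measurable_snd)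
  simp_rw [h3]
  refine tele_IM_swap D hσ hD.χm hD.χ1 W (fun x p => D.IM fun y => ∑' V : D.Γ, F V x y p) ?_
  refine tele_IM_meas D hσ hD.χm (fun (t : (P × H) × H) y => ∑' V : D.Γ, F V t.1 y t.2) ?_
  exact hS.comp ((measurable_fst.comp measurable_fst).prodMk measurable_snd |>.prodMk
    (measurable_snd.comp measurable_fst))

private theorem tele_tk_meas (D : Dat P H) (hnm : ∀ n, Measurable (D.nu n)) (k : P → ℝ≥0∞)
    (hk : Measurable k) (n : ℕ) : Measurable (D.tk k n) := by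
  unfold Dat.tk
  exact (hk.comp measurable_fst).mul ((hnm n).comp measurable_snd)

/-- `∫ ν^(N)(p) (tk k m)(x⁻¹ V y (1,p)) = tk k (m + N)`. -/
private theorem tele_tkR (D : Dat P H) (hnm : ∀ n, Measurable (D.nu n))
    (hmg6 : ∀ (k : P → ℝ≥0∞) (n m : ℕ), 1 ≤ n → 1 ≤ m → ∀ g : P × H,
      ∫⁻ h, D.nu m h * D.tk k n (g * ((1 : P), h)) ∂D.μ₂ = D.tk k (n + m) g)
    (k : P → ℝ≥0∞) (hk : Measurable k) (n m : ℕ) (hn : 1 ≤ n) (hm : 1 ≤ m) (g : P × H) :
    ∫⁻ h, D.tk k n (g * ((1 : P), h)) ∂(teleW D m) = D.tk k (n + m) g := by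
  have h1 : Measurable fun h : H => D.tk k n (g * ((1 : P), h)) :=
    (tele_tk_meas D hnm k hk n).comp (tele_pair.const_mul g)
  rw [tele_lint D hnm m _ h1]
  exact hmg6 k n m hn hm g

private theorem tele_inv (D : Dat P H) (hD : D.Ok) (hnm : ∀ n, Measurable (D.nu n))
    (hsym : ∀ n h, D.nu n h⁻¹ = D.nu n h) (n : ℕ) (f : H → ℝ≥0∞) (hf : Measurable f) :
    ∫⁻ h, f h⁻¹ ∂(teleW D n) = ∫⁻ h, f h ∂(teleW D n) := by
  haveI := hD.inv₂
  have h1 : Measurable fun h : H => f h⁻¹ := hf.comp measurable_inv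
  rw [tele_lint D hnm n _ h1, tele_lint D hnm n _ hf,
    ← lintegral_inv_eq_self (μ := D.μ₂) (fun h => D.nu n h * f h)]
  refine lintegral_congr fun h => ?_
  rw [hsym]

/-- `∫ ν^(N)(p) (tk k m)((1,p) g) = tk k (m + N) g`. -/
private theorem tele_tkL (D : Dat P H) (hD : D.Ok) (hnm : ∀ n, Measurable (D.nu n))
    (hsym : ∀ n h, D.nu n h⁻¹ = D.nu n h)
    (hcv : ∀ n m, 1 ≤ n → 1 ≤ m → ∀ h,
      ∫⁻ q, D.nu n q * D.nu m (q⁻¹ * h) ∂D.μ₂ = D.nu (n + m) h)
    (k : P → ℝ≥0∞) (hk : Measurable k) (n m : ℕ) (hn : 1 ≤ n) (hm : 1 ≤ m) (g : P × H) :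
    ∫⁻ h, D.tk k n (((1 : P), h) * g) ∂(teleW D m) = D.tk k (n + m) g := by
  have h1 : Measurable fun h : H => D.tk k n (((1 : P), h) * g) :=
    (tele_tk_meas D hnm k hk n).comp (tele_pair.mul_const g)
  rw [← tele_inv D hD hnm hsym m _ h1]
  have h2 : Measurable fun h : H => D.tk k n (((1 : P), h⁻¹) * g) := h1.comp measurable_inv
  rw [tele_lint D hnm m _ h2]
  have h3 : ∀ h, D.nu m h * D.tk k n (((1 : P), h⁻¹) * g) =
      k g.1 * (D.nu m h * D.nu n (h⁻¹ * g.2)) := by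
    intro h
    unfold Dat.tk
    have e1 : (((1 : P), h⁻¹) * g).1 = g.1 := by simp
    have e2 : (((1 : P), h⁻¹) * g).2 = h⁻¹ * g.2 := by simp
    rw [e1, e2]
    ring
  simp_rw [h3]
  have m0 : Measurable fun q => D.nu m q * D.nu n (q⁻¹ * g.2) :=
    (hnm m).mul ((hnm n).comp (measurable_inv.mul_const g.2))
  rw [lintegral_const_mul _ m0, hcv m n hm hn, add_comm m n]
  rfl

/-- Shift in `x`. -/
private theorem tele_JA (D : Dat P H) (hD : D.Ok) (hc : Countable D.Γ) (hσ : SigmaFinite D.μ)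
    (hIM : ∀ f : P × H → ℝ≥0∞, Measurable f → (∀ γ ∈ D.Γ, ∀ x, f (γ * x) = f x) →
      ∀ g : P × H, D.IM (fun x => f (x * g)) = D.IM f)
    (hnm : ∀ n, Measurable (D.nu n))
    (hint : ∀ n, ∫⁻ h, D.nu n h ∂D.μ₂ = 1)
    (hsym : ∀ n h, D.nu n h⁻¹ = D.nu n h)
    (hcv : ∀ n m, 1 ≤ n → 1 ≤ m → ∀ h,
      ∫⁻ q, D.nu n q * D.nu m (q⁻¹ * h) ∂D.μ₂ = D.nu (n + m) h)
    (k' : P → ℝ≥0∞) (hk' : Measurable k')
    (m N : ℕ) (hm : 1 ≤ m) (hN : 1 ≤ N)
    (F : D.Γ → P × H → P × H → ℝ≥0∞)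
    (hF : ∀ V, Measurable fun q : (P × H) × (P × H) => F V q.1 q.2)
    (hL : ∀ γ V x y, F (γ * V) ((γ : P × H) * x) y = F V x y) :
    teleJ D k' m (fun V x y => ∫⁻ p, F V (x * ((1 : P), p)) y ∂(teleW D N)) =
      teleJ D k' (m + N) F := by
  haveI := tele_prob D hint N
  have htk := tele_tk_meas D hnm k' hk' m
  unfold teleJ
  have a1 : ∀ x y, ∑' V : D.Γ, D.tk k' m (x⁻¹ * (V : P × H) * y) *
      ∫⁻ p, F V (x * ((1 : P), p)) y ∂(teleW D N) =
      ∑' V : D.Γ, ∫⁻ p, D.tk k' m (x⁻¹ * (V : P × H) * y) *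
        F V (x * ((1 : P), p)) y ∂(teleW D N) := by
    intro x y
    refine tsum_congr fun V => ?_
    have h0 : Measurable fun p : H => ((x * ((1 : P), p), y) : (P × H) × (P × H)) :=
      (tele_pair.const_mul x).prodMk measurable_const
    exact (lintegral_const_mul _ ((hF V).comp h0)).symm
  simp_rw [a1]
  have mF : ∀ V, Measurable fun t : ((P × H) × (P × H)) × H =>
      F V (t.1.1 * ((1 : P), t.2)) t.1.2 := by
    intro V
    have h0 : Measurable fun t : ((P × H) × (P × H)) × H => t.1.1 * (((1 : P), t.2) : P × H) :=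
      (measurable_fst.comp measurable_fst).mul (tele_pair.comp measurable_snd)
    have h1 : Measurable fun t : ((P × H) × (P × H)) × H => t.1.2 :=
      measurable_snd.comp measurable_fst
    exact (hF V).comp (h0.prodMk h1)
  have mtk : ∀ V : D.Γ, Measurable fun t : ((P × H) × (P × H)) × H =>
      D.tk k' m (t.1.1⁻¹ * (V : P × H) * t.1.2) := by
    intro V
    refine htk.comp ?_
    exact ((measurable_fst.comp measurable_fst).inv.mul_const _).mul
      (measurable_snd.comp measurable_fst)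
  rw [tele_swap3 D hD hc hσ (teleW D N) (fun V x y p => D.tk k' m (x⁻¹ * (V : P × H) * y) *
        F V (x * ((1 : P), p)) y) (fun V => (mtk V).mul (mF V))]
  -- the shift
  have a2 : ∀ p : H, D.IM (fun x => D.IM fun y => ∑' V : D.Γ,
        D.tk k' m (x⁻¹ * (V : P × H) * y) * F V (x * ((1 : P), p)) y) =
      D.IM (fun x => D.IM fun y => ∑' V : D.Γ,
        D.tk k' m (((1 : P), p) * (x⁻¹ * (V : P × H) * y)) * F V x y) := by
    intro p
    have mm : ∀ V : D.Γ, Measurable fun t : (P × H) × (P × H) =>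
        D.tk k' m (((1 : P), p) * (t.1⁻¹ * (V : P × H) * t.2)) * F V t.1 t.2 := by
      intro V
      refine Measurable.mul (htk.comp ?_) (hF V)
      exact ((measurable_fst.inv.mul_const _).mul measurable_snd).const_mul _
    have i1 := hIM (fun x => D.IM fun y => ∑' V : D.Γ,
        D.tk k' m (((1 : P), p) * (x⁻¹ * (V : P × H) * y)) * F V x y)
      (tele_IM_meas D hσ hD.χm (fun x y => ∑' V : D.Γ,
        D.tk k' m (((1 : P), p) * (x⁻¹ * (V : P × H) * y)) * F V x y) (Measurable.tsum mm))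
      (by
        intro γ hγ x
        congr 1
        funext y
        rw [← (Equiv.mulLeft (⟨γ, hγ⟩ : D.Γ)).tsum_eq]
        refine tsum_congr fun V => ?_
        change D.tk k' m (((1 : P), p) * ((γ * x)⁻¹ * (((⟨γ, hγ⟩ : D.Γ) * V : D.Γ) : P × H) * y)) *
          F ((⟨γ, hγ⟩ : D.Γ) * V) (γ * x) y = _
        have e1 := hL ⟨γ, hγ⟩ V x y
        change F ((⟨γ, hγ⟩ : D.Γ) * V) (γ * x) y = _ at e1
        have e2 : (γ * x)⁻¹ * (((⟨γ, hγ⟩ : D.Γ) * V : D.Γ) : P × H) * y =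
            x⁻¹ * (V : P × H) * y := by
          rw [Subgroup.coe_mul]
          group
        rw [e1, e2]) ((1 : P), p)
    rw [← i1]
    congr 1
    funext x
    congr 1
    funext y
    refine tsum_congr fun V => ?_
    congr 2
    rw [mul_inv_rev]
    group
  simp_rw [a2]
  have mtk2 : ∀ V : D.Γ, Measurable fun t : ((P × H) × (P × H)) × H =>
      D.tk k' m (((1 : P), t.2) * (t.1.1⁻¹ * (V : P × H) * t.1.2)) * F V t.1.1 t.1.2 := by
    intro V
    refine Measurable.mul (htk.comp ?_) ((hF V).comp measurable_fst)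
    exact (tele_pair.comp measurable_snd).mul
      (((measurable_fst.comp measurable_fst).inv.mul_const _).mul
        (measurable_snd.comp measurable_fst))
  rw [← tele_swap3 D hD hc hσ (teleW D N) (fun V x y p =>
    D.tk k' m (((1 : P), p) * (x⁻¹ * (V : P × H) * y)) * F V x y) mtk2]
  congr 1
  funext x
  congr 1
  funext y
  refine tsum_congr fun V => ?_
  have m3 : Measurable fun p : H => D.tk k' m (((1 : P), p) * (x⁻¹ * (V : P × H) * y)) :=
    htk.comp (tele_pair.mul_const _)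
  rw [lintegral_mul_const _ m3, tele_tkL D hD hnm hsym hcv k' hk' m N hm hN]

/-- Shift in `y`. -/
private theorem tele_JB (D : Dat P H) (hD : D.Ok) (hc : Countable D.Γ) (hσ : SigmaFinite D.μ)
    (hIM : ∀ f : P × H → ℝ≥0∞, Measurable f → (∀ γ ∈ D.Γ, ∀ x, f (γ * x) = f x) →
      ∀ g : P × H, D.IM (fun x => f (x * g)) = D.IM f)
    (hnm : ∀ n, Measurable (D.nu n))
    (hint : ∀ n, ∫⁻ h, D.nu n h ∂D.μ₂ = 1)
    (hsym : ∀ n h, D.nu n h⁻¹ = D.nu n h)
    (hmg6 : ∀ (k : P → ℝ≥0∞) (n m : ℕ), 1 ≤ n → 1 ≤ m → ∀ g : P × H,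
      ∫⁻ h, D.nu m h * D.tk k n (g * ((1 : P), h)) ∂D.μ₂ = D.tk k (n + m) g)
    (k' : P → ℝ≥0∞) (hk' : Measurable k')
    (m N : ℕ) (hm : 1 ≤ m) (hN : 1 ≤ N)
    (F : D.Γ → P × H → P × H → ℝ≥0∞)
    (hF : ∀ V, Measurable fun q : (P × H) × (P × H) => F V q.1 q.2)
    (hR : ∀ γ V x y, F (V * γ⁻¹) x ((γ : P × H) * y) = F V x y) :
    teleJ D k' m (fun V x y => ∫⁻ p, F V x (y * ((1 : P), p)) ∂(teleW D N)) =
      teleJ D k' (m + N) F := by
  haveI := tele_prob D hint N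
  have htk := tele_tk_meas D hnm k' hk' m
  unfold teleJ
  have a1 : ∀ x y, ∑' V : D.Γ, D.tk k' m (x⁻¹ * (V : P × H) * y) *
      ∫⁻ p, F V x (y * ((1 : P), p)) ∂(teleW D N) =
      ∑' V : D.Γ, ∫⁻ p, D.tk k' m (x⁻¹ * (V : P × H) * y) *
        F V x (y * ((1 : P), p)) ∂(teleW D N) := by
    intro x y
    refine tsum_congr fun V => ?_
    have h0 : Measurable fun p : H => ((x, y * ((1 : P), p)) : (P × H) × (P × H)) :=
      measurable_const.prodMk (tele_pair.const_mul y)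
    exact (lintegral_const_mul _ ((hF V).comp h0)).symm
  simp_rw [a1]
  have mF : ∀ V, Measurable fun t : ((P × H) × (P × H)) × H =>
      F V t.1.1 (t.1.2 * ((1 : P), t.2)) := by
    intro V
    have h0 : Measurable fun t : ((P × H) × (P × H)) × H => t.1.2 * (((1 : P), t.2) : P × H) :=
      (measurable_snd.comp measurable_fst).mul (tele_pair.comp measurable_snd)
    have h1 : Measurable fun t : ((P × H) × (P × H)) × H => t.1.1 :=
      measurable_fst.comp measurable_fst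
    exact (hF V).comp (h1.prodMk h0)
  have mtk : ∀ V : D.Γ, Measurable fun t : ((P × H) × (P × H)) × H =>
      D.tk k' m (t.1.1⁻¹ * (V : P × H) * t.1.2) := by
    intro V
    refine htk.comp ?_
    exact ((measurable_fst.comp measurable_fst).inv.mul_const _).mul
      (measurable_snd.comp measurable_fst)
  rw [tele_swap3 D hD hc hσ (teleW D N) (fun V x y p => D.tk k' m (x⁻¹ * (V : P × H) * y) *
        F V x (y * ((1 : P), p))) (fun V => (mtk V).mul (mF V))]
  have a2 : ∀ p : H, D.IM (fun x => D.IM fun y => ∑' V : D.Γ,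
        D.tk k' m (x⁻¹ * (V : P × H) * y) * F V x (y * ((1 : P), p))) =
      D.IM (fun x => D.IM fun y => ∑' V : D.Γ,
        D.tk k' m (x⁻¹ * (V : P × H) * y * ((1 : P), p⁻¹)) * F V x y) := by
    intro p
    congr 1
    funext x
    have mm : ∀ V : D.Γ, Measurable fun y : P × H =>
        D.tk k' m (x⁻¹ * (V : P × H) * y * ((1 : P), p⁻¹)) * F V x y := by
      intro V
      refine Measurable.mul (htk.comp ?_) ((hF V).comp (measurable_const.prodMk measurable_id))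
      exact (measurable_const_mul (x⁻¹ * (V : P × H))).mul_const _
    have i1 := hIM (fun y => ∑' V : D.Γ,
        D.tk k' m (x⁻¹ * (V : P × H) * y * ((1 : P), p⁻¹)) * F V x y)
      (Measurable.tsum mm)
      (by
        intro γ hγ y
        rw [← (Equiv.mulRight ((⟨γ, hγ⟩ : D.Γ)⁻¹)).tsum_eq]
        refine tsum_congr fun V => ?_
        change D.tk k' m (x⁻¹ * ((V * (⟨γ, hγ⟩ : D.Γ)⁻¹ : D.Γ) : P × H) * (γ * y) *
          ((1 : P), p⁻¹)) * F (V * (⟨γ, hγ⟩ : D.Γ)⁻¹) x (γ * y) = _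
        have e1 := hR ⟨γ, hγ⟩ V x y
        change F (V * (⟨γ, hγ⟩ : D.Γ)⁻¹) x (γ * y) = _ at e1
        have e2 : x⁻¹ * ((V * (⟨γ, hγ⟩ : D.Γ)⁻¹ : D.Γ) : P × H) * (γ * y) =
            x⁻¹ * (V : P × H) * y := by
          rw [Subgroup.coe_mul, Subgroup.coe_inv]
          group
        rw [e1, e2]) ((1 : P), p)
    rw [← i1]
    congr 1
    funext y
    refine tsum_congr fun V => ?_
    congr 2
    have e3 : ((1 : P), p⁻¹) = ((1 : P), p)⁻¹ := by simp
    rw [e3]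
    group
  simp_rw [a2]
  have mtk2 : ∀ V : D.Γ, Measurable fun t : ((P × H) × (P × H)) × H =>
      D.tk k' m (t.1.1⁻¹ * (V : P × H) * t.1.2 * ((1 : P), t.2⁻¹)) * F V t.1.1 t.1.2 := by
    intro V
    refine Measurable.mul (htk.comp ?_) ((hF V).comp measurable_fst)
    exact ((((measurable_fst.comp measurable_fst).inv.mul_const _).mul
        (measurable_snd.comp measurable_fst))).mul (tele_pair.comp measurable_snd.inv)
  rw [← tele_swap3 D hD hc hσ (teleW D N) (fun V x y p =>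
    D.tk k' m (x⁻¹ * (V : P × H) * y * ((1 : P), p⁻¹)) * F V x y) mtk2]
  congr 1
  funext x
  congr 1
  funext y
  refine tsum_congr fun V => ?_
  have m4 : Measurable fun p : H => D.tk k' m (x⁻¹ * (V : P × H) * y * ((1 : P), p)) :=
    htk.comp (tele_pair.const_mul _)
  have m3 : Measurable fun p : H => D.tk k' m (x⁻¹ * (V : P × H) * y * ((1 : P), p⁻¹)) :=
    m4.comp measurable_inv
  rw [lintegral_mul_const _ m3, tele_inv D hD hnm hsym N _ m4,
    tele_tkR D hnm hmg6 k' hk' m N hm hN]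

/-- `∫ ν^(m)(p) (tk k n)((x (1,p))⁻¹ w) = tk k (n + m) (x⁻¹ w)`. -/
private theorem tele_tkL' (D : Dat P H) (hD : D.Ok) (hnm : ∀ n, Measurable (D.nu n))
    (hsym : ∀ n h, D.nu n h⁻¹ = D.nu n h)
    (hcv : ∀ n m, 1 ≤ n → 1 ≤ m → ∀ h,
      ∫⁻ q, D.nu n q * D.nu m (q⁻¹ * h) ∂D.μ₂ = D.nu (n + m) h)
    (k : P → ℝ≥0∞) (hk : Measurable k) (n m : ℕ) (hn : 1 ≤ n) (hm : 1 ≤ m) (x w : P × H) :
    ∫⁻ h, D.tk k n ((x * ((1 : P), h))⁻¹ * w) ∂(teleW D m) = D.tk k (n + m) (x⁻¹ * w) := by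
  rw [← tele_tkL D hD hnm hsym hcv k hk n m hn hm (x⁻¹ * w)]
  have h1 : Measurable fun h : H => D.tk k n (((1 : P), h) * (x⁻¹ * w)) :=
    (tele_tk_meas D hnm k hk n).comp (tele_pair.mul_const _)
  rw [← tele_inv D hD hnm hsym m _ h1]
  refine lintegral_congr fun h => ?_
  congr 1
  have e3 : ((1 : P), h⁻¹) = ((1 : P), h)⁻¹ := by simp
  rw [e3]
  group

/-- One step. -/
private theorem tele_step (D : Dat P H) (hD : D.Ok) (hc : Countable D.Γ) (hσ₂ : SigmaFinite D.μ₂)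
    (hnm : ∀ n, Measurable (D.nu n))
    (hcv : ∀ n m, 1 ≤ n → 1 ≤ m → ∀ h,
      ∫⁻ q, D.nu n q * D.nu m (q⁻¹ * h) ∂D.μ₂ = D.nu (n + m) h)
    (hint : ∀ n, ∫⁻ h, D.nu n h ∂D.μ₂ = 1)
    (K : P × H → ℝ≥0∞) (hK : Measurable K) (ψ : D.Γ → D.Γ → ℝ)
    (h0 : ∀ x y, D.N K x y ≠ 0) (ht : ∀ x y, D.N K x y ≠ ∞) (N : ℕ) (hN : 1 ≤ N)
    (V : D.Γ) (x y : P × H) :
    teleS D K ψ (N + 1) V x y ≤ (∫⁻ q, teleS D K ψ 1 V x (y * ((1 : P), q)) ∂(teleW D N)) +
      ∫⁻ p, teleS D K ψ N V (x * ((1 : P), p)) y ∂(teleW D 1) := by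
  haveI := tele_prob D hint N
  haveI := tele_prob D hint 1
  haveI := tele_prob D hint (N + 1)
  have hSd : ∀ (N : ℕ) (x y : P × H), teleS D K ψ N V x y = ∫⁻ p, ∫⁻ q,
      teleD D K ψ V x (y * ((1 : P), q)) (x * ((1 : P), p)) y ∂(teleW D N) ∂(teleW D N) := by
    intro N x y
    unfold teleS
    rfl
  -- the integrand
  have c1 : ∀ z : P × H, Measurable fun t : H × H => z * ((1 : P), t.1) := fun z =>
    (tele_pair.comp measurable_fst).const_mul z
  have c2 : ∀ z : P × H, Measurable fun t : H × H => z * ((1 : P), t.2) := fun z =>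
    (tele_pair.comp measurable_snd).const_mul z
  have cc : ∀ z : P × H, Measurable fun _ : H × H => z := fun z => measurable_const
  have m0 : Measurable fun t : H × H =>
      teleD D K ψ V x (y * ((1 : P), t.2)) (x * ((1 : P), t.1)) y := by
    have h := tele_D_meas D hc K hK ψ V (fun _ => x) (fun t : H × H => y * ((1 : P), t.2))
      (fun t => x * ((1 : P), t.1)) (fun _ => y) (cc x) (c2 y) (c1 x) (cc y)
    exact h
  have m1 : ∀ p : H, Measurable fun q : H =>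
      teleD D K ψ V x (y * ((1 : P), q)) (x * ((1 : P), p)) y := by
    intro p
    have h1 : Measurable fun q : H => ((p, q) : H × H) := measurable_const.prodMk measurable_id
    exact m0.comp h1
  have e1 : teleS D K ψ (N + 1) V x y = ∫⁻ p₁, ∫⁻ p₂, ∫⁻ q₁, ∫⁻ h,
      teleD D K ψ V x (y * ((1 : P), q₁ * h)) (x * ((1 : P), p₁ * p₂)) y
        ∂(teleW D 1) ∂(teleW D N) ∂(teleW D N) ∂(teleW D 1) := by
    have e2 : ∀ p, ∫⁻ q, teleD D K ψ V x (y * ((1 : P), q)) (x * ((1 : P), p)) y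
        ∂(teleW D (N + 1)) = ∫⁻ q₁, ∫⁻ h,
          teleD D K ψ V x (y * ((1 : P), q₁ * h)) (x * ((1 : P), p)) y
            ∂(teleW D 1) ∂(teleW D N) := fun p =>
      tele_conv D hD hσ₂ hnm hcv hint N 1 hN le_rfl _ (m1 p)
    have m2 : Measurable fun p => ∫⁻ q, teleD D K ψ V x (y * ((1 : P), q)) (x * ((1 : P), p)) y
        ∂(teleW D (N + 1)) := m0.lintegral_prod_right'
    have e3 := tele_conv D hD hσ₂ hnm hcv hint 1 N le_rfl hN _ m2
    rw [add_comm 1 N] at e3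
    rw [hSd, e3]
    refine lintegral_congr fun p₁ => lintegral_congr fun p₂ => ?_
    exact e2 (p₁ * p₂)
  -- the triangle inequality
  have hsplit : ∀ (z : P × H) (a b : H), z * ((1 : P), a * b) = z * ((1 : P), a) * ((1 : P), b) := by
    intro z a b
    exact Prod.ext (by simp) (by simp [mul_assoc])
  have e4 : ∀ p₁ p₂ q₁ h : H,
      teleD D K ψ V x (y * ((1 : P), q₁ * h)) (x * ((1 : P), p₁ * p₂)) y ≤
        teleD D K ψ V x (y * ((1 : P), q₁) * ((1 : P), h)) (x * ((1 : P), p₁)) (y * ((1 : P), q₁)) +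
        teleD D K ψ V (x * ((1 : P), p₁)) (y * ((1 : P), q₁))
          (x * ((1 : P), p₁) * ((1 : P), p₂)) y := by
    intro p₁ p₂ q₁ h
    rw [hsplit, hsplit]
    exact tele_D_tri D K ψ h0 ht V _ _ _ _ _ _
  have mB : ∀ p₁, Measurable fun t : H × H => teleD D K ψ V (x * ((1 : P), p₁))
      (y * ((1 : P), t.2)) (x * ((1 : P), p₁) * ((1 : P), t.1)) y := by
    intro p₁
    have h := tele_D_meas D hc K hK ψ V (fun _ => x * ((1 : P), p₁))
      (fun t : H × H => y * ((1 : P), t.2))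
      (fun t => x * ((1 : P), p₁) * ((1 : P), t.1)) (fun _ => y) (cc _) (c2 y) (c1 _) (cc y)
    exact h
  have mS : Measurable fun p₁ : H => teleS D K ψ N V (x * ((1 : P), p₁)) y := by
    have h1 : Measurable fun p₁ : H => ((x * ((1 : P), p₁), y) : (P × H) × (P × H)) :=
      (tele_pair.const_mul x).prodMk measurable_const
    exact (tele_S_meas D hc hint K hK ψ N V).comp h1
  rw [e1]
  calc ∫⁻ p₁, ∫⁻ p₂, ∫⁻ q₁, ∫⁻ h,
      teleD D K ψ V x (y * ((1 : P), q₁ * h)) (x * ((1 : P), p₁ * p₂)) y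
        ∂(teleW D 1) ∂(teleW D N) ∂(teleW D N) ∂(teleW D 1)
      ≤ ∫⁻ p₁, ∫⁻ p₂, ∫⁻ q₁, ∫⁻ h,
        (teleD D K ψ V x (y * ((1 : P), q₁) * ((1 : P), h)) (x * ((1 : P), p₁))
          (y * ((1 : P), q₁)) +
        teleD D K ψ V (x * ((1 : P), p₁)) (y * ((1 : P), q₁))
          (x * ((1 : P), p₁) * ((1 : P), p₂)) y)
        ∂(teleW D 1) ∂(teleW D N) ∂(teleW D N) ∂(teleW D 1) :=
        lintegral_mono fun p₁ => lintegral_mono fun p₂ => lintegral_mono fun q₁ =>
          lintegral_mono fun h => e4 p₁ p₂ q₁ h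
    _ = ∫⁻ p₁, ∫⁻ p₂, ∫⁻ q₁, ((∫⁻ h,
        teleD D K ψ V x (y * ((1 : P), q₁) * ((1 : P), h)) (x * ((1 : P), p₁))
          (y * ((1 : P), q₁)) ∂(teleW D 1)) +
        teleD D K ψ V (x * ((1 : P), p₁)) (y * ((1 : P), q₁))
          (x * ((1 : P), p₁) * ((1 : P), p₂)) y)
        ∂(teleW D N) ∂(teleW D N) ∂(teleW D 1) := by
        refine lintegral_congr fun p₁ => lintegral_congr fun p₂ => lintegral_congr fun q₁ => ?_
        rw [lintegral_add_right _ measurable_const, lintegral_const, measure_univ, mul_one]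
    _ = ∫⁻ p₁, ∫⁻ p₂, ((∫⁻ q₁, ∫⁻ h,
        teleD D K ψ V x (y * ((1 : P), q₁) * ((1 : P), h)) (x * ((1 : P), p₁))
          (y * ((1 : P), q₁)) ∂(teleW D 1) ∂(teleW D N)) +
        ∫⁻ q₁, teleD D K ψ V (x * ((1 : P), p₁)) (y * ((1 : P), q₁))
          (x * ((1 : P), p₁) * ((1 : P), p₂)) y ∂(teleW D N))
        ∂(teleW D N) ∂(teleW D 1) := by
        refine lintegral_congr fun p₁ => lintegral_congr fun p₂ => ?_
        have h1 : Measurable fun q₁ : H => ((p₂, q₁) : H × H) :=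
          measurable_const.prodMk measurable_id
        have h2 : Measurable fun q₁ : H => teleD D K ψ V (x * ((1 : P), p₁)) (y * ((1 : P), q₁))
          (x * ((1 : P), p₁) * ((1 : P), p₂)) y := (mB p₁).comp h1
        exact lintegral_add_right _ h2
    _ = ∫⁻ p₁, ((∫⁻ q₁, ∫⁻ h,
        teleD D K ψ V x (y * ((1 : P), q₁) * ((1 : P), h)) (x * ((1 : P), p₁))
          (y * ((1 : P), q₁)) ∂(teleW D 1) ∂(teleW D N)) +
        teleS D K ψ N V (x * ((1 : P), p₁)) y) ∂(teleW D 1) := by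
        refine lintegral_congr fun p₁ => ?_
        rw [lintegral_add_left measurable_const, lintegral_const, measure_univ, mul_one, hSd]
    _ = (∫⁻ p₁, ∫⁻ q₁, ∫⁻ h,
        teleD D K ψ V x (y * ((1 : P), q₁) * ((1 : P), h)) (x * ((1 : P), p₁))
          (y * ((1 : P), q₁)) ∂(teleW D 1) ∂(teleW D N) ∂(teleW D 1)) +
        ∫⁻ p₁, teleS D K ψ N V (x * ((1 : P), p₁)) y ∂(teleW D 1) := by
        rw [lintegral_add_right _ mS]
    _ = _ := by
        congr 1
        rw [lintegral_lintegral_swap]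
        · exact lintegral_congr fun q => (hSd 1 x (y * ((1 : P), q))).symm
        have h1 : Measurable fun t : (H × H) × H => teleD D K ψ V x
            (y * ((1 : P), t.1.2) * ((1 : P), t.2)) (x * ((1 : P), t.1.1))
              (y * ((1 : P), t.1.2)) := by
          have d1 : Measurable fun t : (H × H) × H => y * ((1 : P), t.1.2) * ((1 : P), t.2) :=
            ((tele_pair.comp (measurable_snd.comp measurable_fst)).const_mul y).mul
              (tele_pair.comp measurable_snd)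
          have d2 : Measurable fun t : (H × H) × H => x * ((1 : P), t.1.1) :=
            (tele_pair.comp (measurable_fst.comp measurable_fst)).const_mul x
          have d3 : Measurable fun t : (H × H) × H => y * ((1 : P), t.1.2) :=
            (tele_pair.comp (measurable_snd.comp measurable_fst)).const_mul y
          have d4 : Measurable fun _ : (H × H) × H => x := measurable_const
          have h := tele_D_meas D hc K hK ψ V (fun _ : (H × H) × H => x)
            (fun t => y * ((1 : P), t.1.2) * ((1 : P), t.2)) (fun t => x * ((1 : P), t.1.1))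
            (fun t => y * ((1 : P), t.1.2)) d4 d1 d2 d3
          exact h
        exact (h1.lintegral_prod_right' (ν := teleW D 1)).aemeasurable

private theorem tele_J_mono (D : Dat P H) (k' : P → ℝ≥0∞) (m : ℕ)
    (F G : D.Γ → P × H → P × H → ℝ≥0∞) (h : ∀ V x y, F V x y ≤ G V x y) :
    teleJ D k' m F ≤ teleJ D k' m G := by
  unfold teleJ
  refine tele_IM_mono D _ _ fun x => tele_IM_mono D _ _ fun y => ENNReal.tsum_le_tsum fun V => ?_
  exact mul_le_mul_right (h V x y) _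

private theorem tele_J_add (D : Dat P H) (hD : D.Ok) (hc : Countable D.Γ) (hσ : SigmaFinite D.μ)
    (hnm : ∀ n, Measurable (D.nu n)) (k' : P → ℝ≥0∞) (hk' : Measurable k') (m : ℕ)
    (F G : D.Γ → P × H → P × H → ℝ≥0∞)
    (hF : ∀ V, Measurable fun q : (P × H) × (P × H) => F V q.1 q.2) :
    teleJ D k' m (fun V x y => F V x y + G V x y) = teleJ D k' m F + teleJ D k' m G := by
  have htk := tele_tk_meas D hnm k' hk' m
  have mm : Measurable fun t : (P × H) × (P × H) => ∑' V : D.Γ,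
      D.tk k' m (t.1⁻¹ * (V : P × H) * t.2) * F V t.1 t.2 :=
    Measurable.tsum fun V => (htk.comp ((measurable_fst.inv.mul_const _).mul measurable_snd)).mul
      (hF V)
  have h2 : ∀ x, Measurable fun y : P × H => ∑' V : D.Γ,
      D.tk k' m (x⁻¹ * (V : P × H) * y) * F V x y := by
    intro x
    have h3 : Measurable fun y : P × H => ((x, y) : (P × H) × (P × H)) :=
      measurable_const.prodMk measurable_id
    exact mm.comp h3
  have e1 : ∀ x, D.IM (fun y => ∑' V : D.Γ, D.tk k' m (x⁻¹ * (V : P × H) * y) *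
      (F V x y + G V x y)) =
      D.IM (fun y => ∑' V : D.Γ, D.tk k' m (x⁻¹ * (V : P × H) * y) * F V x y) +
      D.IM (fun y => ∑' V : D.Γ, D.tk k' m (x⁻¹ * (V : P × H) * y) * G V x y) := by
    intro x
    unfold Dat.IM
    have h4 : Measurable fun y : P × H => D.χ y * ∑' V : D.Γ,
        D.tk k' m (x⁻¹ * (V : P × H) * y) * F V x y := hD.χm.mul (h2 x)
    rw [← lintegral_add_left h4]
    refine lintegral_congr fun y => ?_
    rw [← mul_add, ← ENNReal.tsum_add]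
    congr 1
    exact tsum_congr fun V => mul_add _ _ _
  unfold teleJ
  simp_rw [e1]
  unfold Dat.IM
  have h5 := tele_IM_meas D hσ hD.χm (fun x y => ∑' V : D.Γ,
      D.tk k' m (x⁻¹ * (V : P × H) * y) * F V x y) mm
  have h6 : Measurable fun x : P × H => D.χ x * ∫⁻ y, D.χ y * ∑' V : D.Γ,
      D.tk k' m (x⁻¹ * (V : P × H) * y) * F V x y ∂D.μ := hD.χm.mul h5
  rw [← lintegral_add_left h6]
  exact lintegral_congr fun x => mul_add _ _ _

private theorem tele_ind (D : Dat P H) (hD : D.Ok) (hc : Countable D.Γ) (hσ : SigmaFinite D.μ)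
    (hσ₂ : SigmaFinite D.μ₂)
    (hIM : ∀ f : P × H → ℝ≥0∞, Measurable f → (∀ γ ∈ D.Γ, ∀ x, f (γ * x) = f x) →
      ∀ g : P × H, D.IM (fun x => f (x * g)) = D.IM f)
    (hnm : ∀ n, Measurable (D.nu n))
    (hint : ∀ n, ∫⁻ h, D.nu n h ∂D.μ₂ = 1)
    (hsym : ∀ n h, D.nu n h⁻¹ = D.nu n h)
    (hcv : ∀ n m, 1 ≤ n → 1 ≤ m → ∀ h,
      ∫⁻ q, D.nu n q * D.nu m (q⁻¹ * h) ∂D.μ₂ = D.nu (n + m) h)
    (hmg6 : ∀ (k : P → ℝ≥0∞) (n m : ℕ), 1 ≤ n → 1 ≤ m → ∀ g : P × H,
      ∫⁻ h, D.nu m h * D.tk k n (g * ((1 : P), h)) ∂D.μ₂ = D.tk k (n + m) g)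
    (k' : P → ℝ≥0∞) (hk' : Measurable k')
    (K : P × H → ℝ≥0∞) (hK : Measurable K) (ψ : D.Γ → D.Γ → ℝ)
    (hψ : ∀ γ γ' c V, ψ (γ * c * γ') (γ * V * γ') = ψ c V)
    (h0 : ∀ x y, D.N K x y ≠ 0) (ht : ∀ x y, D.N K x y ≠ ∞) (N : ℕ) (hN : 1 ≤ N) :
    ∀ m, 1 ≤ m → teleJ D k' m (teleS D K ψ N) ≤
      N * teleJ D k' (m + N - 1) (teleS D K ψ 1) := by
  induction N, hN using Nat.le_induction with
  | base =>
    intro m hm
    rw [Nat.add_sub_cancel, Nat.cast_one, one_mul]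
  | succ N hN ih =>
    intro m hm
    have e1 := tele_J_mono D k' m (teleS D K ψ (N + 1))
      (fun V x y => (∫⁻ q, teleS D K ψ 1 V x (y * ((1 : P), q)) ∂(teleW D N)) +
        ∫⁻ p, teleS D K ψ N V (x * ((1 : P), p)) y ∂(teleW D 1))
      (fun V x y => tele_step D hD hc hσ₂ hnm hcv hint K hK ψ h0 ht N hN V x y)
    haveI := tele_prob D hint N
    have mB : ∀ V, Measurable fun q : (P × H) × (P × H) =>
        ∫⁻ p, teleS D K ψ 1 V q.1 (q.2 * ((1 : P), p)) ∂(teleW D N) := by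
      intro V
      have h1 : Measurable fun t : ((P × H) × (P × H)) × H => t.1.2 * ((1 : P), t.2) :=
        (measurable_snd.comp measurable_fst).mul (tele_pair.comp measurable_snd)
      have h2 : Measurable fun t : ((P × H) × (P × H)) × H => t.1.1 :=
        measurable_fst.comp measurable_fst
      have h3 := (tele_S_meas D hc hint K hK ψ 1 V).comp (h2.prodMk h1)
      exact h3.lintegral_prod_right'
    have e2 := tele_J_add D hD hc hσ hnm k' hk' m
      (fun V x y => ∫⁻ q, teleS D K ψ 1 V x (y * ((1 : P), q)) ∂(teleW D N))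
      (fun V x y => ∫⁻ p, teleS D K ψ N V (x * ((1 : P), p)) y ∂(teleW D 1)) mB
    have e3 := tele_JB D hD hc hσ hIM hnm hint hsym hmg6 k' hk' m N hm hN (teleS D K ψ 1)
      (tele_S_meas D hc hint K hK ψ 1) (tele_S_R D K ψ hψ 1)
    have e4 := tele_JA D hD hc hσ hIM hnm hint hsym hcv k' hk' m 1 hm le_rfl (teleS D K ψ N)
      (tele_S_meas D hc hint K hK ψ N) (tele_S_L D K ψ hψ N)
    have e5 := ih (m + 1) (by omega)
    rw [e2, e3, e4] at e1
    have e6 : m + 1 + N - 1 = m + N := by omega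
    have e7 : m + (N + 1) - 1 = m + N := by omega
    rw [e6] at e5
    rw [e7]
    calc teleJ D k' m (teleS D K ψ (N + 1)) ≤ teleJ D k' (m + N) (teleS D K ψ 1) +
          teleJ D k' (m + 1) (teleS D K ψ N) := e1
      _ ≤ teleJ D k' (m + N) (teleS D K ψ 1) + N * teleJ D k' (m + N) (teleS D K ψ 1) := by
          gcongr
      _ = ((N + 1 : ℕ) : ℝ≥0∞) * teleJ D k' (m + N) (teleS D K ψ 1) := by
          push_cast
          ring

/-- Lower bound for the normalisation. -/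
private theorem tele_q (D : Dat P H) (hc : Countable D.Γ) (hnm : ∀ n, Measurable (D.nu n))
    (k : P → ℝ≥0∞) (hk : Measurable k) (b : ℕ) (ψ : D.Γ → D.Γ → ℝ) (hν : ∀ h, D.ν h ≠ ∞)
    (hint : ∀ n, ∫⁻ h, D.nu n h ∂D.μ₂ = 1)
    (cm : ℝ≥0∞) (hcm : 0 < cm) (hN : ∀ x y, cm ≤ D.N (D.tk k b) x y) (V : D.Γ) (x y : P × H) :
    teleS D (D.tk k b) ψ 1 V x y ≤ cm⁻¹ * cm⁻¹ * D.q1 k b ψ V x y := by
  haveI := tele_prob D hint 1
  have hK := tele_tk_meas D hnm k hk b
  have d1 : Measurable fun t : H × H => y * ((1 : P), t.2) :=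
    (tele_pair.comp measurable_snd).const_mul y
  have d2 : Measurable fun t : H × H => x * ((1 : P), t.1) :=
    (tele_pair.comp measurable_fst).const_mul x
  have mE : Measurable fun t : H × H => teleE D (D.tk k b) ψ V x (y * ((1 : P), t.2))
      (x * ((1 : P), t.1)) y := by
    have h := tele_E_meas D hc (D.tk k b) hK ψ V (fun _ : H × H => x)
      (fun t : H × H => y * ((1 : P), t.2)) (fun t => x * ((1 : P), t.1)) (fun _ => y)
      measurable_const d1 d2 measurable_const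
    exact h
  have hcm' : cm⁻¹ ≠ ∞ := ENNReal.inv_ne_top.mpr hcm.ne'
  have hcm2 : cm⁻¹ * cm⁻¹ ≠ ∞ := ENNReal.mul_ne_top hcm' hcm'
  have e1 : teleS D (D.tk k b) ψ 1 V x y ≤ cm⁻¹ * cm⁻¹ * ∫⁻ p, ∫⁻ q,
      teleE D (D.tk k b) ψ V x (y * ((1 : P), q)) (x * ((1 : P), p)) y
        ∂(teleW D 1) ∂(teleW D 1) := by
    unfold teleS
    rw [← lintegral_const_mul' _ _ hcm2]
    refine lintegral_mono fun p => ?_
    rw [← lintegral_const_mul' _ _ hcm2]
    refine lintegral_mono fun q => ?_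
    unfold teleD
    gcongr
    · exact hN _ _
    · exact hN _ _
  refine e1.trans (mul_le_mul_right (le_of_eq ?_) _)
  have m1 : ∀ p : H, Measurable fun q : H => teleE D (D.tk k b) ψ V x (y * ((1 : P), q))
      (x * ((1 : P), p)) y := by
    intro p
    have h1 : Measurable fun q : H => ((p, q) : H × H) := measurable_const.prodMk measurable_id
    exact mE.comp h1
  have m2 : Measurable fun p => ∫⁻ q, teleE D (D.tk k b) ψ V x (y * ((1 : P), q))
      (x * ((1 : P), p)) y ∂(teleW D 1) := mE.lintegral_prod_right'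
  have hν1 : D.nu 1 = D.ν := rfl
  rw [tele_lint D hnm 1 _ m2]
  unfold Dat.q1
  refine lintegral_congr fun p => ?_
  rw [tele_lint D hnm 1 _ (m1 p), hν1, ← lintegral_const_mul' _ _ (hν p)]
  refine lintegral_congr fun q => ?_
  rw [← mul_assoc]
  congr 1
  unfold teleE
  rw [ENNReal.tsum_comm]
  refine tsum_congr fun c => tsum_congr fun c' => ?_
  have e2 : ab (ψ c' V - ψ c V) = ab (ψ c V - ψ c' V) := by
    unfold ab
    rw [abs_sub_comm]
  rw [e2, mul_comm (D.tk k b (x⁻¹ * (c' : P × H) * (y * ((1 : P), q))))]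

/-- Upper bound. -/
private theorem tele_up (D : Dat P H) (hD : D.Ok) (hc : Countable D.Γ)
    (hnm : ∀ n, Measurable (D.nu n))
    (hsym : ∀ n h, D.nu n h⁻¹ = D.nu n h)
    (hint : ∀ n, ∫⁻ h, D.nu n h ∂D.μ₂ = 1)
    (hcv : ∀ n m, 1 ≤ n → 1 ≤ m → ∀ h,
      ∫⁻ q, D.nu n q * D.nu m (q⁻¹ * h) ∂D.μ₂ = D.nu (n + m) h)
    (hmg6 : ∀ (k : P → ℝ≥0∞) (n m : ℕ), 1 ≤ n → 1 ≤ m → ∀ g : P × H,
      ∫⁻ h, D.nu m h * D.tk k n (g * ((1 : P), h)) ∂D.μ₂ = D.tk k (n + m) g)
    (k : P → ℝ≥0∞) (hk : Measurable k) (b N : ℕ) (hb : 1 ≤ b) (hN : 1 ≤ N)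
    (ψ : D.Γ → D.Γ → ℝ) (cp : ℝ≥0∞) (hcp : cp ≠ ∞)
    (h0 : ∀ x y, D.N (D.tk k b) x y ≠ 0)
    (hNc : ∀ x y, D.N (D.tk k b) x y ≤ cp) (V : D.Γ) (x y : P × H) :
    D.st2 (D.tk k (b + N)) (D.tk k (b + N)) x y (fun u u' => ab (ψ u V - ψ u' V)) ≤
      cp ^ 2 * teleS D (D.tk k b) ψ N V x y := by
  haveI := tele_prob D hint N
  have hK := tele_tk_meas D hnm k hk b
  have ht : ∀ x y, D.N (D.tk k b) x y ≠ ∞ := fun x y => ne_top_of_le_ne_top hcp (hNc x y)
  have mq : ∀ u : P × H, Measurable fun q : H => D.tk k b (x⁻¹ * u * (y * ((1 : P), q))) := by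
    intro u
    exact hK.comp ((tele_pair.const_mul y).const_mul _)
  have mp : ∀ u : P × H, Measurable fun p : H => D.tk k b ((x * ((1 : P), p))⁻¹ * u * y) := by
    intro u
    exact hK.comp (((tele_pair.const_mul x).inv.mul_const _).mul_const _)
  have eq1 : ∀ u : P × H, D.tk k (b + N) (x⁻¹ * u * y) =
      ∫⁻ q, D.tk k b (x⁻¹ * u * (y * ((1 : P), q))) ∂(teleW D N) := by
    intro u
    rw [← tele_tkR D hnm hmg6 k hk b N hb hN (x⁻¹ * u * y)]
    refine lintegral_congr fun q => ?_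
    rw [mul_assoc (x⁻¹ * u) y]
  have eq2 : ∀ u : P × H, D.tk k (b + N) (x⁻¹ * u * y) =
      ∫⁻ p, D.tk k b ((x * ((1 : P), p))⁻¹ * u * y) ∂(teleW D N) := by
    intro u
    rw [mul_assoc, ← tele_tkL' D hD hnm hsym hcv k hk b N hb hN x (u * y)]
    refine lintegral_congr fun p => ?_
    rw [mul_assoc]
  have e1 : D.st2 (D.tk k (b + N)) (D.tk k (b + N)) x y (fun u u' => ab (ψ u V - ψ u' V)) =
      ∫⁻ p, ∫⁻ q, teleE D (D.tk k b) ψ V x (y * ((1 : P), q)) (x * ((1 : P), p)) y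
        ∂(teleW D N) ∂(teleW D N) := by
    unfold Dat.st2 teleE
    have s1 : ∀ p : H, ∫⁻ q, ∑' c : D.Γ, ∑' c' : D.Γ,
        D.tk k b (x⁻¹ * (c : P × H) * (y * ((1 : P), q))) *
          D.tk k b ((x * ((1 : P), p))⁻¹ * (c' : P × H) * y) * ab (ψ c V - ψ c' V)
          ∂(teleW D N) = ∑' c : D.Γ, ∑' c' : D.Γ,
        D.tk k (b + N) (x⁻¹ * (c : P × H) * y) *
          D.tk k b ((x * ((1 : P), p))⁻¹ * (c' : P × H) * y) * ab (ψ c V - ψ c' V) := by
      intro p
      rw [lintegral_tsum]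
      · refine tsum_congr fun c => ?_
        rw [lintegral_tsum]
        · refine tsum_congr fun c' => ?_
          rw [lintegral_mul_const _ ((mq c).mul_const _), lintegral_mul_const _ (mq c), ← eq1]
        · intro c'
          exact (((mq c).mul_const _).mul_const _).aemeasurable
      · intro c
        exact (Measurable.tsum fun c' => (((mq c).mul_const _).mul_const _)).aemeasurable
    simp_rw [s1]
    rw [lintegral_tsum]
    · refine tsum_congr fun c => ?_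
      rw [lintegral_tsum]
      · refine tsum_congr fun c' => ?_
        rw [lintegral_mul_const _ ((mp c').const_mul _), lintegral_const_mul _ (mp c'), ← eq2]
      · intro c'
        exact (((mp c').const_mul _).mul_const _).aemeasurable
    · intro c
      exact (Measurable.tsum fun c' : D.Γ => (((mp c').const_mul _).mul_const _)).aemeasurable
  rw [e1]
  unfold teleS
  have hcp2 : cp ^ 2 ≠ ∞ := ENNReal.pow_ne_top hcp
  rw [← lintegral_const_mul' _ _ hcp2]
  refine lintegral_mono fun p => ?_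
  rw [← lintegral_const_mul' _ _ hcp2]
  refine lintegral_mono fun q => ?_
  unfold teleD
  set n1 := D.N (D.tk k b) x (y * ((1 : P), q)) with hn1
  set n2 := D.N (D.tk k b) (x * ((1 : P), p)) y with hn2
  set E := teleE D (D.tk k b) ψ V x (y * ((1 : P), q)) (x * ((1 : P), p)) y with hE
  calc E = (n1⁻¹ * n1) * (n2⁻¹ * n2) * E := by
        rw [ENNReal.inv_mul_cancel (h0 _ _) (ht _ _), ENNReal.inv_mul_cancel (h0 _ _) (ht _ _),
          one_mul, one_mul]
    _ = n1 * n2 * (n1⁻¹ * n2⁻¹ * E) := by ring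
    _ ≤ cp ^ 2 * (n1⁻¹ * n2⁻¹ * E) := by
        rw [sq]
        gcongr
        · exact hNc _ _
        · exact hNc _ _

end

section
variable (P H : Type) [Group P] [Group H] [TopologicalSpace P] [TopologicalSpace H]
  [IsTopologicalGroup P] [IsTopologicalGroup H] [LocallyCompactSpace P] [LocallyCompactSpace H]
  [T2Space P] [T2Space H] [SecondCountableTopology P] [SecondCountableTopology H]
  [MeasurableSpace P] [MeasurableSpace H] [BorelSpace P] [BorelSpace H]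

theorem ttele : S_inst P H → S_IM P H → S_nu P H → S_mg P H → S_st P H → S_tele P H := by
  intro hi hIM hnu hmg _ D hD k k' hk hk' b N m cm cp hb hN hm hcm hcp hNK ψ hψ
  obtain ⟨-, hσ₂, hσ, hc, -⟩ := hi D hD
  obtain ⟨hIM1, -⟩ := hIM D hD
  obtain ⟨hnm, -, -, hsym, hint, hcv, -, -⟩ := hnu D hD
  obtain ⟨-, -, -, -, -, hmg6, -, -⟩ := hmg D hD
  have h0 : ∀ x y, D.N (D.tk k b) x y ≠ 0 := fun x y =>
    (lt_of_lt_of_le hcm (hNK x y).1).ne'
  have ht : ∀ x y, D.N (D.tk k b) x y ≠ ∞ := fun x y => ne_top_of_le_ne_top hcp (hNK x y).2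
  have hK := tele_tk_meas D hnm k hk b
  have hcm' : cm⁻¹ ≠ ∞ := ENNReal.inv_ne_top.mpr hcm.ne'
  have hcp2 : cp ^ 2 ≠ ∞ := ENNReal.pow_ne_top hcp
  have hcm2 : cm⁻¹ * cm⁻¹ ≠ ∞ := ENNReal.mul_ne_top hcm' hcm'
  have hscale : ∀ (c : ℝ≥0∞) (hcf : c ≠ ∞) (m : ℕ) (F : D.Γ → P × H → P × H → ℝ≥0∞),
      teleJ D k' m (fun V x y => c * F V x y) = c * teleJ D k' m F := by
    intro c hcf m F
    unfold teleJ Dat.IM
    rw [← lintegral_const_mul' _ _ hcf]
    refine lintegral_congr fun x => ?_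
    rw [← mul_assoc, mul_comm c (D.χ x), mul_assoc, ← lintegral_const_mul' _ _ hcf]
    congr 1
    refine lintegral_congr fun y => ?_
    rw [← mul_assoc, mul_comm c (D.χ y), mul_assoc]
    refine congrArg (fun t => D.χ y * t) ?_
    change ∑' V : D.Γ, D.tk k' m (x⁻¹ * (V : P × H) * y) * (c * F V x y) =
      c * ∑' V : D.Γ, D.tk k' m (x⁻¹ * (V : P × H) * y) * F V x y
    rw [← ENNReal.tsum_mul_left]
    refine tsum_congr fun V => ?_
    ring
  have s1 : D.IM (fun x => D.IM fun y => ∑' V : D.Γ, D.tk k' m (x⁻¹ * (V : P × H) * y) *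
        D.st2 (D.tk k (b + N)) (D.tk k (b + N)) x y fun u u' => ab (ψ u V - ψ u' V)) ≤
      cp ^ 2 * teleJ D k' m (teleS D (D.tk k b) ψ N) := by
    rw [← hscale (cp ^ 2) hcp2]
    exact tele_J_mono D k' m (fun V x y => D.st2 (D.tk k (b + N)) (D.tk k (b + N)) x y
      fun u u' => ab (ψ u V - ψ u' V)) _ fun V x y =>
        tele_up D hD hc hnm hsym hint hcv hmg6 k hk b N hb hN ψ cp hcp h0
          (fun x y => (hNK x y).2) V x y
  have s2 := tele_ind D hD hc hσ hσ₂ hIM1 hnm hint hsym hcv hmg6 k' hk' (D.tk k b) hK ψ hψ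
    h0 ht N hN m hm
  have s3 : teleJ D k' (m + N - 1) (teleS D (D.tk k b) ψ 1) ≤ cm⁻¹ * cm⁻¹ *
      teleJ D k' (m + N - 1) (fun V x y => D.q1 k b ψ V x y) := by
    rw [← hscale (cm⁻¹ * cm⁻¹) hcm2]
    exact tele_J_mono D k' (m + N - 1) _ _ fun V x y =>
      tele_q D hc hnm k hk b ψ hD.νt hint cm hcm (fun x y => (hNK x y).1) V x y
  calc _ ≤ cp ^ 2 * teleJ D k' m (teleS D (D.tk k b) ψ N) := s1
    _ ≤ cp ^ 2 * (N * (cm⁻¹ * cm⁻¹ *
        teleJ D k' (m + N - 1) (fun V x y => D.q1 k b ψ V x y))) := by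
        gcongr
        exact s2.trans (by gcongr)
    _ = (cp / cm) ^ 2 * N * teleJ D k' (m + N - 1) (fun V x y => D.q1 k b ψ V x y) := by
        rw [ENNReal.div_eq_inv_mul, mul_pow]
        ring
    _ = _ := rfl

end

end Pool.Agent.MPEF
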