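import Pool.Agent.Lib.MP_ef3f0f_gt.I.Spec

set_option autoImplicit false
set_option linter.unusedSectionVars false

/-! MP_ef3f0f_gt, part I, module trans: length transfer. -/

namespace Pool.Agent.MPEF

open MeasureTheory Topology
open scoped ENNReal Pointwise

variable (P H : Type) [Group P] [Group H] [TopologicalSpace P] [TopologicalSpace H]
  [IsTopologicalGroup P] [IsTopologicalGroup H] [LocallyCompactSpace P] [LocallyCompactSpace H]
  [T2Space P] [T2Space H] [SecondCountableTopology P] [SecondCountableTopology H]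
  [MeasurableSpace P] [MeasurableSpace H] [BorelSpace P] [BorelSpace H]

/-- The sum with a shifted first kernel. -/
private noncomputable def trans_A (D : Dat P H) (K K' : P × H → ℝ≥0∞) (F : D.Γ → D.Γ → ℝ≥0∞)
    (z : P × H) (p p' : H) (x : P × H) : ℝ≥0∞ :=
  ∑' u : D.Γ, ∑' v : D.Γ, K (((1 : P), p) * (x⁻¹ * (u : P × H) * z)) *
    K' (((1 : P), p') * (x⁻¹ * (v : P × H) * z)) * F u v

private theorem trans_mA (D : Dat P H) [Countable D.Γ] (K K' : P × H → ℝ≥0∞)
    (hK : Measurable K) (hK' : Measurable K') (F : D.Γ → D.Γ → ℝ≥0∞) (z : P × H)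
    (α β : H → H) (hα : Continuous α) (hβ : Continuous β) :
    Measurable fun q : (P × H) × H => trans_A P H D K K' F z (α q.2) (β q.2) q.1 := by
  unfold trans_A
  refine Measurable.ennreal_tsum fun u => Measurable.ennreal_tsum fun v => ?_
  have c1 : ∀ (δ : H → H), Continuous δ → ∀ w : P × H, Continuous fun q : (P × H) × H =>
      (((1 : P), δ q.2) : P × H) * (q.1⁻¹ * w * z) := by
    intro δ hδ w
    exact (continuous_const.prodMk (hδ.comp continuous_snd)).mul
      ((continuous_fst.inv.mul continuous_const).mul continuous_const)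
  exact ((hK.comp (c1 α hα u).measurable).mul (hK'.comp (c1 β hβ v).measurable)).mul_const _

private theorem trans_mA1 (D : Dat P H) [Countable D.Γ] (K K' : P × H → ℝ≥0∞)
    (hK : Measurable K) (hK' : Measurable K') (F : D.Γ → D.Γ → ℝ≥0∞) (z : P × H)
    (p p' : H) : Measurable (trans_A P H D K K' F z p p') := by
  unfold trans_A
  refine Measurable.ennreal_tsum fun u => Measurable.ennreal_tsum fun v => ?_
  have c1 : ∀ (p : H), ∀ w : P × H, Continuous fun x : P × H =>
      (((1 : P), p) : P × H) * (x⁻¹ * w * z) := by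
    intro p w
    exact continuous_const.mul ((continuous_inv.mul continuous_const).mul continuous_const)
  exact ((hK.comp (c1 p u).measurable).mul (hK'.comp (c1 p' v).measurable)).mul_const _

private theorem trans_swap (D : Dat P H) (s2 : SigmaFinite D.μ₂) (s3 : SigmaFinite D.μ)
    (hχ : Measurable D.χ) (ν' : H → ℝ≥0∞) (hν : Measurable ν') (A : P × H → H → ℝ≥0∞)
    (hA : Measurable fun q : (P × H) × H => A q.1 q.2) :
    D.IM (fun x => ∫⁻ p, ν' p * A x p ∂D.μ₂) = ∫⁻ p, ν' p * D.IM (fun x => A x p) ∂D.μ₂ := by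
  unfold Dat.IM
  have e1 : ∀ x, D.χ x * ∫⁻ p, ν' p * A x p ∂D.μ₂ =
      ∫⁻ p, D.χ x * (ν' p * A x p) ∂D.μ₂ := by
    intro x
    have hm : Measurable fun p => ν' p * A x p := hν.mul (hA.comp measurable_prodMk_left)
    rw [lintegral_const_mul _ hm]
  have hj : Measurable fun q : (P × H) × H => D.χ q.1 * (ν' q.2 * A q.1 q.2) :=
    (hχ.comp measurable_fst).mul ((hν.comp measurable_snd).mul hA)
  rw [lintegral_congr e1, lintegral_lintegral_swap hj.aemeasurable]
  refine lintegral_congr fun p => ?_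
  have hm : Measurable fun x => D.χ x * A x p := hχ.mul (hA.comp measurable_prodMk_right)
  rw [← lintegral_const_mul _ hm]
  refine lintegral_congr fun x => ?_
  ring

theorem ttrans (h1 : S_inst P H) (h2 : S_IM P H) (h3 : S_nu P H) (_ : S_mg P H)
    (_ : S_st P H) : S_trans P H := by
  intro D hD k k' hk hk' a m L ha hm hL F hF z
  obtain ⟨s1, s2, s3, cΓ, -, iL, -⟩ := h1 D hD
  obtain ⟨n1, -, -, n4, -, n6, -⟩ := h3 D hD
  have i2 := hD.inv₂
  have hχ := hD.χm
  have mK : Measurable (D.tk k a) := (hk.comp measurable_fst).mul ((n1 a).comp measurable_snd)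
  have mK' : Measurable (D.tk k' m) := (hk'.comp measurable_fst).mul ((n1 m).comp measurable_snd)
  -- the two representations of the longer kernels
  have r1 : ∀ g : P × H, D.tk k' (m + L) g =
      ∫⁻ p, D.nu L p * D.tk k' m (((1 : P), p⁻¹) * g) ∂D.μ₂ := by
    intro g
    unfold Dat.tk
    have e : ∀ p : H, D.nu L p * (k' (((1 : P), p⁻¹) * g).1 * D.nu m (((1 : P), p⁻¹) * g).2) =
        k' g.1 * (D.nu L p * D.nu m (p⁻¹ * g.2)) := by
      intro p
      rw [Prod.fst_mul, Prod.snd_mul, one_mul]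
      ring
    have hme : Measurable fun p : H => D.nu L p * D.nu m (p⁻¹ * g.2) :=
      (n1 L).mul ((n1 m).comp (measurable_inv.mul_const _))
    rw [lintegral_congr e, lintegral_const_mul _ hme, n6 L m hL hm, Nat.add_comm L m]
  have r2 : ∀ g : P × H, D.tk k (a + L) g =
      ∫⁻ p, D.nu L p * D.tk k a (((1 : P), p) * g) ∂D.μ₂ := by
    intro g
    unfold Dat.tk
    have e : ∀ p : H, D.nu L p * (k (((1 : P), p) * g).1 * D.nu a (((1 : P), p) * g).2) =
        k g.1 * (D.nu L p * D.nu a (p * g.2)) := by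
      intro p
      rw [Prod.fst_mul, Prod.snd_mul, one_mul]
      ring
    have hme : Measurable fun p : H => D.nu L p * D.nu a (p * g.2) :=
      (n1 L).mul ((n1 a).comp (measurable_id.mul_const _))
    rw [lintegral_congr e, lintegral_const_mul _ hme]
    have e2 : ∫⁻ p, D.nu L p * D.nu a (p * g.2) ∂D.μ₂ =
        ∫⁻ p, D.nu L p * D.nu a (p⁻¹ * g.2) ∂D.μ₂ := by
      rw [← lintegral_inv_eq_self (μ := D.μ₂) (fun p : H => D.nu L p * D.nu a (p * g.2))]
      refine lintegral_congr fun p => ?_
      rw [n4]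
    rw [e2, n6 L a hL ha, Nat.add_comm L a]
  -- left side
  have l1 : D.IM (fun x => D.st2 (D.tk k a) (D.tk k' (m + L)) x z F) =
      D.IM fun x => ∫⁻ p, D.nu L p * trans_A P H D (D.tk k a) (D.tk k' m) F z 1 p⁻¹ x ∂D.μ₂ := by
    congr 1
    funext x
    unfold Dat.st2 trans_A
    have e1 : ∀ p : H, D.nu L p * (∑' u : D.Γ, ∑' v : D.Γ,
        D.tk k a (((1 : P), (1 : H)) * (x⁻¹ * (u : P × H) * z)) *
          D.tk k' m (((1 : P), p⁻¹) * (x⁻¹ * (v : P × H) * z)) * F u v) =
        ∑' u : D.Γ, ∑' v : D.Γ, (D.tk k a (x⁻¹ * (u : P × H) * z) * F u v) *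
          (D.nu L p * D.tk k' m (((1 : P), p⁻¹) * (x⁻¹ * (v : P × H) * z))) := by
      intro p
      rw [← ENNReal.tsum_mul_left]
      refine tsum_congr fun u => ?_
      rw [← ENNReal.tsum_mul_left]
      refine tsum_congr fun v => ?_
      have e0 : (((1 : P), (1 : H)) : P × H) * (x⁻¹ * (u : P × H) * z) =
          x⁻¹ * (u : P × H) * z := one_mul _
      rw [e0]
      ring
    rw [lintegral_congr e1]
    have hme : ∀ u v : D.Γ, Measurable fun p : H =>
        (D.tk k a (x⁻¹ * (u : P × H) * z) * F u v) *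
          (D.nu L p * D.tk k' m (((1 : P), p⁻¹) * (x⁻¹ * (v : P × H) * z))) := by
      intro u v
      have c : Continuous fun p : H => (((1 : P), p⁻¹) : P × H) * (x⁻¹ * (v : P × H) * z) :=
        (continuous_const.prodMk continuous_inv).mul continuous_const
      exact measurable_const.mul ((n1 L).mul (mK'.comp c.measurable))
    rw [lintegral_tsum fun u => (Measurable.ennreal_tsum fun v => hme u v).aemeasurable]
    refine tsum_congr fun u => ?_
    rw [lintegral_tsum fun v => (hme u v).aemeasurable]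
    refine tsum_congr fun v => ?_
    have hme2 : Measurable fun p : H =>
        D.nu L p * D.tk k' m (((1 : P), p⁻¹) * (x⁻¹ * (v : P × H) * z)) := by
      have c : Continuous fun p : H => (((1 : P), p⁻¹) : P × H) * (x⁻¹ * (v : P × H) * z) :=
        (continuous_const.prodMk continuous_inv).mul continuous_const
      exact (n1 L).mul (mK'.comp c.measurable)
    rw [lintegral_const_mul _ hme2, ← r1]
    ring
  have l2 : D.IM (fun x => D.st2 (D.tk k (a + L)) (D.tk k' m) x z F) =
      D.IM fun x => ∫⁻ p, D.nu L p * trans_A P H D (D.tk k a) (D.tk k' m) F z p 1 x ∂D.μ₂ := by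
    congr 1
    funext x
    unfold Dat.st2 trans_A
    have e1 : ∀ p : H, D.nu L p * (∑' u : D.Γ, ∑' v : D.Γ,
        D.tk k a (((1 : P), p) * (x⁻¹ * (u : P × H) * z)) *
          D.tk k' m (((1 : P), (1 : H)) * (x⁻¹ * (v : P × H) * z)) * F u v) =
        ∑' u : D.Γ, ∑' v : D.Γ, (D.tk k' m (x⁻¹ * (v : P × H) * z) * F u v) *
          (D.nu L p * D.tk k a (((1 : P), p) * (x⁻¹ * (u : P × H) * z))) := by
      intro p
      rw [← ENNReal.tsum_mul_left]
      refine tsum_congr fun u => ?_
      rw [← ENNReal.tsum_mul_left]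
      refine tsum_congr fun v => ?_
      have e0 : (((1 : P), (1 : H)) : P × H) * (x⁻¹ * (v : P × H) * z) =
          x⁻¹ * (v : P × H) * z := one_mul _
      rw [e0]
      ring
    rw [lintegral_congr e1]
    have hme2 : ∀ u : D.Γ, Measurable fun p : H =>
        D.nu L p * D.tk k a (((1 : P), p) * (x⁻¹ * (u : P × H) * z)) := by
      intro u
      have c : Continuous fun p : H => (((1 : P), p) : P × H) * (x⁻¹ * (u : P × H) * z) :=
        (continuous_const.prodMk continuous_id).mul continuous_const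
      exact (n1 L).mul (mK.comp c.measurable)
    have hme : ∀ u v : D.Γ, Measurable fun p : H =>
        (D.tk k' m (x⁻¹ * (v : P × H) * z) * F u v) *
          (D.nu L p * D.tk k a (((1 : P), p) * (x⁻¹ * (u : P × H) * z))) :=
      fun u v => measurable_const.mul (hme2 u)
    rw [lintegral_tsum fun u => (Measurable.ennreal_tsum fun v => hme u v).aemeasurable]
    refine tsum_congr fun u => ?_
    rw [lintegral_tsum fun v => (hme u v).aemeasurable]
    refine tsum_congr fun v => ?_
    rw [lintegral_const_mul _ (hme2 u), ← r2]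
    ring
  -- exchange of the integrals
  have ex : ∀ (α β : H → H), Continuous α → Continuous β →
      D.IM (fun x => ∫⁻ p, D.nu L p *
        trans_A P H D (D.tk k a) (D.tk k' m) F z (α p) (β p) x ∂D.μ₂) =
      ∫⁻ p, D.nu L p * D.IM (trans_A P H D (D.tk k a) (D.tk k' m) F z (α p) (β p)) ∂D.μ₂ := by
    intro α β hα hβ
    exact trans_swap P H D s2 s3 hχ (D.nu L) (n1 L)
      (fun x p => trans_A P H D (D.tk k a) (D.tk k' m) F z (α p) (β p) x)
      (trans_mA P H D (D.tk k a) (D.tk k' m) mK mK' F z α β hα hβ)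
  rw [l1, l2, ex (fun _ => 1) (fun p => p⁻¹) continuous_const continuous_inv,
    ex (fun p => p) (fun _ => 1) continuous_id continuous_const]
  refine lintegral_congr fun p => ?_
  congr 1
  have hsh := (h2 D hD).1 (trans_A P H D (D.tk k a) (D.tk k' m) F z p 1) ?_ ?_ ((1 : P), p)
  · rw [← hsh]
    congr 1
    funext x
    unfold trans_A
    refine tsum_congr fun u => tsum_congr fun v => ?_
    have e1 : (((1 : P), p) : P × H) * ((x * ((1 : P), p))⁻¹ * (u : P × H) * z) =
        (((1 : P), (1 : H)) : P × H) * (x⁻¹ * (u : P × H) * z) := by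
      rw [mul_inv_rev, Prod.inv_mk, inv_one]
      refine Prod.ext ?_ ?_
      · simp only [Prod.fst_mul, one_mul]
      · simp only [Prod.snd_mul, one_mul]
        group
    have e2 : (((1 : P), (1 : H)) : P × H) * ((x * ((1 : P), p))⁻¹ * (v : P × H) * z) =
        (((1 : P), p⁻¹) : P × H) * (x⁻¹ * (v : P × H) * z) := by
      rw [mul_inv_rev, Prod.inv_mk, inv_one]
      refine Prod.ext ?_ ?_
      · simp only [Prod.fst_mul, one_mul]
      · simp only [Prod.snd_mul, one_mul]
        group
    rw [e1, e2]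
  · exact trans_mA1 P H D (D.tk k a) (D.tk k' m) mK mK' F z p 1
  · intro γ hγ x
    unfold trans_A
    rw [← (Equiv.mulLeft (⟨γ, hγ⟩ : D.Γ)).tsum_eq]
    refine tsum_congr fun u => ?_
    rw [← (Equiv.mulLeft (⟨γ, hγ⟩ : D.Γ)).tsum_eq]
    refine tsum_congr fun v => ?_
    have e : ∀ w : D.Γ, (γ * x)⁻¹ * (((⟨γ, hγ⟩ : D.Γ) * w : D.Γ) : P × H) * z =
        x⁻¹ * (w : P × H) * z := by
      intro w
      push_cast
      group
    rw [Equiv.coe_mulLeft, e, e, hF]

end Pool.Agent.MPEF
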