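import Pool.Agent.Lib.MP_ef3f0f_gt.I.Spec

set_option autoImplicit false
set_option linter.unusedSectionVars false

/-! MP_ef3f0f_gt, part I, module word: words. -/

namespace Pool.Agent.MPEF

open MeasureTheory Topology
open scoped ENNReal Pointwise

private def word_es (a b : Fin 16) : Bool :=
  !(decide (4 ≤ a.val ∧ a.val ≤ 12 ∧ 4 ≤ b.val ∧ b.val ≤ 12))

private theorem word_vst : ∀ a b : Fin 16, (b = a ∨ b = a + 1 ∨ a = b + 1) →
    vst (word_es a b) a := by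
  decide

private theorem word_ch (a b c : Fin 16) (h1 : b = a ∨ b = a + 1 ∨ a = b + 1)
    (h2 : c = b ∨ c = b + 1 ∨ b = c + 1) (h : word_es b c ≠ word_es a b) : b = 4 ∨ b = 12 := by
  have k1 : ∀ b : Fin 16, word_es b b ≠ word_es b b → b = 4 ∨ b = 12 := by decide
  have k2 : ∀ b : Fin 16, word_es b (b + 1) ≠ word_es b b → b = 4 ∨ b = 12 := by decide
  have k3 : ∀ c : Fin 16, word_es (c + 1) c ≠ word_es (c + 1) (c + 1) →
      c + 1 = 4 ∨ c + 1 = 12 := by decide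
  have k4 : ∀ a : Fin 16, word_es (a + 1) (a + 1) ≠ word_es a (a + 1) →
      a + 1 = 4 ∨ a + 1 = 12 := by decide
  have k5 : ∀ a : Fin 16, word_es (a + 1) (a + 1 + 1) ≠ word_es a (a + 1) →
      a + 1 = 4 ∨ a + 1 = 12 := by decide
  have k6 : ∀ a c : Fin 16, a + 1 = c + 1 → word_es (a + 1) c ≠ word_es a (a + 1) →
      a + 1 = 4 ∨ a + 1 = 12 := by decide
  have k7 : ∀ b : Fin 16, word_es b b ≠ word_es (b + 1) b → b = 4 ∨ b = 12 := by decide
  have k8 : ∀ b : Fin 16, word_es b (b + 1) ≠ word_es (b + 1) b → b = 4 ∨ b = 12 := by decide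
  have k9 : ∀ c : Fin 16, word_es (c + 1) c ≠ word_es (c + 1 + 1) (c + 1) →
      c + 1 = 4 ∨ c + 1 = 12 := by decide
  rcases h1 with h1 | h1 | h1
  · subst h1
    rcases h2 with h2 | h2 | h2
    · subst h2; exact k1 _ h
    · subst h2; exact k2 _ h
    · subst h2; exact k3 _ h
  · subst h1
    rcases h2 with h2 | h2 | h2
    · subst h2; exact k4 _ h
    · subst h2; exact k5 _ h
    · exact k6 _ _ h2 h
  · subst h1
    rcases h2 with h2 | h2 | h2
    · subst h2; exact k7 _ h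
    · subst h2; exact k8 _ h
    · subst h2; exact k9 _ h

private theorem word_ab_sum (L : ℕ) (t : ℕ → ℝ) :
    ab (∑ i ∈ Finset.range L, t i) ≤ ∑ i ∈ Finset.range L, ab (t i) := by
  unfold ab
  rw [← ENNReal.ofReal_sum_of_nonneg fun i _ => abs_nonneg (t i)]
  exact ENNReal.ofReal_le_ofReal (Finset.abs_sum_le_sum_abs _ _)

private theorem word_ab_add (s t : ℝ) : ab (s + t) ≤ ab s + ab t := by
  unfold ab
  rw [← ENNReal.ofReal_add (abs_nonneg _) (abs_nonneg _)]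
  exact ENNReal.ofReal_le_ofReal (abs_add_le _ _)

private theorem word_ab_neg (s : ℝ) : ab (-s) = ab s := by
  unfold ab
  rw [abs_neg]

private theorem word_pt {G : Type} [Group G] (φ : G → ℝ) (hφ : OddC φ) (L : ℕ) (gg p : ℕ → G)
    (hp0 : p 0 = 1) (hpL : p L = 1) (hps : ∀ i, i < L → p (i + 1) = p i * gg i) (e : ℕ → Bool)
    (heL : e L = e 0) (F : G → ℝ) (u v v' : G) :
    ab (∑ i ∈ Finset.range L, F (gg i)) ≤
      ∑ i ∈ Finset.range L,
        (ab (Dv φ (if e i then v' else v) ((u * p i) * gg i) (u * p i) - F (gg i)) +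
          if e (i + 1) = e i then 0 else ab (dl φ (u * p (i + 1)) v v')) := by
  obtain ⟨σ, hσ⟩ : ∃ σ : ℕ → ℝ, ∀ i, σ i = if e i then 1 else 0 := ⟨_, fun i => rfl⟩
  have hph : ∀ a b : G, ph φ b a = - ph φ a b := by
    intro a b
    unfold ph
    rw [← hφ.inv]
    congr 1
    group
  have e1 : ∑ i ∈ Finset.range L, F (gg i) = ∑ i ∈ Finset.range L,
      (-(Dv φ (if e i then v' else v) ((u * p i) * gg i) (u * p i) - F (gg i)) +
        (σ (i + 1) - σ i) * dl φ (u * p (i + 1)) v v') := by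
    have t1 : ∑ i ∈ Finset.range L, (ph φ (u * p (i + 1)) (if e (i + 1) then v' else v) -
        ph φ (u * p i) (if e i then v' else v)) = 0 := by
      rw [Finset.sum_range_sub (fun i => ph φ (u * p i) (if e i then v' else v)), hp0, hpL, heL,
        sub_self]
    have t2 : ∑ i ∈ Finset.range L, (σ (i + 1) - σ i) = 0 := by
      rw [Finset.sum_range_sub, hσ, hσ, heL, sub_self]
    have t3 : ∑ i ∈ Finset.range L, (F (gg i) -
      (-(Dv φ (if e i then v' else v) ((u * p i) * gg i) (u * p i) - F (gg i)) +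
        (σ (i + 1) - σ i) * dl φ (u * p (i + 1)) v v')) = ∑ i ∈ Finset.range L,
        ((ph φ (u * p (i + 1)) (if e (i + 1) then v' else v) -
        ph φ (u * p i) (if e i then v' else v)) - (σ (i + 1) - σ i) * ph φ v v') := by
      refine Finset.sum_congr rfl fun i hi => ?_
      rw [Finset.mem_range] at hi
      have a1 : u * p i * gg i = u * p (i + 1) := by rw [hps i hi, mul_assoc]
      rw [a1, hσ, hσ]
      unfold dl Dv
      rw [hph (u * p (i + 1)) v']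
      cases e i <;> cases e (i + 1) <;> simp <;> ring
    rw [← sub_eq_zero, ← Finset.sum_sub_distrib, t3, Finset.sum_sub_distrib, t1,
      ← Finset.sum_mul, t2]
    ring
  rw [e1]
  refine (word_ab_sum _ _).trans (Finset.sum_le_sum fun i _ => ?_)
  refine (word_ab_add _ _).trans ?_
  rw [word_ab_neg]
  refine add_le_add le_rfl ?_
  split_ifs with h
  · rw [hσ, hσ, h, sub_self, zero_mul]
    simp [ab]
  · rw [hσ, hσ]
    have : |((if e (i + 1) then (1 : ℝ) else 0) - if e i then 1 else 0)| = 1 := by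
      cases hA : e i <;> cases hB : e (i + 1) <;> simp_all
    unfold ab
    rw [abs_mul, this, one_mul]

section
variable {P H : Type} [Group P] [Group H] [MeasurableSpace P] [MeasurableSpace H]

private theorem word_mono {D : Dat P H} {K₁ K₂ K₃ K₁' K₂' K₃' : P × H → ℝ≥0∞} {x y : P × H}
    {f g : D.Γ → D.Γ → D.Γ → ℝ≥0∞} (h1 : ∀ q, K₁ q ≤ K₁' q) (h2 : ∀ q, K₂ q ≤ K₂' q)
    (h3 : ∀ q, K₃ q ≤ K₃' q) (h : ∀ u v w, f u v w ≤ g u v w) :
    D.st3 K₁ K₂ K₃ x y f ≤ D.st3 K₁' K₂' K₃' x y g := by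
  unfold Dat.st3
  refine ENNReal.tsum_le_tsum fun u => ENNReal.tsum_le_tsum fun v =>
    ENNReal.tsum_le_tsum fun w => ?_
  exact mul_le_mul' (mul_le_mul' (mul_le_mul' (h1 _) (h2 _)) (h3 _)) (h _ _ _)

private theorem word_add {D : Dat P H} {K₁ K₂ K₃ : P × H → ℝ≥0∞} {x y : P × H}
    {f g : D.Γ → D.Γ → D.Γ → ℝ≥0∞} :
    D.st3 K₁ K₂ K₃ x y (fun u v w => f u v w + g u v w) =
      D.st3 K₁ K₂ K₃ x y f + D.st3 K₁ K₂ K₃ x y g := by
  unfold Dat.st3
  simp only [mul_add, ENNReal.tsum_add]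

private theorem word_drop3 {D : Dat P H} {K₁ K₂ K₃ : P × H → ℝ≥0∞} {x y : P × H}
    {f : D.Γ → D.Γ → ℝ≥0∞} :
    D.st3 K₁ K₂ K₃ x y (fun u v _ => f u v) = D.N K₃ x y * D.st2 K₁ K₂ x y f := by
  unfold Dat.st3 Dat.st2 Dat.N
  rw [← ENNReal.tsum_mul_left]
  refine tsum_congr fun u => ?_
  rw [← ENNReal.tsum_mul_left]
  refine tsum_congr fun v => ?_
  rw [← ENNReal.tsum_mul_right]
  refine tsum_congr fun w => ?_
  ring

private theorem word_drop2 {D : Dat P H} {K₁ K₂ K₃ : P × H → ℝ≥0∞} {x y : P × H}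
    {f : D.Γ → D.Γ → ℝ≥0∞} :
    D.st3 K₁ K₂ K₃ x y (fun u _ w => f u w) = D.N K₂ x y * D.st2 K₁ K₃ x y f := by
  unfold Dat.st3 Dat.st2 Dat.N
  rw [← ENNReal.tsum_mul_left]
  refine tsum_congr fun u => ?_
  rw [ENNReal.tsum_comm, ← ENNReal.tsum_mul_left]
  refine tsum_congr fun w => ?_
  rw [← ENNReal.tsum_mul_right]
  refine tsum_congr fun v => ?_
  ring

private theorem word_const {D : Dat P H} {K₁ K₂ K₃ : P × H → ℝ≥0∞} {x y : P × H} {t : ℝ≥0∞} :
    D.st3 K₁ K₂ K₃ x y (fun _ _ _ => t) = D.N K₁ x y * D.N K₂ x y * D.N K₃ x y * t := by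
  rw [word_drop3 (f := fun _ _ => t)]
  unfold Dat.st2 Dat.N
  have e : ∀ u : D.Γ, (∑' v : D.Γ, K₁ (x⁻¹ * (u : P × H) * y) * K₂ (x⁻¹ * (v : P × H) * y) * t) =
      K₁ (x⁻¹ * (u : P × H) * y) * ((∑' v : D.Γ, K₂ (x⁻¹ * (v : P × H) * y)) * t) := by
    intro u
    rw [← ENNReal.tsum_mul_right, ← ENNReal.tsum_mul_left]
    refine tsum_congr fun v => ?_
    ring
  rw [tsum_congr e, ENNReal.tsum_mul_right]
  ring

private theorem word_re {D : Dat P H} {K K' K₂ K₃ : P × H → ℝ≥0∞} {x z : P × H} (γ : D.Γ)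
    {C : ℝ≥0∞}
    (h : ∀ u : D.Γ, K (x⁻¹ * (u : P × H) * z) ≤ C * K' (x⁻¹ * ((u * γ : D.Γ) : P × H) * z))
    (f : D.Γ → D.Γ → D.Γ → ℝ≥0∞) :
    D.st3 K K₂ K₃ x z (fun u v w => f (u * γ) v w) ≤ C * D.st3 K' K₂ K₃ x z f := by
  unfold Dat.st3
  rw [← (Equiv.mulRight γ).tsum_eq (fun u : D.Γ => ∑' v : D.Γ, ∑' w : D.Γ,
    K' (x⁻¹ * (u : P × H) * z) * K₂ (x⁻¹ * (v : P × H) * z) * K₃ (x⁻¹ * (w : P × H) * z) *
      f u v w), ← ENNReal.tsum_mul_left]
  refine ENNReal.tsum_le_tsum fun u => ?_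
  rw [← ENNReal.tsum_mul_left]
  refine ENNReal.tsum_le_tsum fun v => ?_
  rw [← ENNReal.tsum_mul_left]
  refine ENNReal.tsum_le_tsum fun w => ?_
  simp only [Equiv.coe_mulRight]
  calc _ ≤ (C * K' (x⁻¹ * ((u * γ : D.Γ) : P × H) * z)) * K₂ (x⁻¹ * (v : P × H) * z) *
        K₃ (x⁻¹ * (w : P × H) * z) * f (u * γ) v w :=
      mul_le_mul' (mul_le_mul' (mul_le_mul' (h u) le_rfl) le_rfl) le_rfl
    _ = _ := by ring

private theorem word_IMmono {D : Dat P H} {f g : P × H → ℝ≥0∞} (h : ∀ x, f x ≤ g x) :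
    D.IM f ≤ D.IM g :=
  lintegral_mono fun x => mul_le_mul' le_rfl (h x)

private theorem word_IMmul {D : Dat P H} (hχ : Measurable D.χ) {f : P × H → ℝ≥0∞}
    (hf : Measurable f) (c : ℝ≥0∞) :
    D.IM (fun x => c * f x) = c * D.IM f := by
  have e := lintegral_const_mul (μ := D.μ) c (show Measurable fun x => D.χ x * f x from hχ.mul hf)
  unfold Dat.IM
  rw [← e]
  refine lintegral_congr fun x => ?_
  ring

private theorem word_IMadd {D : Dat P H} (hχ : Measurable D.χ) {f g : P × H → ℝ≥0∞}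
    (hf : Measurable f) :
    D.IM (fun x => f x + g x) = D.IM f + D.IM g := by
  have e := lintegral_add_left (μ := D.μ) (show Measurable fun x => D.χ x * f x from hχ.mul hf)
    (fun x => D.χ x * g x)
  unfold Dat.IM
  rw [← e]
  refine lintegral_congr fun x => ?_
  ring

omit [Group P] [Group H] in
private theorem word_mx {F : P × H → P × H → ℝ≥0∞}
    (hF : Measurable fun q : (P × H) × (P × H) => F q.1 q.2) (z : P × H) :
    Measurable fun x => F x z :=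
  hF.comp (measurable_id.prodMk measurable_const)

private theorem word_IMm {D : Dat P H} [SFinite D.μ] (hχ : Measurable D.χ)
    {F : P × H → P × H → ℝ≥0∞}
    (hF : Measurable fun q : (P × H) × (P × H) => F q.1 q.2) :
    Measurable fun z => D.IM fun x => F x z := by
  unfold Dat.IM
  exact ((hχ.comp measurable_fst).mul hF).lintegral_prod_left'

private theorem word_IMswap {D : Dat P H} [SFinite D.μ] (hχ : Measurable D.χ)
    {F : P × H → P × H → ℝ≥0∞}
    (hF : Measurable fun q : (P × H) × (P × H) => F q.1 q.2) :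
    (D.IM fun z => D.IM fun x => F x z) = D.IM fun x => D.IM fun z => F x z := by
  have hm1 : ∀ z, Measurable fun x => F x z := fun z =>
    hF.comp (measurable_id.prodMk measurable_const)
  have hm2 : ∀ x, Measurable fun z => F x z := fun x =>
    hF.comp (measurable_const.prodMk measurable_id)
  unfold Dat.IM
  calc ∫⁻ z, D.χ z * ∫⁻ x, D.χ x * F x z ∂D.μ ∂D.μ
      = ∫⁻ z, ∫⁻ x, D.χ z * (D.χ x * F x z) ∂D.μ ∂D.μ :=
        lintegral_congr fun z => (lintegral_const_mul _ (hχ.mul (hm1 z))).symm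
    _ = ∫⁻ x, ∫⁻ z, D.χ z * (D.χ x * F x z) ∂D.μ ∂D.μ := by
        refine lintegral_lintegral_swap (Measurable.aemeasurable ?_)
        exact (hχ.comp measurable_fst).mul ((hχ.comp measurable_snd).mul
          (hF.comp (measurable_snd.prodMk measurable_fst)))
    _ = ∫⁻ x, D.χ x * ∫⁻ z, D.χ z * F x z ∂D.μ ∂D.μ := by
        refine lintegral_congr fun x => ?_
        have e := lintegral_const_mul (μ := D.μ) (D.χ x)
          (show Measurable fun z => D.χ z * F x z from hχ.mul (hm2 x))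
        rw [← e]
        refine lintegral_congr fun z => ?_
        ring

/-- The functional. -/
private noncomputable def word_A (D : Dat P H) (U : Set (P × H)) (K₁ K₂ K₃ : P × H → ℝ≥0∞)
    (f : D.Γ → D.Γ → D.Γ → ℝ≥0∞) : ℝ≥0∞ :=
  ∫⁻ z in U, D.IM (fun x => D.st3 K₁ K₂ K₃ x z f) ∂D.μ

private theorem word_A_add {D : Dat P H} [SFinite D.μ] (hχ : Measurable D.χ) (U : Set (P × H))
    (K₁ K₂ K₃ : P × H → ℝ≥0∞)
    (hst : ∀ f : D.Γ → D.Γ → D.Γ → ℝ≥0∞,
      Measurable fun q : (P × H) × (P × H) => D.st3 K₁ K₂ K₃ q.1 q.2 f)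
    (f g : D.Γ → D.Γ → D.Γ → ℝ≥0∞) :
    word_A D U K₁ K₂ K₃ (fun u v w => f u v w + g u v w) =
      word_A D U K₁ K₂ K₃ f + word_A D U K₁ K₂ K₃ g := by
  unfold word_A
  rw [← lintegral_add_left (word_IMm hχ (F := fun x z => D.st3 K₁ K₂ K₃ x z f) (hst f))]
  refine lintegral_congr fun z => ?_
  have hx : Measurable fun x => D.st3 K₁ K₂ K₃ x z f :=
    word_mx (F := fun x z => D.st3 K₁ K₂ K₃ x z f) (hst f) z
  rw [← word_IMadd hχ hx]
  exact lintegral_congr fun x => congrArg (fun t => D.χ x * t) word_add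

private theorem word_A_sum {D : Dat P H} [SFinite D.μ] (hχ : Measurable D.χ) (U : Set (P × H))
    (K₁ K₂ K₃ : P × H → ℝ≥0∞)
    (hst : ∀ f : D.Γ → D.Γ → D.Γ → ℝ≥0∞,
      Measurable fun q : (P × H) × (P × H) => D.st3 K₁ K₂ K₃ q.1 q.2 f) (L : ℕ)
    (f : ℕ → D.Γ → D.Γ → D.Γ → ℝ≥0∞) :
    word_A D U K₁ K₂ K₃ (fun u v w => ∑ i ∈ Finset.range L, f i u v w) =
      ∑ i ∈ Finset.range L, word_A D U K₁ K₂ K₃ (f i) := by
  induction L with
  | zero =>
    simp only [Finset.range_zero, Finset.sum_empty]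
    unfold word_A Dat.IM Dat.st3
    simp only [mul_zero, tsum_zero, lintegral_zero]
  | succ L ih =>
    rw [Finset.sum_range_succ, ← ih, ← word_A_add hχ U K₁ K₂ K₃ hst]
    simp only [Finset.sum_range_succ]

private theorem word_A_mono {D : Dat P H} {U : Set (P × H)}
    {K₁ K₂ K₃ : P × H → ℝ≥0∞} {f g : D.Γ → D.Γ → D.Γ → ℝ≥0∞}
    (h : ∀ u v w, f u v w ≤ g u v w) :
    word_A D U K₁ K₂ K₃ f ≤ word_A D U K₁ K₂ K₃ g :=
  lintegral_mono fun _ => word_IMmono fun _ =>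
    word_mono (fun _ => le_rfl) (fun _ => le_rfl) (fun _ => le_rfl) h

private theorem word_A_const {D : Dat P H} (hχ : Measurable D.χ) (hm : ∫⁻ x, D.χ x ∂D.μ = 1)
    {U : Set (P × H)} {K₁ K₂ K₃ : P × H → ℝ≥0∞} {a b c : ℝ≥0∞}
    (h1 : ∀ x z, a ≤ D.N K₁ x z) (h2 : ∀ x z, b ≤ D.N K₂ x z) (h3 : ∀ x z, c ≤ D.N K₃ x z)
    (t : ℝ≥0∞) :
    (a * b * c * D.μ U) * t ≤ word_A D U K₁ K₂ K₃ (fun _ _ _ => t) := by
  unfold word_A
  calc (a * b * c * D.μ U) * t = ∫⁻ _ in U, a * b * c * t ∂D.μ := by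
        rw [lintegral_const, Measure.restrict_apply_univ]
        ring
    _ ≤ _ := by
        refine lintegral_mono fun z => ?_
        calc a * b * c * t = ∫⁻ x, D.χ x * (a * b * c * t) ∂D.μ := by
              rw [lintegral_mul_const _ hχ, hm, one_mul]
          _ ≤ D.IM (fun x => D.st3 K₁ K₂ K₃ x z fun _ _ _ => t) := by
              refine word_IMmono fun x => ?_
              rw [word_const]
              exact mul_le_mul' (mul_le_mul' (mul_le_mul' (h1 _ _) (h2 _ _)) (h3 _ _)) le_rfl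

private theorem word_mono2 {D : Dat P H} {K₁ K₂ K₁' K₂' : P × H → ℝ≥0∞} {x y : P × H}
    {f : D.Γ → D.Γ → ℝ≥0∞} (h1 : ∀ q, K₁ q ≤ K₁' q) (h2 : ∀ q, K₂ q ≤ K₂' q) :
    D.st2 K₁ K₂ x y f ≤ D.st2 K₁' K₂' x y f := by
  unfold Dat.st2
  refine ENNReal.tsum_le_tsum fun u => ENNReal.tsum_le_tsum fun v => ?_
  exact mul_le_mul' (mul_le_mul' (h1 _) (h2 _)) le_rfl

private theorem word_IMmul' {D : Dat P H} {f : P × H → ℝ≥0∞} {c : ℝ≥0∞} (hc : c ≠ ∞) :
    D.IM (fun x => c * f x) = c * D.IM f := by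
  unfold Dat.IM
  rw [← lintegral_const_mul' c _ hc]
  refine lintegral_congr fun x => ?_
  ring

omit [Group P] [MeasurableSpace P] in
private theorem word_iKle {S S' : Set P} (h : S ⊆ S') (s : P) : iK S s ≤ iK S' s := by
  unfold iK
  exact Set.indicator_le_indicator_of_subset h (fun _ => zero_le) s

private theorem word_tkle {D : Dat P H} {k k' : P → ℝ≥0∞} (h : ∀ s, k s ≤ k' s) (n : ℕ)
    (g : P × H) : D.tk k n g ≤ D.tk k' n g := by
  unfold Dat.tk
  exact mul_le_mul' (h _) le_rfl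

private theorem word_tkm {D : Dat P H} (hν : ∀ n, Measurable (D.nu n)) {k : P → ℝ≥0∞}
    (hk : Measurable k) (n : ℕ) : Measurable (D.tk k n) := by
  unfold Dat.tk
  exact (hk.comp measurable_fst).mul ((hν n).comp measurable_snd)

omit [Group P] in
private theorem word_iKm {S : Set P} (h : MeasurableSet S) :
    Measurable (iK S) :=
  measurable_const.indicator h

private theorem word_hk {D : Dat P H} {B S : Set P} {gs : P} {c : ℕ} {C : ℝ≥0∞}
    (hC : ∀ n, 1 ≤ n → ∀ h q : H, q ∈ D.O ^ c → D.nu n h ≤ C * D.nu (n + c + 1) (h * q))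
    (q : P × H) (h1 : ∀ b ∈ B, b * (gs * q.1) ∈ S) (h2 : q.2 ∈ D.O ^ c) (n : ℕ) (hn : 1 ≤ n)
    (g : P × H) :
    D.tk (fun s => iK B (1 * s * gs⁻¹)) n g ≤ C * D.tk (iK S) (n + c + 1) (g * q) := by
  unfold Dat.tk iK
  by_cases hg : 1 * g.1 * gs⁻¹ ∈ B
  · have h3 : (g * q).1 ∈ S := by
      have := h1 _ hg
      have e : 1 * g.1 * gs⁻¹ * (gs * q.1) = (g * q).1 := by
        rw [Prod.fst_mul]
        group
      rwa [e] at this
    have e1 : B.indicator (fun _ => (1 : ℝ≥0∞)) (1 * g.1 * gs⁻¹) = 1 := Set.indicator_of_mem hg _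
    have e2 : S.indicator (fun _ => (1 : ℝ≥0∞)) (g * q).1 = 1 := Set.indicator_of_mem h3 _
    calc _ = B.indicator (fun _ => (1 : ℝ≥0∞)) (1 * g.1 * gs⁻¹) * D.nu n g.2 := rfl
      _ ≤ C * (S.indicator (fun _ => (1 : ℝ≥0∞)) (g * q).1 * D.nu (n + c + 1) (g * q).2) := by
        rw [e1, e2, one_mul, one_mul]
        exact hC n hn g.2 q.2 h2
  · have e1 : B.indicator (fun _ => (1 : ℝ≥0∞)) (1 * g.1 * gs⁻¹) = 0 :=
      Set.indicator_of_notMem hg _
    calc _ = B.indicator (fun _ => (1 : ℝ≥0∞)) (1 * g.1 * gs⁻¹) * D.nu n g.2 := rfl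
      _ = 0 := by rw [e1, zero_mul]
      _ ≤ _ := zero_le

end

section
variable {P H : Type} [Group P] [Group H] [TopologicalSpace P] [TopologicalSpace H]
  [IsTopologicalGroup P] [IsTopologicalGroup H] [LocallyCompactSpace P] [LocallyCompactSpace H]
  [T2Space P] [T2Space H] [SecondCountableTopology P] [SecondCountableTopology H]
  [MeasurableSpace P] [MeasurableSpace H] [BorelSpace P] [BorelSpace H]

omit [IsTopologicalGroup P] [LocallyCompactSpace P] [T2Space P] [SecondCountableTopology P]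
  [MeasurableSpace P] [BorelSpace P] in
private theorem word_Bm {G : Geo P} (h : G.Ok) {k l : ℕ} (hkl : k ≤ l) : G.B k ⊆ G.B l := by
  induction l, hkl using Nat.le_induction with
  | base => exact subset_rfl
  | succ l _ ih => exact ih.trans fun x hx => h.bm l ⟨x, hx, 1, h.b1 l, mul_one x⟩

omit [IsTopologicalGroup P] [LocallyCompactSpace P] [T2Space P] [SecondCountableTopology P]
  [MeasurableSpace P] [BorelSpace P] in
private theorem word_Om {G : Geo P} (h : G.Ok) (M : ℕ) (a : Ty) {k l : ℕ} (hkl : k ≤ l) :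
    G.Om M a l ⊆ G.Om M a k := by
  induction l, hkl using Nat.le_induction with
  | base => exact subset_rfl
  | succ l _ ih =>
    refine Set.Subset.trans (fun x hx => ?_) ih
    exact h.om M a l ⟨1 * x, ⟨1, h.b1 9, x, hx, rfl⟩, 1, h.b1 9, by simp⟩

private theorem word_getD {Γ : Type} [Group Γ] (w : List Γ) (F : Γ → ℝ) :
    (w.map F).sum = ∑ i ∈ Finset.range w.length, F (w.getD i 1) := by
  induction w with
  | nil => simp
  | cons a w ih =>
    rw [List.length_cons, Finset.sum_range_succ']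
    simp [ih, add_comm]

private theorem word_take {Γ : Type} [Group Γ] (w : List Γ) (i : ℕ) (hi : i < w.length) :
    (w.take (i + 1)).prod = (w.take i).prod * w.getD i 1 := by
  rw [List.prod_take_succ _ _ hi]
  simp [hi]

end

section
variable {P H : Type} [Group P] [Group H] [TopologicalSpace P] [TopologicalSpace H]
  [IsTopologicalGroup P] [IsTopologicalGroup H] [LocallyCompactSpace P] [LocallyCompactSpace H]
  [T2Space P] [T2Space H] [SecondCountableTopology P] [SecondCountableTopology H]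
  [MeasurableSpace P] [MeasurableSpace H] [BorelSpace P] [BorelSpace H]

/-- The first step: the estimate by the function `F₀`. -/
private theorem word_s1 {D : Dat P H} {G : Geo P} (hg : G.Ok) {c₁ c₂ c₃ : ℕ}
    {M : ℕ} {ka : Ty → P → ℝ≥0∞} {U₀ : Set (P × H)} (hUm : MeasurableSet U₀)
    (hU2 : U₀ ⊆ G.B 2 ×ˢ (D.O ^ c₂)) {C₁ CH CN : ℝ≥0∞} (hCH : CH ≠ ∞) (hCN : CN ≠ ∞)
    {c₀ r n m : ℕ} {φ F₀ : D.Γ → ℝ} (hF : F0ok D G M ka c₁ c₂ c₃ C₁ c₀ r φ F₀)
    {Ku : P × H → ℝ≥0∞} (γ g : D.Γ) (hg5 : (g : P × H) ∈ G.B 5 ×ˢ (D.O ^ c₁))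
    (hgz : ∀ z ∈ U₀, z⁻¹ * (g : P × H) * z ∈ G.B 7 ×ˢ (D.O ^ c₃)) (e : Bool) (j : Fin 16)
    (hv : vst e j) (hn : RG r c₀ n) (hm : RG r c₀ m)
    (hKu : ∀ z ∈ U₀, ∀ (x : P × H) (u : D.Γ), Ku (x⁻¹ * (u : P × H) * z) ≤
      CH * D.tk (iK (G.Om M (0, j) 6)) n (x⁻¹ * ((u * γ : D.Γ) : P × H) * z))
    (hN1 : ∀ x z, D.N (D.tk (iK (G.Om M (2, 0) 6)) m) x z ≤ CN)
    (hN2 : ∀ x z, D.N (D.tk (iK (G.Om M (3, 8) 6)) m) x z ≤ CN) :
    word_A D U₀ Ku (D.tk (iK (G.Om M (2, 0) 6)) m) (D.tk (iK (G.Om M (3, 8) 6)) m)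
      (fun u v v' => ab (Dv φ (if e then v' else v) ((u * γ) * g) (u * γ) - F₀ g)) ≤
      CH * CN * (C₁ * D.EE ka r φ) := by
  have hc : CH * CN ≠ ∞ := ENNReal.mul_ne_top hCH hCN
  have h65 : ∀ a s, iK (G.Om M a 6) s ≤ iK (G.Om M a 5) s := fun a s =>
    word_iKle (word_Om hg M a (by norm_num)) s
  have hx : ∀ z ∈ U₀, ∀ x, D.st3 Ku (D.tk (iK (G.Om M (2, 0) 6)) m)
      (D.tk (iK (G.Om M (3, 8) 6)) m) x z
      (fun u v v' => ab (Dv φ (if e then v' else v) ((u * γ) * g) (u * γ) - F₀ g)) ≤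
      CH * CN * D.st2 (D.tk (iK (G.Om M (0, j) 5)) n) (D.tk (iK (G.Om M (ety e) 5)) m) x z
        fun u v => ab (Dv φ v (u * g) u - F₀ g) := by
    intro z hz x
    cases e with
    | false =>
      calc _ ≤ CH * D.st3 (D.tk (iK (G.Om M (0, j) 6)) n) (D.tk (iK (G.Om M (2, 0) 6)) m)
            (D.tk (iK (G.Om M (3, 8) 6)) m) x z
            (fun u v _ => ab (Dv φ v (u * g) u - F₀ g)) :=
            word_re γ (hKu z hz x) (fun u v _ => ab (Dv φ v (u * g) u - F₀ g))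
        _ = CH * (D.N (D.tk (iK (G.Om M (3, 8) 6)) m) x z *
            D.st2 (D.tk (iK (G.Om M (0, j) 6)) n) (D.tk (iK (G.Om M (2, 0) 6)) m) x z
              fun u v => ab (Dv φ v (u * g) u - F₀ g)) := by
            rw [word_drop3 (f := fun u v => ab (Dv φ v (u * g) u - F₀ g))]
        _ ≤ CH * (CN * D.st2 (D.tk (iK (G.Om M (0, j) 5)) n) (D.tk (iK (G.Om M (2, 0) 5)) m) x z
              fun u v => ab (Dv φ v (u * g) u - F₀ g)) :=
            mul_le_mul' le_rfl (mul_le_mul' (hN2 x z)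
              (word_mono2 (word_tkle (h65 _) _) (word_tkle (h65 _) _)))
        _ = _ := by rw [← mul_assoc]; rfl
    | true =>
      calc _ ≤ CH * D.st3 (D.tk (iK (G.Om M (0, j) 6)) n) (D.tk (iK (G.Om M (2, 0) 6)) m)
            (D.tk (iK (G.Om M (3, 8) 6)) m) x z
            (fun u _ v => ab (Dv φ v (u * g) u - F₀ g)) :=
            word_re γ (hKu z hz x) (fun u _ v => ab (Dv φ v (u * g) u - F₀ g))
        _ = CH * (D.N (D.tk (iK (G.Om M (2, 0) 6)) m) x z *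
            D.st2 (D.tk (iK (G.Om M (0, j) 6)) n) (D.tk (iK (G.Om M (3, 8) 6)) m) x z
              fun u v => ab (Dv φ v (u * g) u - F₀ g)) := by
            rw [word_drop2 (f := fun u v => ab (Dv φ v (u * g) u - F₀ g))]
        _ ≤ CH * (CN * D.st2 (D.tk (iK (G.Om M (0, j) 5)) n) (D.tk (iK (G.Om M (3, 8) 5)) m) x z
              fun u v => ab (Dv φ v (u * g) u - F₀ g)) :=
            mul_le_mul' le_rfl (mul_le_mul' (hN1 x z)
              (word_mono2 (word_tkle (h65 _) _) (word_tkle (h65 _) _)))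
        _ = _ := by rw [← mul_assoc]; rfl
  unfold word_A
  calc _ ≤ ∫⁻ z in U₀, CH * CN * ((G.B 7 ×ˢ (D.O ^ c₃)).indicator (fun _ => (1 : ℝ≥0∞))
          (z⁻¹ * (g : P × H) * z) *
        D.IM (fun x => D.st2 (D.tk (iK (G.Om M (0, j) 5)) n) (D.tk (iK (G.Om M (ety e) 5)) m) x z
          fun u v => ab (Dv φ v (u * g) u - F₀ g))) ∂D.μ := by
        refine setLIntegral_mono' hUm fun z hz => ?_
        rw [Set.indicator_of_mem (hgz z hz), one_mul, ← word_IMmul' hc]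
        exact word_IMmono (hx z hz)
    _ = CH * CN * ∫⁻ z in U₀, ((G.B 7 ×ˢ (D.O ^ c₃)).indicator (fun _ => (1 : ℝ≥0∞))
          (z⁻¹ * (g : P × H) * z) *
        D.IM (fun x => D.st2 (D.tk (iK (G.Om M (0, j) 5)) n) (D.tk (iK (G.Om M (ety e) 5)) m) x z
          fun u v => ab (Dv φ v (u * g) u - F₀ g))) ∂D.μ := lintegral_const_mul' _ _ hc
    _ ≤ _ := mul_le_mul' le_rfl ((lintegral_mono_set hU2).trans (hF g hg5 e j n m hv hn hm))

/-- The second step: the pants. -/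
private theorem word_s2 {D : Dat P H} [SFinite D.μ] (hd : D.Ok) (hst : S_st P H)
    {U₀ K : Set (P × H)} (hUm : MeasurableSet U₀) (hUK : U₀ ⊆ K) {CH CK : ℝ≥0∞} (hCH : CH ≠ ∞)
    (hK : ∀ f : P × H → ℝ≥0∞, Measurable f → (∀ γ ∈ D.Γ, ∀ x, f (γ * x) = f x) → ∀ x : P × H,
        ∫⁻ q in K, f (x * q) ∂D.μ ≤ CK * D.IM f)
    {φ : D.Γ → ℝ}
    {Ku Kj Kv Kw : P × H → ℝ≥0∞} (hKj : Measurable Kj) (hKv : Measurable Kv) (hKw : Measurable Kw)
    (γ : D.Γ)
    (hKu : ∀ z ∈ U₀, ∀ (x : P × H) (u : D.Γ), Ku (x⁻¹ * (u : P × H) * z) ≤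
      CH * Kj (x⁻¹ * ((u * γ : D.Γ) : P × H) * z)) :
    word_A D U₀ Ku Kv Kw (fun u v v' => ab (dl φ (u * γ) v v')) ≤
      CH * CK * D.T3 Kj Kv Kw (fun u v w => ab (dl φ u v w)) := by
  obtain ⟨-, hst3, -, -, -, -, hinv, -⟩ := hst D hd
  have hm := hst3 Kj Kv Kw hKj hKv hKw (fun u v w => ab (dl φ u v w))
  have hmz := word_IMm hd.χm (F := fun x z => D.st3 Kj Kv Kw x z (fun u v w => ab (dl φ u v w))) hm
  unfold word_A
  calc _ ≤ ∫⁻ z in U₀, CH * D.IM (fun x => D.st3 Kj Kv Kw x z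
          (fun u v w => ab (dl φ u v w))) ∂D.μ := by
        refine setLIntegral_mono' hUm fun z hz => ?_
        rw [← word_IMmul' hCH]
        exact word_IMmono fun x => word_re γ (hKu z hz x) (fun u v w => ab (dl φ u v w))
    _ ≤ ∫⁻ z in K, CH * D.IM (fun x => D.st3 Kj Kv Kw x z
          (fun u v w => ab (dl φ u v w))) ∂D.μ := lintegral_mono_set hUK
    _ = CH * ∫⁻ z in K, D.IM (fun x => D.st3 Kj Kv Kw x z
          (fun u v w => ab (dl φ u v w))) ∂D.μ := lintegral_const_mul' _ _ hCH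
    _ ≤ CH * (CK * D.IM fun z => D.IM (fun x => D.st3 Kj Kv Kw x z
          (fun u v w => ab (dl φ u v w)))) := by
        refine mul_le_mul' le_rfl ?_
        have := hK _ hmz (by
          intro γ' hγ' z
          refine lintegral_congr fun x => ?_
          have e := hinv Kj Kv Kw x z ⟨γ', hγ'⟩ (fun u v w => ab (dl φ u v w))
          have e2 : (fun u v w : D.Γ => ab (dl φ (u * (⟨γ', hγ'⟩ : D.Γ)⁻¹)
              (v * (⟨γ', hγ'⟩ : D.Γ)⁻¹) (w * (⟨γ', hγ'⟩ : D.Γ)⁻¹))) =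
              fun u v w => ab (dl φ u v w) := by
            funext u v w
            simp [dl, ph]
          rw [e2] at e
          exact congrArg (fun t => D.χ x * t) e) 1
        simpa only [one_mul] using this
    _ = CH * CK * D.IM fun x => D.IM (fun z => D.st3 Kj Kv Kw x z
          (fun u v w => ab (dl φ u v w))) := by
        rw [word_IMswap hd.χm (F := fun x z => D.st3 Kj Kv Kw x z
          (fun u v w => ab (dl φ u v w))) hm, mul_assoc]
    _ = _ := rfl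

private theorem word_one (hdec : S_dec) (hinst : S_inst P H) (hO : S_O P H) (hnu : S_nu P H)
    (hst : S_st P H) (hnear : S_near P H) (hH : S_Harn P H) (hLo : S_Lo P H) (hbd : S_bd P H)
    (hbase : S_base P H) (hTh : S_Th P H)
    (D : Dat P H) (G : Geo P) (c₁ c₂ c₃ : ℕ) (hc₂ : 1 ≤ c₂) (hc₃ : c₁ + 2 ≤ c₃) (w : List D.Γ)
    (hw : w.prod = 1) (hwl : ∀ g ∈ w, (g : P × H) ∈ G.B 5 ×ˢ (D.O ^ c₁)) (M : ℕ)
    (ka kb : Ty → P → ℝ≥0∞) (cx : Cx D G M ka kb) (gs : P) (j : ℕ → Fin 16)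
    (jL : j w.length = 4)
    (jn : ∀ i, i < w.length → j (i + 1) = j i ∨ j (i + 1) = j i + 1 ∨ j i = j (i + 1) + 1)
    (jo : ∀ i, i ≤ w.length → gs * (((w.take i).prod : D.Γ) : P × H).1 ∈ G.Om M (0, j i) 7)
    (C₁ : ℝ≥0∞) (c₀' : ℕ) (hC₁ : C₁ ≠ ∞) :
    ∃ (C : ℝ≥0∞) (r₀ : ℕ), C ≠ ∞ ∧ ∀ r, r₀ ≤ r →
        ∀ (φ : D.Γ → ℝ) (β : ℝ≥0∞), OddC φ → BB D kb r φ β →
        ∀ F₀ : D.Γ → ℝ, F0ok D G M ka c₁ c₂ c₃ C₁ c₀' r φ F₀ →
          ab ((w.map F₀).sum) ≤ C * (D.EE ka r φ + β) := by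
  have hd := cx.d
  have hg := cx.g
  obtain ⟨-, -, hσ, -, hHaar, -, -, -, -⟩ := hinst D hd
  obtain ⟨Oo, O1, Oi, Om, -, Oc, -⟩ := hO D hd
  obtain ⟨νm, -, -, -, -, -, -, -⟩ := hnu D hd
  have Omul : ∀ {m n : ℕ} {a b : H}, a ∈ D.O ^ m → b ∈ D.O ^ n → a * b ∈ D.O ^ (m + n) := by
    intro m n a b ha hb
    rw [pow_add]
    exact Set.mul_mem_mul ha hb
  -- indices
  obtain ⟨L, hL⟩ : ∃ L, L = w.length := ⟨_, rfl⟩
  rw [← hL] at jL jn jo
  obtain ⟨gg, hgg⟩ : ∃ gg : ℕ → D.Γ, ∀ i, gg i = w.getD i 1 := ⟨_, fun _ => rfl⟩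
  obtain ⟨p, hp⟩ : ∃ p : ℕ → D.Γ, ∀ i, p i = (w.take i).prod := ⟨_, fun _ => rfl⟩
  have hp0 : p 0 = 1 := by rw [hp]; simp
  have hpL : p L = 1 := by rw [hp, hL, List.take_length, hw]
  have hps : ∀ i, i < L → p (i + 1) = p i * gg i := by
    intro i hi
    rw [hp, hp, hgg]
    exact word_take w i (by rw [← hL]; exact hi)
  have hggw : ∀ i, i < L → (gg i : P × H) ∈ G.B 5 ×ˢ (D.O ^ c₁) := by
    intro i hi
    have hi' : i < w.length := by rw [← hL]; exact hi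
    have e : gg i = w[i] := by rw [hgg]; simp [hi']
    rw [e]
    exact hwl _ (List.getElem_mem hi')
  have hsum : ∀ F : D.Γ → ℝ, (w.map F).sum = ∑ i ∈ Finset.range L, F (gg i) := by
    intro F
    rw [word_getD, hL]
    exact Finset.sum_congr rfl fun i _ => by rw [hgg]
  obtain ⟨e, he⟩ : ∃ e : ℕ → Bool, ∀ i, e i = if i < L then word_es (j i) (j (i + 1)) else
    word_es (j 0) (j 1) := ⟨_, fun _ => rfl⟩
  have heL : e L = e 0 := by
    rw [he, he, if_neg (lt_irrefl L)]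
    split_ifs <;> rfl
  have hev : ∀ i, i < L → vst (e i) (j i) := by
    intro i hi
    rw [he, if_pos hi]
    exact word_vst _ _ (jn i hi)
  have hch : ∀ i, i < L → e (i + 1) ≠ e i → j (i + 1) = 4 ∨ j (i + 1) = 12 := by
    intro i hi h
    rcases Nat.lt_or_ge (i + 1) L with h1 | h1
    · rw [he, he, if_pos h1, if_pos hi] at h
      exact word_ch _ _ _ (jn i hi) (jn (i + 1) h1) h
    · left
      have : i + 1 = L := by omega
      rw [this, jL]
  -- constants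
  obtain ⟨cc, hcc⟩ : ∃ cc, cc = c₁ * L + 2 := ⟨_, rfl⟩
  obtain ⟨CH, hCH, hHarn⟩ := hH D hd cc
  obtain ⟨b₁, cm, CN, hb₁, hcm, hCN, hN⟩ := (hbd D G hd hg).1 M cx.ne cx.nm
  obtain ⟨b₂, cW, hb₂, hcW, hW⟩ := hLo D hd (iK (G.B 0)) (G.B 0) 1
    (word_iKm (hg.bo 0).measurableSet) (hg.bo 0) ⟨1, hg.b1 0⟩ one_pos (fun s hs => by
      unfold iK
      rw [Set.indicator_of_mem hs])
  obtain ⟨CB, hCB, hB⟩ := (hbase D G M ka kb cx).2
  obtain ⟨CT, c₀T, hCT, hT⟩ := hTh D G M ka kb cx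
  obtain ⟨CK, hCK, hK⟩ := (hnear D hd).2.1 (closure (G.B 2) ×ˢ closure (D.O ^ 1))
    ((hg.bc 2).prod (Oc 1))
  -- the neighbourhood
  obtain ⟨V, hV⟩ : ∃ V : Set P, V = (⋂ i ∈ Finset.range (L + 1),
    {z : P | (p i : P × H).1⁻¹ * z⁻¹ * (p i : P × H).1 * z ∈ G.B 0}) ∩ G.B 2 := ⟨_, rfl⟩
  have hVo : IsOpen V := by
    rw [hV]
    refine IsOpen.inter (isOpen_biInter_finset fun i _ => ?_) (hg.bo 2)
    exact (hg.bo 0).preimage (by fun_prop)
  have hV1 : (1 : P) ∈ V := by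
    rw [hV]
    refine ⟨?_, hg.b1 2⟩
    simp only [Set.mem_iInter]
    intro i _
    change (p i : P × H).1⁻¹ * (1 : P)⁻¹ * (p i : P × H).1 * 1 ∈ G.B 0
    simp [hg.b1 0]
  have hVi : ∀ z ∈ V, ∀ i, i ≤ L → (p i : P × H).1⁻¹ * z⁻¹ * (p i : P × H).1 * z ∈ G.B 0 := by
    intro z hz i hi
    rw [hV] at hz
    have h1 := hz.1
    simp only [Set.mem_iInter] at h1
    exact h1 i (Finset.mem_range.2 (by omega))
  obtain ⟨U₀, hU₀⟩ : ∃ U₀ : Set (P × H), U₀ = V ×ˢ (D.O ^ 1) := ⟨_, rfl⟩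
  have hUo : IsOpen U₀ := by
    rw [hU₀]
    exact hVo.prod (Oo 1 le_rfl)
  have hUm : MeasurableSet U₀ := hUo.measurableSet
  have hU1 : (1 : P × H) ∈ U₀ := by
    rw [hU₀]
    exact ⟨hV1, O1 1⟩
  have hU2 : U₀ ⊆ G.B 2 ×ˢ (D.O ^ c₂) := by
    rw [hU₀]
    refine Set.prod_mono ?_ (Om 1 c₂ hc₂)
    rw [hV]
    exact Set.inter_subset_right
  have hUK : U₀ ⊆ closure (G.B 2) ×ˢ closure (D.O ^ 1) := by
    rw [hU₀]
    refine Set.prod_mono ?_ subset_closure
    rw [hV]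
    exact Set.inter_subset_right.trans subset_closure
  have hμ : 0 < D.μ U₀ := hUo.measure_pos _ ⟨1, hU1⟩
  -- the second components
  have hp2 : ∀ i, i ≤ L → (p i : P × H).2 ∈ D.O ^ (c₁ * i) := by
    intro i
    induction i with
    | zero =>
      intro _
      rw [hp0]
      exact O1 _
    | succ i ih =>
      intro hi
      rw [hps i (by omega), Nat.mul_succ]
      exact Omul (ih (by omega)) (hggw i (by omega)).2
  have hq2 : ∀ z ∈ U₀, ∀ i, i ≤ L → (z⁻¹ * (p i : P × H) * z).2 ∈ D.O ^ cc := by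
    intro z hz i hi
    rw [hU₀] at hz
    have h1 := Omul (Omul (Oi 1 _ hz.2) (hp2 i hi)) hz.2
    refine Om _ _ ?_ h1
    have : c₁ * i ≤ c₁ * L := Nat.mul_le_mul_left _ hi
    omega
  have hgz : ∀ z ∈ U₀, ∀ i, i < L → z⁻¹ * (gg i : P × H) * z ∈ G.B 7 ×ˢ (D.O ^ c₃) := by
    intro z hz i hi
    have h5 := hggw i hi
    have hz2 : z.1 ∈ G.B 5 := word_Bm hg (by norm_num) (hU2 hz).1
    rw [hU₀] at hz
    refine ⟨?_, ?_⟩
    · refine hg.bm 6 ⟨_, hg.bm 5 ⟨_, hg.bi 5 _ hz2, _, h5.1, rfl⟩, _,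
        hg.bm 5 ⟨_, hz2, _, hg.b1 5, mul_one _⟩, rfl⟩
    · refine Om _ _ hc₃ ?_
      have h1 := Omul (Omul (Oi 1 _ hz.2) h5.2) hz.2
      have e1 : 1 + c₁ + 1 = c₁ + 2 := by ring
      rw [e1] at h1
      exact h1
  -- Harnack for the first edge
  have hKu : ∀ r : ℕ, 1 ≤ r → ∀ i, i ≤ L → ∀ l, l ≤ 6 → ∀ z ∈ U₀, ∀ (x : P × H) (u : D.Γ),
      D.tk (fun s => iK (G.B 0) (1 * s * gs⁻¹)) (2 * r) (x⁻¹ * (u : P × H) * z) ≤
      CH * D.tk (iK (G.Om M (0, j i) l)) (2 * r + cc + 1)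
        (x⁻¹ * ((u * p i : D.Γ) : P × H) * z) := by
    intro r hr i hi l hl z hz x u
    have e1 : x⁻¹ * ((u * p i : D.Γ) : P × H) * z =
        (x⁻¹ * (u : P × H) * z) * (z⁻¹ * (p i : P × H) * z) := by
      rw [Subgroup.coe_mul]
      group
    rw [e1]
    refine word_hk (fun n hn h q hq => (hHarn n hn h q hq).1) _ ?_ (hq2 z hz i hi) _ (by omega) _
    intro b hb
    refine word_Om hg M _ hl ?_
    refine hg.om M _ 6 ?_
    have h1 : b * (gs * (p i : P × H).1) * ((p i : P × H).1⁻¹ * z.1⁻¹ * (p i : P × H).1 * z.1) ∈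
        G.B 9 * G.Om M (0, j i) (6 + 1) * G.B 9 := by
      refine Set.mul_mem_mul (Set.mul_mem_mul (word_Bm hg (by norm_num) hb) ?_) ?_
      · have := jo i hi
        rw [← hp] at this
        exact this
      · have hz' := hz
        rw [hU₀] at hz'
        exact word_Bm hg (by norm_num) (hVi _ hz'.1 i hi)
    have e2 : b * (gs * (z⁻¹ * (p i : P × H) * z).1) =
        b * (gs * (p i : P × H).1) * ((p i : P × H).1⁻¹ * z.1⁻¹ * (p i : P × H).1 * z.1) := by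
      rw [Prod.fst_mul, Prod.fst_mul, Prod.fst_inv]
      group
    rw [e2]
    exact h1
  -- the final constants
  obtain ⟨m, hm⟩ : ∃ m, m = cW * cm * cm * D.μ U₀ := ⟨_, rfl⟩
  have hm0 : m ≠ 0 := by
    rw [hm]
    exact mul_ne_zero (mul_ne_zero (mul_ne_zero hcW.ne' hcm.ne') hcm.ne') hμ.ne'
  have hm1 : min m 1 ≠ 0 := by
    intro h
    rcases min_eq_iff.1 h with h | h
    · exact hm0 h.1
    · exact one_ne_zero h.1
  have hm2 : min m 1 ≠ ∞ := (lt_of_le_of_lt (min_le_right _ _) ENNReal.one_lt_top).ne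
  obtain ⟨X, hX⟩ : ∃ X, X = (L : ℝ≥0∞) * (CH * CN * C₁ + CH * CK * (CB + CT)) := ⟨_, rfl⟩
  have hXt : X ≠ ∞ := by
    rw [hX]
    exact ENNReal.mul_ne_top (ENNReal.natCast_ne_top L) (ENNReal.add_ne_top.2
      ⟨ENNReal.mul_ne_top (ENNReal.mul_ne_top hCH hCN) hC₁,
        ENNReal.mul_ne_top (ENNReal.mul_ne_top hCH hCK) (ENNReal.add_ne_top.2 ⟨hCB, hCT⟩)⟩)
  refine ⟨X / min m 1, b₁ + b₂ + c₀' + c₀T + cc + 1, ENNReal.div_ne_top hXt hm1, ?_⟩
  intro r hr φ β hodd hBB F₀ hF₀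
  obtain ⟨E, hE⟩ : ∃ E, E = D.EE ka r φ := ⟨_, rfl⟩
  rw [← hE]
  have hr1 : 1 ≤ r := by omega
  have hRG1 : RG r c₀' (2 * r + cc + 1) := ⟨by omega, by omega⟩
  have hRG2 : RG r c₀' (2 * r) := ⟨by omega, by omega⟩
  have hRG3 : RG r 0 (2 * r + cc + 1) := ⟨by omega, by omega⟩
  have hRG4 : RG r 0 (2 * r) := ⟨by omega, by omega⟩
  have hRG5 : RG r c₀T (2 * r + cc + 1) := ⟨by omega, by omega⟩
  have hRG6 : RG r c₀T (2 * r) := ⟨by omega, by omega⟩
  obtain ⟨Ku, hKue⟩ : ∃ Ku, Ku = D.tk (fun s => iK (G.B 0) (1 * s * gs⁻¹)) (2 * r) := ⟨_, rfl⟩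
  have hKu' : ∀ i, i ≤ L → ∀ l, l ≤ 6 → ∀ z ∈ U₀, ∀ (x : P × H) (u : D.Γ),
      Ku (x⁻¹ * (u : P × H) * z) ≤ CH * D.tk (iK (G.Om M (0, j i) l)) (2 * r + cc + 1)
        (x⁻¹ * ((u * p i : D.Γ) : P × H) * z) := by
    intro i hi l hl z hz x u
    rw [hKue]
    exact hKu r hr1 i hi l hl z hz x u
  have hKum : Measurable Ku := by
    rw [hKue]
    refine word_tkm νm ?_ _
    exact (word_iKm (hg.bo 0).measurableSet).comp (by fun_prop)
  have hm6 : ∀ a n, Measurable (D.tk (iK (G.Om M a 6)) n) := fun a n =>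
    word_tkm νm (word_iKm (hg.oo M a 6).measurableSet) n
  have hstm : ∀ f : D.Γ → D.Γ → D.Γ → ℝ≥0∞, Measurable fun q : (P × H) × (P × H) =>
      D.st3 Ku (D.tk (iK (G.Om M (2, 0) 6)) (2 * r)) (D.tk (iK (G.Om M (3, 8) 6)) (2 * r))
        q.1 q.2 f := fun f => (hst D hd).2.1 _ _ _ hKum (hm6 _ _) (hm6 _ _) f
  -- step 1
  have hs1 : ∀ i, i < L → word_A D U₀ Ku (D.tk (iK (G.Om M (2, 0) 6)) (2 * r))
      (D.tk (iK (G.Om M (3, 8) 6)) (2 * r))
      (fun u v v' => ab (Dv φ (if e i then v' else v) ((u * p i) * gg i) (u * p i) -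
        F₀ (gg i))) ≤ CH * CN * C₁ * (E + β) := by
    intro i hi
    refine (word_s1 hg hUm hU2 hCH hCN hF₀ (p i) (gg i) (hggw i hi)
      (fun z hz => hgz z hz i hi) (e i) (j i) (hev i hi) hRG1 hRG2 (hKu' i hi.le 6 le_rfl)
      (fun x z => (hN x z).2.2 _ 6 _ (by norm_num))
      (fun x z => (hN x z).2.2 _ 6 _ (by norm_num))).trans ?_
    rw [← hE, ← mul_assoc]
    exact mul_le_mul' le_rfl le_self_add
  -- step 2
  have hs2 : ∀ i, i < L → word_A D U₀ Ku (D.tk (iK (G.Om M (2, 0) 6)) (2 * r))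
      (D.tk (iK (G.Om M (3, 8) 6)) (2 * r))
      (fun u v v' => if e (i + 1) = e i then 0 else ab (dl φ (u * p (i + 1)) v v')) ≤
      CH * CK * (CB + CT) * (E + β) := by
    intro i hi
    by_cases h : e (i + 1) = e i
    · simp only [h, if_true]
      unfold word_A Dat.IM Dat.st3
      simp only [mul_zero, tsum_zero, lintegral_zero]
      exact zero_le
    · simp only [h, if_false]
      rw [mul_assoc (CH * CK)]
      have hT3 : ∀ l, l ≤ 6 → ∀ a b c : Ty, ∀ n₁ n₂ n₃,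
          D.T3 (D.tk (iK (G.Om M a 6)) n₁) (D.tk (iK (G.Om M b 6)) n₂)
            (D.tk (iK (G.Om M c 6)) n₃) (fun u v w => ab (dl φ u v w)) ≤
          D.T3 (D.tk (iK (G.Om M a l)) n₁) (D.tk (iK (G.Om M b l)) n₂)
            (D.tk (iK (G.Om M c l)) n₃) (fun u v w => ab (dl φ u v w)) := by
        intro l hl a b c n₁ n₂ n₃
        have h6 : ∀ a s, iK (G.Om M a 6) s ≤ iK (G.Om M a l) s := fun a s =>
          word_iKle (word_Om hg M a hl) s
        exact word_IMmono fun x => word_IMmono fun y =>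
          word_mono (word_tkle (h6 _) _) (word_tkle (h6 _) _) (word_tkle (h6 _) _)
            fun _ _ _ => le_rfl
      have hmain : D.T3 (D.tk (iK (G.Om M (0, j (i + 1)) 6)) (2 * r + cc + 1))
          (D.tk (iK (G.Om M (2, 0) 6)) (2 * r)) (D.tk (iK (G.Om M (3, 8) 6)) (2 * r))
          (fun u v w => ab (dl φ u v w)) ≤ (CB + CT) * (E + β) := by
        rcases hch i hi h with h4 | h12
        · rw [h4]
          refine (hT3 2 (by norm_num) _ _ _ _ _ _).trans ?_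
          refine (hB r φ hodd _ _ _ hdec.2.2.2.2.2.2.2.2.1 _ _ _ hRG3 hRG4 hRG4).trans ?_
          rw [← hE]
          exact mul_le_mul' le_self_add le_self_add
        · rw [h12]
          refine (hT3 3 (by norm_num) _ _ _ _ _ _).trans ?_
          refine (hT r φ β (by omega) hodd hBB _ _ _ hRG5 hRG6 hRG6).trans ?_
          rw [← hE]
          exact mul_le_mul' le_add_self le_rfl
      refine (word_s2 hd hst hUm hUK hCH hK (hm6 _ _) (hm6 _ _) (hm6 _ _) (p (i + 1))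
        (hKu' (i + 1) (by omega) 6 le_rfl)).trans ?_
      exact mul_le_mul' le_rfl hmain
  -- the sum
  have hfin : m * ab ((w.map F₀).sum) ≤ X * (E + β) := by
    rw [hsum]
    calc m * ab (∑ i ∈ Finset.range L, F₀ (gg i)) ≤
          word_A D U₀ Ku (D.tk (iK (G.Om M (2, 0) 6)) (2 * r))
            (D.tk (iK (G.Om M (3, 8) 6)) (2 * r))
            (fun _ _ _ => ab (∑ i ∈ Finset.range L, F₀ (gg i))) := by
          rw [hm]
          refine word_A_const hd.χm hd.mass (fun x z => ?_) (fun x z => ?_) (fun x z => ?_) _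
          · rw [hKue]
            exact hW (2 * r) (by omega) 1 gs⁻¹ x z
          · exact (hN x z).1 _ 6 _ (by norm_num) (by omega)
          · exact (hN x z).1 _ 6 _ (by norm_num) (by omega)
      _ ≤ word_A D U₀ Ku (D.tk (iK (G.Om M (2, 0) 6)) (2 * r))
            (D.tk (iK (G.Om M (3, 8) 6)) (2 * r))
            (fun u v v' => ∑ i ∈ Finset.range L,
              (ab (Dv φ (if e i then v' else v) ((u * p i) * gg i) (u * p i) - F₀ (gg i)) +
                if e (i + 1) = e i then 0 else ab (dl φ (u * p (i + 1)) v v'))) :=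
          word_A_mono fun u v v' => word_pt φ hodd L gg p hp0 hpL hps e heL F₀ u v v'
      _ = ∑ i ∈ Finset.range L, word_A D U₀ Ku (D.tk (iK (G.Om M (2, 0) 6)) (2 * r))
            (D.tk (iK (G.Om M (3, 8) 6)) (2 * r))
            (fun u v v' =>
              (ab (Dv φ (if e i then v' else v) ((u * p i) * gg i) (u * p i) - F₀ (gg i)) +
                if e (i + 1) = e i then 0 else ab (dl φ (u * p (i + 1)) v v'))) :=
          word_A_sum hd.χm U₀ _ _ _ hstm L (fun i u v v' =>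
              (ab (Dv φ (if e i then v' else v) ((u * p i) * gg i) (u * p i) - F₀ (gg i)) +
                if e (i + 1) = e i then 0 else ab (dl φ (u * p (i + 1)) v v')))
      _ ≤ ∑ i ∈ Finset.range L, (CH * CN * C₁ * (E + β) + CH * CK * (CB + CT) * (E + β)) := by
          refine Finset.sum_le_sum fun i hi => ?_
          rw [Finset.mem_range] at hi
          rw [word_A_add hd.χm U₀ _ _ _ hstm
            (fun u v v' => ab (Dv φ (if e i then v' else v) ((u * p i) * gg i) (u * p i) -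
              F₀ (gg i)))
            (fun u v v' => if e (i + 1) = e i then 0 else ab (dl φ (u * p (i + 1)) v v'))]
          exact add_le_add (hs1 i hi) (hs2 i hi)
      _ = X * (E + β) := by
          rw [Finset.sum_const, Finset.card_range, nsmul_eq_mul, ← add_mul, ← mul_assoc, hX]
  have h2 : ab ((w.map F₀).sum) * min m 1 ≤ X * (E + β) := by
    rw [mul_comm]
    exact (mul_le_mul' (min_le_left _ _) le_rfl).trans hfin
  have h3 := (ENNReal.le_div_iff_mul_le (Or.inl hm1) (Or.inl hm2)).2 h2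
  refine h3.trans (le_of_eq ?_)
  rw [ENNReal.div_eq_inv_mul, ENNReal.div_eq_inv_mul, mul_assoc]

end

variable (P H : Type) [Group P] [Group H] [TopologicalSpace P] [TopologicalSpace H]
  [IsTopologicalGroup P] [IsTopologicalGroup H] [LocallyCompactSpace P] [LocallyCompactSpace H]
  [T2Space P] [T2Space H] [SecondCountableTopology P] [SecondCountableTopology H]
  [MeasurableSpace P] [MeasurableSpace H] [BorelSpace P] [BorelSpace H]

theorem tword : S_dec → S_inst P H → S_O P H → S_nu P H → S_st P H → S_near P H → S_Harn P H →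
    S_Up P H → S_Lo P H → S_bd P H → S_base P H → S_Th P H → S_word P H := by
  intro hdec hinst hO hnu hst hnear hH _ hLo hbd hbase hTh D G hd hg c₁ c₂ c₃ hc₂ hc₃ R hR
  classical
  obtain ⟨π, hπ⟩ : ∃ π : D.Γ →* P, ∀ g, π g = (g : P × H).1 :=
    ⟨(MonoidHom.fst P H).comp D.Γ.subtype, fun _ => rfl⟩
  obtain ⟨M₀, hM₀⟩ := hg.wd (R.image fun w => w.map π) (by
    intro w' hw'
    rw [Finset.mem_image] at hw'
    obtain ⟨w, hw, rfl⟩ := hw'
    refine ⟨?_, ?_⟩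
    · rw [← map_list_prod, (hR w hw).1, map_one]
    · intro g hg'
      rw [List.mem_map] at hg'
      obtain ⟨g', hg'', rfl⟩ := hg'
      rw [hπ]
      exact word_Bm hg (by norm_num) ((hR w hw).2 g' hg'').1)
  refine ⟨M₀, fun M hM ka kb cx C₁ c₀' hC₁ => ?_⟩
  obtain ⟨gs, hgs⟩ := hM₀ M hM
  have hone : ∀ w : List D.Γ, w ∈ R → ∃ (C : ℝ≥0∞) (r₀ : ℕ), C ≠ ∞ ∧ ∀ r, r₀ ≤ r →
        ∀ (φ : D.Γ → ℝ) (β : ℝ≥0∞), OddC φ → BB D kb r φ β →
        ∀ F₀ : D.Γ → ℝ, F0ok D G M ka c₁ c₂ c₃ C₁ c₀' r φ F₀ →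
          ab ((w.map F₀).sum) ≤ C * (D.EE ka r φ + β) := by
    intro w hw
    obtain ⟨j, -, jL, jn, jo⟩ := hgs (w.map π) (Finset.mem_image_of_mem _ hw)
    rw [List.length_map] at jL jn jo
    refine word_one hdec hinst hO hnu hst hnear hH hLo hbd hbase hTh D G c₁ c₂ c₃ hc₂ hc₃ w
      (hR w hw).1 (hR w hw).2 M ka kb cx gs j jL jn ?_ C₁ c₀' hC₁
    intro i hi
    have := jo i hi
    rw [← List.map_take, ← map_list_prod, hπ] at this
    exact this
  choose! C r₀ hCr using hone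
  refine ⟨∑ w ∈ R, C w, ∑ w ∈ R, r₀ w, ?_, ?_⟩
  · exact (ENNReal.sum_lt_top.2 fun w hw => lt_top_iff_ne_top.2 (hCr w hw).1).ne
  · intro r hr φ β hodd hBB F₀ hF₀ w hw
    have h1 : r₀ w ≤ r := (Finset.single_le_sum (fun _ _ => Nat.zero_le _) hw).trans hr
    refine ((hCr w hw).2 r h1 φ β hodd hBB F₀ hF₀).trans (mul_le_mul' ?_ le_rfl)
    exact Finset.single_le_sum (f := C) (fun _ _ => zero_le) hw

end Pool.Agent.MPEF
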